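import Pool.Agent.Lib.MP_87c685_nt_SD.Quad

/-!
# The biquadratic field

An imaginary quadratic field `K` is embedded in the biquadratic field `L = K(√5)`, a quadratic
extension of `F = ℚ(√5)`.
-/

set_option autoImplicit false

namespace SD87

open QuadraticAlgebra

section gen

variable {F : Type} [Field F] (n : F) [hn : Fact (∀ r : F, r ^ 2 ≠ n + 0 * r)]

/-- The quadratic extension `F(√n)`. -/
noncomputable def qfOf : QF F (QuadraticAlgebra F n 0) where
  s := ⟨0, 1⟩
  n := n
  hs := by
    rw [pow_two]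
    ext <;> simp
  irr q h := by
    have h1 := congrArg QuadraticAlgebra.im h
    simp at h1
  basis x := ⟨x.re, x.im, by ext <;> simp⟩

theorem qfOf_sig (x : QuadraticAlgebra F n 0) : (qfOf n).sig x = ⟨x.re, -x.im⟩ := by
  have h : x = algebraMap F (QuadraticAlgebra F n 0) x.re +
      algebraMap F (QuadraticAlgebra F n 0) x.im * (qfOf n).s := by
    ext <;> simp [qfOf]
  rw [QF.sig_def, (qfOf n).re_eq h, (qfOf n).im_eq h]
  ext <;> simp [qfOf]

theorem charZero_of [CharZero F] : CharZero (QuadraticAlgebra F n 0) :=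
  charZero_of_injective_algebraMap (algebraMap F (QuadraticAlgebra F n 0)).injective

end gen

theorem five_not_sq (r : ℚ) : r ^ 2 ≠ 5 := by
  intro h
  have h1 : Irrational (Real.sqrt 5) := Nat.Prime.irrational_sqrt (by norm_num)
  have h2 : IsSquare (5 : ℚ) := ⟨r, by rw [← h]; ring⟩
  rw [show (5 : ℚ) = ((5 : ℤ) : ℚ) by norm_num, Rat.isSquare_intCast_iff] at h2
  obtain ⟨m, hm⟩ := h2
  have h3 : |m| ≤ 3 := by
    rw [abs_le]
    constructor <;> nlinarith
  rw [abs_le] at h3
  obtain ⟨h4, h5⟩ := h3
  interval_cases m <;> omega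

instance factFive : Fact (∀ r : ℚ, r ^ 2 ≠ (5 : ℚ) + 0 * r) :=
  ⟨fun r h => five_not_sq r (by rw [h]; ring)⟩

/-- The real quadratic field `ℚ(√5)`. -/
abbrev F5 : Type := QuadraticAlgebra ℚ (5 : ℚ) 0

theorem factN (n : ℚ) (hn : n < 0) :
    Fact (∀ r : F5, r ^ 2 ≠ algebraMap ℚ F5 n + 0 * r) := by
  refine ⟨fun r h => ?_⟩
  rw [zero_mul, add_zero, pow_two] at h
  have h1 := congrArg QuadraticAlgebra.re h
  have h2 : (algebraMap ℚ F5 n).re = n := rfl
  rw [h2] at h1
  simp only [re_mul] at h1
  nlinarith [mul_self_nonneg r.re, mul_self_nonneg r.im]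

/-- The biquadratic field with its automorphisms. -/
theorem exists_biquad {K : Type*} [Field K] [Algebra ℚ K] (Q : QF ℚ K) (hn : Q.n < 0) :
    ∃ (F L : Type) (_ : Field F) (_ : CharZero F) (_ : Algebra ℚ F) (_ : Field L)
      (_ : CharZero L) (_ : Algebra F L) (P : QF ℚ F) (Q' : QF F L) (τ : L →+* L)
      (ι : K →+* L) (r : L), P.n = 5 ∧
      (∀ x : F, τ (algebraMap F L x) = algebraMap F L (P.sig x)) ∧
      (∀ x : L, τ (Q'.sig x) = Q'.sig (τ x)) ∧ (∀ x : L, τ (τ x) = x) ∧
      (∀ x : K, τ (ι x) = ι x) ∧ (∀ x : K, Q'.sig (ι x) = ι (Q.sig x)) ∧ r ^ 2 = 5 ∧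
      τ r = -r := by
  have := factN Q.n hn
  have c1 : CharZero F5 := charZero_of (5 : ℚ)
  have c2 : CharZero (QuadraticAlgebra F5 (algebraMap ℚ F5 Q.n) 0) :=
    charZero_of (algebraMap ℚ F5 Q.n)
  let P : QF ℚ F5 := qfOf (5 : ℚ)
  let Q' : QF F5 (QuadraticAlgebra F5 (algebraMap ℚ F5 Q.n) 0) := qfOf (algebraMap ℚ F5 Q.n)
  let τ : QuadraticAlgebra F5 (algebraMap ℚ F5 Q.n) 0 →+*
      QuadraticAlgebra F5 (algebraMap ℚ F5 Q.n) 0 :=
    { toFun := fun x => ⟨P.sig x.re, P.sig x.im⟩
      map_one' := by
        ext1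
        · change P.sig 1 = 1
          rw [map_one]
        · change P.sig 0 = 0
          rw [map_zero]
      map_zero' := by
        ext1
        · change P.sig 0 = 0
          rw [map_zero]
        · change P.sig 0 = 0
          rw [map_zero]
      map_mul' := fun x y => by
        ext1
        · simp only [re_mul, map_add, map_mul, P.sig_base]
        · simp only [im_mul, map_add, map_mul, map_zero]
      map_add' := fun x y => by
        ext1
        · simp only [re_add, map_add]
        · simp only [im_add, map_add] }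
  let ι : K →+* QuadraticAlgebra F5 (algebraMap ℚ F5 Q.n) 0 :=
    { toFun := fun x => ⟨algebraMap ℚ F5 (Q.re x), algebraMap ℚ F5 (Q.im x)⟩
      map_one' := by
        have h : (1 : K) = algebraMap ℚ K 1 + algebraMap ℚ K 0 * Q.s := by
          rw [map_one, map_zero]; ring
        rw [Q.re_eq h, Q.im_eq h, map_one, map_zero]
        rfl
      map_zero' := by
        have h : (0 : K) = algebraMap ℚ K 0 + algebraMap ℚ K 0 * Q.s := by
          rw [map_zero]; ring
        rw [Q.re_eq h, Q.im_eq h, map_zero]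
        rfl
      map_mul' := fun x y => by
        have hx := Q.re_add_im x
        have hy := Q.re_add_im y
        have h : x * y = algebraMap ℚ K (Q.re x * Q.re y + Q.n * Q.im x * Q.im y) +
            algebraMap ℚ K (Q.re x * Q.im y + Q.im x * Q.re y) * Q.s := by
          simp only [map_add, map_mul]
          linear_combination x * hy + (algebraMap ℚ K (Q.re y) +
            algebraMap ℚ K (Q.im y) * Q.s) * hx +
            algebraMap ℚ K (Q.im x) * algebraMap ℚ K (Q.im y) * Q.hs
        rw [Q.re_eq h, Q.im_eq h]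
        ext1
        · simp only [re_mul, map_add, map_mul]
        · simp only [im_mul, map_add, map_mul]
          ring
      map_add' := fun x y => by
        have hx := Q.re_add_im x
        have hy := Q.re_add_im y
        have h : x + y = algebraMap ℚ K (Q.re x + Q.re y) +
            algebraMap ℚ K (Q.im x + Q.im y) * Q.s := by
          simp only [map_add]
          linear_combination hx + hy
        rw [Q.re_eq h, Q.im_eq h]
        ext1
        · simp only [re_add, map_add]
        · simp only [im_add, map_add] }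
  have hτ : ∀ x, τ x = ⟨P.sig x.re, P.sig x.im⟩ := fun _ => rfl
  have hι : ∀ x, ι x = ⟨algebraMap ℚ F5 (Q.re x), algebraMap ℚ F5 (Q.im x)⟩ := fun _ => rfl
  refine ⟨F5, QuadraticAlgebra F5 (algebraMap ℚ F5 Q.n) 0, inferInstance, c1, inferInstance,
    inferInstance, c2, inferInstance, P, Q', τ, ι, ⟨P.s, 0⟩, rfl, ?_, ?_, ?_, ?_, ?_, ?_, ?_⟩
  · intro x
    rw [hτ]
    ext1
    · simp only [algebraMap_re]
    · simp only [algebraMap_im, map_zero]
  · intro x
    rw [hτ, qfOf_sig, qfOf_sig]
    ext1
    · rfl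
    · change P.sig (-x.im) = -P.sig x.im
      rw [map_neg]
  · intro x
    rw [hτ, hτ]
    ext1
    · change P.sig (P.sig x.re) = x.re
      exact P.sig_sig _
    · change P.sig (P.sig x.im) = x.im
      exact P.sig_sig _
  · intro x
    rw [hτ, hι]
    ext1
    · exact P.sig_base _
    · exact P.sig_base _
  · intro x
    have h : Q.sig x = algebraMap ℚ K (Q.re x) + algebraMap ℚ K (-Q.im x) * Q.s := by
      rw [QF.sig_def, map_neg]
      ring
    rw [qfOf_sig, hι, hι, Q.re_eq h, Q.im_eq h, map_neg]
  · have h := P.hs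
    rw [pow_two]
    rw [pow_two] at h
    ext1
    · simp only [re_mul]
      rw [h]
      change algebraMap ℚ F5 5 + _ = 5
      rw [map_ofNat]
      ring
    · simp only [im_mul]
      change _ = (0 : F5)
      ring
  · rw [hτ]
    ext1
    · exact P.sig_s
    · change P.sig 0 = -0
      rw [map_zero, neg_zero]

end SD87
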