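import Pool.Agent.Lib.MP_87c685_nt_SD.E50tA

/-!
# The twist by five
-/

set_option autoImplicit false

namespace SD87

/-- Integral solutions of the equation of the twist. -/
private def Sol (r s e ρ : ℤ) : Prop :=
  0 < e ∧ IsCoprime r e ∧ ρ = 3 * r + 40 * e ^ 2 ∧
    27 * s ^ 2 + 25 * e ^ 2 * (3 * ρ - 160 * e ^ 2) ^ 2 = 4 * ρ ^ 3

private theorem exists_sol (X Y : ℚ)
    (h : Y ^ 2 = 4 * X ^ 3 + 85 * X ^ 2 + 2800 * X + 8000) :
    ∃ r s e ρ : ℤ, Sol r s e ρ ∧ X = r / e ^ 2 := by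
  obtain ⟨r, v, e, he, hc, hX, hv⟩ := den (-1) 21 0 700 2000 X ((Y + X) / 2) (by
    push_cast
    linear_combination h / 4)
  have heq : (e : ℚ) ≠ 0 := by exact_mod_cast he.ne'
  refine ⟨r, 2 * v - r * e, e, 3 * r + 40 * e ^ 2, ⟨he, hc, rfl, ?_⟩, hX⟩
  have hY : Y = (2 * v - r * e) / e ^ 3 := by
    have h0 : Y = 2 * ((Y + X) / 2) - X := by ring
    rw [h0, hv, hX]
    field_simp
  rw [hY, hX] at h
  have h2 : ((2 * v - r * e : ℚ)) ^ 2 =
      4 * r ^ 3 + 85 * r ^ 2 * e ^ 2 + 2800 * r * e ^ 4 + 8000 * e ^ 6 := by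
    field_simp at h
    linear_combination h
  have h3 : (2 * v - r * e) ^ 2 =
      4 * r ^ 3 + 85 * r ^ 2 * e ^ 2 + 2800 * r * e ^ 4 + 8000 * e ^ 6 := by exact_mod_cast h2
  linear_combination 27 * h3

private theorem lower {r s e ρ : ℤ} (h : Sol r s e ρ) : 30 * e ^ 2 ≤ ρ := by
  obtain ⟨he, -, -, h⟩ := h
  by_contra hlt
  push Not at hlt
  have he2 : 0 < e ^ 2 := by positivity
  have h1 : ρ ^ 3 < (30 * e ^ 2) ^ 3 := by
    exact Odd.strictMono_pow (by decide) hlt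
  have h2 : (70 * e ^ 2) ^ 2 < (3 * ρ - 160 * e ^ 2) ^ 2 := by
    nlinarith
  have h3 : 25 * e ^ 2 * (70 * e ^ 2) ^ 2 < 25 * e ^ 2 * (3 * ρ - 160 * e ^ 2) ^ 2 := by
    apply mul_lt_mul_of_pos_left h2
    positivity
  nlinarith [sq_nonneg s, pow_pos he2 3]

/-- `5` does not divide the numerator of the half point. -/
private theorem not_five {e a' b r' e' : ℤ} (he : 0 < e) (hb : ¬ (5 : ℤ) ∣ b)
    (hc : IsCoprime r' e')
    (h1 : 9 * b ^ 2 * (a' + e) = 5 * (5 * a' ^ 3 - 15 * e * a' ^ 2 + 128 * e ^ 3))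
    (h2 : r' * (a' + e) = 15 * e * e' ^ 2) : ¬ (5 : ℤ) ∣ r' := by
  rintro ⟨q, rfl⟩
  have hp : Prime (5 : ℤ) := by norm_num
  have he' : ¬ (5 : ℤ) ∣ e' := by
    intro h
    have := hc.isUnit_of_dvd' (dvd_mul_right 5 q) h
    exact hp.not_isUnit this
  have h3 : q * (a' + e) = 3 * e * e' ^ 2 := by
    have h4 : (5 : ℤ) * (q * (a' + e)) = 5 * (3 * e * e' ^ 2) := by linear_combination h2
    exact mul_left_cancel₀ (by norm_num) h4
  have key : ∀ k : ℕ, (5 : ℤ) ^ k ∣ e ∧ (5 : ℤ) ^ k ∣ a' + e := by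
    intro k
    induction k with
    | zero => simp
    | succ k ih =>
      obtain ⟨⟨m, hm⟩, ⟨n, hn⟩⟩ := ih
      have ha : a' = 5 ^ k * (n - m) := by
        rw [mul_sub, ← hn, ← hm]
        ring
      have hd : (5 : ℤ) ^ (k + 1) ∣ 9 * b ^ 2 * (a' + e) := by
        rw [h1]
        refine ⟨5 ^ (2 * k) * (5 * (n - m) ^ 3 - 15 * m * (n - m) ^ 2 + 128 * m ^ 3), ?_⟩
        rw [ha, hm]
        ring
      have hcop : IsCoprime ((5 : ℤ) ^ (k + 1)) (9 * b ^ 2) := by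
        apply IsCoprime.pow_left
        apply IsCoprime.mul_right
        · exact (Int.isCoprime_iff_gcd_eq_one).mpr (by decide)
        · exact ((Prime.coprime_iff_not_dvd hp).mpr hb).pow_right
      have hA : (5 : ℤ) ^ (k + 1) ∣ a' + e := hcop.dvd_of_dvd_mul_left hd
      refine ⟨?_, hA⟩
      have hB : (5 : ℤ) ^ (k + 1) ∣ (3 * e' ^ 2) * e := by
        have h5 : (3 * e' ^ 2) * e = q * (a' + e) := by rw [h3]; ring
        rw [h5]
        exact Dvd.dvd.mul_left hA q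
      have hcop2 : IsCoprime ((5 : ℤ) ^ (k + 1)) (3 * e' ^ 2) := by
        apply IsCoprime.pow_left
        apply IsCoprime.mul_right
        · exact (Int.isCoprime_iff_gcd_eq_one).mpr (by decide)
        · exact ((Prime.coprime_iff_not_dvd hp).mpr he').pow_right
      exact hcop2.dvd_of_dvd_mul_left hB
  have hle := Int.le_of_dvd he (key e.toNat).1
  have hlt : e.toNat < 5 ^ e.toNat := Nat.lt_pow_self (by norm_num)
  have h6 : (e.toNat : ℤ) = e := Int.toNat_of_nonneg he.le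
  have h7 : (e.toNat : ℤ) < 5 ^ e.toNat := by exact_mod_cast hlt
  omega

private theorem step {r s e ρ : ℤ} (h : Sol r s e ρ) :
    ∃ r₁ s₁ e₁ ρ₁ : ℤ, Sol r₁ s₁ e₁ ρ₁ ∧ ρ₁ < ρ := by
  have hlow := lower h
  obtain ⟨he, hc, hρ, hS⟩ := h
  obtain ⟨h10, a, b, hab, ⟨a', ha'⟩, h3⟩ := half3 r s e ρ he hc hρ hS
  have hp : Prime (5 : ℤ) := by norm_num
  have hb5 : ¬ (5 : ℤ) ∣ b := by
    rintro ⟨c, hc'⟩
    have h5 : (5 : ℤ) ∣ 4 * ρ := by
      rw [hab, ha', hc']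
      exact ⟨5 * a' ^ 2 + 15 * c ^ 2, by ring⟩
    have h6 : (5 : ℤ) ∣ ρ := by
      rcases hp.dvd_or_dvd h5 with h7 | h7
      · exact absurd h7 (by decide)
      · exact h7
    exact hp.not_isUnit (h10.isUnit_of_dvd' h6 ⟨2, by norm_num⟩)
  have ha5 : a + 5 * e ≠ 0 := by
    intro h0
    have ha : a = -5 * e := by linarith
    rw [h0, ha] at h3
    have : 0 < e ^ 3 := by positivity
    nlinarith
  -- the half point
  have haQ : ((a : ℚ) + 5 * e) ≠ 0 := by exact_mod_cast ha5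
  have h3Q : 9 * (b : ℚ) ^ 2 * (a + 5 * e) = a ^ 3 - 15 * e * a ^ 2 + 3200 * e ^ 3 := by
    exact_mod_cast h3
  have hpt : (75 * (b : ℚ) / (a + 5 * e)) ^ 2 =
      4 * (75 * (e : ℚ) / (a + 5 * e)) ^ 3 + 25 * (75 * (e : ℚ) / (a + 5 * e) - 5) ^ 2 := by
    field_simp
    linear_combination 625 * h3Q
  obtain ⟨r', v', e', he', hc', hx', hv'⟩ := den (-1) 6 (-1) (-63) 156
    (75 * (e : ℚ) / (a + 5 * e))
    ((75 * (b : ℚ) / (a + 5 * e) + 75 * (e : ℚ) / (a + 5 * e) + 1) / 2) (by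
      push_cast
      linear_combination hpt / 4)
  have he'Q : (e' : ℚ) ≠ 0 := by exact_mod_cast he'.ne'
  have hrel : r' * (a + 5 * e) = 75 * e * e' ^ 2 := by
    have h1 : (r' : ℚ) * (a + 5 * e) = 75 * e * e' ^ 2 := by
      rw [div_eq_div_iff haQ (pow_ne_zero 2 he'Q)] at hx'
      linear_combination -hx'
    exact_mod_cast h1
  have hnot : ¬ (5 : ℤ) ∣ r' := by
    refine not_five (e := e) (a' := a') (b := b) (e' := e') he hb5 hc' ?_ ?_
    · have h1 : (5 : ℤ) * (9 * b ^ 2 * (a' + e)) =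
          5 * (5 * (5 * a' ^ 3 - 15 * e * a' ^ 2 + 128 * e ^ 3)) := by
        rw [ha'] at h3
        linear_combination h3
      exact mul_left_cancel₀ (by norm_num) h1
    · have h1 : (5 : ℤ) * (r' * (a' + e)) = 5 * (15 * e * e' ^ 2) := by
        rw [ha'] at hrel
        linear_combination hrel
      exact mul_left_cancel₀ (by norm_num) h1
  have hs' : (2 * v' - r' * e' - e' ^ 3) ^ 2 = 4 * r' ^ 3 + 25 * e' ^ 2 * (r' - 5 * e' ^ 2) ^ 2 := by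
    have hy : 75 * (b : ℚ) / (a + 5 * e) = (2 * v' - r' * e' - e' ^ 3) / e' ^ 3 := by
      have h0 : 75 * (b : ℚ) / (a + 5 * e) =
          2 * ((75 * (b : ℚ) / (a + 5 * e) + 75 * (e : ℚ) / (a + 5 * e) + 1) / 2)
            - 75 * (e : ℚ) / (a + 5 * e) - 1 := by ring
      rw [h0, hv', hx']
      field_simp
    rw [hy, hx'] at hpt
    have h1 : (2 * (v' : ℚ) - r' * e' - e' ^ 3) ^ 2 =
        4 * r' ^ 3 + 25 * e' ^ 2 * (r' - 5 * e' ^ 2) ^ 2 := by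
      field_simp at hpt
      linear_combination hpt
    exact_mod_cast h1
  obtain ⟨α, β, hαβ, hcub⟩ := half1 r' _ e' he' hc' hnot hs'
  -- back to the first curve
  set d : ℤ := β - α with hd
  have hD : 5 * e' - 3 * d ≠ 0 := by
    intro h0
    have h1 : α * β * (5 * e' - 3 * d) = d ^ 3 + 25 * e' ^ 3 := by
      rw [hd]
      linear_combination -hcub
    rw [h0] at h1
    have h2 : 27 * d ^ 3 = 125 * e' ^ 3 := by
      have h4 : 3 * d = 5 * e' := by linarith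
      calc 27 * d ^ 3 = (3 * d) ^ 3 := by ring
        _ = 125 * e' ^ 3 := by rw [h4]; ring
    have h5 : 0 < e' ^ 3 := by positivity
    linarith
  have hDQ : (5 * (e' : ℚ) - 3 * d) ≠ 0 := by exact_mod_cast hD
  have hcubQ : ((α : ℚ) + β) ^ 2 * (5 * e' - 3 * d) = d ^ 3 + 5 * e' * d ^ 2 + 100 * e' ^ 3 := by
    have h1 : (α + β) ^ 2 * (5 * e' - 3 * d) = d ^ 3 + 5 * e' * d ^ 2 + 100 * e' ^ 3 := by
      rw [hd]
      linear_combination -4 * hcub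
    exact_mod_cast h1
  obtain ⟨r₁, s₁, e₁, ρ₁, hsol, hX⟩ := exists_sol
    ((800 * (e' : ℚ) / (5 * e' - 3 * d) - 40) / 3) (800 * ((α : ℚ) + β) / (5 * e' - 3 * d)) (by
      field_simp
      linear_combination (27 * 640000) * hcubQ)
  refine ⟨r₁, s₁, e₁, ρ₁, hsol, ?_⟩
  have hlow₁ := lower hsol
  obtain ⟨he₁, hc₁, hρ₁, hS₁⟩ := hsol
  obtain ⟨h10₁, -⟩ := half3 r₁ s₁ e₁ ρ₁ he₁ hc₁ hρ₁ hS₁
  have he₁Q : (e₁ : ℚ) ≠ 0 := by exact_mod_cast he₁.ne'
  have hrel₁ : ρ₁ * (5 * e' - 3 * d) = 800 * (e₁ ^ 2 * e') := by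
    have h1 : (ρ₁ : ℚ) * (5 * e' - 3 * d) = 800 * (e₁ ^ 2 * e') := by
      have h2 : (ρ₁ : ℚ) = 3 * r₁ + 40 * e₁ ^ 2 := by exact_mod_cast hρ₁
      have h4 : 800 * (e' : ℚ) / (5 * e' - 3 * d) = 3 * (r₁ / e₁ ^ 2) + 40 := by
        rw [← hX]
        ring
      rw [div_eq_iff hDQ] at h4
      have h5 : (r₁ : ℚ) / e₁ ^ 2 * e₁ ^ 2 = r₁ := div_mul_cancel₀ _ (pow_ne_zero 2 he₁Q)
      rw [h2]
      linear_combination -(e₁ : ℚ) ^ 2 * h4 - 3 * (5 * e' - 3 * d) * h5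
    exact_mod_cast h1
  have hdvd : ρ₁ ∣ e₁ ^ 2 * e' := by
    have h1 : ρ₁ ∣ 800 * (e₁ ^ 2 * e') := ⟨_, hrel₁.symm⟩
    have h2 : IsCoprime ρ₁ 800 := by
      have h4 : IsCoprime ρ₁ (10 ^ 5) := h10₁.pow_right
      exact h4.of_isCoprime_of_dvd_right ⟨125, by norm_num⟩
    exact h2.dvd_of_dvd_mul_left h1
  have hdvd3 : ρ₁ ∣ 3 * e' := by
    obtain ⟨u, w, huw⟩ := hc₁.pow_right (n := 2)
    have h1 : 3 * e' = ρ₁ * (u * e') + (3 * w - 40 * u) * (e₁ ^ 2 * e') := by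
      rw [hρ₁]
      linear_combination -3 * e' * huw
    rw [h1]
    exact dvd_add (dvd_mul_right _ _) (Dvd.dvd.mul_left hdvd _)
  have hle : ρ₁ ≤ 3 * e' := Int.le_of_dvd (by linarith) hdvd3
  have hdvd' : e' ^ 2 ∣ a + 5 * e := by
    have h1 : e' ^ 2 ∣ r' * (a + 5 * e) := by
      rw [hrel]
      exact Dvd.dvd.mul_left (dvd_refl _) _
    exact (hc'.symm.pow_left).dvd_of_dvd_mul_left h1
  have hsq : e' ^ 4 ≤ (a + 5 * e) ^ 2 := by
    have h1 : (e' ^ 2) ^ 2 ∣ (a + 5 * e) ^ 2 := pow_dvd_pow_of_dvd hdvd' 2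
    have h2 := Int.le_of_dvd (by positivity) h1
    calc e' ^ 4 = (e' ^ 2) ^ 2 := by ring
      _ ≤ _ := h2
  have hupp : (a + 5 * e) ^ 2 < 10 * ρ := by
    nlinarith [sq_nonneg (a - 5 * e), sq_nonneg b, pow_pos he 2]
  have hρpos : 30 ≤ ρ := by nlinarith [pow_pos he 2]
  by_contra hge
  push Not at hge
  have h4 : ρ ^ 4 ≤ (3 * e') ^ 4 := pow_le_pow_left₀ (by linarith) (hge.trans hle) 4
  have h5 : ρ ^ 4 < 810 * ρ := by
    calc ρ ^ 4 ≤ (3 * e') ^ 4 := h4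
      _ = 81 * e' ^ 4 := by ring
      _ < 810 * ρ := by linarith
  have h6 : 30 ^ 3 * ρ ≤ ρ ^ 3 * ρ :=
    mul_le_mul_of_nonneg_right (pow_le_pow_left₀ (by norm_num) hρpos 3) (by linarith)
  have h7 : ρ ^ 4 = ρ ^ 3 * ρ := by ring
  linarith

private theorem no_sol (n : ℕ) : ∀ r s e ρ : ℤ, ρ < n → ¬ Sol r s e ρ := by
  induction n with
  | zero =>
    intro r s e ρ hn h
    have h1 := lower h
    have h2 : 0 ≤ e ^ 2 := sq_nonneg e
    push_cast at hn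
    linarith
  | succ n ih =>
    intro r s e ρ hn h
    obtain ⟨r₁, s₁, e₁, ρ₁, h1, h2⟩ := step h
    refine ih r₁ s₁ e₁ ρ₁ ?_ h1
    push_cast at hn
    linarith

/-- The twist of the curve by five has no affine rational point. -/
theorem E50t (x y : ℚ) : 5 * y ^ 2 ≠ 4 * x ^ 3 + 17 * x ^ 2 + 112 * x + 64 := by
  intro h
  obtain ⟨r, s, e, ρ, hsol, -⟩ := exists_sol (5 * x) (25 * y) (by linear_combination 125 * h)
  exact no_sol (ρ.toNat + 1) r s e ρ (by push_cast; have := Int.self_le_toNat ρ; linarith) hsol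

end SD87
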