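import Mathlib

/-!
# Quadratic extensions

A light interface to a quadratic extension of fields and its nontrivial automorphism, and the third
point of intersection of a cubic curve over the base field with the line through two conjugate
points.
-/

set_option autoImplicit false

namespace SD87

/-- A quadratic extension `K = F(s)`, `s ^ 2 = n`. -/
structure QF (F K : Type*) [Field F] [Field K] [Algebra F K] where
  /-- the generator -/
  s : K
  /-- its square -/
  n : F
  hs : s ^ 2 = algebraMap F K n
  irr : ∀ q : F, s ≠ algebraMap F K q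
  basis : ∀ x : K, ∃ a b : F, x = algebraMap F K a + algebraMap F K b * s

namespace QF

variable {F K : Type*} [Field F] [Field K] [Algebra F K] (Q : QF F K)


theorem unique {a b c d : F} (h : algebraMap F K a + algebraMap F K b * Q.s = algebraMap F K c + algebraMap F K d * Q.s) : a = c ∧ b = d := by
  have hbd : b = d := by
    by_contra hne
    have h1 : algebraMap F K (b - d) * Q.s = algebraMap F K (c - a) := by
      rw [map_sub, map_sub]
      linear_combination h
    have h2 : algebraMap F K (b - d) ≠ 0 := by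
      rw [Ne, map_eq_zero]
      exact sub_ne_zero.mpr hne
    refine Q.irr ((c - a) / (b - d)) ?_
    rw [map_div₀, eq_div_iff h2]
    linear_combination h1
  refine ⟨?_, hbd⟩
  subst hbd
  exact (algebraMap F K).injective (by linear_combination h)

/-- The part in the base field. -/
noncomputable def re (x : K) : F := (Q.basis x).choose

/-- The coefficient of the generator. -/
noncomputable def im (x : K) : F := (Q.basis x).choose_spec.choose

theorem re_add_im (x : K) : x = algebraMap F K (Q.re x) + algebraMap F K (Q.im x) * Q.s :=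
  (Q.basis x).choose_spec.choose_spec

theorem re_eq {x : K} {a b : F} (h : x = algebraMap F K a + algebraMap F K b * Q.s) : Q.re x = a :=
  (Q.unique ((Q.re_add_im x).symm.trans h)).1

theorem im_eq {x : K} {a b : F} (h : x = algebraMap F K a + algebraMap F K b * Q.s) : Q.im x = b :=
  (Q.unique ((Q.re_add_im x).symm.trans h)).2

/-- The nontrivial automorphism. -/
noncomputable def sig : K →+* K where
  toFun x := algebraMap F K (Q.re x) - algebraMap F K (Q.im x) * Q.s
  map_one' := by
    have h : (1 : K) = algebraMap F K 1 + algebraMap F K 0 * Q.s := by rw [map_one, map_zero]; ring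
    rw [Q.re_eq h, Q.im_eq h, map_one, map_zero]
    ring
  map_zero' := by
    have h : (0 : K) = algebraMap F K 0 + algebraMap F K 0 * Q.s := by rw [map_zero]; ring
    rw [Q.re_eq h, Q.im_eq h, map_zero]
    ring
  map_mul' x y := by
    have hx := Q.re_add_im x
    have hy := Q.re_add_im y
    have h : x * y = algebraMap F K (Q.re x * Q.re y + Q.n * Q.im x * Q.im y) +
        algebraMap F K (Q.re x * Q.im y + Q.im x * Q.re y) * Q.s := by
      simp only [map_add, map_mul]
      linear_combination x * hy + (algebraMap F K (Q.re y) + algebraMap F K (Q.im y) * Q.s) * hx +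
        algebraMap F K (Q.im x) * algebraMap F K (Q.im y) * Q.hs
    change algebraMap F K (Q.re (x * y)) - algebraMap F K (Q.im (x * y)) * Q.s =
      (algebraMap F K (Q.re x) - algebraMap F K (Q.im x) * Q.s) * (algebraMap F K (Q.re y) - algebraMap F K (Q.im y) * Q.s)
    rw [Q.re_eq h, Q.im_eq h]
    simp only [map_add, map_mul]
    linear_combination -algebraMap F K (Q.im x) * algebraMap F K (Q.im y) * Q.hs
  map_add' x y := by
    have hx := Q.re_add_im x
    have hy := Q.re_add_im y
    have h : x + y = algebraMap F K (Q.re x + Q.re y) + algebraMap F K (Q.im x + Q.im y) * Q.s := by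
      simp only [map_add]
      linear_combination hx + hy
    change algebraMap F K (Q.re (x + y)) - algebraMap F K (Q.im (x + y)) * Q.s =
      (algebraMap F K (Q.re x) - algebraMap F K (Q.im x) * Q.s) + (algebraMap F K (Q.re y) - algebraMap F K (Q.im y) * Q.s)
    rw [Q.re_eq h, Q.im_eq h]
    simp only [map_add]
    ring

theorem sig_def (x : K) : Q.sig x = algebraMap F K (Q.re x) - algebraMap F K (Q.im x) * Q.s := rfl

@[simp] theorem sig_base (q : F) : Q.sig (algebraMap F K q) = algebraMap F K q := by
  have h : algebraMap F K q = algebraMap F K q + algebraMap F K 0 * Q.s := by rw [map_zero]; ring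
  rw [sig_def, Q.re_eq h, Q.im_eq h, map_zero]
  ring

theorem sig_s : Q.sig Q.s = -Q.s := by
  have h : Q.s = algebraMap F K 0 + algebraMap F K 1 * Q.s := by rw [map_zero, map_one]; ring
  rw [sig_def, Q.re_eq h, Q.im_eq h, map_zero, map_one]
  ring

@[simp] theorem sig_sig (x : K) : Q.sig (Q.sig x) = x := by
  nth_rewrite 2 [Q.re_add_im x]
  rw [Q.sig_def x, map_sub, map_mul, Q.sig_base, Q.sig_base, Q.sig_s]
  ring

theorem sig_of_base {x : K} (h : ∃ q : F, x = algebraMap F K q) : Q.sig x = x := by
  obtain ⟨q, rfl⟩ := h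
  exact Q.sig_base q

theorem add_sig (x : K) : x + Q.sig x = algebraMap F K (2 * Q.re x) := by
  rw [sig_def, map_mul, map_ofNat]
  linear_combination Q.re_add_im x

theorem mul_sig (x : K) : x * Q.sig x = algebraMap F K (Q.re x ^ 2 - Q.n * Q.im x ^ 2) := by
  rw [sig_def, map_sub, map_mul, map_pow, map_pow]
  linear_combination (algebraMap F K (Q.re x) - algebraMap F K (Q.im x) * Q.s) * Q.re_add_im x -
    algebraMap F K (Q.im x) ^ 2 * Q.hs

/-- Trace and norm. -/
theorem tn (x : K) : ∃ T N : F, x + Q.sig x = algebraMap F K T ∧ x * Q.sig x = algebraMap F K N ∧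
    x ^ 2 = algebraMap F K T * x - algebraMap F K N := by
  refine ⟨_, _, Q.add_sig x, Q.mul_sig x, ?_⟩
  rw [← Q.add_sig x, ← Q.mul_sig x]
  ring

theorem indep {x : K} (hx : ∀ q : F, x ≠ algebraMap F K q) {p q : F} (h : algebraMap F K p * x + algebraMap F K q = 0) :
    p = 0 ∧ q = 0 := by
  have hp : p = 0 := by
    by_contra hne
    have h1 : algebraMap F K p ≠ 0 := by
      rw [Ne, map_eq_zero]
      exact hne
    refine hx (-q / p) ?_
    rw [map_div₀, map_neg, eq_div_iff h1]
    linear_combination h
  refine ⟨hp, ?_⟩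
  subst hp
  rw [map_zero, zero_mul, zero_add, map_eq_zero] at h
  exact h

theorem im_ne_zero {x : K} (hx : ∀ q : F, x ≠ algebraMap F K q) : Q.im x ≠ 0 := by
  intro h
  refine hx (Q.re x) ?_
  nth_rewrite 1 [Q.re_add_im x]
  rw [h, map_zero]
  ring

include Q in
/-- Every element is a linear polynomial in a given one outside the base field. -/
theorem lin {x : K} (hx : ∀ q : F, x ≠ algebraMap F K q) (y : K) : ∃ μ ν : F, y = algebraMap F K μ * x + algebraMap F K ν := by
  have h3 : Q.im x ≠ 0 := Q.im_ne_zero hx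
  have h4 : algebraMap F K (Q.im x) ≠ 0 := by
    rw [Ne, map_eq_zero]
    exact h3
  refine ⟨Q.im y / Q.im x, Q.re y - Q.im y / Q.im x * Q.re x, ?_⟩
  have h1 := Q.re_add_im x
  have h2 := Q.re_add_im y
  rw [map_sub, map_mul, map_div₀]
  field_simp
  linear_combination algebraMap F K (Q.im x) * h2 - algebraMap F K (Q.im y) * h1

/-- If the square of an element is in the base field then the element is fixed or changes sign. -/
theorem sig_of_sq {y : K} {q : F} (h : y ^ 2 = algebraMap F K q) : Q.sig y = y ∨ Q.sig y = -y := by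
  have h1 : (Q.sig y) ^ 2 = y ^ 2 := by
    rw [← map_pow, h, Q.sig_base]
  exact sq_eq_sq_iff_eq_or_eq_neg.mp h1

/-- The third point on the line through two conjugate points of a cubic curve over the base. -/
theorem third (c a₂ a₄ a₆ : F) (hc : c ≠ 0) {x y : K} (hx : ∀ q : F, x ≠ algebraMap F K q)
    (h : y ^ 2 = algebraMap F K c * x ^ 3 + algebraMap F K a₂ * x ^ 2 + algebraMap F K a₄ * x + algebraMap F K a₆) :
    ∃ μ ν X T N : F, y = algebraMap F K μ * x + algebraMap F K ν ∧
      (μ * X + ν) ^ 2 = c * X ^ 3 + a₂ * X ^ 2 + a₄ * X + a₆ ∧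
      x + Q.sig x = algebraMap F K T ∧ x * Q.sig x = algebraMap F K N ∧ x ^ 2 = algebraMap F K T * x - algebraMap F K N ∧
      c * (T + X) = μ ^ 2 - a₂ ∧ c * (N + T * X) = a₄ - 2 * μ * ν ∧ c * (N * X) = ν ^ 2 - a₆ := by
  obtain ⟨μ, ν, hy⟩ := Q.lin hx y
  obtain ⟨T, N, hT, hN, hx2⟩ := Q.tn x
  have key : algebraMap F K (c * (T ^ 2 - N) + (a₂ - μ ^ 2) * T + (a₄ - 2 * μ * ν)) * x +
      algebraMap F K (-c * T * N - (a₂ - μ ^ 2) * N + (a₆ - ν ^ 2)) = 0 := by
    rw [hy] at h
    simp only [map_add, map_mul, map_sub, map_neg, map_pow, map_ofNat]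
    linear_combination -h - (algebraMap F K c * x + algebraMap F K c * algebraMap F K T + (algebraMap F K a₂ - algebraMap F K μ ^ 2)) * hx2
  obtain ⟨h1, h2⟩ := indep hx key
  obtain ⟨X, hX⟩ : ∃ X : F, c * (T + X) = μ ^ 2 - a₂ := by
    refine ⟨(μ ^ 2 - a₂) / c - T, ?_⟩
    field_simp
    ring
  have h3 : c * (N + T * X) = a₄ - 2 * μ * ν := by linear_combination -h1 + T * hX
  have h4 : c * (N * X) = ν ^ 2 - a₆ := by linear_combination h2 + N * hX
  exact ⟨μ, ν, X, T, N, hy, by linear_combination -(X ^ 2 * hX - X * h3 + h4), hT, hN, hx2, hX,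
    h3, h4⟩

section Char

variable [CharZero K]

theorem base_of_sig {x : K} (h : Q.sig x = x) : ∃ q : F, x = algebraMap F K q := by
  have h1 := Q.re_add_im x
  rw [sig_def] at h
  refine ⟨Q.re x, ?_⟩
  have h2 : (2 : K) * x = 2 * algebraMap F K (Q.re x) := by linear_combination h1 - h
  exact mul_left_cancel₀ two_ne_zero h2

theorem not_base_iff {x : K} : (∀ q : F, x ≠ algebraMap F K q) ↔ Q.sig x ≠ x := by
  constructor
  · intro h h1
    obtain ⟨q, hq⟩ := Q.base_of_sig h1
    exact h q hq
  · intro h q hq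
    exact h (Q.sig_of_base ⟨q, hq⟩)

end Char

end QF

/-! ### Imaginary quadratic fields -/

namespace QF

variable {K : Type*} [Field K] [Algebra ℚ K] (Q : QF ℚ K)

/-- The norm of a nonzero element of an imaginary quadratic field is positive. -/
theorem norm_pos (hn : Q.n < 0) {x : K} (hx : x ≠ 0) {N : ℚ}
    (h : x * Q.sig x = algebraMap ℚ K N) : 0 < N := by
  rw [Q.mul_sig x] at h
  have h1 : Q.re x ^ 2 - Q.n * Q.im x ^ 2 = N := (algebraMap ℚ K).injective h
  rw [← h1]
  by_contra hcon
  push Not at hcon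
  have h2 : Q.im x ^ 2 = 0 := by
    by_contra hne
    have h3 : 0 < Q.im x ^ 2 := lt_of_le_of_ne (sq_nonneg _) (Ne.symm hne)
    nlinarith [sq_nonneg (Q.re x)]
  have h3 : Q.im x = 0 := pow_eq_zero_iff (two_ne_zero) |>.mp h2
  have h4 : Q.re x = 0 := by
    rw [h3] at hcon
    nlinarith [sq_nonneg (Q.re x)]
  apply hx
  rw [Q.re_add_im x, h3, h4, map_zero]
  ring

/-- The discriminant of an irrational element of an imaginary quadratic field is negative. -/
theorem disc_neg (hn : Q.n < 0) {x : K} (hx : ∀ q : ℚ, x ≠ algebraMap ℚ K q) {T N : ℚ}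
    (hT : x + Q.sig x = algebraMap ℚ K T) (hN : x * Q.sig x = algebraMap ℚ K N) :
    T ^ 2 < 4 * N := by
  rw [Q.mul_sig x] at hN
  rw [Q.add_sig x] at hT
  have h1 : Q.re x ^ 2 - Q.n * Q.im x ^ 2 = N := (algebraMap ℚ K).injective hN
  have h2 : 2 * Q.re x = T := (algebraMap ℚ K).injective hT
  have h3 : Q.im x ≠ 0 := Q.im_ne_zero hx
  have h4 : 0 < Q.im x ^ 2 := by positivity
  rw [← h1, ← h2]
  nlinarith

end QF

end SD87
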