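import Pool.Agent.Lib.MP_87c685_nt_SD.E50
import Pool.Agent.Lib.MP_87c685_nt_SD.E50t
import Pool.Agent.Lib.MP_87c685_nt_SD.Quad

/-!
# Points over `ℚ(√5)`
-/

set_option autoImplicit false

namespace SD87

variable {F : Type*} [Field F] [CharZero F] [Algebra ℚ F] (P : QF ℚ F)

/-- There is no nontrivial fifth root of unity in `ℚ(√5)`. -/
theorem fifth_root_one (hP : P.n = 5) (x : F) (h : x ^ 5 = 1) : x = 1 := by
  by_contra hne
  obtain ⟨T, N, hT, hN, -⟩ := P.tn x
  have hinj := (algebraMap ℚ F).injective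
  have hN1 : N = 1 := by
    have h1 : algebraMap ℚ F (N ^ 5) = algebraMap ℚ F 1 := by
      rw [map_pow, ← hN, mul_pow, ← map_pow, h, map_one, map_one, one_mul]
    have h2 : N ^ 5 = 1 ^ 5 := by rw [hinj h1]; norm_num
    exact (Odd.strictMono_pow (by decide : Odd 5)).injective h2
  rw [hN1, map_one] at hN
  have hS : x ^ 4 + x ^ 3 + x ^ 2 + x + 1 = 0 := by
    have h1 : (x - 1) * (x ^ 4 + x ^ 3 + x ^ 2 + x + 1) = 0 := by linear_combination h
    exact (mul_eq_zero.1 h1).resolve_left (sub_ne_zero.2 hne)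
  set y := P.sig x with hy
  have h1 : algebraMap ℚ F (T ^ 2 + T - 1) = algebraMap ℚ F 0 := by
    rw [map_sub, map_add, map_pow, ← hT, map_one, map_zero]
    have e1 : x ^ 4 * y ^ 2 = x ^ 2 := by
      have : x ^ 4 * y ^ 2 = x ^ 2 * (x * y) ^ 2 := by ring
      rw [this, hN]; ring
    have e2 : x ^ 3 * y ^ 2 = x := by
      have : x ^ 3 * y ^ 2 = x * (x * y) ^ 2 := by ring
      rw [this, hN]; ring
    have e3 : x ^ 2 * y ^ 2 = 1 := by
      have : x ^ 2 * y ^ 2 = (x * y) ^ 2 := by ring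
      rw [this, hN]; ring
    have e4 : x * y ^ 2 = y := by
      have : x * y ^ 2 = (x * y) * y := by ring
      rw [this, hN]; ring
    linear_combination y ^ 2 * hS - e1 - e2 - e3 - e4 + 2 * hN
  have h2 : T ^ 2 + T - 1 = 0 := hinj h1
  have h3 : P.s ^ 2 = algebraMap ℚ F (2 * T + 1) ^ 2 := by
    rw [P.hs, hP, ← map_pow]
    congr 1
    linear_combination -4 * h2
  rcases sq_eq_sq_iff_eq_or_eq_neg.1 h3 with h4 | h4
  · exact P.irr _ h4
  · exact P.irr (-(2 * T + 1)) (by rw [map_neg]; exact h4)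

/-- The points over `ℚ(√5)` of the curve 50b. -/
theorem E50F (hP : P.n = 5) (X y : F) (h : y ^ 2 = 4 * X ^ 3 + 17 * X ^ 2 + 112 * X + 64) :
    X = 0 ∨ X = 8 := by
  have hinj := (algebraMap ℚ F).injective
  have hw : P.s ^ 2 = algebraMap ℚ F 5 := by rw [P.hs, hP]
  obtain ⟨a, b, hX⟩ := P.basis X
  obtain ⟨c, d, hY⟩ := P.basis y
  have hL : y ^ 2 = algebraMap ℚ F (c ^ 2 + 5 * d ^ 2) + algebraMap ℚ F (2 * c * d) * P.s := by
    rw [hY]
    simp only [map_add, map_mul, map_pow, map_ofNat] at hw ⊢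
    linear_combination (algebraMap ℚ F d) ^ 2 * hw
  have hR : 4 * X ^ 3 + 17 * X ^ 2 + 112 * X + 64 =
      algebraMap ℚ F (4 * (a ^ 3 + 15 * a * b ^ 2) + 17 * (a ^ 2 + 5 * b ^ 2) + 112 * a + 64) +
        algebraMap ℚ F (4 * (3 * a ^ 2 * b + 5 * b ^ 3) + 34 * a * b + 112 * b) * P.s := by
    rw [hX]
    simp only [map_add, map_mul, map_pow, map_ofNat] at hw ⊢
    linear_combination (12 * algebraMap ℚ F a * algebraMap ℚ F b ^ 2 +
      4 * algebraMap ℚ F b ^ 3 * P.s + 17 * algebraMap ℚ F b ^ 2) * hw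
  rw [hL, hR] at h
  obtain ⟨E1, E2⟩ := P.unique h
  by_cases hb : b = 0
  · subst hb
    have h1 : c * d = 0 := by linear_combination E2 / 2
    rcases mul_eq_zero.1 h1 with h2 | h2
    · subst h2
      exact absurd (show 5 * d ^ 2 = 4 * a ^ 3 + 17 * a ^ 2 + 112 * a + 64 by
        linear_combination E1) (E50t a d)
    · subst h2
      have h3 := E50 a c (by linear_combination E1)
      rw [hX]
      rcases h3 with h3 | h3
      · left; rw [h3]; simp
      · right; rw [h3]; simp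
  · exfalso
    set M : ℚ := c / (5 * b) with hM
    have hMb : 5 * b * M = c := by rw [hM]; field_simp
    set k : ℚ := (5 * M ^ 2 - 17) / 4 - 3 * a with hk
    have hk' : 4 * k = 5 * M ^ 2 - 17 - 12 * a := by rw [hk]; ring
    have E2' : 12 * a ^ 2 + 34 * a + 112 - 10 * d * M = -20 * b ^ 2 := by
      have h1 : b * (12 * a ^ 2 + 34 * a + 112 - 10 * d * M + 20 * b ^ 2) = 0 := by
        linear_combination -E2 - 2 * d * hMb
      have h2 := (mul_eq_zero.1 h1).resolve_left hb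
      linear_combination h2
    have E1' : 4 * a ^ 3 + 17 * a ^ 2 + 112 * a + 64 - 5 * d ^ 2 = 20 * b ^ 2 * k := by
      rw [← hMb] at E1
      linear_combination -E1 - 5 * b ^ 2 * hk'
    refine E50t (a + k) (d + M * k) ?_
    linear_combination -E1' - k * E2' - k ^ 2 * hk'

end SD87
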