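import Pool.Agent.Lib.MP_87c685_nt_SD.PencilC
import Pool.Agent.Lib.MP_87c685_nt_SD.Five

/-!
# The nonsplit Cartan case
-/

set_option autoImplicit false

namespace SD87

section Aux

variable {F L : Type*} [Field F] [CharZero F] [Algebra ℚ F] [Field L] [CharZero L] [Algebra F L]

omit [CharZero L] in
private theorem ratl (P : QF ℚ F) (τ : L →+* L)
    (hτF : ∀ x : F, τ (algebraMap F L x) = algebraMap F L (P.sig x)) {h : L} (hτ : τ h = h)
    {q : F} (hq : h = algebraMap F L q) : ∃ q : ℚ, h = (q : L) := by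
  have h1 : algebraMap F L (P.sig q) = algebraMap F L q := by rw [← hτF, ← hq, hτ]
  obtain ⟨r, hr⟩ := P.base_of_sig ((algebraMap F L).injective h1)
  refine ⟨r, ?_⟩
  rw [hq, hr, eq_ratCast, map_ratCast]

omit [CharZero L] in
private theorem fix5 (P : QF ℚ F) (hP : P.n = 5) (τ : L →+* L)
    (hτF : ∀ x : F, τ (algebraMap F L x) = algebraMap F L (P.sig x)) {x : F}
    (h : τ (algebraMap F L x ^ 5) = algebraMap F L x ^ 5) : P.sig x = x := by
  have h1 : algebraMap F L (P.sig x ^ 5) = algebraMap F L (x ^ 5) := by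
    rw [map_pow, map_pow, ← hτF, ← map_pow]
    exact h
  have h2 := (algebraMap F L).injective h1
  by_cases hx : x = 0
  · rw [hx, map_zero]
  · have h3 : (P.sig x / x) ^ 5 = 1 := by rw [div_pow, h2, div_self (pow_ne_zero 5 hx)]
    have h4 := fifth_root_one P hP _ h3
    exact (div_eq_one_iff_eq hx).1 h4

private theorem swapc (P : QF ℚ F) (Q : QF F L) (τ : L →+* L)
    (hτF : ∀ x : F, τ (algebraMap F L x) = algebraMap F L (P.sig x))
    {X v h : L} (hh : h = hC X v) (hτ : τ h = h) (hX : τ X = Q.sig X) (hv : τ v = Q.sig v) :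
    ∃ q : ℚ, h = (q : L) := by
  have h1 : Q.sig h = h := by
    have e1 : τ h = hC (τ X) (τ v) := by
      rw [hh]
      simp only [hC, map_add, map_mul, map_one, map_ofNat]
    have e2 : Q.sig h = hC (Q.sig X) (Q.sig v) := by
      rw [hh]
      simp only [hC, map_add, map_mul, map_one, map_ofNat]
    rw [e2, ← hX, ← hv, ← e1, hτ]
  obtain ⟨q, hq⟩ := Q.base_of_sig h1
  exact ratl P τ hτF hτ hq

private theorem linc (P : QF ℚ F) (Q : QF F L) (τ : L →+* L)
    (hτF : ∀ x : F, τ (algebraMap F L x) = algebraMap F L (P.sig x))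
    {X v h : L} (hh : h = hC X v) (hτ : τ h = h) (hne : ¬ (τ X = X ∧ τ v = v)) {T N a b : F}
    (hT : P.sig T = T) (hN : P.sig N = N) (ha : P.sig a = a) (hb : P.sig b = b)
    (hv : v = algebraMap F L a * X + algebraMap F L b)
    (hX : X ^ 2 = algebraMap F L T * X - algebraMap F L N)
    (hs : X + Q.sig X = algebraMap F L T) : ∃ q : ℚ, h = (q : L) := by
  have hτX : (τ X) ^ 2 = algebraMap F L T * τ X - algebraMap F L N := by
    rw [← map_pow, hX, map_sub, map_mul, hτF, hτF, hT, hN]
  have hτv : τ v = algebraMap F L a * τ X + algebraMap F L b := by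
    rw [hv, map_add, map_mul, hτF, hτF, ha, hb]
  have hσv : Q.sig v = algebraMap F L a * Q.sig X + algebraMap F L b := by
    rw [hv, map_add, map_mul, Q.sig_base, Q.sig_base]
  have h1 : (τ X - X) * (τ X - Q.sig X) = 0 := by
    linear_combination hτX - (τ X - X) * hs - hX
  rcases mul_eq_zero.1 h1 with h2 | h2
  · have h3 : τ X = X := sub_eq_zero.1 h2
    exact absurd ⟨h3, by rw [hτv, h3, ← hv]⟩ hne
  · have h3 : τ X = Q.sig X := sub_eq_zero.1 h2
    exact swapc P Q τ hτF hh hτ h3 (by rw [hτv, h3, hσv])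

end Aux

/-- A point of the first curve over a biquadratic field containing `√5` which is not fixed by the
automorphism `τ` although the value of the Hauptmodul is. -/
theorem cns {F L : Type*} [Field F] [CharZero F] [Algebra ℚ F] [Field L] [CharZero L] [Algebra F L]
    (P : QF ℚ F) (hP : P.n = 5) (Q : QF F L) (τ : L →+* L)
    (hτF : ∀ x : F, τ (algebraMap F L x) = algebraMap F L (P.sig x))
    (hτσ : ∀ x : L, τ (Q.sig x) = Q.sig (τ x)) (hττ : ∀ x : L, τ (τ x) = x)
    {X v h : L} (h1 : OnC X v) (hh : h = hC X v) (hτ : τ h = h) (hne : ¬ (τ X = X ∧ τ v = v)) :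
    (∃ q : ℚ, h = (q : L)) ∨ h * Q.sig h = 4096 := by
  have hNh : τ (h * Q.sig h) = h * Q.sig h := by rw [map_mul, hτσ, hτ]
  rcases pencilC Q (fun X y => E50F P hP X y) h1 hh with
    ⟨q, hq⟩ | h4 | ⟨X₀, hX, hsv, hN⟩ | ⟨μ, -, ⟨hv, hX, hs, hN⟩ | ⟨hv, hX, hs, hN⟩ | ⟨hv, hX, hs, hN⟩⟩
  · exact Or.inl (ratl P τ hτF hτ hq)
  · exact Or.inr h4
  · left
    have h5 : P.sig X₀ = X₀ := by
      refine fix5 P hP τ hτF ?_
      rw [hN, map_neg] at hNh
      exact neg_injective hNh
    have h6 : τ X = X := by rw [hX, hτF, h5]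
    have h7 : (τ v) ^ 2 - 3 * X * τ v - 8 * τ v = X ^ 3 + 2 * X ^ 2 + 16 * X := by
      have h8 := congrArg τ h1
      simp only [map_sub, map_add, map_mul, map_pow, map_ofNat, h6] at h8
      exact h8
    unfold OnC at h1
    have h9 : (τ v - v) * (τ v - Q.sig v) = 0 := by
      rw [hsv]
      linear_combination h7 - h1
    rcases mul_eq_zero.1 h9 with h2 | h2
    · exact absurd ⟨h6, sub_eq_zero.1 h2⟩ hne
    · refine swapc P Q τ hτF hh hτ ?_ (sub_eq_zero.1 h2)
      rw [h6, hX, Q.sig_base]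
  · left
    have h5 : P.sig (μ + 2) = μ + 2 := by
      refine fix5 P hP τ hτF ?_
      rw [hN, map_mul, map_ofNat] at hNh
      exact mul_left_cancel₀ (by norm_num) hNh
    have h6 : P.sig μ = μ := by
      rw [map_add, map_ofNat] at h5
      exact add_right_cancel h5
    refine linc P Q τ hτF hh hτ hne (T := μ ^ 2 - 3 * μ - 10) (N := 8 * (μ ^ 2 + 5 * μ + 6))
      (a := μ) (b := -16 - 8 * μ) ?_ ?_ h6 ?_ ?_ hX hs
    · simp only [map_sub, map_mul, map_pow, map_ofNat, h6]
    · simp only [map_add, map_mul, map_pow, map_ofNat, h6]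
    · simp only [map_sub, map_neg, map_mul, map_ofNat, h6]
    · rw [hv]
      simp only [map_sub, map_neg, map_mul, map_ofNat]
      ring
  · left
    have h5 : P.sig (μ - 6) = μ - 6 := by
      refine fix5 P hP τ hτF ?_
      rw [hN, map_mul, map_neg, map_ofNat] at hNh
      exact mul_left_cancel₀ (by norm_num) hNh
    have h6 : P.sig μ = μ := by
      rw [map_sub, map_ofNat] at h5
      exact sub_left_injective h5
    refine linc P Q τ hτF hh hτ hne (T := μ ^ 2 - 3 * μ - 10) (N := 8 * (μ ^ 2 - 11 * μ + 30))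
      (a := μ) (b := 48 - 8 * μ) ?_ ?_ h6 ?_ ?_ hX hs
    · simp only [map_sub, map_mul, map_pow, map_ofNat, h6]
    · simp only [map_add, map_sub, map_mul, map_pow, map_ofNat, h6]
    · simp only [map_sub, map_mul, map_ofNat, h6]
    · rw [hv]
      simp only [map_sub, map_mul, map_ofNat]
      ring
  · left
    have h5 : P.sig (μ + 2) = μ + 2 := by
      refine fix5 P hP τ hτF ?_
      rw [hN, map_mul, map_ofNat] at hNh
      exact mul_left_cancel₀ (by norm_num) hNh
    have h6 : P.sig μ = μ := by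
      rw [map_add, map_ofNat] at h5
      exact add_right_cancel h5
    refine linc P Q τ hτF hh hτ hne (T := μ ^ 2 - 3 * μ - 2) (N := 8 * (μ + 2))
      (a := μ) (b := 0) ?_ ?_ h6 ?_ ?_ hX hs
    · simp only [map_sub, map_mul, map_pow, map_ofNat, h6]
    · simp only [map_add, map_mul, map_ofNat, h6]
    · rw [map_zero]
    · rw [hv, map_zero, add_zero]

end SD87
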