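import Pool.Agent.Lib.MP_87c685_nt_SD.Defs

/-!
# From the modular parametrisations to the two curves
-/

set_option autoImplicit false

namespace SD87

variable {K : Type*} [Field K] [CharZero K]

/-- A root of the quintic and a point of order two give a point of the first curve. -/
theorem mapC {t h : K} (ht : t ≠ 0) (hw : t ^ 2 + 4 * t + 24 ≠ 0)
    (hj : (h + 16) ^ 3 = h * (t ^ 3 * (t ^ 2 + 5 * t + 40))) :
    ∃ X v : K, OnC X v ∧ h = hC X v ∧ t * X = X ^ 2 - 2 * X + v - 8 ∧ v * t = h + 16 := by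
  obtain ⟨v, hv⟩ : ∃ v : K, v = (h + 16) / t := ⟨_, rfl⟩
  have hvt : v * t = h + 16 := by rw [hv, div_mul_cancel₀ _ ht]
  have hh : h = v * t - 16 := by linear_combination -hvt
  have hR : v ^ 3 - t * (t ^ 2 + 5 * t + 40) * v + 16 * (t ^ 2 + 5 * t + 40) = 0 := by
    have h1 : t ^ 3 * (v ^ 3 - t * (t ^ 2 + 5 * t + 40) * v + 16 * (t ^ 2 + 5 * t + 40)) = 0 := by
      rw [hh] at hj
      linear_combination hj
    rcases mul_eq_zero.1 h1 with h2 | h2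
    · exact absurd (pow_eq_zero_iff (by norm_num) |>.1 h2) ht
    · exact h2
  obtain ⟨w, hwd⟩ : ∃ w : K, w = t ^ 2 + 4 * t + 24 := ⟨_, rfl⟩
  obtain ⟨n, hn⟩ : ∃ n : K, n = v ^ 2 - (t + 4) * v - 8 * t + 16 := ⟨_, rfl⟩
  have hw0 : w ≠ 0 := by rw [hwd]; exact hw
  obtain ⟨X, hX⟩ : ∃ X : K, X = n / w := ⟨_, rfl⟩
  have hXw : X * w = n := by rw [hX, div_mul_cancel₀ _ hw0]
  have hC1 : OnC X v := by
    unfold OnC
    have h1 : (v ^ 2 * w ^ 3 - 3 * n * v * w ^ 2 - 8 * v * w ^ 3) -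
        (n ^ 3 + 2 * n ^ 2 * w + 16 * n * w ^ 2) = 0 := by
      rw [hn, hwd]
      linear_combination (-v ^ 3 + 3 * t * v ^ 2 + 12 * v ^ 2 - t ^ 3 * v - 10 * t ^ 2 * v -
        48 * t * v - 144 * v + 8 * t ^ 3 + 96 * t - 256) * hR
    have h2 : w ^ 3 * (v ^ 2 - 3 * X * v - 8 * v - (X ^ 3 + 2 * X ^ 2 + 16 * X)) = 0 := by
      rw [← hXw] at h1
      linear_combination h1
    rcases mul_eq_zero.1 h2 with h3 | h3
    · exact absurd (pow_eq_zero_iff (by norm_num) |>.1 h3) hw0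
    · exact sub_eq_zero.1 h3
  have htX : t * X = X ^ 2 - 2 * X + v - 8 := by
    have h1 : t * n * w - (n ^ 2 - 2 * n * w + v * w ^ 2 - 8 * w ^ 2) = 0 := by
      rw [hn, hwd]
      linear_combination (-v + 2 * t + 8) * hR
    have h2 : w ^ 2 * (t * X - (X ^ 2 - 2 * X + v - 8)) = 0 := by
      rw [← hXw] at h1
      linear_combination h1
    rcases mul_eq_zero.1 h2 with h3 | h3
    · exact absurd (pow_eq_zero_iff (by norm_num) |>.1 h3) hw0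
    · exact sub_eq_zero.1 h3
  refine ⟨X, v, hC1, ?_, htX, hvt⟩
  unfold hC
  by_cases h0 : X = 0
  · have hv8 : v = 8 := by
      rw [h0] at htX
      linear_combination -htX
    have hn0 : n = 0 := by rw [← hXw, h0, zero_mul]
    have ht3 : t = 3 := by
      rw [hn, hv8] at hn0
      have h1 : (16 : K) * (t - 3) = 0 := by linear_combination -hn0
      rcases mul_eq_zero.1 h1 with h2 | h2
      · norm_num at h2
      · exact sub_eq_zero.1 h2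
    rw [hh, hv8, ht3, h0]
    norm_num
  · have h1 : X * (h - ((X + 1) * v + X * (X + 2))) = 0 := by
      unfold OnC at hC1
      rw [hh]
      linear_combination v * htX + hC1
    rcases mul_eq_zero.1 h1 with h2 | h2
    · exact absurd h2 h0
    · exact sub_eq_zero.1 h2

/-- The invariant in terms of the coordinate of `X_ns^+(5)`. -/
def jns (l : K) : K := 8000 * (l + 1) * (l * (l ^ 2 - 5 * l + 10)) ^ 3 / (l ^ 2 - 5) ^ 5

/-- The invariant `1728`. -/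
theorem jns_1728 {l : K} (h5 : l ^ 2 ≠ 5)
    (hw : 7 * l ^ 4 - 45 * l ^ 3 + 30 * l ^ 2 - 25 * l - 75 = 0) : jns l = 1728 := by
  unfold jns
  have h0 : (l ^ 2 - 5) ^ 5 ≠ 0 := pow_ne_zero _ (sub_ne_zero.2 h5)
  rw [div_eq_iff h0]
  linear_combination (896 * l ^ 6 - 10240 * l ^ 5 + 39360 * l ^ 4 - 65600 * l ^ 3 +
    35200 * l ^ 2 + 24000 * l - 72000) * hw

/-- The roots of the quintic in terms of the coordinate of `X_ns^+(5)`. -/
theorem jns_root {l r : K} (h5 : l ^ 2 ≠ 5) (hr : r ^ 2 = -5 * (2 * l ^ 2 - 10 * l + 15)) :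
    (2 * l * (r - 5) / (l ^ 2 - 5)) ^ 3 * ((2 * l * (r - 5) / (l ^ 2 - 5)) ^ 2 +
      5 * (2 * l * (r - 5) / (l ^ 2 - 5)) + 40) = jns l := by
  unfold jns
  have h0 : l ^ 2 - 5 ≠ 0 := sub_ne_zero.2 h5
  have h1 : (2 * l * (r - 5)) ^ 3 * ((2 * l * (r - 5)) ^ 2 +
      5 * (l ^ 2 - 5) * (2 * l * (r - 5)) + 40 * (l ^ 2 - 5) ^ 2) =
      8000 * (l + 1) * (l * (l ^ 2 - 5 * l + 10)) ^ 3 := by
    linear_combination (((-800) * l ^ 8 + 7200 * l ^ 7 + (-30000) * l ^ 6 + 48000 * l ^ 5 +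
      (-30000) * l ^ 4 + (-120000) * l ^ 3) + (2400 * l ^ 5 + 8000 * l ^ 4 + 8000 * l ^ 3) * r +
      (80 * l ^ 6 + (-800) * l ^ 5 + (-400) * l ^ 4) * r ^ 2 + (32 * l ^ 5) * r ^ 3) * hr
  rw [← h1]
  generalize 2 * l * (r - 5) = a at *
  generalize l ^ 2 - 5 = M at *
  field_simp

/-- The quintic at the invariant `1728`. -/
theorem quintic_1728 {t : K} (hw : t ^ 2 + 4 * t + 24 = 0) :
    t ^ 3 * (t ^ 2 + 5 * t + 40) = 1728 := by
  linear_combination (t ^ 3 + t ^ 2 + 12 * t - 72) * hw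

/-- The two nonsplit Cartan structures of a curve of type H16. -/
theorem jns_h16 {t z : K} (hd : t ^ 3 - 25 * t - 50 ≠ 0) (hD : t ^ 2 + 5 * t + 5 ≠ 0)
    (hz : z ^ 2 = 5 * (t ^ 2 - 20)) (h5 : ∀ z : K, z ^ 2 ≠ 5) :
    jns (-(5 * (t ^ 2 + 10 * t + 20) + (t ^ 2 + 5 * t + 5) * z) / (t ^ 3 - 25 * t - 50)) =
      ((t + 5) * (t ^ 2 - 5) * (t ^ 2 + 5 * t + 10)) ^ 3 / (t ^ 2 + 5 * t + 5) ^ 5 := by
  have hA : ∃ A, A = (t ^ 3 - 25 * t - 50) -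
      (5 * (t ^ 2 + 10 * t + 20) + (t ^ 2 + 5 * t + 5) * z) := ⟨_, rfl⟩
  obtain ⟨A, hA⟩ := hA
  obtain ⟨Q, hQ⟩ : ∃ Q, Q = t ^ 2 + 5 * t + 10 + (t + 3) * z := ⟨_, rfl⟩
  obtain ⟨E, hE⟩ : ∃ E, E = 5 * t ^ 3 + 10 * t ^ 2 - 50 * t - 100 + (t ^ 2 + 10 * t + 20) * z :=
    ⟨_, rfl⟩
  obtain ⟨C, hC⟩ : ∃ C, C = 15 * t ^ 4 + 75 * t ^ 3 - 75 * t ^ 2 - 1000 * t - 1500 +
    (5 * t ^ 3 + 35 * t ^ 2 + 75 * t + 50) * z := ⟨_, rfl⟩
  obtain ⟨N, hN⟩ : ∃ N, N = 5 * (t ^ 2 + 10 * t + 20) + (t ^ 2 + 5 * t + 5) * z := ⟨_, rfl⟩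
  have r1 : N ^ 2 - 5 * (t ^ 3 - 25 * t - 50) ^ 2 = 10 * (t ^ 2 + 5 * t + 5) * E := by
    rw [hN, hE]
    linear_combination (t ^ 4 + 10 * t ^ 3 + 35 * t ^ 2 + 50 * t + 25) * hz
  have r2 : N ^ 2 + 5 * N * (t ^ 3 - 25 * t - 50) + 10 * (t ^ 3 - 25 * t - 50) ^ 2 =
      (t ^ 2 - 5) * C := by
    rw [hN, hC]
    linear_combination (t ^ 4 + 10 * t ^ 3 + 35 * t ^ 2 + 50 * t + 25) * hz
  have r3 : 2 * (N * C) = 5 * (t ^ 2 + 5 * t + 10) * (Q * E) := by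
    rw [hN, hC, hQ, hE]
    linear_combination (5 * t ^ 5 + 30 * t ^ 4 - 75 * t ^ 3 - 1000 * t ^ 2 - 2750 * t - 2500) * hz
  have r4 : -5 * A * Q ^ 3 = 4 * (t + 5) ^ 3 * E ^ 2 := by
    rw [hA, hQ, hE]
    linear_combination ((21 * t ^ 7 + 390 * t ^ 6 + 2755 * t ^ 5 + 8525 * t ^ 4 + 6300 * t ^ 3 +
      (-26875) * t ^ 2 + (-65000) * t + (-42500)) + (10 * t ^ 6 + 220 * t ^ 5 + 2100 * t ^ 4 +
      10740 * t ^ 3 + 30450 * t ^ 2 + 45000 * t + 27000) * z + (5 * t ^ 5 + 70 * t ^ 4 +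
      385 * t ^ 3 + 1035 * t ^ 2 + 1350 * t + 675) * z ^ 2) * hz
  have r5 : A = (t ^ 3 - 25 * t - 50) - N := by rw [hA, hN]
  rw [← hN]
  have hl := h5 (-N / (t ^ 3 - 25 * t - 50))
  unfold jns
  clear hA hQ hE hC hN hz
  generalize t ^ 3 - 25 * t - 50 = d at *
  generalize t ^ 2 + 5 * t + 5 = D at *
  generalize t ^ 2 + 5 * t + 10 = a at *
  generalize t ^ 2 - 5 = b at *
  generalize t + 5 = c at *
  have q1 : -N / d + 1 = A / d := by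
    rw [r5]
    field_simp
    ring
  have q2 : (-N / d) ^ 2 - 5 = 10 * D * E / d ^ 2 := by
    rw [← r1]
    field_simp
  have q3 : -N / d * ((-N / d) ^ 2 - 5 * (-N / d) + 10) = -(5 * a * (Q * E) * b) / (2 * d ^ 3) := by
    have e1 : -N / d * ((-N / d) ^ 2 - 5 * (-N / d) + 10) =
        -(N * (N ^ 2 + 5 * N * d + 10 * d ^ 2)) / d ^ 3 := by
      field_simp
      ring
    rw [e1, r2, div_eq_div_iff (pow_ne_zero _ hd) (mul_ne_zero two_ne_zero (pow_ne_zero _ hd))]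
    linear_combination (-b * d ^ 3) * r3
  have hE0 : E ≠ 0 := by
    rintro rfl
    rw [mul_zero, zero_div] at q2
    exact hl (sub_eq_zero.1 q2)
  rw [q1, q2, q3]
  have e2 : 8000 * (A / d) * (-(5 * a * (Q * E) * b) / (2 * d ^ 3)) ^ 3 / (10 * D * E / d ^ 2) ^ 5 =
      (-5 * A * Q ^ 3) * (a * b) ^ 3 / (4 * D ^ 5 * E ^ 2) := by
    field_simp
    ring
  rw [e2, r4]
  field_simp

end SD87
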