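import Pool.Agent.Lib.MP_87c685_nt_SD.MapC

/-!
# From the nonsplit Cartan parametrisation to the second curve
-/

set_option autoImplicit false

namespace SD87

variable {K : Type*} [Field K] [CharZero K]

omit [CharZero K] in
/-- The polynomial identities. -/
theorem mapN_aux {l W w Y : K}
    (rel : (l ^ 2 - 5) * (l + 1) ^ 2 * W ^ 3 - 20 * l * (l ^ 2 - 5 * l + 10) * (l + 1) * W +
      16 * (l ^ 2 - 5) ^ 2 = 0)
    (hd : 16 * (7 * l ^ 4 - 45 * l ^ 3 + 30 * l ^ 2 - 25 * l - 75) ≠ 0)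
    (hA : 16 * (7 * l ^ 4 - 45 * l ^ 3 + 30 * l ^ 2 - 25 * l - 75) * w = 4 * (17 * l ^ 4 - 85 * l ^ 3 + 80 * l ^ 2 + 75 * l - 75) +
      2 * (l ^ 4 - 19 * l ^ 3 - 25 * l ^ 2 - 5 * l) * W +
      3 * (-l ^ 4 - 2 * l ^ 3 + 4 * l ^ 2 + 10 * l + 5) * W ^ 2)
    (hB : 16 * (7 * l ^ 4 - 45 * l ^ 3 + 30 * l ^ 2 - 25 * l - 75) * Y = 8 * (-32 * l ^ 4 + 105 * l ^ 3 - 45 * l ^ 2 - 125 * l + 25) +
      2 * (9 * l ^ 4 + 39 * l ^ 3 + 85 * l ^ 2 + 105 * l + 50) * W +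
      5 * (3 * l ^ 4 + 8 * l ^ 3 + 2 * l ^ 2 - 8 * l - 5) * W ^ 2) :
    OnN w Y ∧ l * (1 + 4 * w - 48 * w ^ 2 + 64 * w ^ 3) = 1 + 4 * w + 8 * (1 - 2 * w) * Y ∧
      2 * W * (l + 1) = (l ^ 2 - 5) * (-1 + 2 * w + 48 * w ^ 2 - 160 * w ^ 3 +
        6 * (1 - 4 * w) * Y) := by
  obtain ⟨d, hdd⟩ : ∃ d : K, d = 16 * (7 * l ^ 4 - 45 * l ^ 3 + 30 * l ^ 2 - 25 * l - 75) :=
    ⟨_, rfl⟩
  rw [← hdd] at hd hA hB
  refine ⟨?_, ?_, ?_⟩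
  · unfold OnN
    refine mul_left_cancel₀ (pow_ne_zero 4 hd) ?_
    have e1 : d ^ 4 * Y ^ 2 = d ^ 2 * (d * Y) ^ 2 := by ring
    have e2 : d ^ 4 * (w + 5 * w ^ 2 - 40 * w ^ 3 + 80 * w ^ 4) = d ^ 3 * (d * w) +
        5 * d ^ 2 * (d * w) ^ 2 - 40 * d * (d * w) ^ 3 + 80 * (d * w) ^ 4 := by ring
    rw [e1, e2, hA, hB, hdd]
    linear_combination ((-6480 * l ^ 12 - 38880 * l ^ 11 + 453600 * l ^ 9 + 874800 * l ^ 8 - 1010880 * l ^ 7 -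
      5028480 * l ^ 6 - 4276800 * l ^ 5 + 4957200 * l ^ 4 + 13284000 * l ^ 3 + 11664000 * l ^ 2
      + 4860000 * l + 810000) * W ^ 5 + (17280 * l ^ 12 - 259200 * l ^ 11 - 1814400 * l ^ 10 -
      1123200 * l ^ 9 + 12614400 * l ^ 8 + 28097280 * l ^ 7 + 518400 * l ^ 6 - 67219200 * l ^ 5
      - 98064000 * l ^ 4 - 63504000 * l ^ 3 - 19440000 * l ^ 2 - 2160000 * l) * W ^ 4 + (319680
      * l ^ 12 + 328320 * l ^ 11 - 10307520 * l ^ 10 - 26887680 * l ^ 9 + 15310080 * l ^ 8 +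
      89337600 * l ^ 7 + 73872000 * l ^ 6 + 126144000 * l ^ 5 + 331128000 * l ^ 4 + 308880000 *
      l ^ 3 + 33480000 * l ^ 2 - 86400000 * l - 32400000) * W ^ 3 + (-476160 * l ^ 12 + 12902400
      * l ^ 11 - 7050240 * l ^ 10 - 197656320 * l ^ 9 - 83301120 * l ^ 8 + 437068800 * l ^ 7 -
      182553600 * l ^ 6 - 1422144000 * l ^ 5 - 888768000 * l ^ 4 + 474240000 * l ^ 3 + 725760000
      * l ^ 2 + 324000000 * l + 64800000) * W ^ 2 + (-2754560 * l ^ 12 + 7987200 * l ^ 11 +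
      147297280 * l ^ 10 - 484167680 * l ^ 9 - 326681600 * l ^ 8 + 1077913600 * l ^ 7 -
      619520000 * l ^ 6 - 1025792000 * l ^ 5 + 1296640000 * l ^ 4 - 917760000 * l ^ 3 -
      2921600000 * l ^ 2 - 940800000 * l + 144000000) * W + (8417280 * l ^ 12 - 186920960 * l ^
      11 + 1065820160 * l ^ 10 - 1741312000 * l ^ 9 - 1175142400 * l ^ 8 + 6450176000 * l ^ 7 -
      1042432000 * l ^ 6 - 7613440000 * l ^ 5 + 2147840000 * l ^ 4 + 6771200000 * l ^ 3 +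
      2483200000 * l ^ 2 - 1344000000 * l - 1152000000)) * rel
  · refine mul_left_cancel₀ (pow_ne_zero 3 hd) ?_
    have e1 : d ^ 3 * (l * (1 + 4 * w - 48 * w ^ 2 + 64 * w ^ 3)) = l * (d ^ 3 +
        4 * d ^ 2 * (d * w) - 48 * d * (d * w) ^ 2 + 64 * (d * w) ^ 3) := by ring
    have e2 : d ^ 3 * (1 + 4 * w + 8 * (1 - 2 * w) * Y) = d ^ 3 + 4 * d ^ 2 * (d * w) +
        8 * (d - 2 * (d * w)) * (d * Y) * d := by ring
    rw [e1, e2, hA, hB, hdd]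
    linear_combination ((-1728 * l ^ 9 - 6912 * l ^ 8 + 6912 * l ^ 7 + 62208 * l ^ 6 + 58752 * l ^ 5 - 103680 * l
      ^ 4 - 241920 * l ^ 3 - 172800 * l ^ 2 - 43200 * l) * W ^ 3 + (3456 * l ^ 9 - 58752 * l ^ 8
      - 231552 * l ^ 7 + 38016 * l ^ 6 + 950400 * l ^ 5 + 1261440 * l ^ 4 + 604800 * l ^ 3 +
      86400 * l ^ 2) * W ^ 2 + (32256 * l ^ 9 - 62208 * l ^ 8 - 655104 * l ^ 7 - 284160 * l ^ 6
      - 741120 * l ^ 5 - 2841600 * l ^ 4 - 1824000 * l ^ 3 - 1344000 * l ^ 2 - 2784000 * l -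
      1440000) * W + (5120 * l ^ 9 + 512000 * l ^ 8 - 2227200 * l ^ 7 + 1694720 * l ^ 6 +
      10880000 * l ^ 5 + 11443200 * l ^ 4 + 8576000 * l ^ 3 + 9344000 * l ^ 2 + 11520000 * l +
      5760000)) * rel
  · refine mul_left_cancel₀ (pow_ne_zero 3 hd) ?_
    have e2 : d ^ 3 * ((l ^ 2 - 5) * (-1 + 2 * w + 48 * w ^ 2 - 160 * w ^ 3 +
        6 * (1 - 4 * w) * Y)) = (l ^ 2 - 5) * (-d ^ 3 + 2 * d ^ 2 * (d * w) +
        48 * d * (d * w) ^ 2 - 160 * (d * w) ^ 3 + 6 * (d - 4 * (d * w)) * (d * Y) * d) := by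
      ring
    rw [e2, hA, hB, hdd]
    linear_combination ((-4320 * l ^ 10 - 17280 * l ^ 9 + 38880 * l ^ 8 + 241920 * l ^ 7 + 60480 * l ^ 6 - 1036800
      * l ^ 5 - 1339200 * l ^ 4 + 864000 * l ^ 3 + 2916000 * l ^ 2 + 2160000 * l + 540000) * W ^
      3 + (8640 * l ^ 10 - 146880 * l ^ 9 - 622080 * l ^ 8 + 829440 * l ^ 7 + 5270400 * l ^ 6 +
      2678400 * l ^ 5 - 10368000 * l ^ 4 - 15552000 * l ^ 3 - 7560000 * l ^ 2 - 1080000 * l) * W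
      ^ 2 + (32256 * l ^ 10 + 179712 * l ^ 9 - 1995264 * l ^ 8 - 2672640 * l ^ 7 + 9492480 * l ^
      6 + 3916800 * l ^ 5 - 7833600 * l ^ 4 + 25344000 * l ^ 3 + 32832000 * l ^ 2 - 2880000 * l
      - 8640000) * W + (-148480 * l ^ 10 + 2155520 * l ^ 9 - 2688000 * l ^ 8 - 19072000 * l ^ 7
      + 62336000 * l ^ 6 + 34176000 * l ^ 5 - 127360000 * l ^ 4 - 65920000 * l ^ 3 + 19200000 *
      l ^ 2)) * rel

/-- A nonsplit Cartan structure and a point of order two give a point of the second curve; the point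
determines the structure. -/
theorem mapN {l h : K} (h2 : ∀ z : K, z ^ 2 ≠ 2) (h5 : ∀ z : K, z ^ 2 ≠ 5)
    (hj : (h + 16) ^ 3 = h * jns l) (hw : 7 * l ^ 4 - 45 * l ^ 3 + 30 * l ^ 2 - 25 * l - 75 ≠ 0)
    (h0 : h + 16 ≠ 0) :
    ∃ w Y : K, OnN w Y ∧ h = hN w Y ∧
      l * (1 + 4 * w - 48 * w ^ 2 + 64 * w ^ 3) = 1 + 4 * w + 8 * (1 - 2 * w) * Y ∧
      1 + 4 * w - 48 * w ^ 2 + 64 * w ^ 3 ≠ 0 := by
  have hp : l ^ 2 - 5 ≠ 0 := sub_ne_zero.mpr (h5 l)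
  have hj' : (h + 16) ^ 3 * (l ^ 2 - 5) ^ 5 =
      8000 * h * (l + 1) * (l * (l ^ 2 - 5 * l + 10)) ^ 3 := by
    have e : jns l * (l ^ 2 - 5) ^ 5 = 8000 * (l + 1) * (l * (l ^ 2 - 5 * l + 10)) ^ 3 := by
      unfold jns
      exact div_mul_cancel₀ _ (pow_ne_zero 5 hp)
    linear_combination (l ^ 2 - 5) ^ 5 * hj + h * e
  have hne : (h + 16) ^ 3 * (l ^ 2 - 5) ^ 5 ≠ 0 :=
    mul_ne_zero (pow_ne_zero 3 h0) (pow_ne_zero 5 hp)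
  have hl : l ≠ 0 := by
    rintro rfl
    exact hne (by rw [hj']; ring)
  have hl1 : l + 1 ≠ 0 := by
    intro h3
    exact hne (by rw [hj', h3]; ring)
  have hu : l ^ 2 - 5 * l + 10 ≠ 0 := by
    intro h3
    exact hne (by rw [hj', h3]; ring)
  have h20 : 20 * l * (l ^ 2 - 5 * l + 10) * (l + 1) ≠ 0 :=
    mul_ne_zero (mul_ne_zero (mul_ne_zero (by norm_num) hl) hu) hl1
  obtain ⟨W, hW⟩ : ∃ W : K, 20 * l * (l ^ 2 - 5 * l + 10) * (l + 1) * W =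
      (h + 16) * (l ^ 2 - 5) ^ 2 := ⟨_, mul_div_cancel₀ _ h20⟩
  have hW0 : W ≠ 0 := by
    rintro rfl
    rw [mul_zero] at hW
    exact mul_ne_zero h0 (pow_ne_zero 2 hp) hW.symm
  have hh : h * (l ^ 2 - 5) = (l + 1) ^ 2 * W ^ 3 := by
    have h3 : 8000 * (l * (l ^ 2 - 5 * l + 10)) ^ 3 * (l + 1) ≠ 0 :=
      mul_ne_zero (mul_ne_zero (by norm_num) (pow_ne_zero 3 (mul_ne_zero hl hu))) hl1
    refine mul_left_cancel₀ h3 ?_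
    linear_combination -(l ^ 2 - 5) * hj' -
      ((20 * l * (l ^ 2 - 5 * l + 10) * (l + 1) * W) ^ 2 +
        (20 * l * (l ^ 2 - 5 * l + 10) * (l + 1) * W) * ((h + 16) * (l ^ 2 - 5) ^ 2) +
        ((h + 16) * (l ^ 2 - 5) ^ 2) ^ 2) * hW
  have rel : (l ^ 2 - 5) * (l + 1) ^ 2 * W ^ 3 -
      20 * l * (l ^ 2 - 5 * l + 10) * (l + 1) * W + 16 * (l ^ 2 - 5) ^ 2 = 0 := by
    linear_combination -(l ^ 2 - 5) * hh - hW
  have hd : 16 * (7 * l ^ 4 - 45 * l ^ 3 + 30 * l ^ 2 - 25 * l - 75) ≠ 0 :=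
    mul_ne_zero (by norm_num) hw
  obtain ⟨w, hA⟩ : ∃ w : K, 16 * (7 * l ^ 4 - 45 * l ^ 3 + 30 * l ^ 2 - 25 * l - 75) * w =
      4 * (17 * l ^ 4 - 85 * l ^ 3 + 80 * l ^ 2 + 75 * l - 75) +
      2 * (l ^ 4 - 19 * l ^ 3 - 25 * l ^ 2 - 5 * l) * W +
      3 * (-l ^ 4 - 2 * l ^ 3 + 4 * l ^ 2 + 10 * l + 5) * W ^ 2 := ⟨_, mul_div_cancel₀ _ hd⟩
  obtain ⟨Y, hB⟩ : ∃ Y : K, 16 * (7 * l ^ 4 - 45 * l ^ 3 + 30 * l ^ 2 - 25 * l - 75) * Y =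
      8 * (-32 * l ^ 4 + 105 * l ^ 3 - 45 * l ^ 2 - 125 * l + 25) +
      2 * (9 * l ^ 4 + 39 * l ^ 3 + 85 * l ^ 2 + 105 * l + 50) * W +
      5 * (3 * l ^ 4 + 8 * l ^ 3 + 2 * l ^ 2 - 8 * l - 5) * W ^ 2 := ⟨_, mul_div_cancel₀ _ hd⟩
  obtain ⟨hc, k2, k3⟩ := mapN_aux rel hd hA hB
  have hc' := hc
  unfold OnN at hc'
  obtain ⟨D, hD⟩ : ∃ D : K, D = 1 + 4 * w - 48 * w ^ 2 + 64 * w ^ 3 := ⟨_, rfl⟩
  obtain ⟨N, hN'⟩ : ∃ N : K, N = 1 + 4 * w + 8 * (1 - 2 * w) * Y := ⟨_, rfl⟩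
  obtain ⟨θ, hθ⟩ : ∃ θ : K, θ = -1 + 2 * w + 48 * w ^ 2 - 160 * w ^ 3 + 6 * (1 - 4 * w) * Y :=
    ⟨_, rfl⟩
  obtain ⟨P, hP⟩ : ∃ P : K, P = 4 * (-1 + 8 * w + 120 * w ^ 2 - 576 * w ^ 3 + 640 * w ^ 4) +
    16 * (1 + 2 * w - 8 * w ^ 2) * Y := ⟨_, rfl⟩
  obtain ⟨V, hV⟩ : ∃ V : K, V = 2 * (1 + 10 * w - 72 * w ^ 2 + 480 * w ^ 3 - 640 * w ^ 4) +
    4 * (-5 + 56 * w - 80 * w ^ 2) * Y := ⟨_, rfl⟩
  rw [← hD, ← hN'] at k2
  rw [← hθ] at k3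
  have k4 : N ^ 2 - 5 * D ^ 2 = P := by
    rw [hN', hD, hP]
    linear_combination (256 * w ^ 2 - 256 * w + 64) * hc'
  have k5 : P * θ = 2 * D * V := by
    rw [hP, hθ, hD, hV]
    linear_combination (3072 * w ^ 3 - 1536 * w ^ 2 - 192 * w + 96) * hc'
  have k6 : V ^ 3 = hN w Y * (N + D) * P := by
    unfold hN
    rw [hP, hD, hV, hN']
    linear_combination ((-104857600 * w ^ 6 + 154009600 * w ^ 5 - 81346560 * w ^ 4 + 18038784 * w ^ 3 - 1402880 *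
      w ^ 2 + 38400 * w - 11840) * Y + (681574400 * w ^ 8 - 1258291200 * w ^ 7 + 900136960 * w ^
      6 - 291389440 * w ^ 5 + 30629888 * w ^ 4 + 4241408 * w ^ 3 - 922880 * w ^ 2 - 320 * w +
      2528)) * hc'
  have hD0 : D ≠ 0 := by
    intro hD0
    have h3 : (1 - 4 * w) * (1 + 8 * w - 16 * w ^ 2) = 0 := by
      rw [← hD0, hD]
      ring
    rcases mul_eq_zero.mp h3 with h4 | h4
    · have hw4 : w = 1 / 4 := by linear_combination -(1 / 4 : K) * h4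
      have hN0 : N = 0 := by rw [← k2, hD0, mul_zero]
      rw [hw4] at hN' hθ
      rw [hN0] at hN'
      have hθ0 : θ = 0 := by
        rw [hθ]
        ring
      rw [hθ0, mul_zero] at k3
      exact mul_ne_zero (mul_ne_zero two_ne_zero hW0) hl1 k3
    · exact h2 (4 * w - 1) (by linear_combination -h4)
  have e1 : (l ^ 2 - 5) * D ^ 2 = P := by
    rw [← k4, ← k2]
    ring
  have e2 : W * (l + 1) * D = V := by
    refine mul_left_cancel₀ (mul_ne_zero two_ne_zero hD0) ?_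
    rw [← k5, ← e1]
    linear_combination D ^ 2 * k3
  have e3 : (l + 1) * D = N + D := by rw [← k2]; ring
  refine ⟨w, Y, hc, ?_, by rw [← hD, ← hN']; exact k2, by rw [← hD]; exact hD0⟩
  have hND : N + D ≠ 0 := by
    rw [← e3]
    exact mul_ne_zero hl1 hD0
  have hP0 : P ≠ 0 := by
    rw [← e1]
    exact mul_ne_zero hp (pow_ne_zero 2 hD0)
  have e4 : h * ((N + D) * P) = hN w Y * ((N + D) * P) := by
    rw [← mul_assoc (hN w Y), ← k6, ← e1, ← e2, ← e3]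
    linear_combination (l + 1) * D ^ 3 * hh
  exact mul_right_cancel₀ (mul_ne_zero hND hP0) e4

end SD87
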