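import Pool.Agent.Lib.MP_87c685_nt_SD.Cube

/-!
# The second half of the descent on 50b
-/

set_option autoImplicit false

namespace SD87

open QuadraticAlgebra

private abbrev Q15 : Type := QuadraticAlgebra ℤ (-4) 1

private theorem q_norm (z : Q15) : z.norm = z.re ^ 2 + z.re * z.im + 4 * z.im ^ 2 := by
  rw [QuadraticAlgebra.norm_def]
  ring

private theorem q_mul (z w : Q15) : z * w = ⟨z.re * w.re - 4 * (z.im * w.im),
    z.re * w.im + z.im * w.re + z.im * w.im⟩ := by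
  ext
  · simp
    ring
  · simp

private theorem q_cube (z : Q15) : z ^ 3 = ⟨z.re ^ 3 - 12 * z.re * z.im ^ 2 - 4 * z.im ^ 3,
    3 * z.re ^ 2 * z.im + 3 * z.re * z.im ^ 2 - 3 * z.im ^ 3⟩ := by
  rw [pow_succ, pow_two, q_mul, q_mul]
  ext <;> simp <;> ring

private theorem q_star (z : Q15) : star z = ⟨z.re + z.im, -z.im⟩ := by
  ext <;> simp

private theorem q_norm_star (z : Q15) : (star z).norm = z.norm := by
  rw [q_norm, q_norm, q_star]
  ring

private theorem q_mul_star (z : Q15) : z * star z = ((z.norm : ℤ) : Q15) := by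
  rw [← algebraMap_norm_eq_mul_star]
  simp

private def al : Q15 := ⟨0, 1⟩

private theorem mod4 (x y : ℤ) (h : (4:ℤ) ∣ x ^ 2 + x * y + 4 * y ^ 2) :
    (x % 2 = 0 ∧ y % 2 = 0) ∨ x % 4 = 0 ∨ (x + y) % 4 = 0 := by
  have h1 : (x * (x + y)) % 4 = 0 := by
    obtain ⟨k, hk⟩ := h
    have : x * (x + y) = 4 * (k - y ^ 2) := by linarith
    omega
  have hx : x % 4 = 0 ∨ x % 4 = 1 ∨ x % 4 = 2 ∨ x % 4 = 3 := by omega
  have hy : y % 4 = 0 ∨ y % 4 = 1 ∨ y % 4 = 2 ∨ y % 4 = 3 := by omega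
  rcases hx with hx | hx | hx | hx <;> rcases hy with hy | hy | hy | hy <;>
    simp [Int.mul_emod, Int.add_emod, hx, hy] at h1 <;> omega

private theorem div4 (h : Q15) (h4 : (4:ℤ) ∣ h.norm) :
    ∃ k : Q15, (h = 2 * k ∨ h = al * k ∨ h = star al * k) ∧ h.norm = 4 * k.norm := by
  have h5 := h4
  rw [q_norm] at h5
  rcases mod4 h.re h.im h5 with ⟨h1, h2⟩ | h1 | h1
  · obtain ⟨a, ha⟩ : ∃ a, h.re = 2 * a := ⟨h.re / 2, by omega⟩
    obtain ⟨b, hb⟩ : ∃ b, h.im = 2 * b := ⟨h.im / 2, by omega⟩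
    refine ⟨⟨a, b⟩, Or.inl ?_, ?_⟩
    · rw [q_mul]
      ext <;> simp [ha, hb]
    · rw [q_norm, q_norm, ha, hb]
      ring
  · obtain ⟨a, ha⟩ : ∃ a, h.re = 4 * a := ⟨h.re / 4, by omega⟩
    refine ⟨⟨a + h.im, -a⟩, Or.inr (Or.inl ?_), ?_⟩
    · rw [q_mul]
      ext <;> simp [ha, al]
    · rw [q_norm, q_norm, ha]
      ring
  · obtain ⟨a, ha⟩ : ∃ a, h.re + h.im = 4 * a := ⟨(h.re + h.im) / 4, by omega⟩
    have ha' : h.re = 4 * a - h.im := by linarith
    refine ⟨⟨-h.im, a⟩, Or.inr (Or.inr ?_), ?_⟩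
    · rw [q_mul, q_star]
      ext <;> simp [ha', al]
      ring
    · rw [q_norm, q_norm, ha']
      ring

private theorem cls : ∀ (t : ℕ) (h : Q15), h.norm = 2 ^ t → ∃ (i j : ℕ) (ε β : Q15),
    (ε = 1 ∨ ε = -1) ∧ (β = al ∨ β = star al) ∧ t = 2 * (i + j) ∧ h = ε * 2 ^ i * β ^ j := by
  intro t
  induction t using Nat.strong_induction_on with
  | _ t ih =>
    intro h hn
    rcases Nat.lt_or_ge t 2 with ht | ht
    · have h1 : h.norm = 1 ∨ h.norm = 2 := by
        interval_cases t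
        · left; simpa using hn
        · right; simpa using hn
      have h2 : (2 * h.re + h.im) ^ 2 + 15 * h.im ^ 2 = 4 * h.norm := by
        rw [q_norm]; ring
      have hy : h.im = 0 := by
        have hle : h.norm ≤ 2 := by rcases h1 with h1 | h1 <;> rw [h1]; norm_num
        have h5 : h.im ^ 2 < 1 := by nlinarith [sq_nonneg (2 * h.re + h.im)]
        have h6 : h.im ^ 2 = 0 := le_antisymm (by omega) (sq_nonneg _)
        exact pow_eq_zero_iff (by norm_num) |>.1 h6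
      rw [hy] at h2
      rcases h1 with h1 | h1
      · have hx : h.re = 1 ∨ h.re = -1 := by
          rw [h1] at h2
          have : (h.re - 1) * (h.re + 1) = 0 := by nlinarith
          rcases mul_eq_zero.1 this with h3 | h3
          · left; linarith
          · right; linarith
        have ht0 : t = 0 := by
          interval_cases t
          · rfl
          · rw [h1] at hn; norm_num at hn
        rcases hx with hx | hx
        · exact ⟨0, 0, 1, al, Or.inl rfl, Or.inl rfl, by omega, by ext <;> simp [hx, hy]⟩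
        · exact ⟨0, 0, -1, al, Or.inr rfl, Or.inl rfl, by omega, by ext <;> simp [hx, hy]⟩
      · exfalso
        rw [h1] at h2
        have h3 : h.re ^ 2 = 2 := by nlinarith
        have h4 : h.re ≤ 1 := by nlinarith
        have h5 : -1 ≤ h.re := by nlinarith
        have : h.re = -1 ∨ h.re = 0 ∨ h.re = 1 := by omega
        rcases this with h6 | h6 | h6 <;> rw [h6] at h3 <;> norm_num at h3
    · have h4 : (4:ℤ) ∣ h.norm := by
        rw [hn]
        exact (pow_dvd_pow 2 ht : (2:ℤ) ^ 2 ∣ 2 ^ t)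
      obtain ⟨k, hk, hkn⟩ := div4 h h4
      have hk2 : k.norm = 2 ^ (t - 2) := by
        have : (2:ℤ) ^ t = 4 * 2 ^ (t - 2) := by
          conv_lhs => rw [← Nat.sub_add_cancel ht, pow_add]
          ring
        rw [hn, this] at hkn
        linarith
      obtain ⟨i, j, ε, β, hε, hβ, htt, e⟩ := ih (t - 2) (by omega) k hk2
      have haa : al * star al = 2 ^ 2 := by
        rw [q_mul_star, q_norm]
        simp [al]
        norm_num
      have haa' : star al * al = 2 ^ 2 := by rw [mul_comm]; exact haa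
      rcases hk with hk | hk | hk
      · exact ⟨i + 1, j, ε, β, hε, hβ, by omega, by rw [hk, e]; ring⟩
      · rcases hβ with hβ | hβ
        · exact ⟨i, j + 1, ε, β, hε, Or.inl hβ, by omega, by rw [hk, e, hβ]; ring⟩
        · rcases j with _ | j
          · exact ⟨i, 1, ε, al, hε, Or.inl rfl, by omega, by rw [hk, e]; ring⟩
          · refine ⟨i + 2, j, ε, β, hε, Or.inr hβ, by omega, ?_⟩
            rw [hk, e, hβ, pow_succ, pow_add, ← haa]
            ring
      · rcases hβ with hβ | hβ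
        · rcases j with _ | j
          · exact ⟨i, 1, ε, star al, hε, Or.inr rfl, by omega, by rw [hk, e]; ring⟩
          · refine ⟨i + 2, j, ε, β, hε, Or.inl hβ, by omega, ?_⟩
            rw [hk, e, hβ, pow_succ, pow_add, ← haa]
            ring
        · exact ⟨i, j + 1, ε, β, hε, Or.inr hβ, by omega, by rw [hk, e, hβ]; ring⟩

/-- congruent to a unit constant modulo `3` -/
private def Un (z : Q15) : Prop := (3:ℤ) ∣ z.im ∧ ¬ (3:ℤ) ∣ z.re

private theorem Un.mul {z w : Q15} (hz : Un z) (hw : Un w) : Un (z * w) := by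
  rw [q_mul]
  obtain ⟨⟨a, ha⟩, hz2⟩ := hz
  obtain ⟨⟨b, hb⟩, hw2⟩ := hw
  refine ⟨⟨z.re * b + a * w.re + 3 * a * b, by simp only [ha, hb]; ring⟩, fun hd => ?_⟩
  simp only [ha, hb] at hd
  have h1 : (3:ℤ) ∣ z.re * w.re := by
    have : z.re * w.re = (z.re * w.re - 4 * (3 * a * (3 * b))) + 3 * (12 * a * b) := by ring
    rw [this]
    exact dvd_add hd (dvd_mul_right _ _)
  rcases Int.Prime.dvd_mul' (p := 3) (by norm_num) (by exact_mod_cast h1) with h2 | h2
  · exact hz2 (by exact_mod_cast h2)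
  · exact hw2 (by exact_mod_cast h2)

private theorem Un.pow {z : Q15} (hz : Un z) (n : ℕ) : Un (z ^ n) := by
  induction n with
  | zero =>
    rw [pow_zero]
    refine ⟨by simp, by simp⟩
  | succ n ih =>
    rw [pow_succ]
    exact ih.mul hz

private theorem Un.dvd {z w : Q15} (hz : Un z) (h : (3:ℤ) ∣ (z * w).im) : (3:ℤ) ∣ w.im := by
  rw [q_mul] at h
  obtain ⟨⟨a, ha⟩, hz2⟩ := hz
  simp only [ha] at h
  have h1 : (3:ℤ) ∣ z.re * w.im := by
    have : z.re * w.im = (z.re * w.im + 3 * a * w.re + 3 * a * w.im) -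
        3 * (a * w.re + a * w.im) := by ring
    rw [this]
    exact dvd_sub h (dvd_mul_right _ _)
  rcases Int.Prime.dvd_mul' (p := 3) (by norm_num) (by exact_mod_cast h1) with h2 | h2
  · exact absurd (by exact_mod_cast h2) hz2
  · exact_mod_cast h2

private theorem Un.two : Un 2 := ⟨by simp, by simp⟩

private theorem Un.one : Un 1 := ⟨by simp, by simp⟩

private theorem Un.negone : Un (-1) := ⟨by simp, by simp⟩

private theorem Un.al3 : Un (al ^ 3) := by
  rw [q_cube]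
  refine ⟨by simp [al], by simp [al]⟩

private theorem Un.sal3 : Un ((star al) ^ 3) := by
  rw [q_cube, q_star]
  refine ⟨by simp [al], by simp [al]⟩

private theorem cubeC (n : ℕ) (h : Q15) (hn : h.norm = 8 ^ n) (h3 : (3:ℤ) ∣ h.im) :
    ∃ η : Q15, h = η ^ 3 := by
  have hn' : h.norm = 2 ^ (3 * n) := by rw [hn, pow_mul]; norm_num
  obtain ⟨i, j, ε, β, hε, hβ, ht, e⟩ := cls (3 * n) h hn'
  have hβ3 : Un (β ^ 3) := by
    rcases hβ with rfl | rfl
    · exact Un.al3
    · exact Un.sal3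
  have hεU : Un ε := by
    rcases hε with rfl | rfl
    · exact Un.one
    · exact Un.negone
  have hj : j = 3 * (j / 3) + j % 3 := (Nat.div_add_mod j 3).symm
  have e2 : h = (ε * 2 ^ i * (β ^ 3) ^ (j / 3)) * β ^ (j % 3) := by
    rw [e]
    conv_lhs => rw [hj, pow_add, pow_mul]
    ring
  have h4 : (3:ℤ) ∣ (β ^ (j % 3)).im := by
    rw [e2] at h3
    exact ((hεU.mul (Un.two.pow i)).mul (hβ3.pow _)).dvd h3
  have hj3 : j % 3 = 0 := by
    have : j % 3 < 3 := Nat.mod_lt _ (by norm_num)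
    generalize j % 3 = r at this h4
    interval_cases r
    · rfl
    · exfalso
      rw [pow_one] at h4
      rcases hβ with rfl | rfl
      · simp [al] at h4
      · simp [al] at h4
    · exfalso
      rw [pow_two, q_mul] at h4
      rcases hβ with rfl | rfl
      · simp [al] at h4
      · simp [al] at h4
  obtain ⟨m, hm⟩ : ∃ m, j = 3 * m := ⟨j / 3, by omega⟩
  obtain ⟨l, hl⟩ : ∃ l, i = 3 * l := ⟨i / 3, by omega⟩
  have hε3 : ε ^ 3 = ε := by
    rcases hε with rfl | rfl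
    · ring
    · ring
  refine ⟨ε * 2 ^ l * β ^ m, ?_⟩
  rw [e, hm, hl, mul_pow, mul_pow, hε3]
  ring

private theorem q_int_mul (c : ℤ) (z : Q15) : ((c : ℤ) : Q15) * z = ⟨c * z.re, c * z.im⟩ := by
  rw [q_mul]
  ext <;> simp

private theorem q_cancel {c : ℤ} (hc : c ≠ 0) {z w : Q15}
    (h : ((c : ℤ) : Q15) * z = ((c : ℤ) : Q15) * w) : z = w := by
  rw [q_int_mul, q_int_mul] at h
  have h1 := congrArg QuadraticAlgebra.re h
  have h2 := congrArg QuadraticAlgebra.im h
  simp only at h1 h2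
  ext
  · exact mul_left_cancel₀ hc h1
  · exact mul_left_cancel₀ hc h2

private theorem three_dvd_mul {a b : ℤ} (h : (3:ℤ) ∣ a * b) : (3:ℤ) ∣ a ∨ (3:ℤ) ∣ b := by
  rcases Int.Prime.dvd_mul' (p := 3) (by norm_num) (by exact_mod_cast h) with h2 | h2
  · left; exact_mod_cast h2
  · right; exact_mod_cast h2

private theorem cube_unit (z : Q15) (h : ¬ (3:ℤ) ∣ z.norm) : Un (z ^ 3) := by
  rw [q_cube]
  refine ⟨⟨z.re ^ 2 * z.im + z.re * z.im ^ 2 - z.im ^ 3, by ring⟩, fun hd => h ?_⟩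
  simp only at hd
  have h1 : (3:ℤ) ∣ (z.re - z.im) ^ 3 := by
    have : (z.re - z.im) ^ 3 = (z.re ^ 3 - 12 * z.re * z.im ^ 2 - 4 * z.im ^ 3) +
        3 * (- z.re ^ 2 * z.im + 5 * z.re * z.im ^ 2 + z.im ^ 3) := by ring
    rw [this]
    exact dvd_add hd (dvd_mul_right _ _)
  have h2 : (3:ℤ) ∣ z.re - z.im := by
    have h3 : (3:ℤ) ∣ (z.re - z.im) * (z.re - z.im) ^ 2 := by
      rw [← pow_succ']; exact h1
    rcases three_dvd_mul h3 with h4 | h4
    · exact h4
    · rw [pow_two] at h4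
      rcases three_dvd_mul h4 with h5 | h5 <;> exact h5
  obtain ⟨c, hc⟩ := h2
  have h3 : z.re = z.im + 3 * c := by linarith
  rw [q_norm, h3]
  exact ⟨2 * z.im ^ 2 + 3 * c ^ 2 + 3 * z.im * c, by ring⟩

/-- an element whose cube is divisible by `8` is divisible by `2` -/
private theorem half_cube (X W : Q15) (hX : X ^ 3 = ((8:ℤ) : Q15) * W) :
    ∃ Y : Q15, Y ^ 3 = W := by
  have h0 := hX
  rw [q_cube, q_int_mul] at hX
  have h1 := congrArg QuadraticAlgebra.re hX
  have h2 := congrArg QuadraticAlgebra.im hX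
  simp only at h1 h2
  have key : ∀ x y : ZMod 8, x ^ 3 - 12 * x * y ^ 2 - 4 * y ^ 3 = 0 →
      3 * x ^ 2 * y + 3 * x * y ^ 2 - 3 * y ^ 3 = 0 → 4 * x = 0 ∧ 4 * y = 0 := by decide +kernel
  have e1 : ((X.re : ZMod 8)) ^ 3 - 12 * X.re * X.im ^ 2 - 4 * X.im ^ 3 = 0 := by
    have := congrArg (Int.cast : ℤ → ZMod 8) h1
    push_cast at this
    rw [this]
    have h8 : (8 : ZMod 8) = 0 := by decide
    rw [h8, zero_mul]
  have e2 : 3 * ((X.re : ZMod 8)) ^ 2 * X.im + 3 * X.re * X.im ^ 2 - 3 * X.im ^ 3 = 0 := by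
    have := congrArg (Int.cast : ℤ → ZMod 8) h2
    push_cast at this
    rw [this]
    have h8 : (8 : ZMod 8) = 0 := by decide
    rw [h8, zero_mul]
  obtain ⟨k1, k2⟩ := key _ _ e1 e2
  have d1 : (8:ℤ) ∣ 4 * X.re := by
    have := (ZMod.intCast_zmod_eq_zero_iff_dvd (4 * X.re) 8).1 (by push_cast; exact k1)
    exact_mod_cast this
  have d2 : (8:ℤ) ∣ 4 * X.im := by
    have := (ZMod.intCast_zmod_eq_zero_iff_dvd (4 * X.im) 8).1 (by push_cast; exact k2)
    exact_mod_cast this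
  obtain ⟨a, ha⟩ : ∃ a, X.re = 2 * a := ⟨X.re / 2, by omega⟩
  obtain ⟨b, hb⟩ : ∃ b, X.im = 2 * b := ⟨X.im / 2, by omega⟩
  have hXY : X = ((2:ℤ) : Q15) * ⟨a, b⟩ := by
    rw [q_int_mul]
    ext <;> simp [ha, hb]
  refine ⟨⟨a, b⟩, q_cancel (c := 8) (by norm_num) ?_⟩
  rw [← h0, hXY, mul_pow]
  norm_num

private theorem core (S T R : ℤ) (hR : 0 < R) (h3 : ¬ (3:ℤ) ∣ R)
    (h : S ^ 2 + 135 * T ^ 2 = 4 * R ^ 3)
    (hcop : ∀ p : ℕ, p.Prime → p ≠ 2 → (p:ℤ) ∣ R → ¬ (p:ℤ) ∣ T) :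
    ∃ p q : ℤ, p ^ 2 + 15 * q ^ 2 = 4 * R ∧ p ^ 3 - 45 * p * q ^ 2 = 4 * S ∧
      p ^ 2 * q - 5 * q ^ 3 = 4 * T := by
  -- parity
  obtain ⟨x, hx⟩ : ∃ x, S = 2 * x + 3 * T := by
    have h1 : (S - 3 * T) % 2 = 0 := by
      have h2 : (S ^ 2 + 135 * T ^ 2) % 2 = 0 := by rw [h]; omega
      have hS : S % 2 = 0 ∨ S % 2 = 1 := by omega
      have hT : T % 2 = 0 ∨ T % 2 = 1 := by omega
      rcases hS with hS | hS <;> rcases hT with hT | hT <;>
        simp [pow_two, Int.add_emod, Int.mul_emod, hS, hT] at h2 <;> omega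
    exact ⟨(S - 3 * T) / 2, by omega⟩
  -- the odd part of R
  obtain ⟨v, R', hR', hodd⟩ : ∃ (v : ℕ) (R' : ℤ), R = 2 ^ v * R' ∧ ¬ (2:ℤ) ∣ R' := by
    obtain ⟨v, c, hc, e⟩ := Nat.exists_eq_pow_mul_and_not_dvd (n := R.natAbs) (by omega) 2 (by norm_num)
    refine ⟨v, c, ?_, by exact_mod_cast hc⟩
    have : (R.natAbs : ℤ) = R := Int.natAbs_of_nonneg hR.le
    rw [← this, e]
    push_cast
    rfl
  have hRp' : 0 < R' := by
    rw [hR'] at hR
    by_contra hneg
    push Not at hneg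
    have h1 : (0:ℤ) < 2 ^ v := by positivity
    nlinarith
  have hR'R : R' ∣ R := ⟨2 ^ v, by rw [hR']; ring⟩
  have hcop' : IsCoprime (3 * T) R' := by
    rw [Int.isCoprime_iff_gcd_eq_one]
    by_contra hg
    obtain ⟨p, hp, hpd⟩ := Nat.exists_prime_and_dvd hg
    have hp1 : (p:ℤ) ∣ 3 * T := (Int.natCast_dvd_natCast.2 hpd).trans (Int.gcd_dvd_left _ _)
    have hp2 : (p:ℤ) ∣ R' := (Int.natCast_dvd_natCast.2 hpd).trans (Int.gcd_dvd_right _ _)
    have hpn2 : p ≠ 2 := by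
      rintro rfl
      exact hodd (by exact_mod_cast hp2)
    rcases Int.Prime.dvd_mul' hp hp1 with h1 | h1
    · have h4 : p ∣ 3 := by exact_mod_cast h1
      have h5 : p = 3 := (Nat.prime_dvd_prime_iff_eq hp Nat.prime_three).1 h4
      rw [h5] at hp2
      exact h3 (dvd_trans (by exact_mod_cast hp2) hR'R)
    · exact hcop p hp hpn2 (hp2.trans hR'R) h1
  have hNW : x ^ 2 + x * (3 * T) + 4 * (3 * T) ^ 2 = R ^ 3 := by
    have : 4 * (x ^ 2 + x * (3 * T) + 4 * (3 * T) ^ 2) = S ^ 2 + 135 * T ^ 2 := by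
      rw [hx]; ring
    linarith
  obtain ⟨z, g, M, hM, hzN, hzg⟩ := cube_root 4 {1, 2} (by
    intro A B C hA hD
    obtain ⟨X, Y, hXY⟩ := rep15 A B C hA (by rw [hD]; norm_num)
    exact ⟨X, Y, by simpa using hXY⟩) x (3 * T) R' hRp' hcop' (by
      rw [hNW]
      exact pow_dvd_pow_of_dvd hR'R 3)
  set W : Q15 := ⟨x, 3 * T⟩ with hW
  have hWn : W.norm = R ^ 3 := by
    rw [q_norm, ← hNW]
  change z ^ 3 * star W = (R' ^ 3) • g at hzg
  have hM' : M = 1 ∨ M = 2 := by simpa using hM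
  have hMp : 0 < M := by rcases hM' with h1 | h1 <;> rw [h1] <;> norm_num
  have hR3 : R ^ 3 = 8 ^ v * R' ^ 3 := by
    rw [hR', mul_pow, ← pow_mul, mul_comm v 3, pow_mul]
    norm_num
  have hsm : ∀ (c : ℤ) (u : Q15), c • u = ((c:ℤ):Q15) * u := by
    intro c u
    rw [q_int_mul]
    ext <;> simp
  rw [hsm] at hzg
  -- the norm of g
  have hgN : g.norm = M ^ 3 * 8 ^ v := by
    have e1 := congrArg QuadraticAlgebra.norm hzg
    rw [map_mul, map_pow, hzN, q_norm_star, hWn, map_mul, hR3, norm_intCast] at e1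
    simp only [Int.cast_id] at e1
    have e2 : (R' ^ 3) ^ 2 * (M ^ 3 * 8 ^ v) = (R' ^ 3) ^ 2 * g.norm := by
      rw [← e1]; ring
    exact (mul_left_cancel₀ (by positivity) e2).symm
  -- z^3 * star g = M^3 * W
  have h8v : (8:ℤ) ^ v ≠ 0 := by positivity
  have hR3' : R' ^ 3 ≠ 0 := by positivity
  have hmain : z ^ 3 * star g = ((M ^ 3 : ℤ) : Q15) * W := by
    have e1 : (((8:ℤ) ^ v : ℤ) : Q15) * z ^ 3 = g * W := by
      apply q_cancel hR3'
      have : ((R' ^ 3 : ℤ) : Q15) * (g * W) = z ^ 3 * (W * star W) := by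
        rw [← mul_assoc, ← hzg]; ring
      rw [this, q_mul_star, hWn, hR3]
      push_cast
      ring
    apply q_cancel h8v
    have : (((8:ℤ) ^ v : ℤ) : Q15) * (z ^ 3 * star g) = (g * star g) * W := by
      rw [← mul_assoc, e1]; ring
    rw [this, q_mul_star, hgN]
    push_cast
    ring
  -- star g is a cube
  have hzn3 : ¬ (3:ℤ) ∣ z.norm := by
    rw [hzN]
    intro hd
    rcases three_dvd_mul hd with h1 | h1
    · rcases hM' with h2 | h2 <;> rw [h2] at h1 <;> norm_num at h1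
    · exact h3 (h1.trans hR'R)
  have hg3 : (3:ℤ) ∣ (star g).im := by
    apply (cube_unit z hzn3).dvd
    rw [hmain, q_int_mul]
    exact ⟨M ^ 3 * T, by simp only [hW]; ring⟩
  obtain ⟨η, hη⟩ : ∃ η : Q15, star g = η ^ 3 := by
    rcases hM' with h1 | h1
    · refine cubeC v (star g) ?_ hg3
      rw [q_norm_star, hgN, h1]; ring
    · refine cubeC (v + 1) (star g) ?_ hg3
      rw [q_norm_star, hgN, h1]; ring
  rw [hη, ← mul_pow] at hmain
  obtain ⟨Y, hY⟩ : ∃ Y : Q15, Y ^ 3 = W := by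
    rcases hM' with h1 | h1
    · refine ⟨z * η, ?_⟩
      rw [hmain, h1]
      simp
    · refine half_cube (z * η) W ?_
      rw [hmain, h1]
      norm_num
  have hYN : Y.norm = R := by
    have e1 := congrArg QuadraticAlgebra.norm hY
    rw [map_pow, hWn] at e1
    exact (Odd.strictMono_pow (by decide : Odd 3)).injective e1
  have hYc := hY
  rw [q_cube] at hYc
  have y1 := congrArg QuadraticAlgebra.re hYc
  have y2 := congrArg QuadraticAlgebra.im hYc
  simp only [hW] at y1 y2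
  rw [q_norm] at hYN
  refine ⟨2 * Y.re + Y.im, Y.im, ?_, ?_, ?_⟩
  · rw [← hYN]; ring
  · rw [hx]
    linear_combination 8 * y1 + 4 * y2
  · have y3 : Y.re ^ 2 * Y.im + Y.re * Y.im ^ 2 - Y.im ^ 3 = T := by linarith
    linear_combination 4 * y3

/-- The second half of the descent, over `ℚ(√-15)`. -/
theorem half15 (r s e ρ : ℤ) (he : 0 < e) (hc : IsCoprime r e) (hρ : ρ = 3 * r + 8 * e ^ 2)
    (h : 27 * s ^ 2 + 5 * e ^ 2 * (3 * ρ - 32 * e ^ 2) ^ 2 = 4 * ρ ^ 3) :
    ∃ a b : ℤ, 4 * ρ = 3 * a ^ 2 + 5 * b ^ 2 ∧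
      9 * a ^ 2 * (b + e) = 5 * b ^ 3 - 15 * e * b ^ 2 + 128 * e ^ 3 := by
  have hno : ∀ p : ℕ, p.Prime → (p:ℤ) ∣ e → ¬ (p:ℤ) ∣ r := by
    intro p hp h1 h2
    have := hc.isUnit_of_dvd' h2 h1
    exact hp.one_lt.ne' (by simpa using Int.isUnit_iff_natAbs_eq.1 this)
  by_cases h3 : (3:ℤ) ∣ ρ
  · -- case B
    obtain ⟨ρ1, hρ1⟩ := h3
    have h3e : (3:ℤ) ∣ e := by
      have h4 : (3:ℤ) ∣ 8 * e ^ 2 := ⟨ρ1 - r, by linarith⟩
      rcases three_dvd_mul h4 with h5 | h5
      · norm_num at h5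
      · rw [pow_two] at h5
        rcases three_dvd_mul h5 with h6 | h6 <;> exact h6
    obtain ⟨e1, he1⟩ := h3e
    have hρr : ρ1 = r + 24 * e1 ^ 2 := by
      have : 3 * ρ1 = 3 * (r + 24 * e1 ^ 2) := by rw [← hρ1, hρ, he1]; ring
      linarith
    have heq : s ^ 2 + 135 * (e1 * (ρ1 - 32 * e1 ^ 2)) ^ 2 = 4 * ρ1 ^ 3 := by
      have : 27 * (s ^ 2 + 135 * (e1 * (ρ1 - 32 * e1 ^ 2)) ^ 2) = 27 * (4 * ρ1 ^ 3) := by
        have h5 := h
        rw [hρ1, he1] at h5
        linear_combination h5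
      linarith
    have h3n : ¬ (3:ℤ) ∣ ρ1 := by
      intro h4
      refine hno 3 Nat.prime_three (by exact_mod_cast (⟨e1, he1⟩ : (3:ℤ) ∣ e)) ?_
      have : (3:ℤ) ∣ ρ1 - 3 * (8 * e1 ^ 2) := dvd_sub h4 (dvd_mul_right _ _)
      have e2 : r = ρ1 - 3 * (8 * e1 ^ 2) := by rw [hρr]; ring
      rw [e2]
      exact_mod_cast this
    have hpos : 0 < ρ1 := by
      rcases lt_trichotomy ρ1 0 with h4 | h4 | h4
      · have : ρ1 ^ 3 < 0 := Odd.pow_neg (by decide) h4
        nlinarith [sq_nonneg s, sq_nonneg (e1 * (ρ1 - 32 * e1 ^ 2))]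
      · exact absurd (by rw [h4]; exact dvd_zero _) h3n
      · exact h4
    obtain ⟨p, q, g1, g2, g3⟩ := core s (e1 * (ρ1 - 32 * e1 ^ 2)) ρ1 hpos h3n heq (by
      intro p hp hp2 h4 h5
      have hpi : Prime (p:ℤ) := Nat.prime_iff_prime_int.1 hp
      have h6 : (p:ℤ) ∣ e1 := by
        rcases hpi.dvd_or_dvd h5 with h7 | h7
        · exact h7
        · have h8 : (p:ℤ) ∣ 32 * e1 ^ 2 := by
            have : (p:ℤ) ∣ ρ1 - (ρ1 - 32 * e1 ^ 2) := dvd_sub h4 h7
            have e2 : ρ1 - (ρ1 - 32 * e1 ^ 2) = 32 * e1 ^ 2 := by ring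
            rwa [e2] at this
          rcases hpi.dvd_or_dvd h8 with h9 | h9
          · exfalso
            have h10 : p ∣ 2 ^ 5 := by exact_mod_cast h9
            exact hp2 ((Nat.prime_dvd_prime_iff_eq hp Nat.prime_two).1 (hp.dvd_of_dvd_pow h10))
          · exact hpi.dvd_of_dvd_pow h9
      refine hno p hp (h6.trans ⟨3, by rw [he1]; ring⟩) ?_
      have e2 : r = ρ1 - e1 * (24 * e1) := by rw [hρr]; ring
      rw [e2]
      exact dvd_sub h4 (h6.trans (dvd_mul_right _ _)))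
    refine ⟨p, -3 * q, ?_, ?_⟩
    · rw [hρ1]
      linear_combination (-3) * g1
    · rw [he1]
      linear_combination (-27) * g3 + 27 * e1 * g1
  · -- case A
    set k : ℤ := e * (3 * ρ - 32 * e ^ 2) with hk
    have hsk : 27 * s ^ 2 + 5 * k ^ 2 = 4 * ρ ^ 3 := by
      rw [← h, hk]; ring
    obtain ⟨T, hT⟩ : ∃ T, s + k = 2 * T := by
      have h1 : (s + k) % 2 = 0 := by
        have h2 : (27 * s ^ 2 + 5 * k ^ 2) % 2 = 0 := by rw [hsk]; omega
        have hS : s % 2 = 0 ∨ s % 2 = 1 := by omega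
        have hK : k % 2 = 0 ∨ k % 2 = 1 := by omega
        clear_value k
        rcases hS with hS | hS <;> rcases hK with hK | hK <;>
          simp [pow_two, Int.add_emod, Int.mul_emod, hS, hK] at h2 <;> omega
      exact ⟨(s + k) / 2, by omega⟩
    have hs : s = 2 * T - k := by linarith
    have heq : (27 * T - 16 * k) ^ 2 + 135 * T ^ 2 = 4 * (2 * ρ) ^ 3 := by
      have h5 := hsk
      rw [hs] at h5
      linear_combination 8 * h5
    have hpos : 0 < ρ := by
      rcases lt_trichotomy ρ 0 with h4 | h4 | h4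
      · have : ρ ^ 3 < 0 := Odd.pow_neg (by decide) h4
        nlinarith [sq_nonneg s, sq_nonneg k]
      · exact absurd (by rw [h4]; exact dvd_zero _) h3
      · exact h4
    obtain ⟨p, q, g1, g2, g3⟩ := core (27 * T - 16 * k) T (2 * ρ) (by linarith) (by
        intro h4
        rcases three_dvd_mul h4 with h5 | h5
        · norm_num at h5
        · exact h3 h5) heq (by
      intro p hp hp2 h4 h5
      have hpi : Prime (p:ℤ) := Nat.prime_iff_prime_int.1 hp
      have hpow2 : ∀ n : ℕ, ¬ (p:ℤ) ∣ 2 ^ n := by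
        intro n h9
        have h10 : p ∣ 2 ^ n := by exact_mod_cast h9
        exact hp2 ((Nat.prime_dvd_prime_iff_eq hp Nat.prime_two).1 (hp.dvd_of_dvd_pow h10))
      have h6 : (p:ℤ) ∣ ρ := by
        rcases hpi.dvd_or_dvd h4 with h7 | h7
        · exact absurd (by simpa using h7) (hpow2 1)
        · exact h7
      have h7 : (p:ℤ) ∣ k := by
        have h8 : (p:ℤ) ∣ 2 ^ 5 * k ^ 2 := by
          have e2 : (2:ℤ) ^ 5 * k ^ 2 = ρ * (4 * ρ ^ 2) - T * (27 * (4 * T - 4 * k)) := by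
            have h9 := hsk
            rw [hs] at h9
            linear_combination h9
          rw [e2]
          exact dvd_sub (h6.trans (dvd_mul_right _ _)) (h5.trans (dvd_mul_right _ _))
        rcases hpi.dvd_or_dvd h8 with h9 | h9
        · exact absurd h9 (hpow2 5)
        · exact hpi.dvd_of_dvd_pow h9
      have h8 : (p:ℤ) ∣ e := by
        rw [hk] at h7
        rcases hpi.dvd_or_dvd h7 with h9 | h9
        · exact h9
        · have h10 : (p:ℤ) ∣ 2 ^ 5 * e ^ 2 := by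
            have e2 : (2:ℤ) ^ 5 * e ^ 2 = ρ * 3 - (3 * ρ - 32 * e ^ 2) := by ring
            rw [e2]
            exact dvd_sub (h6.trans (dvd_mul_right _ _)) h9
          rcases hpi.dvd_or_dvd h10 with h11 | h11
          · exact absurd h11 (hpow2 5)
          · exact hpi.dvd_of_dvd_pow h11
      have h9 : (p:ℤ) ∣ 3 * r := by
        have e2 : 3 * r = ρ - e * (8 * e) := by rw [hρ]; ring
        rw [e2]
        exact dvd_sub h6 (h8.trans (dvd_mul_right _ _))
      rcases hpi.dvd_or_dvd h9 with h10 | h10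
      · have h11 : p ∣ 3 := by exact_mod_cast h10
        have h12 : p = 3 := (Nat.prime_dvd_prime_iff_eq hp Nat.prime_three).1 h11
        rw [h12] at h6
        exact h3 (by exact_mod_cast h6)
      · exact hno p hp h8 h10)
    -- p = q mod 4
    have hfac : (p - 5 * q) * (p ^ 2 + 10 * p * q + 5 * q ^ 2) = 16 * (4 * s) := by
      rw [hs]
      linear_combination g2 + 5 * g3
    have hpq : (4:ℤ) ∣ p - q := by
      have key : ∀ x y : ZMod 16, 2 * (x ^ 2 + 15 * y ^ 2) = 0 →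
          (x - 5 * y) * (x ^ 2 + 10 * x * y + 5 * y ^ 2) = 0 → 4 * (x - y) = 0 := by
        decide +kernel
      have e1 : 2 * ((p : ZMod 16) ^ 2 + 15 * (q : ZMod 16) ^ 2) = 0 := by
        have := congrArg (Int.cast : ℤ → ZMod 16) (congrArg (fun t => 2 * t) g1)
        push_cast at this
        rw [this]
        have h16 : (2 * (4 * (2 * (ρ : ZMod 16))) : ZMod 16) = 16 * ρ := by ring
        rw [h16]
        have h17 : (16 : ZMod 16) = 0 := by decide
        rw [h17, zero_mul]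
      have e2 : ((p : ZMod 16) - 5 * q) * ((p : ZMod 16) ^ 2 + 10 * p * q + 5 * (q : ZMod 16) ^ 2)
          = 0 := by
        have := congrArg (Int.cast : ℤ → ZMod 16) hfac
        push_cast at this
        rw [this]
        have h17 : (16 : ZMod 16) = 0 := by decide
        rw [h17, zero_mul]
      have e3 := key _ _ e1 e2
      have e4 := (ZMod.intCast_zmod_eq_zero_iff_dvd (4 * (p - q)) 16).1 (by push_cast; exact e3)
      push_cast at e4
      omega
    obtain ⟨c, hcc⟩ := hpq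
    have hp' : p = q + 4 * c := by linarith
    have hρ2 : 4 * ρ = 3 * (c - q) ^ 2 + 5 * (c + q) ^ 2 := by
      rw [hp'] at g1
      linarith
    refine ⟨c - q, c + q, hρ2, ?_⟩
    have hkk : k = -(c + q) * (c ^ 2 - 7 * c * q + q ^ 2) := by
      have h1 : 64 * k = 27 * (p ^ 2 * q - 5 * q ^ 3) - (p ^ 3 - 45 * p * q ^ 2) := by
        linear_combination (-27) * g3 + g2
      rw [hp'] at h1
      linarith
    linear_combination 4 * hkk - 4 * hk - 3 * e * hρ2

end SD87
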