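import Pool.Agent.Lib.MP_87c685_nt_SD.E50A
import Pool.Agent.Lib.MP_87c685_nt_SD.E50B

/-!
# Rational points of the elliptic curves 50b
-/

set_option autoImplicit false

namespace SD87

/-- a certificate that an integer is not a square -/
private def nsq (V : ℤ) : Bool :=
  decide (V < 0) || [64, 9, 25, 7, 11, 13, 17, 19, 23, 29, 31].any fun m : ℕ =>
    (List.range m).all fun t => decide (((t : ℤ) * t - V) % m ≠ 0)

private lemma nsq_sound (V s : ℤ) (h : nsq V = true) : s ^ 2 ≠ V := by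
  intro hs
  unfold nsq at h
  rw [Bool.or_eq_true, decide_eq_true_eq, List.any_eq_true] at h
  rcases h with h | ⟨m, hm, h⟩
  · nlinarith [sq_nonneg s]
  · rw [List.all_eq_true] at h
    have hm0 : 0 < m := by
      simp only [List.mem_cons, List.not_mem_nil, or_false] at hm
      omega
    have hmz : (0:ℤ) < m := by exact_mod_cast hm0
    have h0 : 0 ≤ s % m := Int.emod_nonneg _ hmz.ne'
    have hlt : s % m < m := Int.emod_lt_of_pos _ hmz
    have h1 := h (s % m).toNat (List.mem_range.2 (by omega))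
    rw [decide_eq_true_eq] at h1
    apply h1
    rw [Int.toNat_of_nonneg h0]
    have h2 : (m:ℤ) ∣ s - s % m := Int.dvd_self_sub_emod
    obtain ⟨c, hc⟩ := h2
    have h3 : s % m = s - m * c := by linarith
    rw [h3, ← hs]
    refine Int.emod_eq_zero_of_dvd ⟨c * (m * c) - 2 * s * c, ?_⟩
    ring

private lemma fin_check : ∀ e ∈ Finset.Icc (1:ℤ) 5, ∀ r ∈ Finset.Icc (-27:ℤ) 27,
    Int.gcd r e = 1 → nsq (4 * r ^ 3 + 5 * e ^ 2 * (r - e ^ 2) ^ 2) = true ∨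
      (e = 1 ∧ (r = 1 ∨ r = -1)) := by
  decide +kernel

/-- integral form of the first curve -/
private lemma den5 (x y : ℚ) (h : y ^ 2 = 4 * x ^ 3 + 5 * (x - 1) ^ 2) :
    ∃ r s e : ℤ, 0 < e ∧ IsCoprime r e ∧ x = r / e ^ 2 ∧ y = s / e ^ 3 ∧
      s ^ 2 = 4 * r ^ 3 + 5 * e ^ 2 * (r - e ^ 2) ^ 2 := by
  obtain ⟨r, s, e, he, hc, hx, hv⟩ := den (-1) 1 (-1) (-3) 1 x ((y + x + 1) / 2)
    (by push_cast; linear_combination h / 4)
  have heQ : (e:ℚ) ≠ 0 := by exact_mod_cast he.ne'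
  have hy : y = ((2 * s - r * e - e ^ 3 : ℤ) : ℚ) / e ^ 3 := by
    have h1 : y = 2 * ((y + x + 1) / 2) - x - 1 := by ring
    rw [h1, hv, hx]
    push_cast
    field_simp
  refine ⟨r, 2 * s - r * e - e ^ 3, e, he, hc, hx, hy, ?_⟩
  have h2 : (((2 * s - r * e - e ^ 3 : ℤ) : ℚ)) ^ 2 =
      ((4 * r ^ 3 + 5 * e ^ 2 * (r - e ^ 2) ^ 2 : ℤ) : ℚ) := by
    rw [hy, hx] at h
    generalize (2 * s - r * e - e ^ 3 : ℤ) = t at h ⊢
    field_simp at h
    push_cast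
    linear_combination h
  exact_mod_cast h2

/-- integral form of the second curve -/
private lemma den15 (x y : ℚ) (h : y ^ 2 = 4 * x ^ 3 + 17 * x ^ 2 + 112 * x + 64) :
    ∃ r s e ρ : ℤ, 0 < e ∧ IsCoprime r e ∧ x = r / e ^ 2 ∧ y = s / e ^ 3 ∧
      ρ = 3 * r + 8 * e ^ 2 ∧
      27 * s ^ 2 + 5 * e ^ 2 * (3 * ρ - 32 * e ^ 2) ^ 2 = 4 * ρ ^ 3 := by
  obtain ⟨r, s, e, he, hc, hx, hv⟩ := den (-3) 2 (-8) 16 0 x ((y + 3 * x + 8) / 2)
    (by push_cast; linear_combination h / 4)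
  have heQ : (e:ℚ) ≠ 0 := by exact_mod_cast he.ne'
  have hy : y = ((2 * s - 3 * r * e - 8 * e ^ 3 : ℤ) : ℚ) / e ^ 3 := by
    have h1 : y = 2 * ((y + 3 * x + 8) / 2) - 3 * x - 8 := by ring
    rw [h1, hv, hx]
    push_cast
    field_simp
  refine ⟨r, 2 * s - 3 * r * e - 8 * e ^ 3, e, 3 * r + 8 * e ^ 2, he, hc, hx, hy, rfl, ?_⟩
  have h2 : ((27 * (2 * s - 3 * r * e - 8 * e ^ 3) ^ 2 +
      5 * e ^ 2 * (3 * (3 * r + 8 * e ^ 2) - 32 * e ^ 2) ^ 2 : ℤ) : ℚ) =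
      ((4 * (3 * r + 8 * e ^ 2) ^ 3 : ℤ) : ℚ) := by
    rw [hy, hx] at h
    generalize (2 * s - 3 * r * e - 8 * e ^ 3 : ℤ) = t at h ⊢
    field_simp at h
    push_cast
    linear_combination 27 * h
  exact_mod_cast h2

/-- the point on the first curve from the second half -/
private lemma back (a b e : ℤ) (he : 0 < e)
    (h2 : 9 * a ^ 2 * (b + e) = 5 * b ^ 3 - 15 * e * b ^ 2 + 128 * e ^ 3) :
    b + e ≠ 0 ∧ (3 * (a:ℚ) / (b + e)) ^ 2 =
      4 * (3 * (e:ℚ) / (b + e)) ^ 3 + 5 * (3 * (e:ℚ) / (b + e) - 1) ^ 2 := by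
  have hne : b + e ≠ 0 := by
    intro h0
    have hb : b = -e := by linarith
    rw [hb] at h2
    have h3 : e ^ 3 = 0 := by linarith
    exact he.ne' (pow_eq_zero_iff (by norm_num) |>.1 h3)
  refine ⟨hne, ?_⟩
  have hneQ : (b:ℚ) + e ≠ 0 := by exact_mod_cast hne
  have h2Q : 9 * (a:ℚ) ^ 2 * (b + e) = 5 * b ^ 3 - 15 * e * b ^ 2 + 128 * e ^ 3 := by
    exact_mod_cast h2
  field_simp
  linear_combination h2Q

/-- the values of the parameters at the known points -/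
private lemma back_vals (a b e ρ : ℤ) (he : 0 < e) (h1 : 4 * ρ = 3 * a ^ 2 + 5 * b ^ 2)
    (h2 : 9 * a ^ 2 * (b + e) = 5 * b ^ 3 - 15 * e * b ^ 2 + 128 * e ^ 3)
    (h3 : 3 * e = b + e ∨ 3 * e = -(b + e)) : ρ = 8 * e ^ 2 ∨ ρ = 32 * e ^ 2 := by
  rcases h3 with h3 | h3
  · left
    have hb : b = 2 * e := by linarith
    rw [hb] at h2 h1
    have h4 : e * (a ^ 2 - 4 * e ^ 2) = 0 := by linarith
    rcases mul_eq_zero.1 h4 with h5 | h5
    · exact absurd h5 he.ne'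
    · linarith
  · right
    have hb : b = -4 * e := by linarith
    rw [hb] at h2 h1
    have h4 : e * (a ^ 2 - 16 * e ^ 2) = 0 := by linarith
    rcases mul_eq_zero.1 h4 with h5 | h5
    · exact absurd h5 he.ne'
    · linarith

/-- the size estimates of one round -/
private lemma sizes (r1 s1 e1 ρ a' b' e b r2 e2 : ℤ) (he : 0 < e) (he1 : 0 < e1)
    (hc1 : IsCoprime r1 e1) (hρ : ρ = 3 * r1 + 8 * e1 ^ 2)
    (hs : 27 * s1 ^ 2 + 5 * e1 ^ 2 * (3 * ρ - 32 * e1 ^ 2) ^ 2 = 4 * ρ ^ 3)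
    (hξ : 32 * e * e1 ^ 2 = ρ * (e + 3 * b)) (h1 : 4 * ρ = 3 * a' ^ 2 + 5 * b' ^ 2)
    (hne : b' + e1 ≠ 0) (he2 : 0 < e2) (hc2 : IsCoprime r2 e2)
    (hr2 : 3 * e1 * e2 ^ 2 = r2 * (b' + e1)) :
    e2 ^ 4 < 192 * e ∧ r2 ^ 2 ≤ 144 * e := by
  have he1' : 0 < e1 ^ 2 := by positivity
  have hρ0 : 0 < ρ := by
    by_contra hle
    push Not at hle
    have h3 : ρ ^ 3 ≤ 0 := by
      have : ρ ^ 3 = ρ * ρ ^ 2 := by ring
      rw [this]
      exact mul_nonpos_of_nonpos_of_nonneg hle (sq_nonneg _)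
    have h4 : 3 * ρ - 32 * e1 ^ 2 < 0 := by linarith
    have h5 : 0 < 5 * e1 ^ 2 * (3 * ρ - 32 * e1 ^ 2) ^ 2 := by
      have : 0 < (3 * ρ - 32 * e1 ^ 2) ^ 2 := by
        rw [sq]
        exact mul_pos_of_neg_of_neg h4 h4
      positivity
    nlinarith [sq_nonneg s1]
  have hρ6 : 6 * e1 ^ 2 ≤ ρ := by
    by_contra hlt
    push Not at hlt
    have h4 : 14 * e1 ^ 2 < 32 * e1 ^ 2 - 3 * ρ := by linarith
    have h5 : (14 * e1 ^ 2) ^ 2 < (32 * e1 ^ 2 - 3 * ρ) ^ 2 :=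
      pow_lt_pow_left₀ h4 (by positivity) (by norm_num)
    have h6 : ρ ^ 3 < (6 * e1 ^ 2) ^ 3 := pow_lt_pow_left₀ hlt hρ0.le (by norm_num)
    have h7 : 5 * e1 ^ 2 * (14 * e1 ^ 2) ^ 2 < 5 * e1 ^ 2 * (32 * e1 ^ 2 - 3 * ρ) ^ 2 :=
      mul_lt_mul_of_pos_left h5 (by positivity)
    have h8 : 0 < e1 ^ 6 := by positivity
    nlinarith [sq_nonneg s1]
  have hdvd : ρ ∣ 96 * e := by
    have hd : ρ ∣ e1 ^ 2 * (32 * e) := ⟨e + 3 * b, by linarith⟩
    -- `gcd (ρ, e1 ^ 2)` divides `3`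
    have hcop : IsCoprime r1 (e1 ^ 2) := hc1.pow_right
    obtain ⟨u, v, huv⟩ := hcop
    -- `3 = u ρ + (3 v - 8 u) e1 ^ 2`
    have h3 : 3 = u * ρ + (3 * v - 8 * u) * e1 ^ 2 := by
      rw [hρ]
      linear_combination -3 * huv
    have h4 : 96 * e = ρ * (32 * e * u) + (3 * v - 8 * u) * (e1 ^ 2 * (32 * e)) := by
      linear_combination 32 * e * h3
    rw [h4]
    exact dvd_add (Dvd.intro _ rfl) (hd.mul_left _)
  have hle : ρ ≤ 96 * e := Int.le_of_dvd (by positivity) hdvd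
  have hdv2 : e2 ^ 2 ∣ b' + e1 := by
    have h3 : IsCoprime (e2 ^ 2) r2 := hc2.symm.pow_left
    exact h3.dvd_of_dvd_mul_left ⟨3 * e1, by linarith⟩
  have hr2d : r2 ∣ 3 * e1 := by
    have h3 : IsCoprime r2 (e2 ^ 2) := hc2.pow_right
    exact h3.dvd_of_dvd_mul_right ⟨b' + e1, by linarith⟩
  have hb2 : 5 * b' ^ 2 ≤ 4 * ρ := by nlinarith [sq_nonneg a']
  constructor
  · have h3 : e2 ^ 2 ≤ |b' + e1| := by
      have h4 : e2 ^ 2 ∣ |b' + e1| := (dvd_abs _ _).2 hdv2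
      exact Int.le_of_dvd (abs_pos.2 hne) h4
    have h5 : (e2 ^ 2) ^ 2 ≤ (b' + e1) ^ 2 := by
      rw [← sq_abs (b' + e1)]
      exact pow_le_pow_left₀ (by positivity) h3 2
    have h6 : (b' + e1) ^ 2 ≤ 2 * b' ^ 2 + 2 * e1 ^ 2 := by nlinarith [sq_nonneg (b' - e1)]
    have h7 : e2 ^ 4 = (e2 ^ 2) ^ 2 := by ring
    rw [h7]
    linarith
  · have h3 : |r2| ≤ 3 * e1 := by
      have h4 : |r2| ∣ 3 * e1 := (abs_dvd _ _).2 hr2d
      exact Int.le_of_dvd (by positivity) h4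
    have h5 : |r2| ^ 2 ≤ (3 * e1) ^ 2 := pow_le_pow_left₀ (abs_nonneg _) h3 2
    rw [sq_abs] at h5
    nlinarith

/-- infinite descent -/
private lemma descent (m : ℕ) : ∀ r s e : ℤ, 0 < e → e.toNat = m → IsCoprime r e →
    s ^ 2 = 4 * r ^ 3 + 5 * e ^ 2 * (r - e ^ 2) ^ 2 → e = 1 ∧ (r = 1 ∨ r = -1) := by
  induction m using Nat.strong_induction_on with
  | _ m ih =>
  intro r s e he hm hc h
  obtain ⟨a, b, hr, hab⟩ := half5 r s e he hc h
  have hne : e + 3 * b ≠ 0 := by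
    intro h0
    have hee : e = -(3 * b) := by linarith
    have h1 : (3 * b + e) = 0 := by linarith
    rw [h1, mul_zero, hee] at hab
    have h2 : b ^ 3 = 0 := by linarith
    have h3 : b = 0 := pow_eq_zero_iff (by norm_num) |>.1 h2
    rw [h3] at hee
    omega
  have hneQ : (e:ℚ) + 3 * b ≠ 0 := by exact_mod_cast hne
  have habQ : (a:ℚ) ^ 2 * (3 * b + e) = 4 * e ^ 3 + 5 * e * b ^ 2 - 5 * b ^ 3 := by
    exact_mod_cast hab
  -- the point on the second curve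
  have hpt : (32 * (a:ℚ) / (e + 3 * b)) ^ 2 = 4 * ((32 * e / (e + 3 * b) - 8) / 3) ^ 3 +
      17 * ((32 * e / (e + 3 * b) - 8) / 3) ^ 2 + 112 * ((32 * e / (e + 3 * b) - 8) / 3) + 64 := by
    field_simp
    linear_combination (27648 : ℚ) * habQ
  obtain ⟨r1, s1, e1, ρ, he1, hc1, hx1, -, hρ, hs1⟩ := den15 _ _ hpt
  obtain ⟨a', b', h1, h2⟩ := half15 r1 s1 e1 ρ he1 hc1 hρ hs1
  obtain ⟨hne', hpt'⟩ := back a' b' e1 he1 h2
  obtain ⟨r2, s2, e2, he2, hc2, hx2, -, hs2⟩ := den5 _ _ hpt'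
  have he1Q : (e1:ℚ) ≠ 0 := by exact_mod_cast he1.ne'
  have he2Q : (e2:ℚ) ≠ 0 := by exact_mod_cast he2.ne'
  have hne'Q : (b':ℚ) + e1 ≠ 0 := by exact_mod_cast hne'
  have hξ : 32 * e * e1 ^ 2 = ρ * (e + 3 * b) := by
    have h3 : (32:ℚ) * e * e1 ^ 2 = (3 * r1 + 8 * e1 ^ 2) * (e + 3 * b) := by
      field_simp at hx1
      linear_combination hx1
    rw [hρ]
    exact_mod_cast h3
  have hr2 : 3 * e1 * e2 ^ 2 = r2 * (b' + e1) := by
    have h3 : (3:ℚ) * e1 * e2 ^ 2 = r2 * (b' + e1) := by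
      rw [div_eq_div_iff hne'Q (by positivity)] at hx2
      exact hx2
    exact_mod_cast h3
  obtain ⟨hz1, hz2⟩ := sizes r1 s1 e1 ρ a' b' e b r2 e2 he he1 hc1 hρ hs1 hξ h1 hne' he2 hc2 hr2
  have hkey : e2 = 1 ∧ (r2 = 1 ∨ r2 = -1) := by
    by_cases hlt : e2 < e
    · exact ih e2.toNat (by omega) r2 s2 e2 he2 rfl hc2 hs2
    · push Not at hlt
      have h3 : e ≤ 5 := by
        by_contra h6
        push Not at h6
        have h7 : 6 ≤ e := h6
        have h8 : e ^ 4 ≤ e2 ^ 4 := pow_le_pow_left₀ he.le hlt 4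
        have h9 : e ^ 4 = e ^ 3 * e := by ring
        have h10 : (6:ℤ) ^ 3 ≤ e ^ 3 := pow_le_pow_left₀ (by norm_num) h7 3
        nlinarith
      have h4 : e2 ≤ 5 := by
        by_contra h6
        push Not at h6
        have h10 : (6:ℤ) ^ 4 ≤ e2 ^ 4 := pow_le_pow_left₀ (by norm_num) h6 4
        linarith
      have h5 : -27 ≤ r2 ∧ r2 ≤ 27 := by
        constructor <;> nlinarith
      rcases fin_check e2 (Finset.mem_Icc.2 ⟨he2, h4⟩) r2 (Finset.mem_Icc.2 h5)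
        (Int.isCoprime_iff_gcd_eq_one.1 hc2) with h6 | h6
      · exact absurd hs2 (nsq_sound _ _ h6)
      · exact h6
  have hpm : 3 * e1 = b' + e1 ∨ 3 * e1 = -(b' + e1) := by
    rcases hkey with ⟨h3, h4 | h4⟩
    · left
      rw [h3, h4] at hr2
      linarith
    · right
      rw [h3, h4] at hr2
      linarith
  have hdiv : r = -e ^ 2 ∨ r = e ^ 2 := by
    have he12 : e1 ^ 2 ≠ 0 := by positivity
    rcases back_vals a' b' e1 ρ he1 h1 h2 hpm with h3 | h3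
    · left
      rw [h3] at hξ
      have h4 : e1 ^ 2 * (24 * (e - b)) = 0 := by linear_combination hξ
      have h5 : b = e := by
        rcases mul_eq_zero.1 h4 with h5 | h5
        · exact absurd h5 he12
        · linarith
      rw [h5] at hab hr
      have h6 : e * (a ^ 2 - e ^ 2) = 0 := by linarith
      rcases mul_eq_zero.1 h6 with h7 | h7
      · exact absurd h7 he.ne'
      · linarith
    · right
      rw [h3] at hξ
      have h4 : e1 ^ 2 * (96 * b) = 0 := by linear_combination -hξ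
      have h5 : b = 0 := by
        rcases mul_eq_zero.1 h4 with h5 | h5
        · exact absurd h5 he12
        · linarith
      rw [h5] at hab hr
      have h6 : e * (a ^ 2 - 4 * e ^ 2) = 0 := by linarith
      rcases mul_eq_zero.1 h6 with h7 | h7
      · exact absurd h7 he.ne'
      · linarith
  have hee : e = 1 := by
    have hd : e ∣ r := by
      rcases hdiv with h3 | h3
      · exact ⟨-e, by rw [h3]; ring⟩
      · exact ⟨e, by rw [h3]; ring⟩
    have hu : IsUnit e := hc.isUnit_of_dvd' hd dvd_rfl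
    rcases Int.isUnit_iff.1 hu with h3 | h3
    · exact h3
    · omega
  refine ⟨hee, ?_⟩
  rw [hee] at hdiv
  rcases hdiv with h3 | h3
  · right
    linarith
  · left
    linarith

private lemma first (x y : ℚ) (h : y ^ 2 = 4 * x ^ 3 + 5 * (x - 1) ^ 2) : x = 1 ∨ x = -1 := by
  obtain ⟨r, s, e, he, hc, hx, -, hs⟩ := den5 x y h
  obtain ⟨h1, h2⟩ := descent e.toNat r s e he rfl hc hs
  rw [hx, h1]
  rcases h2 with h2 | h2
  · left
    rw [h2]
    norm_num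
  · right
    rw [h2]
    norm_num

/-- The rational points of `y ^ 2 = x ^ 3 + 5 (x - 4) ^ 2`. -/
theorem E50' (x y : ℚ) (h : y ^ 2 = x ^ 3 + 5 * (x - 4) ^ 2) : x = 4 ∨ x = -4 := by
  have h1 := first (x / 4) (y / 4) (by linear_combination h / 16)
  rcases h1 with h1 | h1
  · left
    linarith
  · right
    linarith

/-- The rational points of `y ^ 2 = 4 x ^ 3 + 17 x ^ 2 + 112 x + 64`. -/
theorem E50 (x y : ℚ) (h : y ^ 2 = 4 * x ^ 3 + 17 * x ^ 2 + 112 * x + 64) : x = 0 ∨ x = 8 := by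
  obtain ⟨r, s, e, ρ, he, hc, hx, -, hρ, hs⟩ := den15 x y h
  obtain ⟨a, b, h1, h2⟩ := half15 r s e ρ he hc hρ hs
  obtain ⟨hne, hpt⟩ := back a b e he h2
  have heQ : (e:ℚ) ≠ 0 := by exact_mod_cast he.ne'
  have hneQ : (b:ℚ) + e ≠ 0 := by exact_mod_cast hne
  have hpm : 3 * e = b + e ∨ 3 * e = -(b + e) := by
    rcases first _ _ hpt with h3 | h3
    · left
      rw [div_eq_iff hneQ, one_mul] at h3
      exact_mod_cast h3
    · right
      rw [div_eq_iff hneQ, neg_one_mul] at h3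
      exact_mod_cast h3
  have hρQ : (ρ:ℚ) = 3 * r + 8 * e ^ 2 := by exact_mod_cast hρ
  rcases back_vals a b e ρ he h1 h2 hpm with h3 | h3
  · left
    have h4 : r = 0 := by
      rw [hρ] at h3
      linarith
    rw [hx, h4]
    simp
  · right
    have h4 : r = 8 * e ^ 2 := by
      rw [hρ] at h3
      linarith
    rw [hx, h4]
    push_cast
    field_simp

end SD87
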