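import Mathlib

/-!
# Powers of two modulo fifth powers
-/

set_option autoImplicit false

namespace SD87

/-- The classes of the powers of two modulo fifth powers. -/
theorem fifth_class (p q : ℚ) (k : ℕ) (hk : k = 1 ∨ k = 2 ∨ k = 3 ∨ k = 4) (hp : p ≠ 0)
    (h : p ^ 5 = 2 ^ k * q ^ 5) : False := by
  have hq : q ≠ 0 := by
    rintro rfl
    rw [zero_pow (by norm_num), mul_zero] at h
    exact hp (pow_eq_zero_iff (by norm_num) |>.1 h)
  have : Fact (Nat.Prime 2) := ⟨Nat.prime_two⟩
  have h1 := congrArg (padicValRat 2) h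
  have h2 : padicValRat 2 (2 : ℚ) = 1 := by
    have := padicValRat.self (p := 2) (by norm_num)
    exact_mod_cast this
  rw [padicValRat.pow, padicValRat.mul (pow_ne_zero _ (by norm_num)) (pow_ne_zero _ hq),
    padicValRat.pow, padicValRat.pow, h2] at h1
  push_cast at h1
  omega

/-- Fifth powers are injective on the rationals. -/
theorem fifth_inj {p q : ℚ} (h : p ^ 5 = q ^ 5) : p = q :=
  (Odd.strictMono_pow (by decide : Odd 5)).injective h

end SD87
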