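import Pool.Agent.Lib.MP_87c685_nt_SD.PencilC
import Pool.Agent.Lib.MP_87c685_nt_SD.E50
import Pool.Agent.Lib.MP_87c685_nt_SD.FifthC

/-!
# Two points of the first curve with the same value of the Hauptmodul
-/

set_option autoImplicit false

namespace SD87

variable {K : Type*} [Field K] [CharZero K] [Algebra ℚ K] (Q : QF ℚ K)

private theorem twoc_conj {X₁ v₁ X₂ v₂ h : K} (h₁ : h = hC X₁ v₁) (h₂ : h = hC X₂ v₂)
    (hX : X₂ = Q.sig X₁) (hv : v₂ = Q.sig v₁) : ∃ q : ℚ, h = algebraMap ℚ K q := by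
  apply Q.base_of_sig
  calc Q.sig h = Q.sig (hC X₁ v₁) := by rw [← h₁]
    _ = hC (Q.sig X₁) (Q.sig v₁) := by
        simp only [hC, map_add, map_mul, map_one, map_ofNat]
    _ = h := by rw [← hX, ← hv, ← h₂]

private theorem twoc_lin {X₁ v₁ X₂ v₂ h m n T N : K} (h₁ : h = hC X₁ v₁) (h₂ : h = hC X₂ v₂)
    (hne : ¬ (X₁ = X₂ ∧ v₁ = v₂)) (hm : Q.sig m = m) (hn : Q.sig n = n)
    (a₁ : v₁ = m * X₁ + n) (a₂ : v₂ = m * X₂ + n) (b₁ : X₁ ^ 2 = T * X₁ - N)
    (b₂ : X₂ ^ 2 = T * X₂ - N) (c₁ : X₁ + Q.sig X₁ = T) :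
    ∃ q : ℚ, h = algebraMap ℚ K q := by
  have h0 : (X₂ - X₁) * (X₂ + X₁ - T) = 0 := by linear_combination b₂ - b₁
  rcases mul_eq_zero.1 h0 with h3 | h3
  · exfalso
    have h4 : X₁ = X₂ := by linear_combination -h3
    exact hne ⟨h4, by rw [a₁, a₂, h4]⟩
  · have h4 : X₂ = Q.sig X₁ := by linear_combination h3 - c₁
    refine twoc_conj Q h₁ h₂ h4 ?_
    rw [a₂, a₁, map_add, map_mul, hm, hn, h4]

omit [CharZero K] in
private theorem twoc_kk {h : K} {k l : ℕ} {p q : ℚ} (hk : k = 0 ∨ k = 1 ∨ k = 3 ∨ k = 4)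
    (hl : l = 0 ∨ l = 1 ∨ l = 3 ∨ l = 4) (h0 : h ≠ 0)
    (h1 : h * Q.sig h = algebraMap ℚ K (2 ^ k * p ^ 5))
    (h2 : h * Q.sig h = algebraMap ℚ K (2 ^ l * q ^ 5)) : k = l ∧ p = q := by
  have hs : h * Q.sig h ≠ 0 := mul_ne_zero h0 (by rwa [Ne, map_eq_zero])
  have e : 2 ^ k * p ^ 5 = 2 ^ l * q ^ 5 := (algebraMap ℚ K).injective (h1.symm.trans h2)
  have hp : p ≠ 0 := by
    rintro rfl
    apply hs
    rw [h1, zero_pow (by norm_num), mul_zero, map_zero]
  have hq : q ≠ 0 := by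
    rintro rfl
    apply hs
    rw [h2, zero_pow (by norm_num), mul_zero, map_zero]
  rcases hk with rfl | rfl | rfl | rfl <;> rcases hl with rfl | rfl | rfl | rfl
  · exact ⟨rfl, fifth_inj (by linear_combination e)⟩
  · exact (fifth_class p q 1 (by norm_num) hp (by linear_combination e)).elim
  · exact (fifth_class p q 3 (by norm_num) hp (by linear_combination e)).elim
  · exact (fifth_class p q 4 (by norm_num) hp (by linear_combination e)).elim
  · exact (fifth_class q p 1 (by norm_num) hq (by linear_combination -e)).elim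
  · exact ⟨rfl, fifth_inj (by linear_combination e / 2)⟩
  · exact (fifth_class p q 2 (by norm_num) hp (by linear_combination e / 2)).elim
  · exact (fifth_class p q 3 (by norm_num) hp (by linear_combination e / 2)).elim
  · exact (fifth_class q p 3 (by norm_num) hq (by linear_combination -e)).elim
  · exact (fifth_class q p 2 (by norm_num) hq (by linear_combination -e / 2)).elim
  · exact ⟨rfl, fifth_inj (by linear_combination e / 8)⟩
  · exact (fifth_class p q 1 (by norm_num) hp (by linear_combination e / 8)).elim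
  · exact (fifth_class q p 4 (by norm_num) hq (by linear_combination -e)).elim
  · exact (fifth_class q p 3 (by norm_num) hq (by linear_combination -e / 2)).elim
  · exact (fifth_class q p 1 (by norm_num) hq (by linear_combination -e / 8)).elim
  · exact ⟨rfl, fifth_inj (by linear_combination e / 16)⟩

/-- the data of a point in terms of the class of the norm -/
private theorem twoc_type {X v h : K} (e : OnC X v) (hh : h = hC X v) :
    (∃ q : ℚ, h = algebraMap ℚ K q) ∨ h * Q.sig h = 4096 ∨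
    (∃ (k : ℕ) (q : ℚ), (k = 0 ∨ k = 1 ∨ k = 3 ∨ k = 4) ∧
      h * Q.sig h = algebraMap ℚ K (2 ^ k * q ^ 5) ∧
      (k = 0 → X = algebraMap ℚ K (-q) ∧ Q.sig v = 3 * X + 8 - v) ∧
      (k ≠ 0 → ∃ m n T N : ℚ,
        m = (if k = 4 then q / 2 - 2 else if k = 1 then 6 - q / 2 else q - 2) ∧
        n = (if k = 4 then -16 - 8 * m else if k = 1 then 48 - 8 * m else 0) ∧
        T = (if k = 3 then m ^ 2 - 3 * m - 2 else m ^ 2 - 3 * m - 10) ∧
        N = (if k = 4 then 8 * (m ^ 2 + 5 * m + 6) else if k = 1 then 8 * (m ^ 2 - 11 * m + 30)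
          else 8 * (m + 2)) ∧
        v = algebraMap ℚ K m * X + algebraMap ℚ K n ∧
        X ^ 2 = algebraMap ℚ K T * X - algebraMap ℚ K N ∧
        X + Q.sig X = algebraMap ℚ K T)) := by
  rcases pencilC Q E50 e hh with h1 | h1 | ⟨X₀, h1, h2, h3⟩ | ⟨μ, _, h1⟩
  · exact Or.inl h1
  · exact Or.inr (Or.inl h1)
  · refine Or.inr (Or.inr ⟨0, -X₀, by norm_num, ?_, fun _ => ⟨?_, h2⟩, fun h => absurd rfl h⟩)
    · rw [h3]
      simp only [map_mul, map_pow, map_neg, map_ofNat]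
      ring
    · rw [neg_neg, h1]
  · rcases h1 with ⟨a, b, c, d⟩ | ⟨a, b, c, d⟩ | ⟨a, b, c, d⟩
    · refine Or.inr (Or.inr ⟨4, 2 * (μ + 2), by norm_num, ?_, fun h => by omega, fun _ =>
        ⟨μ, -16 - 8 * μ, μ ^ 2 - 3 * μ - 10, 8 * (μ ^ 2 + 5 * μ + 6), ?_, ?_, ?_, ?_, ?_, b, c⟩⟩)
      · rw [d]
        simp only [map_mul, map_pow, map_add, map_ofNat]
        ring
      · norm_num
      · norm_num
      · norm_num
      · norm_num
      · rw [a]
        simp only [map_mul, map_sub, map_neg, map_ofNat]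
        ring
    · refine Or.inr (Or.inr ⟨1, -(2 * (μ - 6)), by norm_num, ?_, fun h => by omega, fun _ =>
        ⟨μ, 48 - 8 * μ, μ ^ 2 - 3 * μ - 10, 8 * (μ ^ 2 - 11 * μ + 30), ?_, ?_, ?_, ?_, ?_, b, c⟩⟩)
      · rw [d]
        simp only [map_mul, map_pow, map_sub, map_neg, map_ofNat]
        ring
      · norm_num
        ring
      · norm_num
      · norm_num
      · norm_num
      · rw [a]
        simp only [map_mul, map_sub, map_ofNat]
        ring
    · refine Or.inr (Or.inr ⟨3, μ + 2, by norm_num, ?_, fun h => by omega, fun _ =>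
        ⟨μ, 0, μ ^ 2 - 3 * μ - 2, 8 * (μ + 2), ?_, ?_, ?_, ?_, ?_, b, c⟩⟩)
      · rw [d]
        simp only [map_mul, map_pow, map_add, map_ofNat]
        ring
      · norm_num
      · norm_num
      · norm_num
      · norm_num
      · rw [a, map_zero, add_zero]

/-- Two different roots of the quintic: the case of the subgroup of order 24. -/
theorem twoC {X₁ v₁ X₂ v₂ h : K} (e₁ : OnC X₁ v₁) (e₂ : OnC X₂ v₂) (h₁ : h = hC X₁ v₁)
    (h₂ : h = hC X₂ v₂) (hne : ¬ (X₁ = X₂ ∧ v₁ = v₂)) :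
    (∃ q : ℚ, h = algebraMap ℚ K q) ∨ h * Q.sig h = 4096 := by
  by_cases h0 : h = 0
  · exact Or.inl ⟨0, by rw [h0, map_zero]⟩
  rcases twoc_type Q e₁ h₁ with h3 | h3 | ⟨k₁, q₁, a₁, b₁, c₁, d₁⟩
  · exact Or.inl h3
  · exact Or.inr h3
  rcases twoc_type Q e₂ h₂ with h3 | h3 | ⟨k₂, q₂, a₂, b₂, c₂, d₂⟩
  · exact Or.inl h3
  · exact Or.inr h3
  obtain ⟨rfl, rfl⟩ := twoc_kk Q a₁ a₂ h0 b₁ b₂
  left
  by_cases hk : k₁ = 0
  · obtain ⟨x₁, s₁⟩ := c₁ hk
    obtain ⟨x₂, _⟩ := c₂ hk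
    have hX : X₂ = X₁ := x₂.trans x₁.symm
    have h5 : (v₂ - v₁) * (v₂ + v₁ - 3 * X₁ - 8) = 0 := by
      unfold OnC at e₁ e₂
      rw [hX] at e₂
      linear_combination e₂ - e₁
    rcases mul_eq_zero.1 h5 with h6 | h6
    · exact (hne ⟨hX.symm, by linear_combination -h6⟩).elim
    · refine twoc_conj Q h₁ h₂ ?_ ?_
      · rw [hX]
        exact (Q.sig_of_base ⟨_, x₁⟩).symm
      · rw [s₁]
        linear_combination h6
  · obtain ⟨m, n, T, N, hm, hn, hT, hN, v1, x1, s1⟩ := d₁ hk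
    obtain ⟨m', n', T', N', hm', hn', hT', hN', v2, x2, _⟩ := d₂ hk
    have em : m' = m := hm'.trans hm.symm
    subst em
    have en : n' = n := hn'.trans hn.symm
    have eT : T' = T := hT'.trans hT.symm
    have eN : N' = N := hN'.trans hN.symm
    subst en eT eN
    exact twoc_lin Q h₁ h₂ hne (Q.sig_base _) (Q.sig_base _) v1 v2 x1 x2 s1

end SD87
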