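import Pool.Agent.Lib.MP_87c685_nt_SD.Defs
import Pool.Agent.Lib.MP_87c685_nt_SD.E50
import Pool.Agent.Lib.MP_87c685_nt_SD.FifthC

/-!
# Two points of the second curve with the same value of the Hauptmodul
-/

set_option autoImplicit false

namespace SD87

section Core

variable {K : Type*} [Field K] [CharZero K]

private theorem coreA {m x x' w Y w' Y' : K} (hx : x ≠ 0) (hx' : x' ≠ 0)
    (hTr : x + x' = 1*m^2 - 9) (hNm : x * x' = 4 * (m ^ 2 + 4 * m - 1))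
    (hw : w = x⁻¹) (hw' : w' = x'⁻¹)
    (hY : Y = (m * (x - 4) + (-8)) * w ^ 2) (hY' : Y' = (m * (x' - 4) + (-8)) * w' ^ 2) :
    hN w Y * hN w' Y' * (m ^ 2 + 4 * m - 1) ^ 5 = -64 * (m ^ 2 - 6 * m - 11) ^ 5 ∧
    (hN w Y + hN w' Y') * (m ^ 2 + 4 * m - 1) ^ 5 = 63*m^10 + 10*m^9 - 2785*m^8 - 8520*m^7 + 24430*m^6 + 181532*m^5 + 350470*m^4 - 29320*m^3 - 420365*m^2 - 463190*m - 156613 := by
  have E : hN w Y * x ^ 5 = (-1*m^8 + 30*m^7 - 302*m^6 + 678*m^5 + 7120*m^4 - 39462*m^3 - 10130*m^2 + 374626*m - 496399) * x + (4*m^8 - 104*m^7 + 776*m^6 + 952*m^5 - 31920*m^4 + 67528*m^3 + 313912*m^2 - 957208*m + 212844) := by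
    have h2 : x ^ 2 = (1*m^2 - 9) * x - 4 * (m ^ 2 + 4 * m - 1) := by linear_combination x * hTr - hNm
    have h1 : hN w Y * x ^ 5 = -x ^ 5 - 350 * x ^ 4 - 3200 * x ^ 3 + 56000 * x ^ 2 - 224000 * x +
        320000 + 10 * (3 * x ^ 3 + 180 * x ^ 2 - 1520 * x + 3520) * (m * (x - 4) + (-8)) := by
      rw [hY, hw, hN]
      field_simp
    rw [h1]
    linear_combination ((-1*m^6 + 30*m^5 - 315*m^4 + 1052*m^3 + 3457*m^2 - 29658*m + 43611) + (-1*m^4 + 30*m^3 - 328*m^2 + 1426*m - 375) * x + (-1*m^2 + 30*m - 341) * x ^ 2 + (-1) * x ^ 3) * h2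
  have E' : hN w' Y' * x' ^ 5 = (-1*m^8 + 30*m^7 - 302*m^6 + 678*m^5 + 7120*m^4 - 39462*m^3 - 10130*m^2 + 374626*m - 496399) * x' + (4*m^8 - 104*m^7 + 776*m^6 + 952*m^5 - 31920*m^4 + 67528*m^3 + 313912*m^2 - 957208*m + 212844) := by
    have h2 : x' ^ 2 = (1*m^2 - 9) * x' - 4 * (m ^ 2 + 4 * m - 1) := by linear_combination x' * hTr - hNm
    have h1 : hN w' Y' * x' ^ 5 = -x' ^ 5 - 350 * x' ^ 4 - 3200 * x' ^ 3 + 56000 * x' ^ 2 -
        224000 * x' + 320000 + 10 * (3 * x' ^ 3 + 180 * x' ^ 2 - 1520 * x' + 3520) *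
          (m * (x' - 4) + (-8)) := by
      rw [hY', hw', hN]
      field_simp
    rw [h1]
    linear_combination ((-1*m^6 + 30*m^5 - 315*m^4 + 1052*m^3 + 3457*m^2 - 29658*m + 43611) + (-1*m^4 + 30*m^3 - 328*m^2 + 1426*m - 375) * x' + (-1*m^2 + 30*m - 341) * x' ^ 2 + (-1) * x' ^ 3) * h2
  have F : x ^ 5 = (1*m^8 - 48*m^6 - 48*m^5 + 730*m^4 + 992*m^3 - 3880*m^2 - 4016*m + 7549) * x + (-4*m^8 - 16*m^7 + 144*m^6 + 688*m^5 - 920*m^4 - 6448*m^3 - 112*m^2 + 13968*m - 3204) := by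
    have h2 : x ^ 2 = (1*m^2 - 9) * x - 4 * (m ^ 2 + 4 * m - 1) := by linear_combination x * hTr - hNm
    linear_combination ((1*m^6 - 35*m^4 - 32*m^3 + 323*m^2 + 288*m - 801) + (1*m^4 - 22*m^2 - 16*m + 85) * x + (1*m^2 - 9) * x ^ 2 + (1) * x ^ 3) * h2
  have F' : x' ^ 5 = (1*m^8 - 48*m^6 - 48*m^5 + 730*m^4 + 992*m^3 - 3880*m^2 - 4016*m + 7549) * x' + (-4*m^8 - 16*m^7 + 144*m^6 + 688*m^5 - 920*m^4 - 6448*m^3 - 112*m^2 + 13968*m - 3204) := by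
    have h2 : x' ^ 2 = (1*m^2 - 9) * x' - 4 * (m ^ 2 + 4 * m - 1) := by linear_combination x' * hTr - hNm
    linear_combination ((1*m^6 - 35*m^4 - 32*m^3 + 323*m^2 + 288*m - 801) + (1*m^4 - 22*m^2 - 16*m + 85) * x' + (1*m^2 - 9) * x' ^ 2 + (1) * x' ^ 3) * h2
  have G : hN w Y * hN w' Y' * (4 * (m ^ 2 + 4 * m - 1)) ^ 5 =
      ((-1*m^8 + 30*m^7 - 302*m^6 + 678*m^5 + 7120*m^4 - 39462*m^3 - 10130*m^2 + 374626*m - 496399) * x + (4*m^8 - 104*m^7 + 776*m^6 + 952*m^5 - 31920*m^4 + 67528*m^3 + 313912*m^2 - 957208*m + 212844)) * ((-1*m^8 + 30*m^7 - 302*m^6 + 678*m^5 + 7120*m^4 - 39462*m^3 - 10130*m^2 + 374626*m - 496399) * x' + (4*m^8 - 104*m^7 + 776*m^6 + 952*m^5 - 31920*m^4 + 67528*m^3 + 313912*m^2 - 957208*m + 212844)) := by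
    rw [← E, ← E', ← hNm]
    ring
  have G' : (hN w Y + hN w' Y') * (4 * (m ^ 2 + 4 * m - 1)) ^ 5 =
      ((-1*m^8 + 30*m^7 - 302*m^6 + 678*m^5 + 7120*m^4 - 39462*m^3 - 10130*m^2 + 374626*m - 496399) * x + (4*m^8 - 104*m^7 + 776*m^6 + 952*m^5 - 31920*m^4 + 67528*m^3 + 313912*m^2 - 957208*m + 212844)) * ((1*m^8 - 48*m^6 - 48*m^5 + 730*m^4 + 992*m^3 - 3880*m^2 - 4016*m + 7549) * x' + (-4*m^8 - 16*m^7 + 144*m^6 + 688*m^5 - 920*m^4 - 6448*m^3 - 112*m^2 + 13968*m - 3204)) +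
      ((-1*m^8 + 30*m^7 - 302*m^6 + 678*m^5 + 7120*m^4 - 39462*m^3 - 10130*m^2 + 374626*m - 496399) * x' + (4*m^8 - 104*m^7 + 776*m^6 + 952*m^5 - 31920*m^4 + 67528*m^3 + 313912*m^2 - 957208*m + 212844)) * ((1*m^8 - 48*m^6 - 48*m^5 + 730*m^4 + 992*m^3 - 3880*m^2 - 4016*m + 7549) * x + (-4*m^8 - 16*m^7 + 144*m^6 + 688*m^5 - 920*m^4 - 6448*m^3 - 112*m^2 + 13968*m - 3204)) := by
    rw [← E, ← E', ← F, ← F', ← hNm]
    ring
  constructor
  · refine mul_left_cancel₀ (show (1024 : K) ≠ 0 by norm_num) ?_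
    linear_combination G + (-1*m^8 + 30*m^7 - 302*m^6 + 678*m^5 + 7120*m^4 - 39462*m^3 - 10130*m^2 + 374626*m - 496399) ^ 2 * hNm + (-1*m^8 + 30*m^7 - 302*m^6 + 678*m^5 + 7120*m^4 - 39462*m^3 - 10130*m^2 + 374626*m - 496399) * (4*m^8 - 104*m^7 + 776*m^6 + 952*m^5 - 31920*m^4 + 67528*m^3 + 313912*m^2 - 957208*m + 212844) * hTr
  · refine mul_left_cancel₀ (show (1024 : K) ≠ 0 by norm_num) ?_
    linear_combination G' + 2 * (-1*m^8 + 30*m^7 - 302*m^6 + 678*m^5 + 7120*m^4 - 39462*m^3 - 10130*m^2 + 374626*m - 496399) * (1*m^8 - 48*m^6 - 48*m^5 + 730*m^4 + 992*m^3 - 3880*m^2 - 4016*m + 7549) * hNm + ((-1*m^8 + 30*m^7 - 302*m^6 + 678*m^5 + 7120*m^4 - 39462*m^3 - 10130*m^2 + 374626*m - 496399) * (-4*m^8 - 16*m^7 + 144*m^6 + 688*m^5 - 920*m^4 - 6448*m^3 - 112*m^2 + 13968*m - 3204) + (4*m^8 - 104*m^7 + 776*m^6 + 952*m^5 - 31920*m^4 + 67528*m^3 + 313912*m^2 - 957208*m + 212844)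 * (1*m^8 - 48*m^6 - 48*m^5 + 730*m^4 + 992*m^3 - 3880*m^2 - 4016*m + 7549)) * hTr


private theorem coreD {m x x' w Y w' Y' : K} (hx : x ≠ 0) (hx' : x' ≠ 0)
    (hTr : x + x' = 1*m^2 - 1) (hNm : x * x' = -4 * (m ^ 2 - 8 * m + 11))
    (hw : w = x⁻¹) (hw' : w' = x'⁻¹)
    (hY : Y = (m * (x - (-4)) + (-16)) * w ^ 2) (hY' : Y' = (m * (x' - (-4)) + (-16)) * w' ^ 2) :
    hN w Y * hN w' Y' = 4096 ∧
    (hN w Y + hN w' Y') * (m ^ 2 - 8 * m + 11) ^ 5 = -4097*m^10 + 41030*m^9 - 186565*m^8 + 862760*m^7 - 5031970*m^6 + 22000356*m^5 - 61072370*m^4 + 107285160*m^3 - 117623965*m^2 + 74471430*m - 21020297 := by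
  have E : hN w Y * x ^ 5 = (-1*m^8 + 30*m^7 - 358*m^6 + 2166*m^5 - 7480*m^4 + 20794*m^3 - 69850*m^2 + 164402*m - 144519) * x + (-4*m^8 + 152*m^7 - 2424*m^6 + 20856*m^5 - 102720*m^4 + 273736*m^3 - 259848*m^2 - 233304*m + 426436) := by
    have h2 : x ^ 2 = (1*m^2 - 1) * x - -4 * (m ^ 2 - 8 * m + 11) := by linear_combination x * hTr - hNm
    have h1 : hN w Y * x ^ 5 = -x ^ 5 - 350 * x ^ 4 - 3200 * x ^ 3 + 56000 * x ^ 2 - 224000 * x +
        320000 + 10 * (3 * x ^ 3 + 180 * x ^ 2 - 1520 * x + 3520) * (m * (x - (-4)) + (-16)) := by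
      rw [hY, hw, hN]
      field_simp
    rw [h1]
    linear_combination ((-1*m^6 + 30*m^5 - 355*m^4 + 2044*m^3 - 5423*m^2 + 2566*m + 15219) + (-1*m^4 + 30*m^3 - 352*m^2 + 1922*m - 3375) * x + (-1*m^2 + 30*m - 349) * x ^ 2 + (-1) * x ^ 3) * h2
  have E' : hN w' Y' * x' ^ 5 = (-1*m^8 + 30*m^7 - 358*m^6 + 2166*m^5 - 7480*m^4 + 20794*m^3 - 69850*m^2 + 164402*m - 144519) * x' + (-4*m^8 + 152*m^7 - 2424*m^6 + 20856*m^5 - 102720*m^4 + 273736*m^3 - 259848*m^2 - 233304*m + 426436) := by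
    have h2 : x' ^ 2 = (1*m^2 - 1) * x' - -4 * (m ^ 2 - 8 * m + 11) := by linear_combination x' * hTr - hNm
    have h1 : hN w' Y' * x' ^ 5 = -x' ^ 5 - 350 * x' ^ 4 - 3200 * x' ^ 3 + 56000 * x' ^ 2 -
        224000 * x' + 320000 + 10 * (3 * x' ^ 3 + 180 * x' ^ 2 - 1520 * x' + 3520) *
          (m * (x' - (-4)) + (-16)) := by
      rw [hY', hw', hN]
      field_simp
    rw [h1]
    linear_combination ((-1*m^6 + 30*m^5 - 355*m^4 + 2044*m^3 - 5423*m^2 + 2566*m + 15219) + (-1*m^4 + 30*m^3 - 352*m^2 + 1922*m - 3375) * x' + (-1*m^2 + 30*m - 349) * x' ^ 2 + (-1) * x' ^ 3) * h2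
  have F : x ^ 5 = (1*m^8 + 8*m^6 - 96*m^5 + 130*m^4 - 64*m^3 + 1120*m^2 - 2912*m + 2069) * x + (4*m^8 - 32*m^7 + 64*m^6 - 416*m^5 + 2600*m^4 - 5216*m^3 + 1248*m^2 + 5664*m - 3916) := by
    have h2 : x ^ 2 = (1*m^2 - 1) * x - -4 * (m ^ 2 - 8 * m + 11) := by linear_combination x * hTr - hNm
    linear_combination ((1*m^6 + 5*m^4 - 64*m^3 + 83*m^2 + 64*m - 89) + (1*m^4 + 2*m^2 - 32*m + 45) * x + (1*m^2 - 1) * x ^ 2 + (1) * x ^ 3) * h2
  have F' : x' ^ 5 = (1*m^8 + 8*m^6 - 96*m^5 + 130*m^4 - 64*m^3 + 1120*m^2 - 2912*m + 2069) * x' + (4*m^8 - 32*m^7 + 64*m^6 - 416*m^5 + 2600*m^4 - 5216*m^3 + 1248*m^2 + 5664*m - 3916) := by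
    have h2 : x' ^ 2 = (1*m^2 - 1) * x' - -4 * (m ^ 2 - 8 * m + 11) := by linear_combination x' * hTr - hNm
    linear_combination ((1*m^6 + 5*m^4 - 64*m^3 + 83*m^2 + 64*m - 89) + (1*m^4 + 2*m^2 - 32*m + 45) * x' + (1*m^2 - 1) * x' ^ 2 + (1) * x' ^ 3) * h2
  have G : hN w Y * hN w' Y' * (-4 * (m ^ 2 - 8 * m + 11)) ^ 5 =
      ((-1*m^8 + 30*m^7 - 358*m^6 + 2166*m^5 - 7480*m^4 + 20794*m^3 - 69850*m^2 + 164402*m - 144519) * x + (-4*m^8 + 152*m^7 - 2424*m^6 + 20856*m^5 - 102720*m^4 + 273736*m^3 - 259848*m^2 - 233304*m + 426436)) * ((-1*m^8 + 30*m^7 - 358*m^6 + 2166*m^5 - 7480*m^4 + 20794*m^3 - 69850*m^2 + 164402*m - 144519) * x' + (-4*m^8 + 152*m^7 - 2424*m^6 + 20856*m^5 - 102720*m^4 + 273736*m^3 - 259848*m^2 - 233304*m + 426436)) := by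
    rw [← E, ← E', ← hNm]
    ring
  have G' : (hN w Y + hN w' Y') * (-4 * (m ^ 2 - 8 * m + 11)) ^ 5 =
      ((-1*m^8 + 30*m^7 - 358*m^6 + 2166*m^5 - 7480*m^4 + 20794*m^3 - 69850*m^2 + 164402*m - 144519) * x + (-4*m^8 + 152*m^7 - 2424*m^6 + 20856*m^5 - 102720*m^4 + 273736*m^3 - 259848*m^2 - 233304*m + 426436)) * ((1*m^8 + 8*m^6 - 96*m^5 + 130*m^4 - 64*m^3 + 1120*m^2 - 2912*m + 2069) * x' + (4*m^8 - 32*m^7 + 64*m^6 - 416*m^5 + 2600*m^4 - 5216*m^3 + 1248*m^2 + 5664*m - 3916)) +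
      ((-1*m^8 + 30*m^7 - 358*m^6 + 2166*m^5 - 7480*m^4 + 20794*m^3 - 69850*m^2 + 164402*m - 144519) * x' + (-4*m^8 + 152*m^7 - 2424*m^6 + 20856*m^5 - 102720*m^4 + 273736*m^3 - 259848*m^2 - 233304*m + 426436)) * ((1*m^8 + 8*m^6 - 96*m^5 + 130*m^4 - 64*m^3 + 1120*m^2 - 2912*m + 2069) * x + (4*m^8 - 32*m^7 + 64*m^6 - 416*m^5 + 2600*m^4 - 5216*m^3 + 1248*m^2 + 5664*m - 3916)) := by
    rw [← E, ← E', ← F, ← F', ← hNm]
    ring
  have hp : (m ^ 2 - 8 * m + 11) ≠ 0 := by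
    intro h0
    rw [h0, mul_zero] at hNm
    exact (mul_ne_zero hx hx') hNm
  constructor
  · have hp5 : (1024 : K) * (m ^ 2 - 8 * m + 11) ^ 5 ≠ 0 := mul_ne_zero (by norm_num) (pow_ne_zero 5 hp)
    refine mul_right_cancel₀ hp5 ?_
    linear_combination -G - (-1*m^8 + 30*m^7 - 358*m^6 + 2166*m^5 - 7480*m^4 + 20794*m^3 - 69850*m^2 + 164402*m - 144519) ^ 2 * hNm - (-1*m^8 + 30*m^7 - 358*m^6 + 2166*m^5 - 7480*m^4 + 20794*m^3 - 69850*m^2 + 164402*m - 144519) * (-4*m^8 + 152*m^7 - 2424*m^6 + 20856*m^5 - 102720*m^4 + 273736*m^3 - 259848*m^2 - 233304*m + 426436) * hTr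
  · refine mul_left_cancel₀ (show (1024 : K) ≠ 0 by norm_num) ?_
    linear_combination -G' - 2 * (-1*m^8 + 30*m^7 - 358*m^6 + 2166*m^5 - 7480*m^4 + 20794*m^3 - 69850*m^2 + 164402*m - 144519) * (1*m^8 + 8*m^6 - 96*m^5 + 130*m^4 - 64*m^3 + 1120*m^2 - 2912*m + 2069) * hNm - ((-1*m^8 + 30*m^7 - 358*m^6 + 2166*m^5 - 7480*m^4 + 20794*m^3 - 69850*m^2 + 164402*m - 144519) * (4*m^8 - 32*m^7 + 64*m^6 - 416*m^5 + 2600*m^4 - 5216*m^3 + 1248*m^2 + 5664*m - 3916) + (-4*m^8 + 152*m^7 - 2424*m^6 + 20856*m^5 - 102720*m^4 + 273736*m^3 - 259848*m^2 - 233304*m + 426436) * (1*m^8 + 8*m^6 - 96*m^5 + 130*m^4 - 64*m^3 + 1120*m^2 - 2912*m + 2069)) * hTr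


private theorem coreB {m x x' w Y w' Y' : K} (hx : x ≠ 0) (hx' : x' ≠ 0)
    (hTr : x + x' = 1*m^2 - 1) (hNm : x * x' = -4 * (m ^ 2 + 8 * m + 11))
    (hw : w = x⁻¹) (hw' : w' = x'⁻¹)
    (hY : Y = (m * (x - (-4)) + 16) * w ^ 2) (hY' : Y' = (m * (x' - (-4)) + 16) * w' ^ 2) :
    hN w Y * hN w' Y' * (m ^ 2 + 8 * m + 11) ^ 5 = 256 * (m ^ 2 - 2 * m - 19) ^ 5 ∧
    (hN w Y + hN w' Y') * (m ^ 2 + 8 * m + 11) ^ 5 = -257*m^10 - 5130*m^9 - 49765*m^8 - 346360*m^7 - 2039170*m^6 - 9993436*m^5 - 37418770*m^4 - 99035960*m^3 - 170994365*m^2 - 170154730*m - 73162057 := by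
  have E : hN w Y * x ^ 5 = (-1*m^8 + 30*m^7 - 358*m^6 + 1974*m^5 - 2680*m^4 - 24134*m^3 + 108710*m^2 - 1422*m - 645319) * x + (-4*m^8 + 88*m^7 - 504*m^6 - 2376*m^5 + 35520*m^4 - 75896*m^3 - 455048*m^2 + 1573224*m + 4044996) := by
    have h2 : x ^ 2 = (1*m^2 - 1) * x - -4 * (m ^ 2 + 8 * m + 11) := by linear_combination x * hTr - hNm
    have h1 : hN w Y * x ^ 5 = -x ^ 5 - 350 * x ^ 4 - 3200 * x ^ 3 + 56000 * x ^ 2 - 224000 * x +
        320000 + 10 * (3 * x ^ 3 + 180 * x ^ 2 - 1520 * x + 3520) * (m * (x - (-4)) + 16) := by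
      rw [hY, hw, hN]
      field_simp
    rw [h1]
    linear_combination ((-1*m^6 + 30*m^5 - 355*m^4 + 1916*m^3 - 2543*m^2 - 19706*m + 71859) + (-1*m^4 + 30*m^3 - 352*m^2 + 1858*m - 2415) * x + (-1*m^2 + 30*m - 349) * x ^ 2 + (-1) * x ^ 3) * h2
  have E' : hN w' Y' * x' ^ 5 = (-1*m^8 + 30*m^7 - 358*m^6 + 1974*m^5 - 2680*m^4 - 24134*m^3 + 108710*m^2 - 1422*m - 645319) * x' + (-4*m^8 + 88*m^7 - 504*m^6 - 2376*m^5 + 35520*m^4 - 75896*m^3 - 455048*m^2 + 1573224*m + 4044996) := by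
    have h2 : x' ^ 2 = (1*m^2 - 1) * x' - -4 * (m ^ 2 + 8 * m + 11) := by linear_combination x' * hTr - hNm
    have h1 : hN w' Y' * x' ^ 5 = -x' ^ 5 - 350 * x' ^ 4 - 3200 * x' ^ 3 + 56000 * x' ^ 2 -
        224000 * x' + 320000 + 10 * (3 * x' ^ 3 + 180 * x' ^ 2 - 1520 * x' + 3520) *
          (m * (x' - (-4)) + 16) := by
      rw [hY', hw', hN]
      field_simp
    rw [h1]
    linear_combination ((-1*m^6 + 30*m^5 - 355*m^4 + 1916*m^3 - 2543*m^2 - 19706*m + 71859) + (-1*m^4 + 30*m^3 - 352*m^2 + 1858*m - 2415) * x' + (-1*m^2 + 30*m - 349) * x' ^ 2 + (-1) * x' ^ 3) * h2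
  have F : x ^ 5 = (1*m^8 + 8*m^6 + 96*m^5 + 130*m^4 + 64*m^3 + 1120*m^2 + 2912*m + 2069) * x + (4*m^8 + 32*m^7 + 64*m^6 + 416*m^5 + 2600*m^4 + 5216*m^3 + 1248*m^2 - 5664*m - 3916) := by
    have h2 : x ^ 2 = (1*m^2 - 1) * x - -4 * (m ^ 2 + 8 * m + 11) := by linear_combination x * hTr - hNm
    linear_combination ((1*m^6 + 5*m^4 + 64*m^3 + 83*m^2 - 64*m - 89) + (1*m^4 + 2*m^2 + 32*m + 45) * x + (1*m^2 - 1) * x ^ 2 + (1) * x ^ 3) * h2
  have F' : x' ^ 5 = (1*m^8 + 8*m^6 + 96*m^5 + 130*m^4 + 64*m^3 + 1120*m^2 + 2912*m + 2069) * x' + (4*m^8 + 32*m^7 + 64*m^6 + 416*m^5 + 2600*m^4 + 5216*m^3 + 1248*m^2 - 5664*m - 3916) := by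
    have h2 : x' ^ 2 = (1*m^2 - 1) * x' - -4 * (m ^ 2 + 8 * m + 11) := by linear_combination x' * hTr - hNm
    linear_combination ((1*m^6 + 5*m^4 + 64*m^3 + 83*m^2 - 64*m - 89) + (1*m^4 + 2*m^2 + 32*m + 45) * x' + (1*m^2 - 1) * x' ^ 2 + (1) * x' ^ 3) * h2
  have G : hN w Y * hN w' Y' * (-4 * (m ^ 2 + 8 * m + 11)) ^ 5 =
      ((-1*m^8 + 30*m^7 - 358*m^6 + 1974*m^5 - 2680*m^4 - 24134*m^3 + 108710*m^2 - 1422*m - 645319) * x + (-4*m^8 + 88*m^7 - 504*m^6 - 2376*m^5 + 35520*m^4 - 75896*m^3 - 455048*m^2 + 1573224*m + 4044996)) * ((-1*m^8 + 30*m^7 - 358*m^6 + 1974*m^5 - 2680*m^4 - 24134*m^3 + 108710*m^2 - 1422*m - 645319) * x' + (-4*m^8 + 88*m^7 - 504*m^6 - 2376*m^5 + 35520*m^4 - 75896*m^3 - 455048*m^2 + 1573224*m + 4044996)) := by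
    rw [← E, ← E', ← hNm]
    ring
  have G' : (hN w Y + hN w' Y') * (-4 * (m ^ 2 + 8 * m + 11)) ^ 5 =
      ((-1*m^8 + 30*m^7 - 358*m^6 + 1974*m^5 - 2680*m^4 - 24134*m^3 + 108710*m^2 - 1422*m - 645319) * x + (-4*m^8 + 88*m^7 - 504*m^6 - 2376*m^5 + 35520*m^4 - 75896*m^3 - 455048*m^2 + 1573224*m + 4044996)) * ((1*m^8 + 8*m^6 + 96*m^5 + 130*m^4 + 64*m^3 + 1120*m^2 + 2912*m + 2069) * x' + (4*m^8 + 32*m^7 + 64*m^6 + 416*m^5 + 2600*m^4 + 5216*m^3 + 1248*m^2 - 5664*m - 3916)) +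
      ((-1*m^8 + 30*m^7 - 358*m^6 + 1974*m^5 - 2680*m^4 - 24134*m^3 + 108710*m^2 - 1422*m - 645319) * x' + (-4*m^8 + 88*m^7 - 504*m^6 - 2376*m^5 + 35520*m^4 - 75896*m^3 - 455048*m^2 + 1573224*m + 4044996)) * ((1*m^8 + 8*m^6 + 96*m^5 + 130*m^4 + 64*m^3 + 1120*m^2 + 2912*m + 2069) * x + (4*m^8 + 32*m^7 + 64*m^6 + 416*m^5 + 2600*m^4 + 5216*m^3 + 1248*m^2 - 5664*m - 3916)) := by
    rw [← E, ← E', ← F, ← F', ← hNm]
    ring
  constructor
  · refine mul_left_cancel₀ (show (1024 : K) ≠ 0 by norm_num) ?_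
    linear_combination -G - (-1*m^8 + 30*m^7 - 358*m^6 + 1974*m^5 - 2680*m^4 - 24134*m^3 + 108710*m^2 - 1422*m - 645319) ^ 2 * hNm - (-1*m^8 + 30*m^7 - 358*m^6 + 1974*m^5 - 2680*m^4 - 24134*m^3 + 108710*m^2 - 1422*m - 645319) * (-4*m^8 + 88*m^7 - 504*m^6 - 2376*m^5 + 35520*m^4 - 75896*m^3 - 455048*m^2 + 1573224*m + 4044996) * hTr
  · refine mul_left_cancel₀ (show (1024 : K) ≠ 0 by norm_num) ?_
    linear_combination -G' - 2 * (-1*m^8 + 30*m^7 - 358*m^6 + 1974*m^5 - 2680*m^4 - 24134*m^3 + 108710*m^2 - 1422*m - 645319) * (1*m^8 + 8*m^6 + 96*m^5 + 130*m^4 + 64*m^3 + 1120*m^2 + 2912*m + 2069) * hNm - ((-1*m^8 + 30*m^7 - 358*m^6 + 1974*m^5 - 2680*m^4 - 24134*m^3 + 108710*m^2 - 1422*m - 645319) * (4*m^8 + 32*m^7 + 64*m^6 + 416*m^5 + 2600*m^4 + 5216*m^3 + 1248*m^2 - 5664*m - 3916) + (-4*m^8 + 88*m^7 - 504*m^6 - 2376*m^5 + 35520*m^4 - 75896*m^3 - 455048*m^2 + 1573224*m + 4044996)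 * (1*m^8 + 8*m^6 + 96*m^5 + 130*m^4 + 64*m^3 + 1120*m^2 + 2912*m + 2069)) * hTr


private theorem coreC {m x x' w Y w' Y' : K} (hx : x ≠ 0) (hx' : x' ≠ 0)
    (hTr : x + x' = 1*m^2 - 9) (hNm : x * x' = 4 * (m ^ 2 - 4 * m - 1))
    (hw : w = x⁻¹) (hw' : w' = x'⁻¹)
    (hY : Y = (m * (x - 4) + 8) * w ^ 2) (hY' : Y' = (m * (x' - 4) + 8) * w' ^ 2) :
    hN w Y * hN w' Y' * (m ^ 2 - 4 * m - 1) ^ 5 = 16 * ((m - 7) ^ 2) ^ 5 ∧
    (hN w Y + hN w' Y') * (m ^ 2 - 4 * m - 1) ^ 5 = -17*m^10 + 690*m^9 - 11585*m^8 + 101320*m^7 - 456770*m^6 + 628988*m^5 + 3262070*m^4 - 15725080*m^3 + 19978035*m^2 + 12221090*m - 33933333 := by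
  have E : hN w Y * x ^ 5 = (-1*m^8 + 30*m^7 - 302*m^6 + 582*m^5 + 9520*m^4 - 59878*m^3 + 44590*m^2 + 465794*m - 957999) * x + (4*m^8 - 136*m^7 + 1736*m^6 - 8872*m^5 - 5040*m^4 + 243432*m^3 - 897288*m^2 + 787528*m + 873964) := by
    have h2 : x ^ 2 = (1*m^2 - 9) * x - 4 * (m ^ 2 - 4 * m - 1) := by linear_combination x * hTr - hNm
    have h1 : hN w Y * x ^ 5 = -x ^ 5 - 350 * x ^ 4 - 3200 * x ^ 3 + 56000 * x ^ 2 - 224000 * x +
        320000 + 10 * (3 * x ^ 3 + 180 * x ^ 2 - 1520 * x + 3520) * (m * (x - 4) + 8) := by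
      rw [hY, hw, hN]
      field_simp
    rw [h1]
    linear_combination ((-1*m^6 + 30*m^5 - 315*m^4 + 988*m^3 + 4897*m^2 - 40282*m + 68091) + (-1*m^4 + 30*m^3 - 328*m^2 + 1394*m + 105) * x + (-1*m^2 + 30*m - 341) * x ^ 2 + (-1) * x ^ 3) * h2
  have E' : hN w' Y' * x' ^ 5 = (-1*m^8 + 30*m^7 - 302*m^6 + 582*m^5 + 9520*m^4 - 59878*m^3 + 44590*m^2 + 465794*m - 957999) * x' + (4*m^8 - 136*m^7 + 1736*m^6 - 8872*m^5 - 5040*m^4 + 243432*m^3 - 897288*m^2 + 787528*m + 873964) := by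
    have h2 : x' ^ 2 = (1*m^2 - 9) * x' - 4 * (m ^ 2 - 4 * m - 1) := by linear_combination x' * hTr - hNm
    have h1 : hN w' Y' * x' ^ 5 = -x' ^ 5 - 350 * x' ^ 4 - 3200 * x' ^ 3 + 56000 * x' ^ 2 -
        224000 * x' + 320000 + 10 * (3 * x' ^ 3 + 180 * x' ^ 2 - 1520 * x' + 3520) *
          (m * (x' - 4) + 8) := by
      rw [hY', hw', hN]
      field_simp
    rw [h1]
    linear_combination ((-1*m^6 + 30*m^5 - 315*m^4 + 988*m^3 + 4897*m^2 - 40282*m + 68091) + (-1*m^4 + 30*m^3 - 328*m^2 + 1394*m + 105) * x' + (-1*m^2 + 30*m - 341) * x' ^ 2 + (-1) * x' ^ 3) * h2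
  have F : x ^ 5 = (1*m^8 - 48*m^6 + 48*m^5 + 730*m^4 - 992*m^3 - 3880*m^2 + 4016*m + 7549) * x + (-4*m^8 + 16*m^7 + 144*m^6 - 688*m^5 - 920*m^4 + 6448*m^3 - 112*m^2 - 13968*m - 3204) := by
    have h2 : x ^ 2 = (1*m^2 - 9) * x - 4 * (m ^ 2 - 4 * m - 1) := by linear_combination x * hTr - hNm
    linear_combination ((1*m^6 - 35*m^4 + 32*m^3 + 323*m^2 - 288*m - 801) + (1*m^4 - 22*m^2 + 16*m + 85) * x + (1*m^2 - 9) * x ^ 2 + (1) * x ^ 3) * h2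
  have F' : x' ^ 5 = (1*m^8 - 48*m^6 + 48*m^5 + 730*m^4 - 992*m^3 - 3880*m^2 + 4016*m + 7549) * x' + (-4*m^8 + 16*m^7 + 144*m^6 - 688*m^5 - 920*m^4 + 6448*m^3 - 112*m^2 - 13968*m - 3204) := by
    have h2 : x' ^ 2 = (1*m^2 - 9) * x' - 4 * (m ^ 2 - 4 * m - 1) := by linear_combination x' * hTr - hNm
    linear_combination ((1*m^6 - 35*m^4 + 32*m^3 + 323*m^2 - 288*m - 801) + (1*m^4 - 22*m^2 + 16*m + 85) * x' + (1*m^2 - 9) * x' ^ 2 + (1) * x' ^ 3) * h2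
  have G : hN w Y * hN w' Y' * (4 * (m ^ 2 - 4 * m - 1)) ^ 5 =
      ((-1*m^8 + 30*m^7 - 302*m^6 + 582*m^5 + 9520*m^4 - 59878*m^3 + 44590*m^2 + 465794*m - 957999) * x + (4*m^8 - 136*m^7 + 1736*m^6 - 8872*m^5 - 5040*m^4 + 243432*m^3 - 897288*m^2 + 787528*m + 873964)) * ((-1*m^8 + 30*m^7 - 302*m^6 + 582*m^5 + 9520*m^4 - 59878*m^3 + 44590*m^2 + 465794*m - 957999) * x' + (4*m^8 - 136*m^7 + 1736*m^6 - 8872*m^5 - 5040*m^4 + 243432*m^3 - 897288*m^2 + 787528*m + 873964)) := by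
    rw [← E, ← E', ← hNm]
    ring
  have G' : (hN w Y + hN w' Y') * (4 * (m ^ 2 - 4 * m - 1)) ^ 5 =
      ((-1*m^8 + 30*m^7 - 302*m^6 + 582*m^5 + 9520*m^4 - 59878*m^3 + 44590*m^2 + 465794*m - 957999) * x + (4*m^8 - 136*m^7 + 1736*m^6 - 8872*m^5 - 5040*m^4 + 243432*m^3 - 897288*m^2 + 787528*m + 873964)) * ((1*m^8 - 48*m^6 + 48*m^5 + 730*m^4 - 992*m^3 - 3880*m^2 + 4016*m + 7549) * x' + (-4*m^8 + 16*m^7 + 144*m^6 - 688*m^5 - 920*m^4 + 6448*m^3 - 112*m^2 - 13968*m - 3204)) +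
      ((-1*m^8 + 30*m^7 - 302*m^6 + 582*m^5 + 9520*m^4 - 59878*m^3 + 44590*m^2 + 465794*m - 957999) * x' + (4*m^8 - 136*m^7 + 1736*m^6 - 8872*m^5 - 5040*m^4 + 243432*m^3 - 897288*m^2 + 787528*m + 873964)) * ((1*m^8 - 48*m^6 + 48*m^5 + 730*m^4 - 992*m^3 - 3880*m^2 + 4016*m + 7549) * x + (-4*m^8 + 16*m^7 + 144*m^6 - 688*m^5 - 920*m^4 + 6448*m^3 - 112*m^2 - 13968*m - 3204)) := by
    rw [← E, ← E', ← F, ← F', ← hNm]
    ring
  constructor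
  · refine mul_left_cancel₀ (show (1024 : K) ≠ 0 by norm_num) ?_
    linear_combination G + (-1*m^8 + 30*m^7 - 302*m^6 + 582*m^5 + 9520*m^4 - 59878*m^3 + 44590*m^2 + 465794*m - 957999) ^ 2 * hNm + (-1*m^8 + 30*m^7 - 302*m^6 + 582*m^5 + 9520*m^4 - 59878*m^3 + 44590*m^2 + 465794*m - 957999) * (4*m^8 - 136*m^7 + 1736*m^6 - 8872*m^5 - 5040*m^4 + 243432*m^3 - 897288*m^2 + 787528*m + 873964) * hTr
  · refine mul_left_cancel₀ (show (1024 : K) ≠ 0 by norm_num) ?_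
    linear_combination G' + 2 * (-1*m^8 + 30*m^7 - 302*m^6 + 582*m^5 + 9520*m^4 - 59878*m^3 + 44590*m^2 + 465794*m - 957999) * (1*m^8 - 48*m^6 + 48*m^5 + 730*m^4 - 992*m^3 - 3880*m^2 + 4016*m + 7549) * hNm + ((-1*m^8 + 30*m^7 - 302*m^6 + 582*m^5 + 9520*m^4 - 59878*m^3 + 44590*m^2 + 465794*m - 957999) * (-4*m^8 + 16*m^7 + 144*m^6 - 688*m^5 - 920*m^4 + 6448*m^3 - 112*m^2 - 13968*m - 3204) + (4*m^8 - 136*m^7 + 1736*m^6 - 8872*m^5 - 5040*m^4 + 243432*m^3 - 897288*m^2 + 787528*m + 873964) * (1*m^8 - 48*m^6 + 48*m^5 + 730*m^4 - 992*m^3 - 3880*m^2 + 4016*m + 7549)) * hTr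

end Core

/-! ### Rational numbers -/

section Rat

private theorem qQ {a b : ℚ} (hn : (1 - 40 * a + 80 * a ^ 2) = (1 - 40 * b + 80 * b ^ 2))
    (ht : 2 * (-1 - 350 * a - 3200 * a ^ 2 + 56000 * a ^ 3 - 224000 * a ^ 4 + 320000 * a ^ 5) =
      2 * (-1 - 350 * b - 3200 * b ^ 2 + 56000 * b ^ 3 - 224000 * b ^ 4 + 320000 * b ^ 5)) :
    a = b := by
  have h1 : (a - b) * (2 * (a + b) - 1) = 0 := by linear_combination hn / 40
  rcases mul_eq_zero.mp h1 with h | h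
  · linarith
  · have hb : b = 1 / 2 - a := by linarith
    subst hb
    have h2 : (a - 1 / 4) * (20 * (a - 1 / 4) ^ 2 + 1) ^ 2 = 0 := by
      linear_combination ht / 3200
    have h3 : (20 * (a - 1 / 4) ^ 2 + 1) ^ 2 ≠ 0 := by positivity
    have h4 : a - 1 / 4 = 0 := (mul_eq_zero.mp h2).resolve_right h3
    linarith

private theorem qA {a b : ℚ} (ha : a ^ 2 + 4 * a - 1 ≠ 0) (hb : b ^ 2 + 4 * b - 1 ≠ 0)
    (hn : (a ^ 2 - 6 * a - 11) / (a ^ 2 + 4 * a - 1) =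
      (b ^ 2 - 6 * b - 11) / (b ^ 2 + 4 * b - 1))
    (ht : (63 * a ^ 10 + 10 * a ^ 9 - 2785 * a ^ 8 - 8520 * a ^ 7 + 24430 * a ^ 6 + 181532 * a ^ 5 + 350470 * a ^ 4 - 29320 * a ^ 3 - 420365 * a ^ 2 - 463190 * a - 156613) / (a ^ 2 + 4 * a - 1) ^ 5 =
      (63 * b ^ 10 + 10 * b ^ 9 - 2785 * b ^ 8 - 8520 * b ^ 7 + 24430 * b ^ 6 + 181532 * b ^ 5 + 350470 * b ^ 4 - 29320 * b ^ 3 - 420365 * b ^ 2 - 463190 * b - 156613) / (b ^ 2 + 4 * b - 1) ^ 5) :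
    a = b := by
  rw [div_eq_div_iff ha hb] at hn
  have h1 : (a - b) * ((a + 1) * (b + 1) + 4) = 0 := by linear_combination hn / 10
  rcases mul_eq_zero.mp h1 with h | h
  · linarith
  · exfalso
    obtain ⟨n, rfl⟩ : ∃ n, a = n - 1 := ⟨a + 1, by ring⟩
    have hn0 : n ≠ 0 := by
      rintro rfl
      norm_num at h
    have hb' : b = -4 / n - 1 := by
      field_simp
      linear_combination h
    subst hb'
    rw [div_eq_div_iff (pow_ne_zero 5 ha) (pow_ne_zero 5 hb)] at ht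
    have e1 : n ^ 2 * ((-4 / n - 1) ^ 2 + 4 * (-4 / n - 1) - 1) =
        -4 * ((n - 1) ^ 2 + 4 * (n - 1) - 1) := by
      field_simp
      ring
    have e2 : n ^ 10 * (63 * (-4 / n - 1) ^ 10 + 10 * (-4 / n - 1) ^ 9 - 2785 * (-4 / n - 1) ^ 8 - 8520 * (-4 / n - 1) ^ 7 + 24430 * (-4 / n - 1) ^ 6 + 181532 * (-4 / n - 1) ^ 5 + 350470 * (-4 / n - 1) ^ 4 - 29320 * (-4 / n - 1) ^ 3 - 420365 * (-4 / n - 1) ^ 2 - 463190 * (-4 / n - 1) - 156613) =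
        114688 * n ^ 10 + 1556480 * n ^ 9 + 6799360 * n ^ 8 + 16220160 * n ^ 7 - 19333120 * n ^ 6 + 2686976 * n ^ 5 + 75694080 * n ^ 4 - 107479040 * n ^ 3 - 2621440 * n ^ 2 + 162529280 * n + 66060288 := by
      field_simp
      ring
    have e3 : (7 * n ^ 6 + 8 * n ^ 5 + 260 * n ^ 4 + 1040 * n ^ 2 - 128 * n + 448) * ((n - 1) ^ 2 + 4 * (n - 1) - 1) ^ 2 *
        ((n - 1) ^ 2 + 4 * (n - 1) - 1) ^ 5 = 0 := by
      have e4 : (n ^ 2 * ((-4 / n - 1) ^ 2 + 4 * (-4 / n - 1) - 1)) ^ 5 =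
          (-4 * ((n - 1) ^ 2 + 4 * (n - 1) - 1)) ^ 5 := by rw [e1]
      linear_combination (-n ^ 10 * ht + (63 * (n - 1) ^ 10 + 10 * (n - 1) ^ 9 - 2785 * (n - 1) ^ 8 - 8520 * (n - 1) ^ 7 + 24430 * (n - 1) ^ 6 + 181532 * (n - 1) ^ 5 + 350470 * (n - 1) ^ 4 - 29320 * (n - 1) ^ 3 - 420365 * (n - 1) ^ 2 - 463190 * (n - 1) - 156613) * e4 -
        ((n - 1) ^ 2 + 4 * (n - 1) - 1) ^ 5 * e2) / 25600
    have h5 : (0:ℚ) < 7 * n ^ 6 + 8 * n ^ 5 + 260 * n ^ 4 + 1040 * n ^ 2 - 128 * n + 448 := by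
      nlinarith [sq_nonneg (n ^ 2 * (n + 4 / 7)), sq_nonneg (n ^ 2), sq_nonneg (n - 64 / 1040),
        sq_nonneg n]
    have h6 : ((n - 1) ^ 2 + 4 * (n - 1) - 1) ^ 2 ≠ 0 := pow_ne_zero 2 ha
    have h7 : ((n - 1) ^ 2 + 4 * (n - 1) - 1) ^ 5 ≠ 0 := pow_ne_zero 5 ha
    exact mul_ne_zero (mul_ne_zero h5.ne' h6) h7 e3

private theorem qB {a b : ℚ} (ha : a ^ 2 + 8 * a + 11 ≠ 0) (hb : b ^ 2 + 8 * b + 11 ≠ 0)
    (hg : a ^ 2 - 2 * a - 19 ≠ 0)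
    (hn : (a ^ 2 - 2 * a - 19) / (a ^ 2 + 8 * a + 11) =
      (b ^ 2 - 2 * b - 19) / (b ^ 2 + 8 * b + 11))
    (ht : (-257 * a ^ 10 - 5130 * a ^ 9 - 49765 * a ^ 8 - 346360 * a ^ 7 - 2039170 * a ^ 6 - 9993436 * a ^ 5 - 37418770 * a ^ 4 - 99035960 * a ^ 3 - 170994365 * a ^ 2 - 170154730 * a - 73162057) / (a ^ 2 + 8 * a + 11) ^ 5 =
      (-257 * b ^ 10 - 5130 * b ^ 9 - 49765 * b ^ 8 - 346360 * b ^ 7 - 2039170 * b ^ 6 - 9993436 * b ^ 5 - 37418770 * b ^ 4 - 99035960 * b ^ 3 - 170994365 * b ^ 2 - 170154730 * b - 73162057) / (b ^ 2 + 8 * b + 11) ^ 5) :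
    a = b := by
  rw [div_eq_div_iff ha hb] at hn
  have h1 : (a - b) * ((a + 3) * (b + 3) + 4) = 0 := by linear_combination hn / 10
  rcases mul_eq_zero.mp h1 with h | h
  · linarith
  · exfalso
    obtain ⟨n, rfl⟩ : ∃ n, a = n - 3 := ⟨a + 3, by ring⟩
    have hn0 : n ≠ 0 := by
      rintro rfl
      norm_num at h
    have hb' : b = -4 / n - 3 := by
      field_simp
      linear_combination h
    subst hb'
    rw [div_eq_div_iff (pow_ne_zero 5 ha) (pow_ne_zero 5 hb)] at ht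
    have e1 : n ^ 2 * ((-4 / n - 3) ^ 2 + 8 * (-4 / n - 3) + 11) =
        -4 * ((n - 3) ^ 2 + 8 * (n - 3) + 11) := by
      field_simp
      ring
    have e2 : n ^ 10 * (-257 * (-4 / n - 3) ^ 10 - 5130 * (-4 / n - 3) ^ 9 - 49765 * (-4 / n - 3) ^ 8 - 346360 * (-4 / n - 3) ^ 7 - 2039170 * (-4 / n - 3) ^ 6 - 9993436 * (-4 / n - 3) ^ 5 - 37418770 * (-4 / n - 3) ^ 4 - 99035960 * (-4 / n - 3) ^ 3 - 170994365 * (-4 / n - 3) ^ 2 - 170154730 * (-4 / n - 3) - 73162057) =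
        32768 * n ^ 10 + 1146880 * n ^ 9 + 655360 * n ^ 8 - 19824640 * n ^ 7 + 16302080 * n ^ 6 + 127860736 * n ^ 5 - 176619520 * n ^ 4 - 304087040 * n ^ 3 - 1005322240 * n ^ 2 - 676331520 * n - 269484032 := by
      field_simp
      ring
    have e3 : (9 * n ^ 6 - 4 * n ^ 5 + 20 * n ^ 4 + 80 * n ^ 2 + 64 * n + 576) * ((n - 3) ^ 2 - 2 * (n - 3) - 19) ^ 2 *
        ((n - 3) ^ 2 + 8 * (n - 3) + 11) ^ 5 = 0 := by
      have e4 : (n ^ 2 * ((-4 / n - 3) ^ 2 + 8 * (-4 / n - 3) + 11)) ^ 5 =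
          (-4 * ((n - 3) ^ 2 + 8 * (n - 3) + 11)) ^ 5 := by rw [e1]
      linear_combination -(-n ^ 10 * ht + (-257 * (n - 3) ^ 10 - 5130 * (n - 3) ^ 9 - 49765 * (n - 3) ^ 8 - 346360 * (n - 3) ^ 7 - 2039170 * (n - 3) ^ 6 - 9993436 * (n - 3) ^ 5 - 37418770 * (n - 3) ^ 4 - 99035960 * (n - 3) ^ 3 - 170994365 * (n - 3) ^ 2 - 170154730 * (n - 3) - 73162057) * e4 -
        ((n - 3) ^ 2 + 8 * (n - 3) + 11) ^ 5 * e2) / 25600
    have h5 : (0:ℚ) < 9 * n ^ 6 - 4 * n ^ 5 + 20 * n ^ 4 + 80 * n ^ 2 + 64 * n + 576 := by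
      nlinarith [sq_nonneg (n ^ 2 * (n - 2 / 9)), sq_nonneg (n ^ 2), sq_nonneg (n + 32 / 80),
        sq_nonneg n]
    have h6 : ((n - 3) ^ 2 - 2 * (n - 3) - 19) ^ 2 ≠ 0 := pow_ne_zero 2 hg
    have h7 : ((n - 3) ^ 2 + 8 * (n - 3) + 11) ^ 5 ≠ 0 := pow_ne_zero 5 ha
    exact mul_ne_zero (mul_ne_zero h5.ne' h6) h7 e3

private theorem cC {o : ℚ} (ho : o ≠ 0) : (-17 * (7 + 1 / o) ^ 10 + 690 * (7 + 1 / o) ^ 9 - 11585 * (7 + 1 / o) ^ 8 + 101320 * (7 + 1 / o) ^ 7 - 456770 * (7 + 1 / o) ^ 6 + 628988 * (7 + 1 / o) ^ 5 + 3262070 * (7 + 1 / o) ^ 4 - 15725080 * (7 + 1 / o) ^ 3 + 19978035 * (7 + 1 / o) ^ 2 + 12221090 * (7 + 1 / o) - 33933333) / ((7 + 1 / o) ^ 2 - 4 * (7 + 1 / o) - 1) ^ 5 =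
    (-80000 * o ^ 5 - 78000 * o ^ 4 - 30000 * o ^ 3 - 5600 * o ^ 2 - 500 * o - 17) /
      (1 + 10 * o + 20 * o ^ 2) ^ 5 := by
  have e1 : (7 + 1 / o) ^ 2 - 4 * (7 + 1 / o) - 1 = (1 + 10 * o + 20 * o ^ 2) / o ^ 2 := by
    field_simp
    ring
  have e2 : -17 * (7 + 1 / o) ^ 10 + 690 * (7 + 1 / o) ^ 9 - 11585 * (7 + 1 / o) ^ 8 + 101320 * (7 + 1 / o) ^ 7 - 456770 * (7 + 1 / o) ^ 6 + 628988 * (7 + 1 / o) ^ 5 + 3262070 * (7 + 1 / o) ^ 4 - 15725080 * (7 + 1 / o) ^ 3 + 19978035 * (7 + 1 / o) ^ 2 + 12221090 * (7 + 1 / o) - 33933333 = (-80000 * o ^ 5 - 78000 * o ^ 4 - 30000 * o ^ 3 - 5600 * o ^ 2 - 500 * o - 17) /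
      o ^ 10 := by
    field_simp
    ring
  rw [e1, e2, div_pow, ← pow_mul, div_div_div_cancel_right₀ (pow_ne_zero 10 ho)]

private theorem qC {a b : ℚ} (ha : a ^ 2 - 4 * a - 1 ≠ 0) (hb : b ^ 2 - 4 * b - 1 ≠ 0)
    (ha7 : a ≠ 7) (hb7 : b ≠ 7)
    (hn : (a - 7) ^ 2 / (a ^ 2 - 4 * a - 1) = (b - 7) ^ 2 / (b ^ 2 - 4 * b - 1))
    (ht : (-17 * a ^ 10 + 690 * a ^ 9 - 11585 * a ^ 8 + 101320 * a ^ 7 - 456770 * a ^ 6 + 628988 * a ^ 5 + 3262070 * a ^ 4 - 15725080 * a ^ 3 + 19978035 * a ^ 2 + 12221090 * a - 33933333) / (a ^ 2 - 4 * a - 1) ^ 5 =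
      (-17 * b ^ 10 + 690 * b ^ 9 - 11585 * b ^ 8 + 101320 * b ^ 7 - 456770 * b ^ 6 + 628988 * b ^ 5 + 3262070 * b ^ 4 - 15725080 * b ^ 3 + 19978035 * b ^ 2 + 12221090 * b - 33933333) / (b ^ 2 - 4 * b - 1) ^ 5) :
    a = b := by
  rw [div_eq_div_iff ha hb] at hn
  obtain ⟨o, ho, rfl⟩ : ∃ o : ℚ, o ≠ 0 ∧ a = 7 + 1 / o :=
    ⟨1 / (a - 7), one_div_ne_zero (sub_ne_zero.mpr ha7), by rw [one_div_one_div]; ring⟩
  obtain ⟨k, hk, rfl⟩ : ∃ o : ℚ, o ≠ 0 ∧ b = 7 + 1 / o :=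
    ⟨1 / (b - 7), one_div_ne_zero (sub_ne_zero.mpr hb7), by rw [one_div_one_div]; ring⟩
  have hp : (7 + 1 / o) ^ 2 - 4 * (7 + 1 / o) - 1 = (1 + 10 * o + 20 * o ^ 2) / o ^ 2 := by
    field_simp
    ring
  rw [cC ho, cC hk] at ht
  have h1 : (o - k) * (2 * (o + k) + 1) = 0 := by
    field_simp at hn
    linear_combination -hn / 10
  rcases mul_eq_zero.mp h1 with h | h
  · have : o = k := by linarith
    rw [this]
  · have hk' : k = -1 / 2 - o := by linarith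
    subst hk'
    have hR : (1 + 10 * o + 20 * o ^ 2) ≠ 0 := by
      intro h0
      rw [hp, h0, zero_div] at ha
      exact ha rfl
    have e1 : (1 + 10 * (-1 / 2 - o) + 20 * (-1 / 2 - o) ^ 2) = (1 + 10 * o + 20 * o ^ 2) := by
      ring
    rw [e1, div_left_inj' (pow_ne_zero 5 hR)] at ht
    have h2 : (o + 1 / 4) * (80 * (o + 1 / 4) ^ 2 + 1) ^ 2 = 0 := by
      linear_combination -ht / 25
    have h3 : (80 * (o + 1 / 4) ^ 2 + 1) ^ 2 ≠ 0 := by positivity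
    have h4 : o + 1 / 4 = 0 := (mul_eq_zero.mp h2).resolve_right h3
    have h5 : o = -1 / 4 := by linarith
    rw [h5]
    norm_num

private theorem cross {k k' : ℕ} (hk : k < k') (hk' : k' ≤ 4) {s s' : ℚ} (hs : s ≠ 0)
    (h : (2:ℚ) ^ k * s ^ 5 = 2 ^ k' * s' ^ 5) : False := by
  refine fifth_class s s' (k' - k) (by omega) hs ?_
  have h2 : (2:ℚ) ^ k' = 2 ^ k * 2 ^ (k' - k) := by rw [← pow_add]; congr 1; omega
  rw [h2, mul_assoc] at h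
  exact mul_left_cancel₀ (pow_ne_zero k two_ne_zero) h

end Rat

/-! ### The points -/

section Main

variable {K : Type*} [Field K] [CharZero K] [Algebra ℚ K] (Q : QF ℚ K)

private theorem sig_hN (w Y : K) : Q.sig (hN w Y) = hN (Q.sig w) (Q.sig Y) := by
  unfold hN
  simp only [map_add, map_mul, map_sub, map_neg, map_pow, map_one, map_ofNat]

omit [CharZero K] in
private theorem descend {z : K} {a b : ℚ} (hb : b ≠ 0) (h : z * algebraMap ℚ K b = algebraMap ℚ K a) : z = algebraMap ℚ K (a / b) := by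
  rw [map_div₀, eq_div_iff (by rw [Ne, map_eq_zero]; exact hb)]
  exact h

private def Ty (x₃ y₃ T N μ : ℚ) (w Y : K) : Prop :=
  N ≠ 0 ∧ algebraMap ℚ K N * w ^ 2 - algebraMap ℚ K T * w + 1 = 0 ∧ algebraMap ℚ K N * (w + Q.sig w) = algebraMap ℚ K T ∧
    Y = algebraMap ℚ K μ * (w - algebraMap ℚ K x₃ * w ^ 2) + algebraMap ℚ K y₃ * w ^ 2

private theorem same {x₃ y₃ T N μ : ℚ} {w₁ Y₁ w₂ Y₂ h : K} (t₁ : Ty Q x₃ y₃ T N μ w₁ Y₁)
    (t₂ : Ty Q x₃ y₃ T N μ w₂ Y₂) (h₁ : h = hN w₁ Y₁) (h₂ : h = hN w₂ Y₂)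
    (hne : ¬ (w₁ = w₂ ∧ Y₁ = Y₂)) : ∃ q : ℚ, h = algebraMap ℚ K q := by
  obtain ⟨hN0, a1, a2, a3⟩ := t₁
  obtain ⟨-, b1, b2, b3⟩ := t₂
  have hNN : algebraMap ℚ K N ≠ 0 := by
    rw [Ne, map_eq_zero]
    exact hN0
  have e : (w₂ - w₁) * (algebraMap ℚ K N * (w₁ + w₂) - algebraMap ℚ K T) = 0 := by linear_combination b1 - a1
  rcases mul_eq_zero.mp e with h0 | h0
  · have hw : w₁ = w₂ := by linear_combination -h0
    exact absurd ⟨hw, by rw [a3, b3, hw]⟩ hne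
  · have hw : w₂ = Q.sig w₁ := by
      refine mul_left_cancel₀ hNN ?_
      linear_combination h0 - a2
    apply Q.base_of_sig
    have hY : Y₂ = Q.sig Y₁ := by
      rw [b3, a3, hw]
      simp only [map_add, map_mul, map_sub, map_pow, Q.sig_base]
    rw [h₁, sig_hN, ← hw, ← hY, ← h₂, h₁]

private def TQ (w Y h : K) : Prop := ∃ q : ℚ, w = algebraMap ℚ K q ∧ Q.sig Y = -Y ∧
  h * Q.sig h = algebraMap ℚ K (2 ^ 0 * (1 - 40 * q + 80 * q ^ 2) ^ 5) ∧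
  h + Q.sig h = algebraMap ℚ K (2 * (-1 - 350 * q - 3200 * q ^ 2 + 56000 * q ^ 3 - 224000 * q ^ 4 +
    320000 * q ^ 5))

private def TA (w Y h : K) : Prop := ∃ a : ℚ, a ^ 2 + 4 * a - 1 ≠ 0 ∧
  Ty Q 4 (-8) (a ^ 2 - 9) (4 * (a ^ 2 + 4 * a - 1)) a w Y ∧
  h * Q.sig h = algebraMap ℚ K (2 ^ 1 * (-2 * ((a ^ 2 - 6 * a - 11) / (a ^ 2 + 4 * a - 1))) ^ 5) ∧
  h + Q.sig h = algebraMap ℚ K ((63 * a ^ 10 + 10 * a ^ 9 - 2785 * a ^ 8 - 8520 * a ^ 7 + 24430 * a ^ 6 + 181532 * a ^ 5 + 350470 * a ^ 4 - 29320 * a ^ 3 - 420365 * a ^ 2 - 463190 * a - 156613) / (a ^ 2 + 4 * a - 1) ^ 5)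

private def TB (w Y h : K) : Prop := ∃ a : ℚ, a ^ 2 + 8 * a + 11 ≠ 0 ∧
  Ty Q (-4) 16 (a ^ 2 - 1) (-4 * (a ^ 2 + 8 * a + 11)) a w Y ∧
  h * Q.sig h = algebraMap ℚ K (2 ^ 3 * (2 * ((a ^ 2 - 2 * a - 19) / (a ^ 2 + 8 * a + 11))) ^ 5) ∧
  h + Q.sig h = algebraMap ℚ K ((-257 * a ^ 10 - 5130 * a ^ 9 - 49765 * a ^ 8 - 346360 * a ^ 7 - 2039170 * a ^ 6 - 9993436 * a ^ 5 - 37418770 * a ^ 4 - 99035960 * a ^ 3 - 170994365 * a ^ 2 - 170154730 * a - 73162057) / (a ^ 2 + 8 * a + 11) ^ 5)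

private def TC (w Y h : K) : Prop := ∃ a : ℚ, a ^ 2 - 4 * a - 1 ≠ 0 ∧
  Ty Q 4 8 (a ^ 2 - 9) (4 * (a ^ 2 - 4 * a - 1)) a w Y ∧
  h * Q.sig h = algebraMap ℚ K (2 ^ 4 * ((a - 7) ^ 2 / (a ^ 2 - 4 * a - 1)) ^ 5) ∧
  h + Q.sig h = algebraMap ℚ K ((-17 * a ^ 10 + 690 * a ^ 9 - 11585 * a ^ 8 + 101320 * a ^ 7 - 456770 * a ^ 6 + 628988 * a ^ 5 + 3262070 * a ^ 4 - 15725080 * a ^ 3 + 19978035 * a ^ 2 + 12221090 * a - 33933333) / (a ^ 2 - 4 * a - 1) ^ 5)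

private theorem cls {w Y h : K} (e : OnN w Y) (hh : h = hN w Y) :
    (∃ q : ℚ, h = algebraMap ℚ K q) ∨ h * Q.sig h = 4096 ∨ TQ Q w Y h ∨ TA Q w Y h ∨ TB Q w Y h ∨
      TC Q w Y h := by
  by_cases hw : ∃ q : ℚ, w = algebraMap ℚ K q
  · obtain ⟨q, rfl⟩ := hw
    have hY : Y ^ 2 = algebraMap ℚ K (q + 5 * q ^ 2 - 40 * q ^ 3 + 80 * q ^ 4) := by
      rw [show Y ^ 2 = _ from e]
      simp only [map_add, map_mul, map_sub, map_pow, map_ofNat]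
    rcases Q.sig_of_sq hY with hs | hs
    · left
      apply Q.base_of_sig
      rw [hh, sig_hN, hs, Q.sig_base]
    · right; right; left
      have hsh : Q.sig h = hN (algebraMap ℚ K q) (-Y) := by rw [hh, sig_hN, hs, Q.sig_base]
      refine ⟨q, rfl, hs, ?_, ?_⟩
      · rw [hsh, hh]
        unfold hN
        simp only [map_add, map_mul, map_sub, map_pow, map_ofNat, map_one, pow_zero]
        simp only [map_add, map_mul, map_sub, map_pow, map_ofNat] at hY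
        linear_combination (-(100 * (3 + 180 * algebraMap ℚ K q - 1520 * algebraMap ℚ K q ^ 2 + 3520 * algebraMap ℚ K q ^ 3) ^ 2)) * hY
      · rw [hsh, hh]
        unfold hN
        simp only [map_add, map_mul, map_sub, map_pow, map_ofNat, map_one, map_neg]
        ring
  · push Not at hw
    have hw0 : w ≠ 0 := fun h0 => hw 0 (by rw [h0, map_zero])
    set x : K := w⁻¹ with hx
    have hx0 : x ≠ 0 := inv_ne_zero hw0
    have hwx : w = x⁻¹ := by rw [hx, inv_inv]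
    have hxr : ∀ q : ℚ, x ≠ algebraMap ℚ K q := fun q hq => hw q⁻¹ (by rw [hwx, hq, map_inv₀])
    have hx0' : Q.sig x ≠ 0 := (map_ne_zero Q.sig).mpr hx0
    have hwx' : Q.sig w = (Q.sig x)⁻¹ := by rw [hwx, map_inv₀]
    have hwx1 : w * x = 1 := by rw [hwx, inv_mul_cancel₀ hx0]
    have hy : (Y * x ^ 2) ^ 2 = algebraMap ℚ K 1 * x ^ 3 + algebraMap ℚ K 5 * x ^ 2 + algebraMap ℚ K (-40) * x + algebraMap ℚ K 80 := by
      have e' : Y ^ 2 = w + 5 * w ^ 2 - 40 * w ^ 3 + 80 * w ^ 4 := e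
      rw [mul_pow, e', hwx, map_one, map_neg, map_ofNat, map_ofNat, map_ofNat]
      field_simp
      ring
    obtain ⟨μ, ν, X, T, N, hy', hc, hT, hN, hx2, e1, e2, -⟩ :=
      Q.third 1 5 (-40) 80 one_ne_zero hxr hy
    have hYw : Y = (algebraMap ℚ K μ * x + algebraMap ℚ K ν) * w ^ 2 := by
      rw [← hy']
      linear_combination (-Y * (w * x + 1)) * hwx1
    have hN0 : N ≠ 0 := by
      rintro rfl
      rw [map_zero] at hN
      exact mul_ne_zero hx0 hx0' hN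
    have hquad : algebraMap ℚ K N * w ^ 2 - algebraMap ℚ K T * w + 1 = 0 := by
      linear_combination w ^ 2 * hx2 - (w * x + 1 - algebraMap ℚ K T * w) * hwx1
    have hsum : algebraMap ℚ K N * (w + Q.sig w) = algebraMap ℚ K T := by
      rw [hwx', hwx, ← hN, ← hT]
      field_simp
      ring
    have hTX : T = μ ^ 2 - 5 - X := by linarith
    have hNX : N = -40 - 2 * μ * ν - T * X := by linarith
    have hsh : Q.sig h = SD87.hN (Q.sig w) (Q.sig Y) := by rw [hh, sig_hN]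
    rcases E50' X (μ * X + ν) (by linear_combination hc) with hX | hX
    · subst hX
      have hf : (μ * 4 + ν - 8) * (μ * 4 + ν + 8) = 0 := by linear_combination hc
      rcases mul_eq_zero.mp hf with h0 | h0
      · -- (4, 8)
        have hν : ν = 8 - 4 * μ := by linarith
        subst hν
        have hT' : T = μ ^ 2 - 9 := by linarith
        have hN' : N = 4 * (μ ^ 2 - 4 * μ - 1) := by rw [hNX, hT']; ring
        subst hT'
        rw [hN'] at hN hN0 hquad hsum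
        have hp : μ ^ 2 - 4 * μ - 1 ≠ 0 := fun h => hN0 (by rw [h, mul_zero])
        have hY1 : Y = (algebraMap ℚ K μ * (x - 4) + 8) * w ^ 2 := by
          rw [hYw]
          simp only [map_sub, map_mul, map_ofNat]
          ring
        have hY2 : Q.sig Y = (algebraMap ℚ K μ * (Q.sig x - 4) + 8) * Q.sig w ^ 2 := by
          rw [hY1]
          simp only [map_add, map_sub, map_mul, map_ofNat, map_pow, Q.sig_base]
        obtain ⟨c1, c2⟩ := coreC hx0 hx0' (m := algebraMap ℚ K μ)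
          (by rw [hT]; simp only [map_sub, map_pow, map_ofNat]; ring)
          (by rw [hN]; simp only [map_sub, map_mul, map_pow, map_ofNat, map_one]) hwx hwx' hY1 hY2
        rw [← hh, ← hsh] at c1 c2
        right; right; right; right; right
        refine ⟨μ, hp, ⟨hN0, hquad, hsum, ?_⟩, ?_, ?_⟩
        · rw [hY1]
          simp only [map_ofNat]
          linear_combination (algebraMap ℚ K μ * w) * hwx1
        · have k := descend (z := h * Q.sig h) (a := 16 * ((μ - 7) ^ 2) ^ 5) (pow_ne_zero 5 hp)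
            (by
              simp only [map_sub, map_mul, map_ofNat, map_pow, map_one]
              linear_combination c1)
          rw [k, div_pow]
          congr 1
          ring
        · refine descend (pow_ne_zero 5 hp) ?_
          simp only [map_add, map_sub, map_mul, map_ofNat, map_pow, map_one, map_neg]
          linear_combination c2
      · -- (4, -8)
        have hν : ν = -8 - 4 * μ := by linarith
        subst hν
        have hT' : T = μ ^ 2 - 9 := by linarith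
        have hN' : N = 4 * (μ ^ 2 + 4 * μ - 1) := by rw [hNX, hT']; ring
        subst hT'
        rw [hN'] at hN hN0 hquad hsum
        have hp : μ ^ 2 + 4 * μ - 1 ≠ 0 := fun h => hN0 (by rw [h, mul_zero])
        have hY1 : Y = (algebraMap ℚ K μ * (x - 4) + (-8)) * w ^ 2 := by
          rw [hYw]
          simp only [map_sub, map_mul, map_ofNat, map_neg]
          ring
        have hY2 : Q.sig Y = (algebraMap ℚ K μ * (Q.sig x - 4) + (-8)) * Q.sig w ^ 2 := by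
          rw [hY1]
          simp only [map_add, map_sub, map_mul, map_ofNat, map_pow, map_neg, Q.sig_base]
        obtain ⟨c1, c2⟩ := coreA hx0 hx0' (m := algebraMap ℚ K μ)
          (by rw [hT]; simp only [map_sub, map_pow, map_ofNat]; ring)
          (by rw [hN]; simp only [map_add, map_sub, map_mul, map_pow, map_ofNat, map_one])
          hwx hwx' hY1 hY2
        rw [← hh, ← hsh] at c1 c2
        right; right; right; left
        refine ⟨μ, hp, ⟨hN0, hquad, hsum, ?_⟩, ?_, ?_⟩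
        · rw [hY1]
          simp only [map_ofNat, map_neg]
          linear_combination (algebraMap ℚ K μ * w) * hwx1
        · have k := descend (z := h * Q.sig h) (a := -64 * (μ ^ 2 - 6 * μ - 11) ^ 5) (pow_ne_zero 5 hp)
            (by
              simp only [map_add, map_sub, map_mul, map_ofNat, map_pow, map_one, map_neg]
              linear_combination c1)
          rw [k, mul_pow, div_pow]
          congr 1
          ring
        · refine descend (pow_ne_zero 5 hp) ?_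
          simp only [map_add, map_sub, map_mul, map_ofNat, map_pow, map_one]
          linear_combination c2
    · subst hX
      have hf : (μ * (-4) + ν - 16) * (μ * (-4) + ν + 16) = 0 := by linear_combination hc
      rcases mul_eq_zero.mp hf with h0 | h0
      · -- (-4, 16)
        have hν : ν = 16 + 4 * μ := by linarith
        subst hν
        have hT' : T = μ ^ 2 - 1 := by linarith
        have hN' : N = -4 * (μ ^ 2 + 8 * μ + 11) := by rw [hNX, hT']; ring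
        subst hT'
        rw [hN'] at hN hN0 hquad hsum
        have hp : μ ^ 2 + 8 * μ + 11 ≠ 0 := fun h => hN0 (by rw [h, mul_zero])
        have hY1 : Y = (algebraMap ℚ K μ * (x - (-4)) + 16) * w ^ 2 := by
          rw [hYw]
          simp only [map_add, map_mul, map_ofNat]
          ring
        have hY2 : Q.sig Y = (algebraMap ℚ K μ * (Q.sig x - (-4)) + 16) * Q.sig w ^ 2 := by
          rw [hY1]
          simp only [map_add, map_sub, map_mul, map_ofNat, map_pow, map_neg, Q.sig_base]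
        obtain ⟨c1, c2⟩ := coreB hx0 hx0' (m := algebraMap ℚ K μ)
          (by rw [hT]; simp only [map_sub, map_pow, map_one]; ring)
          (by rw [hN]; simp only [map_add, map_mul, map_pow, map_ofNat, map_neg])
          hwx hwx' hY1 hY2
        rw [← hh, ← hsh] at c1 c2
        right; right; right; right; left
        refine ⟨μ, hp, ⟨hN0, hquad, hsum, ?_⟩, ?_, ?_⟩
        · rw [hY1]
          simp only [map_ofNat, map_neg]
          linear_combination (algebraMap ℚ K μ * w) * hwx1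
        · have k := descend (z := h * Q.sig h) (a := 256 * (μ ^ 2 - 2 * μ - 19) ^ 5) (pow_ne_zero 5 hp)
            (by
              simp only [map_add, map_sub, map_mul, map_ofNat, map_pow]
              linear_combination c1)
          rw [k, mul_pow, div_pow]
          congr 1
          ring
        · refine descend (pow_ne_zero 5 hp) ?_
          simp only [map_add, map_sub, map_mul, map_ofNat, map_pow, map_neg]
          linear_combination c2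
      · -- (-4, -16)
        have hν : ν = -16 + 4 * μ := by linarith
        subst hν
        have hT' : T = μ ^ 2 - 1 := by linarith
        have hN' : N = -4 * (μ ^ 2 - 8 * μ + 11) := by rw [hNX, hT']; ring
        subst hT'
        rw [hN'] at hN
        have hY1 : Y = (algebraMap ℚ K μ * (x - (-4)) + (-16)) * w ^ 2 := by
          rw [hYw]
          simp only [map_add, map_mul, map_ofNat, map_neg]
          ring
        have hY2 : Q.sig Y = (algebraMap ℚ K μ * (Q.sig x - (-4)) + (-16)) * Q.sig w ^ 2 := by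
          rw [hY1]
          simp only [map_add, map_sub, map_mul, map_ofNat, map_pow, map_neg, Q.sig_base]
        obtain ⟨c1, -⟩ := coreD hx0 hx0' (m := algebraMap ℚ K μ)
          (by rw [hT]; simp only [map_sub, map_pow, map_one]; ring)
          (by rw [hN]; simp only [map_add, map_sub, map_mul, map_pow, map_ofNat, map_neg])
          hwx hwx' hY1 hY2
        rw [← hh, ← hsh] at c1
        right; left
        exact c1

/-- Two different nonsplit Cartan structures: the case of the subgroup of order 16. -/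
theorem twoN {w₁ Y₁ w₂ Y₂ h : K} (e₁ : OnN w₁ Y₁) (e₂ : OnN w₂ Y₂) (h₁ : h = hN w₁ Y₁)
    (h₂ : h = hN w₂ Y₂) (hne : ¬ (w₁ = w₂ ∧ Y₁ = Y₂)) :
    (∃ q : ℚ, h = algebraMap ℚ K q) ∨ h * Q.sig h = 4096 := by
  by_cases hr : ∃ q : ℚ, h = algebraMap ℚ K q
  · exact Or.inl hr
  by_cases hm : h * Q.sig h = 4096
  · exact Or.inr hm
  exfalso
  have hinj := (algebraMap ℚ K).injective
  have h0 : h ≠ 0 := fun h0 => hr ⟨0, by rw [h0, map_zero]⟩
  have hnz : h * Q.sig h ≠ 0 := mul_ne_zero h0 ((map_ne_zero Q.sig).mpr h0)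
  have key : ∀ {k : ℕ} {s : ℚ}, h * Q.sig h = algebraMap ℚ K (2 ^ k * s ^ 5) → s ≠ 0 := by
    rintro k s hks rfl
    rw [hks] at hnz
    simp at hnz
  have hcls₁ := cls Q e₁ h₁
  have hcls₂ := cls Q e₂ h₂
  rcases hcls₁ with hc | hc | hc | hc | hc | hc
  · exact hr hc
  · exact hm hc
  · obtain ⟨a, ha1, ha2, ha3, ha4⟩ := hc
    rcases hcls₂ with hd | hd | hd | hd | hd | hd
    · exact hr hd
    · exact hm hd
    · obtain ⟨b, hb1, hb2, hb3, hb4⟩ := hd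
      have n := hinj (ha3.symm.trans hb3)
      have t := hinj (ha4.symm.trans hb4)
      rw [pow_zero, one_mul, one_mul] at n
      have hab := qQ (fifth_inj n) t
      subst hab
      have hYY : Y₁ ^ 2 = Y₂ ^ 2 := by
        rw [show Y₁ ^ 2 = _ from e₁, show Y₂ ^ 2 = _ from e₂, ha1, hb1]
      rcases sq_eq_sq_iff_eq_or_eq_neg.mp hYY with hY | hY
      · exact hne ⟨ha1.trans hb1.symm, hY⟩
      · apply hr
        apply Q.base_of_sig
        rw [h₁, sig_hN, ha2, ha1, Q.sig_base, ← ha1, hY, neg_neg]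
        rw [← hY, ← h₁, h₂, ha1, hb1]
    · obtain ⟨b, hb1, hb2, hb3, hb4⟩ := hd
      exact cross (by norm_num) (by norm_num) (key ha3) (hinj (ha3.symm.trans hb3))
    · obtain ⟨b, hb1, hb2, hb3, hb4⟩ := hd
      exact cross (by norm_num) (by norm_num) (key ha3) (hinj (ha3.symm.trans hb3))
    · obtain ⟨b, hb1, hb2, hb3, hb4⟩ := hd
      exact cross (by norm_num) (by norm_num) (key ha3) (hinj (ha3.symm.trans hb3))
  · obtain ⟨a, ha1, ha2, ha3, ha4⟩ := hc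
    rcases hcls₂ with hd | hd | hd | hd | hd | hd
    · exact hr hd
    · exact hm hd
    · obtain ⟨b, hb1, hb2, hb3, hb4⟩ := hd
      exact cross (by norm_num) (by norm_num) (key hb3) (hinj (hb3.symm.trans ha3))
    · obtain ⟨b, hb1, hb2, hb3, hb4⟩ := hd
      have n := hinj (ha3.symm.trans hb3)
      have t := hinj (ha4.symm.trans hb4)
      have n' := fifth_inj (mul_left_cancel₀ (pow_ne_zero 1 two_ne_zero) n)
      have hab := qA ha1 hb1 (mul_left_cancel₀ (by norm_num) n') t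
      subst hab
      exact hr (same Q ha2 hb2 h₁ h₂ hne)
    · obtain ⟨b, hb1, hb2, hb3, hb4⟩ := hd
      exact cross (by norm_num) (by norm_num) (key ha3) (hinj (ha3.symm.trans hb3))
    · obtain ⟨b, hb1, hb2, hb3, hb4⟩ := hd
      exact cross (by norm_num) (by norm_num) (key ha3) (hinj (ha3.symm.trans hb3))
  · obtain ⟨a, ha1, ha2, ha3, ha4⟩ := hc
    rcases hcls₂ with hd | hd | hd | hd | hd | hd
    · exact hr hd
    · exact hm hd
    · obtain ⟨b, hb1, hb2, hb3, hb4⟩ := hd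
      exact cross (by norm_num) (by norm_num) (key hb3) (hinj (hb3.symm.trans ha3))
    · obtain ⟨b, hb1, hb2, hb3, hb4⟩ := hd
      exact cross (by norm_num) (by norm_num) (key hb3) (hinj (hb3.symm.trans ha3))
    · obtain ⟨b, hb1, hb2, hb3, hb4⟩ := hd
      have n := hinj (ha3.symm.trans hb3)
      have t := hinj (ha4.symm.trans hb4)
      have n' := fifth_inj (mul_left_cancel₀ (pow_ne_zero 3 two_ne_zero) n)
      have hg : a ^ 2 - 2 * a - 19 ≠ 0 := by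
        intro hg
        apply key ha3
        rw [hg, zero_div, mul_zero]
      have hab := qB ha1 hb1 hg (mul_left_cancel₀ (by norm_num) n') t
      subst hab
      exact hr (same Q ha2 hb2 h₁ h₂ hne)
    · obtain ⟨b, hb1, hb2, hb3, hb4⟩ := hd
      exact cross (by norm_num) (by norm_num) (key ha3) (hinj (ha3.symm.trans hb3))
  · obtain ⟨a, ha1, ha2, ha3, ha4⟩ := hc
    rcases hcls₂ with hd | hd | hd | hd | hd | hd
    · exact hr hd
    · exact hm hd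
    · obtain ⟨b, hb1, hb2, hb3, hb4⟩ := hd
      exact cross (by norm_num) (by norm_num) (key hb3) (hinj (hb3.symm.trans ha3))
    · obtain ⟨b, hb1, hb2, hb3, hb4⟩ := hd
      exact cross (by norm_num) (by norm_num) (key hb3) (hinj (hb3.symm.trans ha3))
    · obtain ⟨b, hb1, hb2, hb3, hb4⟩ := hd
      exact cross (by norm_num) (by norm_num) (key hb3) (hinj (hb3.symm.trans ha3))
    · obtain ⟨b, hb1, hb2, hb3, hb4⟩ := hd
      have n := hinj (ha3.symm.trans hb3)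
      have t := hinj (ha4.symm.trans hb4)
      have n' := fifth_inj (mul_left_cancel₀ (pow_ne_zero 4 two_ne_zero) n)
      have ha7 : a ≠ 7 := by
        rintro rfl
        apply key ha3
        norm_num
      have hb7 : b ≠ 7 := by
        rintro rfl
        apply key hb3
        norm_num
      have hab := qC ha1 hb1 ha7 hb7 n' t
      subst hab
      exact hr (same Q ha2 hb2 h₁ h₂ hne)

end Main

end SD87
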