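import Pool.Agent.Lib.MP_87c685_nt_SD.TenA
import Pool.Agent.Lib.MP_87c685_nt_SD.TwoC
import Pool.Agent.Lib.MP_87c685_nt_SD.TwoN
import Pool.Agent.Lib.MP_87c685_nt_SD.Cns
import Pool.Agent.Lib.MP_87c685_nt_SD.MapC
import Pool.Agent.Lib.MP_87c685_nt_SD.MapN
import Pool.Agent.Lib.MP_87c685_nt_SD.Biquad

/-!
# Curves with a point of order two and small image at five
-/

set_option autoImplicit false

namespace SD87

variable {K : Type*} [Field K] [CharZero K] [Algebra ℚ K] (Q : QF ℚ K)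


/-- Positive rational numbers which are not squares have no square root in an imaginary quadratic
field. -/
theorem no_sqrt (hn : Q.n < 0) {q : ℚ} (hq : 0 < q) (hs : ∀ r : ℚ, r ^ 2 ≠ q) (z : K) :
    z ^ 2 ≠ algebraMap ℚ K q := by
  intro h
  have hz : z ≠ 0 := by
    rintro rfl
    have h1 : algebraMap ℚ K q = 0 := by rw [← h]; ring
    rw [map_eq_zero] at h1
    exact hq.ne' h1
  rcases Q.sig_of_sq h with h1 | h1
  · obtain ⟨r, hr⟩ := Q.base_of_sig h1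
    refine hs r ?_
    rw [hr, ← map_pow] at h
    exact (algebraMap ℚ K).injective h
  · have h2 : z * Q.sig z = algebraMap ℚ K (-q) := by
      rw [h1, map_neg, ← h]
      ring
    have h3 := Q.norm_pos hn hz h2
    linarith

theorem no_sqrt_two (hn : Q.n < 0) (z : K) : z ^ 2 ≠ 2 := by
  have h := no_sqrt Q hn (q := 2) (by norm_num) (fun r hr => by
    have h2 : IsSquare (2 : ℚ) := ⟨r, by rw [← hr]; ring⟩
    rw [show (2 : ℚ) = ((2 : ℤ) : ℚ) by norm_num, Rat.isSquare_intCast_iff] at h2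
    obtain ⟨m, hm⟩ := h2
    have h3 : |m| ≤ 2 := by
      rw [abs_le]
      constructor <;> nlinarith
    rw [abs_le] at h3
    obtain ⟨h4, h5⟩ := h3
    interval_cases m <;> omega) z
  rwa [map_ofNat] at h

theorem no_sqrt_five (hn : Q.n < 0) (z : K) : z ^ 2 ≠ 5 := by
  have h := no_sqrt Q hn (q := 5) (by norm_num) five_not_sq z
  rwa [map_ofNat] at h

theorem cubic_rat (t : ℚ) : t ^ 3 - 25 * t - 50 ≠ 0 := by
  intro h
  obtain ⟨p, hp⟩ : ∃ p : ℤ, p = t.num := ⟨_, rfl⟩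
  obtain ⟨q, hq⟩ : ∃ q : ℤ, q = (t.den : ℤ) := ⟨_, rfl⟩
  have hq0 : 0 < q := by rw [hq]; exact_mod_cast t.den_pos
  have hqr : (q : ℚ) ≠ 0 := by exact_mod_cast hq0.ne'
  have hte : t = (p : ℚ) / q := by rw [hp, hq]; exact_mod_cast (Rat.num_div_den t).symm
  have hpq : IsCoprime p q := by
    rw [hp, hq]
    exact Int.isCoprime_iff_gcd_eq_one.mpr t.reduced
  have key : p ^ 3 = 25 * ((p + 2 * q) * q ^ 2) := by
    rw [hte] at h
    field_simp at h
    have h2 : ((p ^ 3 : ℤ) : ℚ) = ((25 * ((p + 2 * q) * q ^ 2) : ℤ) : ℚ) := by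
      push_cast
      linear_combination h
    exact_mod_cast h2
  have p5 : Prime (5 : ℤ) := Int.prime_iff_natAbs_prime.mpr (by norm_num)
  have h5 : (5 : ℤ) ∣ p := by
    have h3 : (5 : ℤ) ∣ p ^ 3 := ⟨5 * ((p + 2 * q) * q ^ 2), by rw [key]; ring⟩
    exact p5.dvd_of_dvd_pow h3
  obtain ⟨m, rfl⟩ := h5
  have h6 : (5 : ℤ) ∣ 2 * q ^ 3 := by
    have h7 : (25 : ℤ) * (5 * m ^ 3) = 25 * ((5 * m + 2 * q) * q ^ 2) := by
      rw [← key]; ring
    have h8 := mul_left_cancel₀ (by norm_num) h7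
    exact ⟨m ^ 3 - m * q ^ 2, by linear_combination -h8⟩
  have h7 : (5 : ℤ) ∣ q := by
    rcases p5.dvd_or_dvd h6 with h8 | h8
    · exact absurd h8 (by norm_num)
    · exact p5.dvd_of_dvd_pow h8
  exact p5.not_isUnit (hpq.isUnit_of_dvd' (Dvd.intro _ rfl) h7)

include Q in
theorem cubic_ne (t : K) : t ^ 3 - 25 * t - 50 ≠ 0 := by
  intro h
  by_cases ht : ∃ q : ℚ, t = algebraMap ℚ K q
  · obtain ⟨q, rfl⟩ := ht
    refine cubic_rat q ((algebraMap ℚ K).injective ?_)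
    simp only [map_sub, map_mul, map_pow, map_ofNat, map_zero]
    exact h
  · push Not at ht
    obtain ⟨T, N, -, -, h2⟩ := Q.tn t
    have h3 : algebraMap ℚ K (T ^ 2 - N - 25) * t + algebraMap ℚ K (-T * N - 50) = 0 := by
      simp only [map_sub, map_mul, map_pow, map_ofNat, map_neg]
      linear_combination h - (t + algebraMap ℚ K T) * h2
    obtain ⟨h4, h5⟩ := QF.indep ht h3
    refine cubic_rat (-T) ?_
    linear_combination h5 - T * h4

/-- The conclusion in terms of the Hauptmodul of `X_0(2)`. -/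
theorem fin_h {j h : K} (hh : h ≠ 0) (h2 : j * h = (h + 16) ^ 3)
    (H : (∃ q : ℚ, h = algebraMap ℚ K q) ∨ h * Q.sig h = 4096) :
    (∃ q : ℚ, j = algebraMap ℚ K q) ∨ Step2 j (Q.sig j) := by
  rcases H with ⟨q, rfl⟩ | H
  · left
    refine ⟨(q + 16) ^ 3 / q, ?_⟩
    rw [map_div₀, eq_div_iff hh, h2]
    simp only [map_pow, map_add, map_ofNat]
  · right
    have hs : Q.sig h ≠ 0 := by
      intro h3
      rw [h3, mul_zero] at H
      norm_num at H
    have h3 : Q.sig j * Q.sig h = (Q.sig h + 16) ^ 3 := by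
      rw [← map_mul, h2, map_pow, map_add, map_ofNat]
    refine ⟨h / 16, div_ne_zero hh (by norm_num), ?_, ?_⟩
    · linear_combination (1 / 16 : K) * h2
    · refine mul_right_cancel₀ (pow_ne_zero 3 hs) ?_
      have e1 : Q.sig j * (h / 16) ^ 2 * Q.sig h ^ 3 =
          (h * Q.sig h) ^ 2 / 256 * (Q.sig j * Q.sig h) := by ring
      have e2 : 16 * (h / 16 + 16) ^ 3 * Q.sig h ^ 3 =
          (h * Q.sig h + 256 * Q.sig h) ^ 3 / 256 := by ring
      rw [e1, e2, h3, H]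
      ring

omit [CharZero K] [Algebra ℚ K] in
theorem j_eq_jns {j l : K} (hp : l ^ 2 - 5 ≠ 0)
    (hj : j * (l ^ 2 - 5) ^ 5 = 8000 * (l + 1) * (l * (l ^ 2 - 5 * l + 10)) ^ 3) : j = jns l := by
  unfold jns
  rw [eq_div_iff (pow_ne_zero 5 hp)]
  exact hj

/-- The subgroup of order 24: two roots of the quintic. -/
theorem case24 {j h l r : K} (hh : h ≠ 0) (h2 : j * h = (h + 16) ^ 3) (hp : l ^ 2 - 5 ≠ 0)
    (hr : r ^ 2 = -5 * (2 * l ^ 2 - 10 * l + 15))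
    (hj : j * (l ^ 2 - 5) ^ 5 = 8000 * (l + 1) * (l * (l ^ 2 - 5 * l + 10)) ^ 3) :
    (∃ q : ℚ, j = algebraMap ℚ K q) ∨ Step2 j (Q.sig j) := by
  have hjn := j_eq_jns hp hj
  have hp' : l ^ 2 ≠ 5 := sub_ne_zero.mp hp
  by_cases j0 : j = 0
  · exact Or.inl ⟨0, by rw [j0, map_zero]⟩
  by_cases j1 : j = 1728
  · exact Or.inl ⟨1728, by rw [j1, map_ofNat]⟩
  have h16 : h + 16 ≠ 0 := by
    intro h3
    rw [h3] at h2
    exact (mul_ne_zero j0 hh) (by rw [h2]; ring)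
  have hl : l ≠ 0 := by
    rintro rfl
    exact (mul_ne_zero j0 (pow_ne_zero 5 hp)) (by rw [hj]; ring)
  have hr0 : r ≠ 0 := by
    rintro rfl
    have h3 : 2 * l ^ 2 - 10 * l + 15 = 0 := by linear_combination (1 / 5 : K) * hr
    have h4 : (j - 1728) * (l ^ 2 - 5) ^ 5 = 64 * (2 * l ^ 2 - 10 * l + 15) *
        (7 * l ^ 4 - 45 * l ^ 3 + 30 * l ^ 2 - 25 * l - 75) ^ 2 := by
      linear_combination hj
    rw [h3] at h4
    have h5 : (j - 1728) * (l ^ 2 - 5) ^ 5 = 0 := by rw [h4]; ring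
    exact j1 (sub_eq_zero.mp ((mul_eq_zero.mp h5).resolve_right (pow_ne_zero 5 hp)))
  have root : ∀ r' : K, r' ^ 2 = -5 * (2 * l ^ 2 - 10 * l + 15) →
      ∃ X v : K, OnC X v ∧ h = hC X v ∧
        v * (2 * l * (r' - 5) / (l ^ 2 - 5)) = h + 16 := by
    intro r' hr'
    have h3 := jns_root hp' hr'
    rw [← hjn] at h3
    have ht : 2 * l * (r' - 5) / (l ^ 2 - 5) ≠ 0 := by
      intro h4
      rw [h4] at h3
      exact j0 (by rw [← h3]; ring)
    have hw : (2 * l * (r' - 5) / (l ^ 2 - 5)) ^ 2 + 4 * (2 * l * (r' - 5) / (l ^ 2 - 5)) + 24 ≠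
        0 := by
      intro h4
      exact j1 (by rw [← h3, quintic_1728 h4])
    obtain ⟨X, v, h4, h5, -, h6⟩ := mapC ht hw (h := h) (by rw [h3, ← h2]; ring)
    exact ⟨X, v, h4, h5, h6⟩
  obtain ⟨X₁, v₁, a1, a2, a3⟩ := root r hr
  obtain ⟨X₂, v₂, b1, b2, b3⟩ := root (-r) (by rw [← hr]; ring)
  refine fin_h Q hh h2 (twoC Q a1 b1 a2 b2 ?_)
  rintro ⟨-, hv⟩
  rw [← hv] at b3
  have hv0 : v₁ ≠ 0 := by
    rintro rfl
    exact h16 (by rw [← a3]; ring)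
  have h5 : 2 * l * (r - 5) / (l ^ 2 - 5) = 2 * l * (-r - 5) / (l ^ 2 - 5) :=
    mul_left_cancel₀ hv0 (by rw [a3, b3])
  rw [div_left_inj' hp] at h5
  have h6 : l * r = 0 := by linear_combination (1 / 4 : K) * h5
  exact (mul_ne_zero hl hr0) h6

/-- The nonsplit Cartan subgroup. -/
theorem caseCns (hn : Q.n < 0) {j h l a : K} (hh : h ≠ 0) (h2 : j * h = (h + 16) ^ 3)
    (hp : l ^ 2 - 5 ≠ 0) (ha : a ^ 2 = -(2 * l ^ 2 - 10 * l + 15))
    (hj : j * (l ^ 2 - 5) ^ 5 = 8000 * (l + 1) * (l * (l ^ 2 - 5 * l + 10)) ^ 3) :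
    (∃ q : ℚ, j = algebraMap ℚ K q) ∨ Step2 j (Q.sig j) := by
  have hjn := j_eq_jns hp hj
  by_cases j0 : j = 0
  · exact Or.inl ⟨0, by rw [j0, map_zero]⟩
  by_cases j1 : j = 1728
  · exact Or.inl ⟨1728, by rw [j1, map_ofNat]⟩
  have h16 : h + 16 ≠ 0 := by
    intro h3
    rw [h3] at h2
    exact (mul_ne_zero j0 hh) (by rw [h2]; ring)
  have hl : l ≠ 0 := by
    rintro rfl
    exact (mul_ne_zero j0 (pow_ne_zero 5 hp)) (by rw [hj]; ring)
  have ha0 : a ≠ 0 := by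
    rintro rfl
    have h3 : 2 * l ^ 2 - 10 * l + 15 = 0 := by linear_combination ha
    have h4 : (j - 1728) * (l ^ 2 - 5) ^ 5 = 64 * (2 * l ^ 2 - 10 * l + 15) *
        (7 * l ^ 4 - 45 * l ^ 3 + 30 * l ^ 2 - 25 * l - 75) ^ 2 := by
      linear_combination hj
    rw [h3] at h4
    have h5 : (j - 1728) * (l ^ 2 - 5) ^ 5 = 0 := by rw [h4]; ring
    exact j1 (sub_eq_zero.mp ((mul_eq_zero.mp h5).resolve_right (pow_ne_zero 5 hp)))
  obtain ⟨F, L, _, _, _, _, _, _, P, Q', τ, ι, r, hP, hτF, hτσ, hττ, hτι, hσι, hr5, hτr⟩ :=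
    exists_biquad Q hn
  have hpL : ι l ^ 2 - 5 ≠ 0 := by
    have h3 : ι l ^ 2 - 5 = ι (l ^ 2 - 5) := by rw [map_sub, map_pow, map_ofNat]
    rw [h3, Ne, map_eq_zero]
    exact hp
  have haL : ι a ^ 2 = -(2 * ι l ^ 2 - 10 * ι l + 15) := by
    rw [← map_pow, ha]
    simp only [map_neg, map_add, map_sub, map_mul, map_pow, map_ofNat]
  have hjL : ι j * (ι l ^ 2 - 5) ^ 5 =
      8000 * (ι l + 1) * (ι l * (ι l ^ 2 - 5 * ι l + 10)) ^ 3 := by
    have h3 := congrArg ι hj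
    simp only [map_add, map_sub, map_mul, map_pow, map_ofNat, map_one] at h3
    exact h3
  have hjnL := j_eq_jns hpL hjL
  have hp' : ι l ^ 2 ≠ 5 := sub_ne_zero.mp hpL
  have h3 := jns_root hp' (r := r * ι a) (by rw [mul_pow, hr5, haL]; ring)
  rw [← hjnL] at h3
  obtain ⟨t, ht⟩ : ∃ t : L, t = 2 * ι l * (r * ι a - 5) / (ι l ^ 2 - 5) := ⟨_, rfl⟩
  rw [← ht] at h3
  have ht0 : t ≠ 0 := by
    rintro rfl
    have h4 : ι j = 0 := by rw [← h3]; ring
    rw [map_eq_zero] at h4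
    exact j0 h4
  have hw : t ^ 2 + 4 * t + 24 ≠ 0 := by
    intro h4
    have h5 : ι j = ι 1728 := by rw [← h3, quintic_1728 h4, map_ofNat]
    exact j1 (ι.injective h5)
  have h2L : (ι h + 16) ^ 3 = ι h * (t ^ 3 * (t ^ 2 + 5 * t + 40)) := by
    have h4 := congrArg ι h2
    simp only [map_add, map_mul, map_pow, map_ofNat] at h4
    rw [h3, ← h4]
    ring
  obtain ⟨X, v, b1, b2, -, b3⟩ := mapC ht0 hw h2L
  have hne : ¬ (τ X = X ∧ τ v = v) := by
    rintro ⟨-, hv⟩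
    have h4 : v * τ t = ι h + 16 := by
      have h5 := congrArg τ b3
      rw [map_mul, hv, map_add, hτι, map_ofNat] at h5
      exact h5
    have hv0 : v ≠ 0 := by
      rintro rfl
      have h5 : ι (h + 16) = 0 := by rw [map_add, map_ofNat, ← b3]; ring
      rw [map_eq_zero] at h5
      exact h16 h5
    have h5 : τ t = t := mul_left_cancel₀ hv0 (by rw [b3, h4])
    have h6 : τ t = 2 * ι l * (-r * ι a - 5) / (ι l ^ 2 - 5) := by
      rw [ht]
      simp only [map_div₀, map_sub, map_mul, map_pow, map_ofNat, hτι, hτr]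
    rw [h6, ht, div_left_inj' hpL] at h5
    have h7 : r * (ι l * ι a) = 0 := by linear_combination -(1 / 4 : L) * h5
    have hr0 : r ≠ 0 := by
      rintro rfl
      norm_num at hr5
    rcases mul_eq_zero.mp h7 with h8 | h8
    · exact hr0 h8
    · rw [← map_mul, map_eq_zero] at h8
      exact (mul_ne_zero hl ha0) h8
  have h4 := cns P hP Q' τ hτF hτσ hττ b1 b2 (hτι h) hne
  refine fin_h Q hh h2 ?_
  rcases h4 with ⟨q, hq⟩ | h4
  · left
    refine ⟨q, ι.injective ?_⟩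
    rw [hq, eq_ratCast, map_ratCast]
  · right
    apply ι.injective
    rw [map_mul, ← hσι, h4, map_ofNat]

/-- The subgroup of order 16. -/
theorem case16 (hn : Q.n < 0) {j h t z : K} (hh : h ≠ 0) (h2 : j * h = (h + 16) ^ 3)
    (hD : t ^ 2 + 5 * t + 5 ≠ 0) (hz : z ^ 2 = 5 * (t ^ 2 - 20))
    (hj : j * (t ^ 2 + 5 * t + 5) ^ 5 = ((t + 5) * (t ^ 2 - 5) * (t ^ 2 + 5 * t + 10)) ^ 3) :
    (∃ q : ℚ, j = algebraMap ℚ K q) ∨ Step2 j (Q.sig j) := by
  by_cases j0 : j = 0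
  · exact Or.inl ⟨0, by rw [j0, map_zero]⟩
  by_cases j1 : j = 1728
  · exact Or.inl ⟨1728, by rw [j1, map_ofNat]⟩
  have h16 : h + 16 ≠ 0 := by
    intro h3
    rw [h3] at h2
    exact (mul_ne_zero j0 hh) (by rw [h2]; ring)
  have s2 := no_sqrt_two Q hn
  have s5 := no_sqrt_five Q hn
  have hd := cubic_ne Q t
  have hz0 : z ≠ 0 := by
    rintro rfl
    exact s5 (t / 2) (by linear_combination -(1 / 20 : K) * hz)
  have root : ∀ z' : K, z' ^ 2 = 5 * (t ^ 2 - 20) → ∃ w Y : K, OnN w Y ∧ h = hN w Y ∧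
      (-(5 * (t ^ 2 + 10 * t + 20) + (t ^ 2 + 5 * t + 5) * z') / (t ^ 3 - 25 * t - 50)) *
        (1 + 4 * w - 48 * w ^ 2 + 64 * w ^ 3) = 1 + 4 * w + 8 * (1 - 2 * w) * Y ∧
      1 + 4 * w - 48 * w ^ 2 + 64 * w ^ 3 ≠ 0 := by
    intro z' hz'
    have h3 := jns_h16 hd hD hz' s5
    have h4 : j = ((t + 5) * (t ^ 2 - 5) * (t ^ 2 + 5 * t + 10)) ^ 3 /
        (t ^ 2 + 5 * t + 5) ^ 5 := by
      rw [eq_div_iff (pow_ne_zero 5 hD)]
      exact hj
    rw [← h4] at h3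
    refine mapN s2 s5 (by rw [h3, ← h2]; ring) ?_ h16
    intro h5
    exact j1 (by rw [← h3, jns_1728 (s5 _) h5])
  obtain ⟨w₁, Y₁, a1, a2, a3, a4⟩ := root z hz
  obtain ⟨w₂, Y₂, b1, b2, b3, -⟩ := root (-z) (by rw [← hz]; ring)
  refine fin_h Q hh h2 (twoN Q a1 b1 a2 b2 ?_)
  rintro ⟨rfl, rfl⟩
  have h5 := mul_right_cancel₀ a4 (a3.trans b3.symm)
  rw [div_left_inj' hd] at h5
  have h6 : (t ^ 2 + 5 * t + 5) * z = 0 := by linear_combination -(1 / 2 : K) * h5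
  exact (mul_ne_zero hD hz0) h6

end SD87
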