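import Pool.Agent.Lib.MP_87c685_nt_SD.Rep

/-!
# The cube root lemma
-/

set_option autoImplicit false

namespace SD87

/-- The cube root lemma in the order `ℤ[ω]`, `ω ^ 2 = ω - m`. -/
theorem cube_root (m : ℤ) (S : Set ℤ)
    (hS : ∀ A B C : ℤ, 0 < A → B ^ 2 - 4 * A * C = 1 - 4 * m →
      ∃ X Y : ℤ, A * X ^ 2 + B * X * Y + C * Y ^ 2 ∈ S)
    (x y r : ℤ) (hr : 0 < r) (hc : IsCoprime y r) (hN : r ^ 3 ∣ x ^ 2 + x * y + m * y ^ 2) :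
    ∃ (z g : QuadraticAlgebra ℤ (-m) 1) (M : ℤ), M ∈ S ∧ z.norm = M * r ∧
      z ^ 3 * star (⟨x, y⟩ : QuadraticAlgebra ℤ (-m) 1) = (r ^ 3) • g := by
  have hc3 : IsCoprime y (r ^ 3) := hc.pow_right
  obtain ⟨a, b, hab⟩ := hc3
  obtain ⟨t, ht⟩ := hN
  obtain ⟨n, hn⟩ : ∃ n : ℤ, n = -(a * x) := ⟨_, rfl⟩
  -- x + y n = x b r^3
  have h1 : x + y * n = r ^ 3 * (x * b) := by
    rw [hn]
    linear_combination (-x) * hab
  have h2 : r ^ 3 ∣ y ^ 2 * (n ^ 2 - n + m) := by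
    refine ⟨t + x * b * (y * n - x - y), ?_⟩
    linear_combination ht + (y * n - x - y) * h1
  have h3 : r ^ 3 ∣ n ^ 2 - n + m := (IsCoprime.pow (m := 3) (n := 2) hc.symm).dvd_of_dvd_mul_left h2
  obtain ⟨k, hk⟩ := h3
  obtain ⟨X, Y, hXY⟩ := hS r (1 - 2 * n) (r ^ 2 * k) hr (by linear_combination 4 * hk)
  obtain ⟨p, hp⟩ : ∃ p : ℤ, p = r * X - n * Y := ⟨_, rfl⟩
  obtain ⟨P, hP⟩ : ∃ P : ℤ, P = (p ^ 2 - m * Y ^ 2) * p - m * (2 * p * Y + Y ^ 2) * Y := ⟨_, rfl⟩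
  obtain ⟨Q, hQ⟩ : ∃ Q : ℤ, Q = (p ^ 2 - m * Y ^ 2) * Y + (2 * p * Y + Y ^ 2) * p +
    (2 * p * Y + Y ^ 2) * Y := ⟨_, rfl⟩
  have h4 : ∃ u : ℤ, P + Q * n = r ^ 3 * u := by
    refine ⟨X ^ 3 - k * (3 * p * Y ^ 2 + n * Y ^ 3 + Y ^ 3), ?_⟩
    have e : p + n * Y = r * X := by rw [hp]; ring
    rw [hP, hQ]
    have e3 : (p + n * Y) ^ 3 = r ^ 3 * X ^ 3 := by rw [e]; ring
    linear_combination e3 - (3 * p * Y ^ 2 + n * Y ^ 3 + Y ^ 3) * hk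
  obtain ⟨u, hu⟩ := h4
  have h5 : r ^ 3 ∣ P * (x + y) + Q * y * m := by
    refine ⟨u * (x + y) - Q * n * (x * b) + Q * y * k, ?_⟩
    linear_combination (x + y) * hu - Q * n * h1 + Q * y * hk
  have h6 : r ^ 3 ∣ Q * x - P * y := by
    refine ⟨Q * (x * b) - u * y, ?_⟩
    linear_combination Q * h1 - y * hu
  obtain ⟨c, hc'⟩ := h5
  obtain ⟨d, hd'⟩ := h6
  refine ⟨⟨p, Y⟩, ⟨c, d⟩, _, hXY, ?_, ?_⟩
  · rw [QuadraticAlgebra.norm_def]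
    simp only
    rw [hp]
    linear_combination Y ^ 2 * hk
  · have ez : (⟨p, Y⟩ : QuadraticAlgebra ℤ (-m) 1) ^ 3 = ⟨P, Q⟩ := by
      rw [pow_succ, pow_two]
      ext
      · simp only [QuadraticAlgebra.re_mul, QuadraticAlgebra.im_mul]
        rw [hP]; ring
      · simp only [QuadraticAlgebra.re_mul, QuadraticAlgebra.im_mul]
        rw [hQ]; ring
    rw [ez]
    ext
    · simp only [QuadraticAlgebra.re_mul, QuadraticAlgebra.re_star, QuadraticAlgebra.im_star,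
        QuadraticAlgebra.re_smul, smul_eq_mul]
      linear_combination hc'
    · simp only [QuadraticAlgebra.im_mul, QuadraticAlgebra.re_star, QuadraticAlgebra.im_star,
        QuadraticAlgebra.im_smul, smul_eq_mul]
      linear_combination hd'

end SD87
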