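import Pool.Agent.Lib.MP_87c685_nt_SD.Enum

/-!
# The curves with good reduction outside two and five

The curves `c y ^ 2 = x (x ^ 2 + 22 x + 125)` and `c y ^ 2 = x (x ^ 2 + 5 x - 25)` with
`c = 1, -1, 5, -5` have no rational point with `x ≠ 0`.
-/

set_option autoImplicit false

namespace SD87

/-- The statement that the descent map has only trivial values. -/
def Cls (a b : ℤ) : Prop :=
  ∀ x y : ℚ, y ^ 2 = x * (x ^ 2 + (a : ℚ) * x + (b : ℚ)) → x ≠ 0 →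
    IsSquare x ∨ IsSquare ((b : ℚ) * x)

theorem cls_of (a b R : ℤ) (k : ℕ) (hk : k ≠ 0) (hbR : b ∣ R ^ k)
    (H : ∀ d b' r s w : ℤ, b = d * b' → d ∣ R → r ≠ 0 → s ≠ 0 → IsCoprime (d * r ^ 2) s →
      w ^ 2 = d * r ^ 4 + a * r ^ 2 * s ^ 2 + b' * s ^ 4 → d = 1 ∨ ∃ m : ℤ, b * d = m ^ 2) :
    Cls a b := by
  intro x y h hx
  obtain ⟨d, b', r, s, w, hd, hb, hs, hr, hc, hxe, hw⟩ := exists_class a b x y h hx
  have hdR : d ∣ R := (hd.dvd_pow_iff_dvd hk).mp ((Dvd.intro _ hb.symm).trans hbR)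
  rcases H d b' r s w hb hdR hr hs.ne' hc hw with h1 | ⟨m, hm⟩
  · left
    refine ⟨(r : ℚ) / s, ?_⟩
    rw [hxe, h1]
    push_cast
    ring
  · right
    refine ⟨(m : ℚ) * r / s, ?_⟩
    rw [hxe]
    have h2 : (b : ℚ) * d = (m : ℚ) ^ 2 := by exact_mod_cast hm
    have h3 : (b : ℚ) * (d * (r : ℚ) ^ 2 / (s : ℚ) ^ 2) = ((b : ℚ) * d) * ((r : ℚ) ^ 2 / (s : ℚ) ^ 2) := by
      ring
    rw [h3, h2]
    ring

/-- Negative classes do not occur for a positive form. -/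
theorem pos_of (a b d b' r s w : ℤ) (hab : a ^ 2 < 4 * b) (hb : b = d * b') (hs : s ≠ 0)
    (h : w ^ 2 = d * r ^ 4 + a * r ^ 2 * s ^ 2 + b' * s ^ 4) : 0 < d := by
  by_contra hd
  push Not at hd
  have h1 : 4 * (d * w ^ 2) = (2 * d * r ^ 2 + a * s ^ 2) ^ 2 + (4 * b - a ^ 2) * s ^ 4 := by
    rw [h, hb]; ring
  have h2 : 0 < (4 * b - a ^ 2) * s ^ 4 := mul_pos (by linarith) (by positivity)
  have h3 : d * w ^ 2 ≤ 0 := mul_nonpos_of_nonpos_of_nonneg hd (sq_nonneg w)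
  nlinarith [sq_nonneg (2 * d * r ^ 2 + a * s ^ 2)]

/-- The obstruction at two. -/
theorem two_obs (d a b' r s w : ℤ) (h2 : ((d : ZMod 16) = 2 ∨ (d : ZMod 16) = 14 ∨
      (d : ZMod 16) = 10 ∨ (d : ZMod 16) = 6)) (ha : (a : ZMod 16) = 4 ∨ (a : ZMod 16) = 12)
    (hb : (b' : ZMod 16) = 8) (hc : IsCoprime (d * r ^ 2) s) (hd : 2 ∣ d)
    (h : w ^ 2 = d * r ^ 4 + a * r ^ 2 * s ^ 2 + b' * s ^ 4) : False := by
  have hso : ¬ (2 ∣ s) := by
    intro h3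
    have h4 : IsUnit (2 : ℤ) := hc.isUnit_of_dvd' (Dvd.dvd.mul_right hd _) h3
    rw [Int.isUnit_iff] at h4
    omega
  have hs1 : (s : ZMod 16) * (8 : ZMod 16) = 8 := by
    obtain ⟨m, hm⟩ : ∃ m, s = 2 * m + 1 := ⟨s / 2, by omega⟩
    rw [hm]
    push_cast
    generalize (m : ZMod 16) = z
    revert z
    decide
  have h3 : (w : ZMod 16) ^ 2 = (d : ZMod 16) * (r : ZMod 16) ^ 4 +
      (a : ZMod 16) * (r : ZMod 16) ^ 2 * (s : ZMod 16) ^ 2 + (b' : ZMod 16) * (s : ZMod 16) ^ 4 := by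
    exact_mod_cast congrArg (Int.cast : ℤ → ZMod 16) h
  rw [hb] at h3
  have key : ∀ d a : ZMod 16, (d = 2 ∨ d = 14 ∨ d = 10 ∨ d = 6) → (a = 4 ∨ a = 12) →
      ∀ s : ZMod 16, s * 8 = 8 → ∀ r w : ZMod 16, w ^ 2 ≠ d * r ^ 4 + a * r ^ 2 * s ^ 2 + 8 * s ^ 4 := by
    have k1 : ∀ a : ZMod 16, (a = 4 ∨ a = 12) → ∀ s : ZMod 16, s * 8 = 8 → ∀ r w : ZMod 16,
      w ^ 2 ≠ 2 * r ^ 4 + a * r ^ 2 * s ^ 2 + 8 * s ^ 4 := by decide +kernel
    have k2 : ∀ a : ZMod 16, (a = 4 ∨ a = 12) → ∀ s : ZMod 16, s * 8 = 8 → ∀ r w : ZMod 16,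
      w ^ 2 ≠ 14 * r ^ 4 + a * r ^ 2 * s ^ 2 + 8 * s ^ 4 := by decide +kernel
    have k3 : ∀ a : ZMod 16, (a = 4 ∨ a = 12) → ∀ s : ZMod 16, s * 8 = 8 → ∀ r w : ZMod 16,
      w ^ 2 ≠ 10 * r ^ 4 + a * r ^ 2 * s ^ 2 + 8 * s ^ 4 := by decide +kernel
    have k4 : ∀ a : ZMod 16, (a = 4 ∨ a = 12) → ∀ s : ZMod 16, s * 8 = 8 → ∀ r w : ZMod 16,
      w ^ 2 ≠ 6 * r ^ 4 + a * r ^ 2 * s ^ 2 + 8 * s ^ 4 := by decide +kernel
    intro d a hd ha s hs
    rcases hd with rfl | rfl | rfl | rfl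
    · exact k1 a ha s hs
    · exact k2 a ha s hs
    · exact k3 a ha s hs
    · exact k4 a ha s hs
  exact key _ _ h2 ha _ hs1 _ _ h3

theorem prime5 : Prime (5 : ℤ) := Int.prime_iff_natAbs_prime.mpr (by norm_num)

/-- The obstruction at five. -/
theorem five_obs (ε a₁ c r s w : ℤ) (he : ε = 1 ∨ ε = -1)
    (ha : (a₁ : ZMod 5) = 1 ∨ (a₁ : ZMod 5) = -1) (hcc : (c : ZMod 5) = -(ε : ZMod 5))
    (hs : ¬ (5 ∣ s)) (h : w ^ 2 = 5 * (ε * r ^ 4 + a₁ * r ^ 2 * s ^ 2 + c * s ^ 4)) : False := by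
  have h1 : (5 : ℤ) ∣ w := by
    have h2 : (5 : ℤ) ∣ w ^ 2 := ⟨_, h⟩
    exact prime5.dvd_of_dvd_pow h2
  obtain ⟨v, rfl⟩ := h1
  have h2 : ε * r ^ 4 + a₁ * r ^ 2 * s ^ 2 + c * s ^ 4 = 5 * v ^ 2 := by
    have h3 : (5 : ℤ) * (ε * r ^ 4 + a₁ * r ^ 2 * s ^ 2 + c * s ^ 4) = 5 * (5 * v ^ 2) := by
      rw [← h]; ring
    exact mul_left_cancel₀ (by norm_num) h3
  have h3 : (ε : ZMod 5) * (r : ZMod 5) ^ 4 + (a₁ : ZMod 5) * (r : ZMod 5) ^ 2 * (s : ZMod 5) ^ 2 +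
      (c : ZMod 5) * (s : ZMod 5) ^ 4 = 0 := by
    have h4 := congrArg (Int.cast : ℤ → ZMod 5) h2
    push_cast at h4
    rw [h4]
    have : (5 : ZMod 5) = 0 := by decide
    rw [this, zero_mul]
  have h4 : (s : ZMod 5) ≠ 0 := by
    intro h5
    exact hs ((ZMod.intCast_zmod_eq_zero_iff_dvd s 5).mp h5)
  rw [hcc] at h3
  have key : ∀ e a s r : ZMod 5, (e = 1 ∨ e = -1) → (a = 1 ∨ a = -1) → s ≠ 0 →
      e * r ^ 4 + a * r ^ 2 * s ^ 2 + (-e) * s ^ 4 ≠ 0 := by decide +kernel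
  have he' : (ε : ZMod 5) = 1 ∨ (ε : ZMod 5) = -1 := by
    rcases he with rfl | rfl
    · left; simp
    · right; simp
  exact key _ _ _ _ he' ha h4 h3

/-- The second obstruction at five. -/
theorem five_obs' (ε a₁ r s w : ℤ) (he : ε = 1 ∨ ε = -1) (hs : ¬ (5 ∣ s))
    (h : w ^ 2 = 5 * (ε * r ^ 4 + 5 * a₁ * r ^ 2 * s ^ 2 - 25 * ε * s ^ 4)) : False := by
  have h1 : (5 : ℤ) ∣ w := by
    have h2 : (5 : ℤ) ∣ w ^ 2 := ⟨_, h⟩
    exact prime5.dvd_of_dvd_pow h2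
  obtain ⟨v, rfl⟩ := h1
  have h2 : ε * r ^ 4 + 5 * a₁ * r ^ 2 * s ^ 2 - 25 * ε * s ^ 4 = 5 * v ^ 2 := by
    have h3 : (5 : ℤ) * (ε * r ^ 4 + 5 * a₁ * r ^ 2 * s ^ 2 - 25 * ε * s ^ 4) = 5 * (5 * v ^ 2) := by
      rw [← h]; ring
    exact mul_left_cancel₀ (by norm_num) h3
  have hee : ε * ε = 1 := by rcases he with rfl | rfl <;> norm_num
  have h3 : (5 : ℤ) ∣ r := by
    have h4 : (5 : ℤ) ∣ r ^ 4 := by
      refine ⟨ε * (v ^ 2 - a₁ * r ^ 2 * s ^ 2 + 5 * ε * s ^ 4), ?_⟩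
      linear_combination ε * h2 - r ^ 4 * hee
    exact prime5.dvd_of_dvd_pow h4
  obtain ⟨q, rfl⟩ := h3
  have h4 : v ^ 2 = 5 * (25 * ε * q ^ 4 + 5 * a₁ * q ^ 2 * s ^ 2 - ε * s ^ 4) := by
    have h5 : (5 : ℤ) * (v ^ 2) = 5 * (5 * (25 * ε * q ^ 4 + 5 * a₁ * q ^ 2 * s ^ 2 - ε * s ^ 4)) := by
      rw [← h2]; ring
    exact mul_left_cancel₀ (by norm_num) h5
  have h5 : (5 : ℤ) ∣ v := by
    have h6 : (5 : ℤ) ∣ v ^ 2 := ⟨_, h4⟩
    exact prime5.dvd_of_dvd_pow h6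
  obtain ⟨u, rfl⟩ := h5
  have h6 : (5 : ℤ) ∣ s ^ 4 := by
    have h7 : 25 * ε * q ^ 4 + 5 * a₁ * q ^ 2 * s ^ 2 - ε * s ^ 4 = 5 * u ^ 2 := by
      have h8 : (5 : ℤ) * (25 * ε * q ^ 4 + 5 * a₁ * q ^ 2 * s ^ 2 - ε * s ^ 4) = 5 * (5 * u ^ 2) := by
        rw [← h4]; ring
      exact mul_left_cancel₀ (by norm_num) h8
    refine ⟨ε * (5 * ε * q ^ 4 + a₁ * q ^ 2 * s ^ 2 - u ^ 2), ?_⟩
    linear_combination -ε * h7 - s ^ 4 * hee
  exact hs (prime5.dvd_of_dvd_pow h6)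

theorem not_dvd_of {p d r s : ℤ} (hp : ¬ IsUnit p) (hd : p ∣ d) (hc : IsCoprime (d * r ^ 2) s) :
    ¬ (p ∣ s) := fun h => hp (hc.isUnit_of_dvd' (Dvd.dvd.mul_right hd _) h)

theorem dvd_cases {d : ℤ} (h : d ∣ 10) : d = 1 ∨ d = -1 ∨ d = 2 ∨ d = -2 ∨ d = 5 ∨ d = -5 ∨
    d = 10 ∨ d = -10 := by
  have h1 : |d| ≤ 10 := Int.le_of_dvd (by norm_num) ((abs_dvd _ _).mpr h)
  rw [abs_le] at h1
  obtain ⟨h2, h3⟩ := h1
  interval_cases d <;> revert h <;> decide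

theorem dvd_cases5 {d : ℤ} (h : d ∣ 5) : d = 1 ∨ d = -1 ∨ d = 5 ∨ d = -5 := by
  have h1 : |d| ≤ 5 := Int.le_of_dvd (by norm_num) ((abs_dvd _ _).mpr h)
  rw [abs_le] at h1
  obtain ⟨h2, h3⟩ := h1
  interval_cases d <;> revert h <;> decide

theorem cls_pos5 (a b : ℤ) (k : ℕ) (hk : k ≠ 0) (hab : a ^ 2 < 4 * b) (hb : b ∣ 5 ^ k)
    (m : ℤ) (hm : b * 5 = m ^ 2) : Cls a b := by
  refine cls_of a b 5 k hk hb fun d b' r s w h1 h2 _ h4 _ h6 => ?_
  have h7 := pos_of a b d b' r s w hab h1 h4 h6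
  rcases dvd_cases5 h2 with rfl | rfl | rfl | rfl
  · left; rfl
  · omega
  · right; exact ⟨m, hm⟩
  · omega

theorem unit5 : ¬ IsUnit (5 : ℤ) := by rw [Int.isUnit_iff]; omega

theorem unit2 : ¬ IsUnit (2 : ℤ) := by rw [Int.isUnit_iff]; omega

theorem cls_5_25 (a : ℤ) (ha : a = 5 ∨ a = -5) : Cls a (-25) := by
  refine cls_of a (-25) 5 2 (by norm_num) (by norm_num) fun d b' r s w h1 h2 _ h4 h5 h6 => ?_
  rcases dvd_cases5 h2 with rfl | rfl | rfl | rfl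
  · left; rfl
  · right; exact ⟨5, by norm_num⟩
  · exfalso
    obtain rfl : b' = -5 := by omega
    rcases ha with rfl | rfl
    · exact five_obs 1 1 (-1) r s w (Or.inl rfl) (Or.inl (by simp)) (by simp)
        (not_dvd_of unit5 (dvd_refl _) h5) (by rw [h6]; ring)
    · exact five_obs 1 (-1) (-1) r s w (Or.inl rfl) (Or.inr (by simp)) (by simp)
        (not_dvd_of unit5 (dvd_refl _) h5) (by rw [h6]; ring)
  · exfalso
    obtain rfl : b' = 5 := by omega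
    rcases ha with rfl | rfl
    · exact five_obs (-1) 1 1 r s w (Or.inr rfl) (Or.inl (by simp)) (by simp)
        (not_dvd_of unit5 (by norm_num) h5) (by rw [h6]; ring)
    · exact five_obs (-1) (-1) 1 r s w (Or.inr rfl) (Or.inr (by simp)) (by simp)
        (not_dvd_of unit5 (by norm_num) h5) (by rw [h6]; ring)

theorem cls_25_625 (a : ℤ) (ha : a = 25 ∨ a = -25) : Cls a (-625) := by
  refine cls_of a (-625) 5 4 (by norm_num) (by norm_num) fun d b' r s w h1 h2 _ h4 h5 h6 => ?_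
  rcases dvd_cases5 h2 with rfl | rfl | rfl | rfl
  · left; rfl
  · right; exact ⟨25, by norm_num⟩
  · exfalso
    obtain rfl : b' = -125 := by omega
    rcases ha with rfl | rfl
    · exact five_obs' 1 1 r s w (Or.inl rfl)
        (not_dvd_of unit5 (dvd_refl _) h5) (by rw [h6]; ring)
    · exact five_obs' 1 (-1) r s w (Or.inl rfl)
        (not_dvd_of unit5 (dvd_refl _) h5) (by rw [h6]; ring)
  · exfalso
    obtain rfl : b' = 125 := by omega
    rcases ha with rfl | rfl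
    · exact five_obs' (-1) 1 r s w (Or.inr rfl)
        (not_dvd_of unit5 (by norm_num) h5) (by rw [h6]; ring)
    · exact five_obs' (-1) (-1) r s w (Or.inr rfl)
        (not_dvd_of unit5 (by norm_num) h5) (by rw [h6]; ring)

theorem cls_44_16 (a : ℤ) (ha : a = 44 ∨ a = -44) : Cls a (-16) := by
  refine cls_of a (-16) 2 4 (by norm_num) (by norm_num) fun d b' r s w h1 h2 _ h4 h5 h6 => ?_
  rcases dvd_cases (h2.trans (by norm_num)) with rfl | rfl | rfl | rfl | rfl | rfl | rfl | rfl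
  · left; rfl
  · right; exact ⟨4, by norm_num⟩
  · exfalso
    obtain rfl : b' = -8 := by omega
    exact two_obs 2 a (-8) r s w (Or.inl (by decide)) (by rcases ha with rfl | rfl <;> decide)
      (by decide) h5 (by norm_num) h6
  · exfalso
    obtain rfl : b' = 8 := by omega
    exact two_obs (-2) a 8 r s w (Or.inr (Or.inl (by decide)))
      (by rcases ha with rfl | rfl <;> decide) (by decide) h5 (by norm_num) h6
  all_goals exfalso; revert h2; decide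

theorem cls_220_400 (a : ℤ) (ha : a = 220 ∨ a = -220) : Cls a (-400) := by
  refine cls_of a (-400) 10 4 (by norm_num) (by norm_num) fun d b' r s w h1 h2 _ h4 h5 h6 => ?_
  rcases dvd_cases h2 with rfl | rfl | rfl | rfl | rfl | rfl | rfl | rfl
  · left; rfl
  · right; exact ⟨20, by norm_num⟩
  · exfalso
    obtain rfl : b' = -200 := by omega
    exact two_obs 2 a (-200) r s w (Or.inl (by decide)) (by rcases ha with rfl | rfl <;> decide)
      (by decide) h5 (by norm_num) h6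
  · exfalso
    obtain rfl : b' = 200 := by omega
    exact two_obs (-2) a 200 r s w (Or.inr (Or.inl (by decide)))
      (by rcases ha with rfl | rfl <;> decide) (by decide) h5 (by norm_num) h6
  · exfalso
    obtain rfl : b' = -80 := by omega
    rcases ha with rfl | rfl
    · exact five_obs 1 44 (-16) r s w (Or.inl rfl) (Or.inr (by decide)) (by decide)
        (not_dvd_of unit5 (dvd_refl _) h5) (by rw [h6]; ring)
    · exact five_obs 1 (-44) (-16) r s w (Or.inl rfl) (Or.inl (by decide)) (by decide)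
        (not_dvd_of unit5 (dvd_refl _) h5) (by rw [h6]; ring)
  · exfalso
    obtain rfl : b' = 80 := by omega
    rcases ha with rfl | rfl
    · exact five_obs (-1) 44 16 r s w (Or.inr rfl) (Or.inr (by decide)) (by decide)
        (not_dvd_of unit5 (by norm_num) h5) (by rw [h6]; ring)
    · exact five_obs (-1) (-44) 16 r s w (Or.inr rfl) (Or.inl (by decide)) (by decide)
        (not_dvd_of unit5 (by norm_num) h5) (by rw [h6]; ring)
  · exfalso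
    obtain rfl : b' = -40 := by omega
    exact two_obs 10 a (-40) r s w (Or.inr (Or.inr (Or.inl (by decide))))
      (by rcases ha with rfl | rfl <;> decide) (by decide) h5 (by norm_num) h6
  · exfalso
    obtain rfl : b' = 40 := by omega
    exact two_obs (-10) a 40 r s w (Or.inr (Or.inr (Or.inr (by decide))))
      (by rcases ha with rfl | rfl <;> decide) (by decide) h5 (by norm_num) h6

end SD87
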