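import Pool.Agent.Lib.MP_87c685_nt_SD.Quad

/-!
# The two curves of conductor 50

`OnC X v` is a model of the elliptic curve 50b, on which `hC X v` is the Hauptmodul of `X_0(2)` and
`(X ^ 2 - 2 X + v - 8) / X` a root of the quintic `t ^ 3 (t ^ 2 + 5 t + 40) = j`. `OnN w Y` is the
fibre product of `X_0(2)` and `X_ns^+(5)`, with Hauptmodul `hN w Y`.
-/

set_option autoImplicit false

namespace SD87

variable {K : Type*} [Field K]

/-- The first curve. -/
def OnC (X v : K) : Prop := v ^ 2 - 3 * X * v - 8 * v = X ^ 3 + 2 * X ^ 2 + 16 * X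

/-- The Hauptmodul of `X_0(2)` on the first curve. -/
def hC (X v : K) : K := (X + 1) * v + X * (X + 2)

/-- The second curve. -/
def OnN (w Y : K) : Prop := Y ^ 2 = w + 5 * w ^ 2 - 40 * w ^ 3 + 80 * w ^ 4

/-- The Hauptmodul of `X_0(2)` on the second curve. -/
def hN (w Y : K) : K := -1 - 350 * w - 3200 * w ^ 2 + 56000 * w ^ 3 - 224000 * w ^ 4 +
  320000 * w ^ 5 + 10 * (3 + 180 * w - 1520 * w ^ 2 + 3520 * w ^ 3) * Y

end SD87
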