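import Mathlib

/-!
# Descent by a 2-isogeny over the rationals

General tools for the curves `y ^ 2 = x (x ^ 2 + a x + b)`: the classes of the descent map, halving,
and infinite descent on the denominator.
-/

set_option autoImplicit false

namespace SD87

/-- The class of a rational point under the descent map. -/
theorem exists_class (a b : ℤ) (x y : ℚ) (h : y ^ 2 = x * (x ^ 2 + a * x + b)) (hx : x ≠ 0) :
    ∃ d b' r s w : ℤ, Squarefree d ∧ b = d * b' ∧ 0 < s ∧ r ≠ 0 ∧ IsCoprime (d * r ^ 2) s ∧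
      x = d * r ^ 2 / s ^ 2 ∧ w ^ 2 = d * r ^ 4 + a * r ^ 2 * s ^ 2 + b' * s ^ 4 := by
  obtain ⟨p, hp⟩ : ∃ p : ℤ, p = x.num := ⟨_, rfl⟩
  obtain ⟨q, hq⟩ : ∃ q : ℤ, q = (x.den : ℤ) := ⟨_, rfl⟩
  obtain ⟨m, hm⟩ : ∃ m : ℤ, m = y.num := ⟨_, rfl⟩
  obtain ⟨n, hn⟩ : ∃ n : ℤ, n = (y.den : ℤ) := ⟨_, rfl⟩
  have hq0 : 0 < q := by rw [hq]; exact_mod_cast x.den_pos
  have hn0 : 0 < n := by rw [hn]; exact_mod_cast y.den_pos
  have hqr : (q : ℚ) ≠ 0 := by exact_mod_cast hq0.ne'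
  have hnr : (n : ℚ) ≠ 0 := by exact_mod_cast hn0.ne'
  have hxe : x = (p : ℚ) / q := by rw [hp, hq]; exact_mod_cast (Rat.num_div_den x).symm
  have hye : y = (m : ℚ) / n := by rw [hm, hn]; exact_mod_cast (Rat.num_div_den y).symm
  have hpq : IsCoprime p q := by
    rw [hp, hq]
    exact Int.isCoprime_iff_gcd_eq_one.mpr x.reduced
  have hmn : IsCoprime m n := by
    rw [hm, hn]
    exact Int.isCoprime_iff_gcd_eq_one.mpr y.reduced
  have hp0 : p ≠ 0 := by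
    rintro rfl
    exact hx (by rw [hxe]; simp)
  -- the equation over the integers
  have key : m ^ 2 * q ^ 3 = n ^ 2 * (p * (p ^ 2 + a * p * q + b * q ^ 2)) := by
    have h1 := h
    rw [hxe, hye] at h1
    field_simp at h1
    have h2 : ((m ^ 2 * q ^ 3 : ℤ) : ℚ) = ((n ^ 2 * (p * (p ^ 2 + a * p * q + b * q ^ 2)) : ℤ) : ℚ) := by
      push_cast
      linear_combination h1
    exact_mod_cast h2
  have hcop : IsCoprime (p * (p ^ 2 + a * p * q + b * q ^ 2)) q := by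
    refine IsCoprime.mul_left hpq ?_
    have h1 : p ^ 2 + a * p * q + b * q ^ 2 = p ^ 2 + q * (a * p + b * q) := by ring
    rw [h1]
    exact (IsCoprime.pow_left hpq).add_mul_left_left _
  have hd1 : n ^ 2 ∣ q ^ 3 := by
    have h1 : n ^ 2 ∣ m ^ 2 * q ^ 3 := ⟨_, key⟩
    exact (hmn.symm.pow).dvd_of_dvd_mul_left h1
  have hd2 : q ^ 3 ∣ n ^ 2 := by
    have h1 : q ^ 3 ∣ n ^ 2 * (p * (p ^ 2 + a * p * q + b * q ^ 2)) := ⟨m ^ 2, by rw [← key]; ring⟩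
    exact (IsCoprime.pow_left hcop.symm).dvd_of_dvd_mul_right h1
  have hnq : n ^ 2 = q ^ 3 :=
    Int.dvd_antisymm (by positivity) (by positivity) hd1 hd2
  have hqn : q ∣ n := by
    have h1 : q ^ 2 ∣ n ^ 2 := ⟨q, by rw [hnq]; ring⟩
    exact (Int.pow_dvd_pow_iff (by norm_num)).mp h1
  obtain ⟨s, hs⟩ := hqn
  have hqs : q = s ^ 2 := by
    have h1 : q ^ 2 * s ^ 2 = q ^ 2 * q := by
      calc q ^ 2 * s ^ 2 = (q * s) ^ 2 := by ring
        _ = q ^ 3 := by rw [← hs, hnq]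
        _ = q ^ 2 * q := by ring
    exact (mul_left_cancel₀ (pow_ne_zero 2 hq0.ne') h1).symm
  have hs0 : 0 < s := by
    rw [hs] at hn0
    exact (mul_pos_iff_of_pos_left hq0).mp hn0
  have hm2 : m ^ 2 = p * (p ^ 2 + a * p * s ^ 2 + b * s ^ 4) := by
    have h1 : q ^ 3 * m ^ 2 = q ^ 3 * (p * (p ^ 2 + a * p * q + b * q ^ 2)) := by
      rw [mul_comm, key, hnq]
    have h2 := mul_left_cancel₀ (pow_ne_zero 3 hq0.ne') h1
    rw [h2, hqs]
    ring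
  -- the squarefree part of `p`
  obtain ⟨a0, r0, ha0, ha1⟩ := Nat.sq_mul_squarefree p.natAbs
  obtain ⟨d, r, hd, hdr⟩ : ∃ d r : ℤ, Squarefree d ∧ p = d * r ^ 2 := by
    rcases le_total 0 p with hpp | hpp
    · refine ⟨a0, r0, Int.squarefree_natCast.mpr ha1, ?_⟩
      have h1 : (p.natAbs : ℤ) = p := Int.natAbs_of_nonneg hpp
      rw [← h1, ← ha0]
      push_cast
      ring
    · refine ⟨-a0, r0, ?_, ?_⟩
      · rw [← Int.squarefree_natAbs, Int.natAbs_neg, Int.natAbs_natCast]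
        exact ha1
      · have h1 : (p.natAbs : ℤ) = -p := by
          rw [Int.natCast_natAbs, abs_of_nonpos hpp]
        have h2 : p = -(p.natAbs : ℤ) := by rw [h1, neg_neg]
        rw [h2, ← ha0]
        push_cast
        ring
  have hr : r ≠ 0 := by
    rintro rfl
    exact hp0 (by rw [hdr]; ring)
  have hcs : IsCoprime p s := by
    have h1 : IsCoprime p (s ^ 2) := by rw [← hqs]; exact hpq
    exact (IsCoprime.pow_right_iff (by norm_num)).mp h1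
  have hrm : r ∣ m := by
    have h1 : r ^ 2 ∣ m ^ 2 := ⟨d * (p ^ 2 + a * p * s ^ 2 + b * s ^ 4), by
      rw [hm2]
      nth_rewrite 1 [hdr]
      ring⟩
    exact (Int.pow_dvd_pow_iff (by norm_num)).mp h1
  obtain ⟨v, hv⟩ := hrm
  have hv2 : v ^ 2 = d * (p ^ 2 + a * p * s ^ 2 + b * s ^ 4) := by
    have h1 : r ^ 2 * v ^ 2 = r ^ 2 * (d * (p ^ 2 + a * p * s ^ 2 + b * s ^ 4)) := by
      calc r ^ 2 * v ^ 2 = m ^ 2 := by rw [hv]; ring
        _ = p * (p ^ 2 + a * p * s ^ 2 + b * s ^ 4) := hm2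
        _ = r ^ 2 * (d * (p ^ 2 + a * p * s ^ 2 + b * s ^ 4)) := by
          nth_rewrite 1 [hdr]
          ring
    exact mul_left_cancel₀ (pow_ne_zero 2 hr) h1
  have hd0 : d ≠ 0 := hd.ne_zero
  have hdv : d ∣ v := (hd.dvd_pow_iff_dvd (by norm_num)).mp ⟨_, hv2⟩
  obtain ⟨w, hw⟩ := hdv
  have hw2 : d * w ^ 2 = p ^ 2 + a * p * s ^ 2 + b * s ^ 4 := by
    have h1 : d * (d * w ^ 2) = d * (p ^ 2 + a * p * s ^ 2 + b * s ^ 4) := by
      rw [← hv2, hw]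
      ring
    exact mul_left_cancel₀ hd0 h1
  have hcd : IsCoprime d s := by
    rw [hdr] at hcs
    exact hcs.of_mul_left_left
  have hdb : d ∣ b := by
    have h1 : d ∣ b * s ^ 4 := ⟨w ^ 2 - d * r ^ 4 - a * r ^ 2 * s ^ 2, by
      rw [hdr] at hw2
      linear_combination -hw2⟩
    exact (IsCoprime.pow_right hcd).dvd_of_dvd_mul_right h1
  obtain ⟨b', hb'⟩ := hdb
  refine ⟨d, b', r, s, w, hd, hb', hs0, hr, by rw [← hdr]; exact hcs, ?_, ?_⟩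
  · rw [hxe, hdr, hqs]
    push_cast
    rfl
  · have h1 : d * w ^ 2 = d * (d * r ^ 4 + a * r ^ 2 * s ^ 2 + b' * s ^ 4) := by
      rw [hw2, hdr, hb']
      ring
    exact mul_left_cancel₀ hd0 h1

/-- Halving, with a given square root. -/
private theorem halve_aux (a b : ℚ) (hb : b ≠ 0)
    (H1 : ∀ x y : ℚ, y ^ 2 = x * (x ^ 2 + a * x + b) → x ≠ 0 → IsSquare x ∨ IsSquare (b * x))
    (r w s : ℚ) (h : w ^ 2 = r ^ 4 + a * r ^ 2 + b) (hs : s ^ 2 = a + 2 * r ^ 2 + 2 * w)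
    (hs0 : s ≠ 0) : ∃ r₁ w₁ : ℚ, w₁ ^ 2 = r₁ ^ 4 + a * r₁ ^ 2 + b ∧ r₁ ≠ 0 ∧ w₁ ≠ 0 ∧
      r * (2 * r₁ * w₁) = r₁ ^ 4 - b := by
  have hqq : (r ^ 2 + w + r * s) * (r ^ 2 + w - r * s) = b := by
    linear_combination h - r ^ 2 * hs
  have hq0 : r ^ 2 + w + r * s ≠ 0 := left_ne_zero_of_mul (by rw [hqq]; exact hb)
  have hq0' : r ^ 2 + w - r * s ≠ 0 := right_ne_zero_of_mul (a := r ^ 2 + w + r * s) (by
    rw [hqq]; exact hb)
  have hE : (s * (r ^ 2 + w + r * s)) ^ 2 = (r ^ 2 + w + r * s) * ((r ^ 2 + w + r * s) ^ 2 +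
      a * (r ^ 2 + w + r * s) + b) := by
    rw [← hqq]
    linear_combination (r ^ 2 + w + r * s) ^ 2 * hs
  rcases H1 _ _ hE hq0 with ⟨r₁, h1⟩ | ⟨k, h1⟩
  · have hr1 : r₁ ≠ 0 := by
      rintro rfl
      exact hq0 (by rw [h1]; ring)
    refine ⟨r₁, s * r₁, ?_, hr1, mul_ne_zero hs0 hr1, ?_⟩
    · have h2 : r₁ ^ 4 = (r ^ 2 + w + r * s) ^ 2 := by rw [h1]; ring
      have h3 : r₁ ^ 2 = r ^ 2 + w + r * s := by rw [h1]; ring
      rw [h2, mul_pow, h3, ← hqq]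
      linear_combination (r ^ 2 + w + r * s) * hs
    · have h2 : r₁ ^ 4 = (r ^ 2 + w + r * s) ^ 2 := by rw [h1]; ring
      have h3 : r₁ ^ 2 = r ^ 2 + w + r * s := by rw [h1]; ring
      rw [h2, ← hqq]
      linear_combination 2 * r * s * h3
  · obtain ⟨r₁, h1'⟩ : ∃ r₁ : ℚ, r ^ 2 + w - r * s = r₁ * r₁ := by
      refine ⟨k / (r ^ 2 + w + r * s), ?_⟩
      field_simp
      rw [← hqq] at h1
      linear_combination h1
    have hr1 : r₁ ≠ 0 := by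
      rintro rfl
      exact hq0' (by rw [h1']; ring)
    refine ⟨r₁, -s * r₁, ?_, hr1, mul_ne_zero (neg_ne_zero.mpr hs0) hr1, ?_⟩
    · have h2 : r₁ ^ 4 = (r ^ 2 + w - r * s) ^ 2 := by rw [h1']; ring
      have h3 : r₁ ^ 2 = r ^ 2 + w - r * s := by rw [h1']; ring
      rw [h2, mul_pow, h3, ← hqq]
      linear_combination (r ^ 2 + w - r * s) * hs
    · have h2 : r₁ ^ 4 = (r ^ 2 + w - r * s) ^ 2 := by rw [h1']; ring
      have h3 : r₁ ^ 2 = r ^ 2 + w - r * s := by rw [h1']; ring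
      rw [h2, ← hqq]
      linear_combination -2 * r * s * h3

/-- Halving. -/
theorem halve (a b : ℚ) (hb : b ≠ 0) (hb' : a ^ 2 - 4 * b ≠ 0)
    (H1 : ∀ x y : ℚ, y ^ 2 = x * (x ^ 2 + a * x + b) → x ≠ 0 → IsSquare x ∨ IsSquare (b * x))
    (H2 : ∀ x y : ℚ, y ^ 2 = x * (x ^ 2 + (-2 * a) * x + (a ^ 2 - 4 * b)) → x ≠ 0 →
      IsSquare x ∨ IsSquare ((a ^ 2 - 4 * b) * x))
    (r w : ℚ) (h : w ^ 2 = r ^ 4 + a * r ^ 2 + b) : ∃ r₁ w₁ : ℚ,
      w₁ ^ 2 = r₁ ^ 4 + a * r₁ ^ 2 + b ∧ r₁ ≠ 0 ∧ w₁ ≠ 0 ∧ r * (2 * r₁ * w₁) = r₁ ^ 4 - b := by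
  have hXX : (a + 2 * r ^ 2 + 2 * w) * (a + 2 * r ^ 2 - 2 * w) = a ^ 2 - 4 * b := by
    linear_combination -4 * h
  have hX0 : a + 2 * r ^ 2 + 2 * w ≠ 0 := left_ne_zero_of_mul (by rw [hXX]; exact hb')
  have hX0' : a + 2 * r ^ 2 - 2 * w ≠ 0 := right_ne_zero_of_mul (a := a + 2 * r ^ 2 + 2 * w) (by
    rw [hXX]; exact hb')
  have hE : (2 * r * (a + 2 * r ^ 2 + 2 * w)) ^ 2 = (a + 2 * r ^ 2 + 2 * w) *
      ((a + 2 * r ^ 2 + 2 * w) ^ 2 + (-2 * a) * (a + 2 * r ^ 2 + 2 * w) + (a ^ 2 - 4 * b)) := by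
    rw [← hXX]
    ring
  rcases H2 _ _ hE hX0 with ⟨s, hs⟩ | ⟨k, hk⟩
  · have hs0 : s ≠ 0 := by
      rintro rfl
      exact hX0 (by rw [hs]; ring)
    exact halve_aux a b hb H1 r w s h (by rw [hs]; ring) hs0
  · obtain ⟨s, hs⟩ : ∃ s : ℚ, a + 2 * r ^ 2 - 2 * w = s * s := by
      refine ⟨k / (a + 2 * r ^ 2 + 2 * w), ?_⟩
      field_simp
      rw [← hXX] at hk
      linear_combination hk
    have hs0 : s ≠ 0 := by
      rintro rfl
      exact hX0' (by rw [hs]; ring)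
    exact halve_aux a b hb H1 r (-w) s (by rw [← h]; ring) (by
      linear_combination -hs) hs0

/-- Infinite descent on the denominator. -/
theorem descent (a b : ℤ) (P : ℚ → Prop)
    (hal : ∀ r w : ℚ, w ^ 2 = r ^ 4 + a * r ^ 2 + b → ∃ r₁ w₁ : ℚ,
      w₁ ^ 2 = r₁ ^ 4 + a * r₁ ^ 2 + b ∧ r₁ ≠ 0 ∧ w₁ ≠ 0 ∧ r * (2 * r₁ * w₁) = r₁ ^ 4 - b)
    (fin : ∀ u e W : ℤ, IsCoprime u e → 0 < e → u ≠ 0 → W ≠ 0 →
      W ^ 2 = u ^ 4 + a * u ^ 2 * e ^ 2 + b * e ^ 4 → 2 * u * W ∣ u ^ 4 - b * e ^ 4 →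
        P ((u : ℚ) / e))
    (cl : ∀ r r₁ w₁ : ℚ, P r₁ → w₁ ^ 2 = r₁ ^ 4 + a * r₁ ^ 2 + b → r₁ ≠ 0 → w₁ ≠ 0 →
      r * (2 * r₁ * w₁) = r₁ ^ 4 - b → P r)
    (r w : ℚ) (h : w ^ 2 = r ^ 4 + a * r ^ 2 + b) : P r := by
  suffices H : ∀ (n : ℕ) (r w : ℚ), r.den ≤ n → w ^ 2 = r ^ 4 + a * r ^ 2 + b → P r from
    H r.den r w le_rfl h
  intro n
  induction n with
  | zero =>
    intro r w hr _
    exact absurd hr (by have := r.den_pos; omega)
  | succ n ih =>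
    intro r w hr h
    obtain ⟨r₁, w₁, h1, hr1, hw1, h2⟩ := hal r w h
    by_cases hlt : r₁.den ≤ n
    · exact cl r r₁ w₁ (ih r₁ w₁ hlt h1) h1 hr1 hw1 h2
    refine cl r r₁ w₁ ?_ h1 hr1 hw1 h2
    obtain ⟨u, hu⟩ : ∃ u : ℤ, u = r₁.num := ⟨_, rfl⟩
    obtain ⟨e, he⟩ : ∃ e : ℤ, e = (r₁.den : ℤ) := ⟨_, rfl⟩
    have he0 : 0 < e := by rw [he]; exact_mod_cast r₁.den_pos
    have her : (e : ℚ) ≠ 0 := by exact_mod_cast he0.ne'
    have hre : r₁ = (u : ℚ) / e := by rw [hu, he]; exact_mod_cast (Rat.num_div_den r₁).symm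
    have hcop : IsCoprime u e := by
      rw [hu, he]
      exact Int.isCoprime_iff_gcd_eq_one.mpr r₁.reduced
    have hu0 : u ≠ 0 := by
      rintro rfl
      exact hr1 (by rw [hre]; simp)
    -- the integer `W`
    have hWsq : (w₁ * e ^ 2) ^ 2 = ((u ^ 4 + a * u ^ 2 * e ^ 2 + b * e ^ 4 : ℤ) : ℚ) := by
      rw [mul_pow, h1, hre]
      push_cast
      field_simp
    obtain ⟨W, hW⟩ : ∃ W : ℤ, (W : ℚ) = w₁ * e ^ 2 := by
      have h3 : IsSquare ((u ^ 4 + a * u ^ 2 * e ^ 2 + b * e ^ 4 : ℤ) : ℚ) :=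
        ⟨w₁ * e ^ 2, by rw [← hWsq]; ring⟩
      rw [Rat.isSquare_intCast_iff] at h3
      obtain ⟨W, hW⟩ := h3
      have h4 : (w₁ * e ^ 2 - W) * (w₁ * e ^ 2 + W) = 0 := by
        have h5 : (w₁ * e ^ 2) ^ 2 = (W : ℚ) * W := by
          rw [hWsq, hW]
          push_cast
          ring
        linear_combination h5
      rcases mul_eq_zero.mp h4 with h5 | h5
      · exact ⟨W, by linear_combination -h5⟩
      · exact ⟨-W, by push_cast; linear_combination -h5⟩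
    have hW0 : W ≠ 0 := by
      rintro rfl
      have h3 : w₁ * (e : ℚ) ^ 2 = 0 := by rw [← hW]; simp
      exact (mul_ne_zero hw1 (pow_ne_zero 2 her)) h3
    have hW2 : W ^ 2 = u ^ 4 + a * u ^ 2 * e ^ 2 + b * e ^ 4 := by
      have h3 : ((W ^ 2 : ℤ) : ℚ) = ((u ^ 4 + a * u ^ 2 * e ^ 2 + b * e ^ 4 : ℤ) : ℚ) := by
        rw [← hWsq, ← hW]
        push_cast
        ring
      exact_mod_cast h3
    -- the relation between the denominators
    have hrq : r = (r.num : ℚ) / r.den := (Rat.num_div_den r).symm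
    have hden : (r.den : ℚ) ≠ 0 := by exact_mod_cast r.den_pos.ne'
    have hrel : r.num * (2 * u * W * e) = (r.den : ℤ) * (u ^ 4 - b * e ^ 4) := by
      have h3 : (r.num : ℚ) * (2 * u * W * e) = r.den * (u ^ 4 - b * e ^ 4) := by
        rw [hrq, hre] at h2
        have h4 : w₁ = (W : ℚ) / e ^ 2 := by rw [hW]; field_simp
        rw [h4] at h2
        field_simp at h2
        linear_combination h2
      exact_mod_cast h3
    have hce : IsCoprime e (u ^ 4 - b * e ^ 4) := by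
      have h3 : u ^ 4 - b * e ^ 4 = u ^ 4 + e * (-(b * e ^ 3)) := by ring
      rw [h3]
      exact ((IsCoprime.pow_right hcop.symm)).add_mul_left_right _
    have hed : e ∣ (r.den : ℤ) := by
      have h3 : e ∣ (r.den : ℤ) * (u ^ 4 - b * e ^ 4) := ⟨r.num * (2 * u * W), by
        rw [← hrel]; ring⟩
      exact hce.dvd_of_dvd_mul_right h3
    have hle : e = (r.den : ℤ) := by
      have h3 : e ≤ (r.den : ℤ) := Int.le_of_dvd (by exact_mod_cast r.den_pos) hed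
      push Not at hlt
      rw [he] at h3 ⊢
      have h4 : (r₁.den : ℤ) ≤ r.den := h3
      have h5 : r₁.den ≤ r.den := by exact_mod_cast h4
      have h6 : r₁.den = r.den := by omega
      exact_mod_cast h6
    have hdvd : 2 * u * W ∣ u ^ 4 - b * e ^ 4 := by
      refine ⟨r.num, ?_⟩
      rw [← hle] at hrel
      have h3 : e * (u ^ 4 - b * e ^ 4) = e * (2 * u * W * r.num) := by
        rw [← hrel]; ring
      exact mul_left_cancel₀ he0.ne' h3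
    rw [hre]
    exact fin u e W hcop he0 hu0 hW0 hW2 hdvd

end SD87
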