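import Pool.Agent.Lib.MP_87c685_nt_SD.Cube

/-!
# The first half of the descent on 50b
-/

set_option autoImplicit false

namespace SD87

private abbrev Q5 : Type := QuadraticAlgebra ℤ (-(-1)) 1

private theorem f_norm (z : Q5) : z.norm = z.re ^ 2 + z.re * z.im - z.im ^ 2 := by
  rw [QuadraticAlgebra.norm_def]
  ring

private theorem f_mul (z w : Q5) : z * w = ⟨z.re * w.re + z.im * w.im,
    z.re * w.im + z.im * w.re + z.im * w.im⟩ := by
  ext
  · simp
  · simp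

private theorem f_cube (z : Q5) : z ^ 3 = ⟨z.re ^ 3 + 3 * z.re * z.im ^ 2 + z.im ^ 3,
    3 * z.re ^ 2 * z.im + 3 * z.re * z.im ^ 2 + 2 * z.im ^ 3⟩ := by
  rw [pow_succ, pow_two, f_mul, f_mul]
  ext <;> simp <;> ring

private theorem f_mul_star (z : Q5) : z * star z = ((z.norm : ℤ) : Q5) := by
  rw [← QuadraticAlgebra.algebraMap_norm_eq_mul_star]
  simp

/-- the units congruent to one modulo two are cubes -/
private theorem unit_cube (N : ℕ) : ∀ u v : ℤ, 0 ≤ u → 0 ≤ v → v.natAbs ≤ N →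
    (u ^ 2 - 5 * v ^ 2 = 1 ∨ u ^ 2 - 5 * v ^ 2 = -1) →
    ∃ c : Q5, c ^ 3 = ⟨u - v, 2 * v⟩ := by
  induction N with
  | zero =>
    intro u v hu hv hN h
    have hv0 : v = 0 := by omega
    subst hv0
    have hu1 : u = 1 := by
      rcases h with h | h
      · nlinarith
      · nlinarith
    subst hu1
    exact ⟨⟨1, 0⟩, by rw [f_cube]; ext <;> simp⟩
  | succ N ih =>
    intro u v hu hv hN h
    rcases eq_or_lt_of_le hv with h0 | h0
    · exact ih u v hu hv (by omega) h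
    have hlow : 2 * v ≤ u := by
      by_contra hc
      push Not at hc
      have : u ≤ 2 * v - 1 := by omega
      have : u ^ 2 ≤ (2 * v - 1) ^ 2 := by nlinarith
      rcases h with h | h <;> nlinarith
    have hup : u < 3 * v := by
      by_contra hc
      push Not at hc
      have : (3 * v) ^ 2 ≤ u ^ 2 := by nlinarith
      rcases h with h | h <;> nlinarith
    -- new element: `(5 v - 2 u) + (u - 2 v) √5`, up to sign
    have hn : (5 * v - 2 * u) ^ 2 - 5 * (u - 2 * v) ^ 2 = -(u ^ 2 - 5 * v ^ 2) := by ring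
    rcases le_or_gt (2 * u) (5 * v) with h5 | h5
    · obtain ⟨c, hc⟩ := ih (5 * v - 2 * u) (u - 2 * v) (by omega) (by omega) (by omega)
        (by rw [hn]; rcases h with h | h <;> rw [h] <;> norm_num)
      refine ⟨c * ⟨0, 1⟩, ?_⟩
      rw [mul_pow, hc, f_cube, f_mul]
      ext <;> simp <;> ring
    · exfalso
      rcases h with h | h <;> nlinarith

private theorem f_star (z : Q5) : star z = ⟨z.re + z.im, -z.im⟩ := by
  ext <;> simp

private theorem unit_cube' (u v : ℤ) (h : u ^ 2 - 5 * v ^ 2 = 1 ∨ u ^ 2 - 5 * v ^ 2 = -1) :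
    ∃ c : Q5, c ^ 3 = ⟨u - v, 2 * v⟩ := by
  obtain ⟨c, hc⟩ := unit_cube v.natAbs |u| |v| (abs_nonneg _) (abs_nonneg _)
    (by rw [Int.natAbs_abs])
    (by rw [sq_abs, sq_abs]; exact h)
  rcases abs_choice u with hu | hu <;> rcases abs_choice v with hv | hv <;> rw [hu, hv] at hc
  · exact ⟨c, hc⟩
  · refine ⟨star c, ?_⟩
    rw [← star_pow, hc, f_star]
    ext <;> simp
    ring
  · refine ⟨-star c, ?_⟩
    rw [Odd.neg_pow (by decide), ← star_pow, hc, f_star]
    ext <;> simp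
    ring
  · refine ⟨-c, ?_⟩
    rw [Odd.neg_pow (by decide), hc]
    ext <;> simp
    ring

/-- The first half of the descent, over `ℚ(√5)`. -/
theorem half5 (r s e : ℤ) (he : 0 < e) (hc : IsCoprime r e)
    (h : s ^ 2 = 4 * r ^ 3 + 5 * e ^ 2 * (r - e ^ 2) ^ 2) :
    ∃ a b : ℤ, 4 * r = a ^ 2 - 5 * b ^ 2 ∧
      a ^ 2 * (3 * b + e) = 4 * e ^ 3 + 5 * e * b ^ 2 - 5 * b ^ 3 := by
  obtain ⟨k, hk⟩ : ∃ k : ℤ, k = e * (r - e ^ 2) := ⟨_, rfl⟩
  have h1 : s ^ 2 = 4 * r ^ 3 + 5 * k ^ 2 := by rw [h, hk]; ring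
  -- `r` is odd
  have hr : r % 2 = 1 := by
    by_contra hcon
    have hr2 : r % 2 = 0 := by omega
    have he2 : e % 2 = 1 := by
      by_contra hcon2
      have h2r : (2:ℤ) ∣ r := by omega
      have h2e : (2:ℤ) ∣ e := by omega
      have := hc.isUnit_of_dvd' h2r h2e
      rw [Int.isUnit_iff] at this
      omega
    obtain ⟨r', hr'⟩ : ∃ r', r = 2 * r' := ⟨r / 2, by omega⟩
    have hko : k % 2 = 1 := by
      rw [hk, Int.mul_emod, Int.sub_emod, pow_two, Int.mul_emod e e, he2, hr2]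
      norm_num
    have h4 : s ^ 2 = 8 * (4 * r' ^ 3) + 5 * k ^ 2 := by rw [h1, hr']; ring
    have hk8 : k ^ 2 % 8 = 1 := by
      have : k % 8 = 1 ∨ k % 8 = 3 ∨ k % 8 = 5 ∨ k % 8 = 7 := by omega
      rcases this with h | h | h | h <;> rw [pow_two, Int.mul_emod, h] <;> norm_num
    have hs8 : s ^ 2 % 8 = 0 ∨ s ^ 2 % 8 = 1 ∨ s ^ 2 % 8 = 4 := by
      have : s % 8 = 0 ∨ s % 8 = 1 ∨ s % 8 = 2 ∨ s % 8 = 3 ∨ s % 8 = 4 ∨ s % 8 = 5 ∨
        s % 8 = 6 ∨ s % 8 = 7 := by omega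
      rcases this with h | h | h | h | h | h | h | h <;> rw [pow_two, Int.mul_emod, h] <;> norm_num
    omega
  have hke : k % 2 = 0 := by
    rcases Int.emod_two_eq_zero_or_one e with h2 | h2
    · rw [hk, Int.mul_emod, h2]; norm_num
    · rw [hk, Int.mul_emod, Int.sub_emod, pow_two, Int.mul_emod e e, h2, hr]; norm_num
  obtain ⟨k', hk'⟩ : ∃ k', k = 2 * k' := ⟨k / 2, by omega⟩
  have hse : s % 2 = 0 := by
    by_contra hcon
    have hs1 : s % 2 = 1 := by omega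
    have h5 : s ^ 2 % 2 = 1 := by rw [pow_two, Int.mul_emod, hs1]; norm_num
    have h6 : s ^ 2 = 2 * (2 * r ^ 3 + 10 * k' ^ 2) := by rw [h1, hk']; ring
    omega
  obtain ⟨s', hs'⟩ : ∃ s', s = 2 * s' := ⟨s / 2, by omega⟩
  have h2 : s' ^ 2 - 5 * k' ^ 2 = r ^ 3 := by
    have : 4 * (s' ^ 2 - 5 * k' ^ 2) = 4 * r ^ 3 := by
      rw [hs', hk'] at h1
      linear_combination h1
    linarith
  have hr0 : r ≠ 0 := by
    intro h0
    rw [h0] at hr
    norm_num at hr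
  -- the sign of `r`
  obtain ⟨σ, hσ, hσr⟩ : ∃ σ : ℤ, σ ^ 2 = 1 ∧ |r| = σ * r := by
    rcases abs_choice r with h | h
    · exact ⟨1, by norm_num, by rw [h]; ring⟩
    · exact ⟨-1, by norm_num, by rw [h]; ring⟩
  have hrk : IsCoprime k r := by
    rw [hk]
    refine IsCoprime.mul_left hc.symm ?_
    have : IsCoprime (-(e ^ 2)) r := (hc.symm.pow_left (m := 2)).neg_left
    have h7 := this.add_mul_left_left 1
    rw [mul_one] at h7
    have h8 : r - e ^ 2 = -(e ^ 2) + r := by ring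
    rw [h8]
    exact h7
  have hcop : IsCoprime (-k) |r| := by
    rw [IsCoprime.abs_right_iff]
    exact hrk.neg_left
  obtain ⟨z, g, M, hM, hz, hg⟩ := cube_root (-1) {1, -1} (by
    intro A B C _ hD
    obtain ⟨X, Y, hXY⟩ := rep5 A B C (by linarith)
    exact ⟨X, Y, hXY⟩) (s' + k') (-k) |r| (abs_pos.2 hr0) hcop (by
      refine ⟨σ, ?_⟩
      rw [hσr, hk']
      have e1 : (s' + k') ^ 2 + (s' + k') * -(2 * k') + -1 * (-(2 * k')) ^ 2 = r ^ 3 := by
        rw [← h2]; ring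
      rw [e1]
      have e2 : (σ * r) ^ 3 * σ = (σ ^ 2) ^ 2 * r ^ 3 := by ring
      rw [e2, hσ]; ring)
  obtain ⟨w, hw⟩ : ∃ w : Q5, w = ⟨s' + k', -k⟩ := ⟨_, rfl⟩
  rw [← hw] at hg
  have hwN : w.norm = r ^ 3 := by
    rw [f_norm, hw, ← h2, hk']
    ring
  have hM2 : M ^ 2 = 1 := by
    rcases hM with h | h
    · rw [h]; norm_num
    · rw [Set.mem_singleton_iff.1 h]; norm_num
  -- `g w = σ z ^ 3`
  have hr3 : (r : ℤ) ^ 3 ≠ 0 := pow_ne_zero 3 hr0
  have hσ3 : |r| ^ 3 = σ * r ^ 3 := by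
    rw [hσr]
    have : (σ * r) ^ 3 = σ ^ 2 * (σ * r ^ 3) := by ring
    rw [this, hσ, one_mul]
  have hgw : g * w = σ • z ^ 3 := by
    have e1 : z ^ 3 * star w * w = (|r| ^ 3 • g) * w := by rw [hg]
    have e2 : z ^ 3 * star w * w = r ^ 3 • z ^ 3 := by
      have : z ^ 3 * star w * w = z ^ 3 * (w * star w) := by ring
      rw [this, f_mul_star, hwN]
      simp [mul_comm]
    have e3 : r ^ 3 • (σ • (g * w)) = r ^ 3 • z ^ 3 := by
      rw [← e2, e1, hσ3]
      simp only [zsmul_eq_mul]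
      push_cast
      ring
    have e4 : σ • (g * w) = z ^ 3 := by
      ext
      · have := congrArg QuadraticAlgebra.re e3
        simp only [QuadraticAlgebra.re_smul, smul_eq_mul] at this ⊢
        exact mul_left_cancel₀ hr3 this
      · have := congrArg QuadraticAlgebra.im e3
        simp only [QuadraticAlgebra.im_smul, smul_eq_mul] at this ⊢
        exact mul_left_cancel₀ hr3 this
    rw [← e4, smul_smul, ← pow_two, hσ, one_smul]
  have hre := congrArg QuadraticAlgebra.re hgw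
  have him := congrArg QuadraticAlgebra.im hgw
  rw [f_mul, f_cube, hw] at hre him
  simp only [QuadraticAlgebra.re_smul, QuadraticAlgebra.im_smul, smul_eq_mul] at hre him
  -- the norm of `g`
  have hgN : g.norm ^ 2 = 1 := by
    have e1 : (g * w).norm = (σ • z ^ 3).norm := by rw [hgw]
    have e2 : (σ • z ^ 3).norm = σ ^ 2 * (z.norm) ^ 3 := by
      rw [f_norm, ← map_pow, f_norm (z ^ 3)]
      simp only [QuadraticAlgebra.re_smul, QuadraticAlgebra.im_smul, smul_eq_mul]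
      ring
    rw [map_mul, hwN, e2, hσ, one_mul, hz, mul_pow, hσ3] at e1
    have e3 : g.norm = M ^ 3 * σ := by
      have : r ^ 3 * g.norm = r ^ 3 * (M ^ 3 * σ) := by linarith
      exact mul_left_cancel₀ hr3 this
    rw [e3]
    have : (M ^ 3 * σ) ^ 2 = (M ^ 2) ^ 3 * σ ^ 2 := by ring
    rw [this, hM2, hσ]
    norm_num
  -- parities
  have hσo : σ % 2 = 1 := by
    rcases Int.emod_two_eq_zero_or_one σ with h | h
    · exfalso
      obtain ⟨t, ht⟩ : ∃ t, σ = 2 * t := ⟨σ / 2, by omega⟩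
      rw [ht] at hσ
      have : 2 * (2 * t ^ 2) = 1 := by linarith
      omega
    · exact h
  have hzo : z.norm % 2 = 1 := by
    rw [hz, hσr]
    have hMo : M % 2 = 1 := by
      rcases hM with h | h
      · rw [h]; norm_num
      · rw [Set.mem_singleton_iff.1 h]; norm_num
    rw [Int.mul_emod, Int.mul_emod σ r, hMo, hσo, hr]
    norm_num
  have hwo : (s' + k') % 2 = 1 := by
    by_contra hcon
    have h3 : (s' + k') % 2 = 0 := by omega
    obtain ⟨t, ht⟩ : ∃ t, s' = 2 * t - k' := ⟨(s' + k') / 2, by omega⟩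
    have h4 : r ^ 3 = 2 * (2 * t ^ 2 - 2 * t * k' - 2 * k' ^ 2) := by rw [← h2, ht]; ring
    have h5 : r ^ 3 % 2 = 1 := by
      rw [pow_succ, pow_two, Int.mul_emod, Int.mul_emod r r, hr]; norm_num
    omega
  rw [f_norm] at hzo
  have hg1 : g.im % 2 = 0 := by
    rcases Int.emod_two_eq_zero_or_one z.re with a1 | a1 <;>
    rcases Int.emod_two_eq_zero_or_one z.im with a2 | a2 <;>
    rcases Int.emod_two_eq_zero_or_one g.im with a3 | a3 <;>
    rcases Int.emod_two_eq_zero_or_one g.re with a4 | a4 <;>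
    first
      | exact a3
      | (exfalso
         have := congrArg (fun t : ℤ => t % 2) him
         simp [Int.add_emod, Int.mul_emod, pow_succ, a1, a2, a3, a4, hwo, hke, hσo,
           Int.neg_emod_two] at this)
  obtain ⟨v, hv⟩ : ∃ v, g.im = 2 * v := ⟨g.im / 2, by omega⟩
  have hgN' : (g.re + v) ^ 2 - 5 * v ^ 2 = 1 ∨ (g.re + v) ^ 2 - 5 * v ^ 2 = -1 := by
    have e1 : (g.re + v) ^ 2 - 5 * v ^ 2 = g.norm := by rw [f_norm, hv]; ring
    rw [e1]
    have e2 : (g.norm - 1) * (g.norm + 1) = 0 := by linear_combination hgN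
    rcases mul_eq_zero.1 e2 with h | h
    · exact Or.inl (by linarith)
    · exact Or.inr (by linarith)
  obtain ⟨c, hcc⟩ := unit_cube' (g.re + v) v hgN'
  have hcg : c ^ 3 = g := by
    rw [hcc]
    ext
    · simp
    · simp [hv]
  obtain ⟨ν, hν⟩ : ∃ ν : ℤ, ν = c.norm := ⟨_, rfl⟩
  have hν2 : ν ^ 2 = 1 := by
    have e1 : (ν ^ 2) ^ 3 = 1 := by
      have : (ν ^ 2) ^ 3 = ((c ^ 3).norm) ^ 2 := by rw [map_pow, hν]; ring
      rw [this, hcg, hgN]
    have e2 : 0 ≤ ν ^ 2 := sq_nonneg _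
    have e3 : (ν ^ 2) ^ 3 = 1 ^ 3 := by rw [e1]; norm_num
    exact (Odd.strictMono_pow (by decide : Odd 3)).injective e3
  -- the cube root of `w`
  obtain ⟨τ, hτ⟩ : ∃ τ : Q5, τ = (ν * σ) • (z * star c) := ⟨_, rfl⟩
  have hτ3 : τ ^ 3 = w := by
    have e1 : c ^ 3 * w * (star c) ^ 3 = (σ • z ^ 3) * (star c) ^ 3 := by rw [hcg, hgw]
    have e2 : c ^ 3 * w * (star c) ^ 3 = (ν : Q5) ^ 3 * w := by
      have : c ^ 3 * w * (star c) ^ 3 = (c * star c) ^ 3 * w := by ring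
      rw [this, f_mul_star, ← hν]
    have hν2' : (ν : Q5) ^ 2 = 1 := by exact_mod_cast congrArg (Int.cast : ℤ → Q5) hν2
    have hσ2' : (σ : Q5) ^ 2 = 1 := by exact_mod_cast congrArg (Int.cast : ℤ → Q5) hσ
    rw [hτ]
    rw [e2] at e1
    simp only [zsmul_eq_mul] at e1 ⊢
    push_cast
    have e3 : ((ν : Q5) * σ * (z * star c)) ^ 3 = (ν : Q5) ^ 3 * (σ : Q5) ^ 2 * (σ * z ^ 3 * star c ^ 3) := by
      ring
    rw [e3, ← e1]
    have e4 : (ν : Q5) ^ 3 * (σ : Q5) ^ 2 * ((ν : Q5) ^ 3 * w) = ((ν : Q5) ^ 2) ^ 3 * (σ : Q5) ^ 2 * w := by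
      ring
    rw [e4, hν2', hσ2']
    ring
  have hτN : τ.norm = r := by
    have : (τ.norm) ^ 3 = r ^ 3 := by rw [← map_pow, hτ3, hwN]
    exact (Odd.strictMono_pow (by decide : Odd 3)).injective this
  rw [f_norm] at hτN
  have hτi : 3 * τ.re ^ 2 * τ.im + 3 * τ.re * τ.im ^ 2 + 2 * τ.im ^ 3 = -k := by
    have := congrArg QuadraticAlgebra.im hτ3
    rw [f_cube, hw] at this
    exact this
  refine ⟨2 * τ.re + τ.im, τ.im, ?_, ?_⟩
  · rw [← hτN]; ring
  · linear_combination 4 * hτi + 4 * e * hτN - 4 * hk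

end SD87
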