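import Pool.Agent.Lib.MP_87c685_nt_SD.Cube

/-!
# The twist by five: the halves of the descent
-/

set_option autoImplicit false

namespace SD87

/-- The cube root lemma in the Eisenstein integers, in coordinates. -/
private theorem cubeE (X Y ρ : ℤ) (hρ : 0 < ρ) (hc : IsCoprime Y ρ) (h3 : 3 ∣ Y)
    (hN : X ^ 2 + X * Y + Y ^ 2 = ρ ^ 3) : ∃ x y : ℤ, ρ = x ^ 2 + x * y + y ^ 2 ∧
      X = x ^ 3 - 3 * x * y ^ 2 - y ^ 3 ∧ Y = 3 * x * y * (x + y) := by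
  obtain ⟨z, g, M, hM, hz, hg⟩ := cube_root 1 {1} (fun A B C hA h => by
    obtain ⟨X, Y, h1⟩ := rep3 A B C hA (by linarith)
    exact ⟨X, Y, h1⟩) X Y ρ hρ hc ⟨1, by linarith⟩
  rw [Set.mem_singleton_iff] at hM
  obtain ⟨x, y⟩ := z
  obtain ⟨p, q⟩ := g
  have hzn : ρ = x ^ 2 + x * y + y ^ 2 := by
    rw [hM, QuadraticAlgebra.norm_def] at hz
    simp only at hz
    linarith
  have h1 := congrArg QuadraticAlgebra.re hg
  have h2 := congrArg QuadraticAlgebra.im hg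
  simp only [pow_succ, pow_zero, one_mul, QuadraticAlgebra.re_mul, QuadraticAlgebra.im_mul,
    QuadraticAlgebra.re_star, QuadraticAlgebra.im_star, QuadraticAlgebra.re_smul,
    QuadraticAlgebra.im_smul, smul_eq_mul] at h1 h2
  set U := x ^ 3 - 3 * x * y ^ 2 - y ^ 3 with hU
  set V := 3 * x * y * (x + y) with hV
  have e1 : U * (X + Y) + V * Y = ρ ^ 3 * p := by
    rw [hU, hV]
    linear_combination h1
  have e2 : V * X - U * Y = ρ ^ 3 * q := by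
    rw [hU, hV]
    linear_combination h2
  have hρ3 : ρ ^ 3 ≠ 0 := pow_ne_zero 3 hρ.ne'
  have e3 : U = p * X - q * Y := by
    apply mul_left_cancel₀ hρ3
    linear_combination (-U) * hN + X * e1 - Y * e2
  have e4 : V = p * Y + q * X + q * Y := by
    apply mul_left_cancel₀ hρ3
    linear_combination (-V) * hN + Y * e1 + (X + Y) * e2
  have e5 : U ^ 2 + U * V + V ^ 2 = ρ ^ 3 := by
    rw [hzn, hU, hV]
    ring
  have h3V : (3 : ℤ) ∣ V := ⟨x * y * (x + y), by rw [hV]; ring⟩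
  have hUneg : -U = (-x) ^ 3 - 3 * (-x) * (-y) ^ 2 - (-y) ^ 3 := by rw [hU]; ring
  have hVneg : -V = 3 * (-x) * (-y) * (-x + -y) := by rw [hV]; ring
  clear_value U V
  have e7 : (p ^ 2 + p * q + q ^ 2) * (X ^ 2 + X * Y + Y ^ 2) = U ^ 2 + U * V + V ^ 2 := by
    rw [e3, e4]
    ring
  have e6 : p ^ 2 + p * q + q ^ 2 = 1 := by
    apply mul_left_cancel₀ hρ3
    linear_combination e7 + e5 - (p ^ 2 + p * q + q ^ 2) * hN
  -- a unit with nonzero second coordinate is impossible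
  have hno : ¬ (3 : ℤ) ∣ X := by
    intro hX
    have h4 : (3 : ℤ) ∣ ρ ^ 3 := by
      rw [← hN]
      obtain ⟨a, rfl⟩ := hX
      obtain ⟨b, rfl⟩ := h3
      exact ⟨3 * a ^ 2 + 3 * a * b + 3 * b ^ 2, by ring⟩
    have h5 : (3 : ℤ) ∣ ρ := Int.prime_three.dvd_of_dvd_pow h4
    have h6 := hc.isUnit_of_dvd' h3 h5
    rw [Int.isUnit_iff] at h6
    omega
  have hq : q = -1 ∨ q = 0 ∨ q = 1 := by
    have h4 : q ^ 2 ≤ 1 := by nlinarith [sq_nonneg (2 * p + q)]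
    have h5 : -1 ≤ q := by nlinarith
    have h6 : q ≤ 1 := by nlinarith
    omega
  rcases hq with hq | hq | hq
  · exfalso
    apply hno
    obtain ⟨a, ha⟩ := h3V
    obtain ⟨b, hb⟩ := h3
    refine ⟨p * b - b - a, ?_⟩
    rw [hq] at e4
    linear_combination e4 - ha + (p - 1) * hb
  · rw [hq] at e3 e4 e6
    have hp : (p - 1) * (p + 1) = 0 := by linear_combination e6
    rcases mul_eq_zero.1 hp with hp | hp
    · have hp' : p = 1 := by linarith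
      rw [hp'] at e3 e4
      refine ⟨x, y, hzn, ?_, ?_⟩
      · rw [← hU]
        linarith
      · rw [← hV]
        linarith
    · have hp' : p = -1 := by linarith
      rw [hp'] at e3 e4
      refine ⟨-x, -y, by rw [hzn]; ring, ?_, ?_⟩
      · rw [← hUneg]
        linarith
      · rw [← hVneg]
        linarith
  · exfalso
    apply hno
    obtain ⟨a, ha⟩ := h3V
    obtain ⟨b, hb⟩ := h3
    refine ⟨a - p * b - b, ?_⟩
    rw [hq] at e4
    linear_combination (-1) * e4 + ha - (p + 1) * hb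

/-- One step of the descent at two. -/
private theorem step2 {e s u N : ℤ} (he : Odd e) (h : 27 * s ^ 2 + 25 * (e * u) ^ 2 = 4 * N)
    (hN : 2 ∣ N) : ∃ s' u' : ℤ, s = 2 * s' ∧ u = 2 * u' ∧
      27 * s' ^ 2 + 25 * (e * u') ^ 2 = N := by
  obtain ⟨k, rfl⟩ := he
  obtain ⟨N', rfl⟩ := hN
  rcases Int.even_or_odd' s with ⟨s', rfl | rfl⟩ <;> rcases Int.even_or_odd' u with ⟨u', rfl | rfl⟩
  · exact ⟨s', u', rfl, rfl, by linarith⟩
  · exfalso
    ring_nf at h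
    omega
  · exfalso
    ring_nf at h
    omega
  · exfalso
    obtain ⟨t, ht⟩ := Int.even_mul_succ_self s'
    obtain ⟨t', ht'⟩ := Int.even_mul_succ_self (2 * k * u' + k + u')
    have e1 : (2 * s' + 1) ^ 2 = 8 * t + 1 := by linear_combination 4 * ht
    have e2 : ((2 * k + 1) * (2 * u' + 1)) ^ 2 = 8 * t' + 1 := by linear_combination 4 * ht'
    rw [e1, e2] at h
    omega

/-- The end of the descent at two. -/
private theorem rho_odd_end {e f s8 u8 : ℤ} (he : Odd e) (hf : Odd f)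
    (h8 : 27 * s8 ^ 2 + 25 * (e * u8) ^ 2 = 2 * f ^ 3) : False := by
  obtain ⟨l, hl⟩ := hf
  have hf3 : 2 * f ^ 3 = 4 * (4 * l ^ 3 + 6 * l ^ 2 + 3 * l) + 2 := by rw [hl]; ring
  rw [hf3] at h8
  generalize 4 * l ^ 3 + 6 * l ^ 2 + 3 * l = m at h8
  generalize e * u8 = w at h8
  rcases Int.even_or_odd' s8 with ⟨x, hx | hx⟩ <;> rcases Int.even_or_odd' w with ⟨y, hy | hy⟩ <;>
    rw [hx, hy] at h8 <;> ring_nf at h8 <;> omega

private theorem rho_odd {r e s ρ : ℤ} (hc : IsCoprime r e) (hρ : ρ = 3 * r + 40 * e ^ 2)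
    (h : 27 * s ^ 2 + 25 * e ^ 2 * (3 * ρ - 160 * e ^ 2) ^ 2 = 4 * ρ ^ 3) : ¬ (2 : ℤ) ∣ ρ := by
  rintro ⟨a, ha⟩
  have hr : (2 : ℤ) ∣ r := by omega
  have he : Odd e := by
    rw [← Int.not_even_iff_odd]
    intro h2
    have h3 := hc.isUnit_of_dvd' hr h2.two_dvd
    rw [Int.isUnit_iff] at h3
    omega
  have h0 : 27 * s ^ 2 + 25 * (e * (3 * ρ - 160 * e ^ 2)) ^ 2 = 4 * (8 * a ^ 3) := by
    rw [ha] at h ⊢
    linear_combination h
  obtain ⟨s1, u1, -, hu1, h1⟩ := step2 he h0 ⟨4 * a ^ 3, by ring⟩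
  obtain ⟨s2, u2, -, hu2, h2⟩ := step2 (s := s1) (u := u1) (N := 2 * a ^ 3) he
    (by linarith) ⟨a ^ 3, by ring⟩
  -- `a` is even
  obtain ⟨b, hb⟩ : (2 : ℤ) ∣ a := ⟨40 * e ^ 2 + u2 - a, by linarith⟩
  have h2' : 27 * s2 ^ 2 + 25 * (e * u2) ^ 2 = 4 * (4 * b ^ 3) := by rw [h2, hb]; ring
  obtain ⟨s3, u3, -, hu3, h3⟩ := step2 he h2' ⟨2 * b ^ 3, by ring⟩
  obtain ⟨g, hg⟩ : (2 : ℤ) ∣ b := ⟨20 * e ^ 2 + u3 - b, by linarith⟩
  have h3' : 27 * s3 ^ 2 + 25 * (e * u3) ^ 2 = 4 * (8 * g ^ 3) := by rw [h3, hg]; ring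
  obtain ⟨s4, u4, -, hu4, h4⟩ := step2 he h3' ⟨4 * g ^ 3, by ring⟩
  obtain ⟨d, hd⟩ : (2 : ℤ) ∣ g := ⟨10 * e ^ 2 + u4 - g, by linarith⟩
  have h4' : 27 * s4 ^ 2 + 25 * (e * u4) ^ 2 = 4 * (16 * d ^ 3) := by rw [h4, hd]; ring
  obtain ⟨s5, u5, -, hu5, h5⟩ := step2 he h4' ⟨8 * d ^ 3, by ring⟩
  obtain ⟨f, hf⟩ : (2 : ℤ) ∣ d := ⟨5 * e ^ 2 + u5 - d, by linarith⟩
  have h5' : 27 * s5 ^ 2 + 25 * (e * u5) ^ 2 = 4 * (32 * f ^ 3) := by rw [h5, hf]; ring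
  obtain ⟨s6, u6, -, hu6, h6⟩ := step2 he h5' ⟨16 * f ^ 3, by ring⟩
  obtain ⟨s7, u7, -, hu7, h7⟩ := step2 (s := s6) (u := u6) (N := 8 * f ^ 3) he
    (by linarith) ⟨4 * f ^ 3, by ring⟩
  obtain ⟨s8, u8, -, hu8, h8⟩ := step2 (s := s7) (u := u7) (N := 2 * f ^ 3) he
    (by linarith) ⟨f ^ 3, by ring⟩
  -- `f` is odd
  have hfo : Odd f := by
    obtain ⟨k, hk⟩ := he
    have h9 : 3 * f - 5 * e ^ 2 = 2 * u6 := by linarith
    rw [hk] at h9
    refine ⟨u6 + 10 * k ^ 2 + 10 * k + 2 - f, ?_⟩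
    linarith
  exact rho_odd_end he hfo h8

private theorem rho_five {r e s ρ : ℤ} (hc : IsCoprime r e) (hρ : ρ = 3 * r + 40 * e ^ 2)
    (h : 27 * s ^ 2 + 25 * e ^ 2 * (3 * ρ - 160 * e ^ 2) ^ 2 = 4 * ρ ^ 3) : ¬ (5 : ℤ) ∣ ρ := by
  rintro ⟨a, ha⟩
  have p5 : Prime (5 : ℤ) := by norm_num
  have hr : (5 : ℤ) ∣ r := by omega
  have he : ¬ (5 : ℤ) ∣ e := by
    intro h2
    have h3 := hc.isUnit_of_dvd' hr h2
    rw [Int.isUnit_iff] at h3
    omega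
  have hs : (5 : ℤ) ∣ s := by
    have h1 : (5 : ℤ) ∣ 27 * s ^ 2 := ⟨4 * 25 * a ^ 3 - 5 * e ^ 2 * (3 * ρ - 160 * e ^ 2) ^ 2, by
      rw [ha] at h ⊢
      linear_combination h⟩
    rcases p5.dvd_or_dvd h1 with h2 | h2
    · omega
    · exact p5.dvd_of_dvd_pow h2
  obtain ⟨s1, rfl⟩ := hs
  have h1 : 27 * s1 ^ 2 + 25 * e ^ 2 * (3 * a - 32 * e ^ 2) ^ 2 = 20 * a ^ 3 := by
    rw [ha] at h
    linarith
  have hs1 : (5 : ℤ) ∣ s1 := by
    have h2 : (5 : ℤ) ∣ 27 * s1 ^ 2 := ⟨4 * a ^ 3 - 5 * e ^ 2 * (3 * a - 32 * e ^ 2) ^ 2, by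
      linear_combination h1⟩
    rcases p5.dvd_or_dvd h2 with h3 | h3
    · omega
    · exact p5.dvd_of_dvd_pow h3
  obtain ⟨s2, rfl⟩ := hs1
  have h2 : 135 * s2 ^ 2 + 5 * e ^ 2 * (3 * a - 32 * e ^ 2) ^ 2 = 4 * a ^ 3 := by linarith
  have ha' : (5 : ℤ) ∣ a := by
    have h3 : (5 : ℤ) ∣ 4 * a ^ 3 := ⟨27 * s2 ^ 2 + e ^ 2 * (3 * a - 32 * e ^ 2) ^ 2, by
      linear_combination -h2⟩
    rcases p5.dvd_or_dvd h3 with h4 | h4
    · omega
    · exact p5.dvd_of_dvd_pow h4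
  obtain ⟨b, rfl⟩ := ha'
  have h3 : 27 * s2 ^ 2 + e ^ 2 * (15 * b - 32 * e ^ 2) ^ 2 = 100 * b ^ 3 := by linarith
  -- modulo five
  have h4 : (5 : ℤ) ∣ 2 * s2 ^ 2 + 4 * e ^ 6 := by
    refine ⟨20 * b ^ 3 - 5 * s2 ^ 2 - 45 * e ^ 2 * b ^ 2 + 192 * e ^ 4 * b - 204 * e ^ 6, ?_⟩
    linear_combination h3
  have h5 : (2 * s2 ^ 2 + 4 * e ^ 6) % 5 = 0 := Int.emod_eq_zero_of_dvd h4
  have hs5 : s2 % 5 = 0 ∨ s2 % 5 = 1 ∨ s2 % 5 = 2 ∨ s2 % 5 = 3 ∨ s2 % 5 = 4 := by omega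
  have he5 : e % 5 = 1 ∨ e % 5 = 2 ∨ e % 5 = 3 ∨ e % 5 = 4 := by omega
  rcases hs5 with hs5 | hs5 | hs5 | hs5 | hs5 <;> rcases he5 with he5 | he5 | he5 | he5 <;>
    simp [Int.add_emod, Int.mul_emod, pow_succ, hs5, he5] at h5

/-- A common prime divisor of `ρ` and the first square divides three. -/
private theorem prime_aux {r e ρ p : ℤ} (hc : IsCoprime r e) (hρ : ρ = 3 * r + 40 * e ^ 2)
    (h2 : ¬ (2 : ℤ) ∣ ρ) (h5 : ¬ (5 : ℤ) ∣ ρ) (hp : Prime p) (hpρ : p ∣ ρ)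
    (hpA : p ∣ 5 * e * (3 * ρ - 160 * e ^ 2)) : p ∣ 3 := by
  have hp2 : ¬ p ∣ 2 := fun h => h2 (((Prime.associated_of_dvd hp Int.prime_two h).symm.dvd).trans hpρ)
  have hp5 : ¬ p ∣ 5 := fun h =>
    h5 (((Prime.associated_of_dvd hp (by norm_num : Prime (5 : ℤ)) h).symm.dvd).trans hpρ)
  have h1 : p ∣ 2 ^ 5 * (5 ^ 2 * e ^ 3) := by
    have h6 : (2 : ℤ) ^ 5 * (5 ^ 2 * e ^ 3) = 15 * e * ρ - 5 * e * (3 * ρ - 160 * e ^ 2) := by ring
    rw [h6]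
    exact dvd_sub (hpρ.mul_left _) hpA
  have hpe : p ∣ e := by
    rcases hp.dvd_or_dvd h1 with h6 | h6
    · exact absurd (hp.dvd_of_dvd_pow h6) hp2
    · rcases hp.dvd_or_dvd h6 with h7 | h7
      · exact absurd (hp.dvd_of_dvd_pow h7) hp5
      · exact hp.dvd_of_dvd_pow h7
  have h3r : p ∣ 3 * r := by
    have h6 : 3 * r = ρ - 40 * e * e := by rw [hρ]; ring
    rw [h6]
    exact dvd_sub hpρ (hpe.mul_left _)
  rcases hp.dvd_or_dvd h3r with h6 | h6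
  · exact h6
  · exact absurd (hc.isUnit_of_dvd' h6 hpe) hp.not_isUnit

private theorem coprime_of_primes {a b : ℤ} (hb : b ≠ 0)
    (h : ∀ p : ℤ, Prime p → p ∣ a → p ∣ b → False) : IsCoprime a b := by
  rw [Int.isCoprime_iff_gcd_eq_one]
  by_contra hne
  obtain ⟨p, hp, hpd⟩ := Nat.exists_prime_and_dvd hne
  have hpg : (p : ℤ) ∣ (Int.gcd a b : ℤ) := by exact_mod_cast hpd
  exact h p (Nat.prime_iff_prime_int.1 hp) (hpg.trans (Int.gcd_dvd_left ..))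
    (hpg.trans (Int.gcd_dvd_right ..))

/-- the common part of the first half -/
private theorem half3_aux (r s e ρ : ℤ) (he : 0 < e) (hc : IsCoprime r e)
    (hρ : ρ = 3 * r + 40 * e ^ 2)
    (h : 27 * s ^ 2 + 25 * e ^ 2 * (3 * ρ - 160 * e ^ 2) ^ 2 = 4 * ρ ^ 3) (h2 : ¬ (2 : ℤ) ∣ ρ)
    (h5 : ¬ (5 : ℤ) ∣ ρ) : ∃ x y : ℤ, ρ = x ^ 2 + x * y + y ^ 2 ∧
      5 * e * (3 * ρ - 160 * e ^ 2) = (2 * x + y) * (x + 2 * y) * (x - y) := by
  have hρ0 : 0 < ρ := by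
    by_contra hcon
    rw [not_lt] at hcon
    have h6 : ρ ^ 3 ≤ 0 := by
      have := sq_nonneg ρ
      nlinarith
    have h7 : 0 ≤ 27 * s ^ 2 + 25 * e ^ 2 * (3 * ρ - 160 * e ^ 2) ^ 2 := by positivity
    have h8 : e ^ 2 * (3 * ρ - 160 * e ^ 2) ^ 2 = 0 := by
      have h9 : 0 ≤ 27 * s ^ 2 := by positivity
      have h10 : 0 ≤ e ^ 2 * (3 * ρ - 160 * e ^ 2) ^ 2 := by positivity
      nlinarith
    rcases mul_eq_zero.1 h8 with h9 | h9
    · exact he.ne' (pow_eq_zero_iff two_ne_zero |>.1 h9)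
    · have h10 : 3 * ρ - 160 * e ^ 2 = 0 := pow_eq_zero_iff two_ne_zero |>.1 h9
      have : 0 < e ^ 2 := by positivity
      linarith
  by_cases h3 : (3 : ℤ) ∣ ρ
  · -- the ramified case
    have he3 : (3 : ℤ) ∣ e := by
      have h6 : (3 : ℤ) ∣ e ^ 2 := by omega
      exact Int.prime_three.dvd_of_dvd_pow h6
    obtain ⟨e1, rfl⟩ := he3
    have hr3 : ¬ (3 : ℤ) ∣ r := by
      intro h6
      have h7 := hc.isUnit_of_dvd' h6 (Dvd.intro _ rfl)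
      rw [Int.isUnit_iff] at h7
      omega
    set ρ1 : ℤ := r + 120 * e1 ^ 2 with hρ1
    have hρ3 : ρ = 3 * ρ1 := by rw [hρ, hρ1]; ring
    have hn3 : ¬ (3 : ℤ) ∣ ρ1 := by omega
    set a1 : ℤ := e1 * (ρ1 - 160 * e1 ^ 2) with ha1
    have hA : 5 * (3 * e1) * (3 * ρ - 160 * (3 * e1) ^ 2) = 135 * a1 := by
      rw [ha1, hρ3]
      ring
    have hs : s ^ 2 + 675 * a1 ^ 2 = 4 * ρ1 ^ 3 := by
      have h6 : 27 * s ^ 2 + (135 * a1) ^ 2 = 4 * ρ ^ 3 := by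
        rw [← hA, ← h]
        ring
      rw [hρ3] at h6
      linarith
    obtain ⟨X, hX⟩ : ∃ X, s + 15 * a1 = 2 * X := by
      clear_value a1 ρ1
      rcases Int.even_or_odd' s with ⟨x, hx | hx⟩ <;>
        rcases Int.even_or_odd' a1 with ⟨y, hy | hy⟩
      · exact ⟨x + 15 * y, by rw [hx, hy]; ring⟩
      · exfalso
        rw [hx, hy] at hs
        ring_nf at hs
        omega
      · exfalso
        rw [hx, hy] at hs
        ring_nf at hs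
        omega
      · exact ⟨x + 15 * y + 8, by rw [hx, hy]; ring⟩
    have hco : IsCoprime (-(15 * a1)) ρ1 := by
      apply coprime_of_primes
      · intro h6
        rw [hρ3, h6] at hρ0
        omega
      · intro p hp hp1 hp2
        have hp3 : p ∣ ρ := by rw [hρ3]; exact hp2.mul_left _
        have hp4 : p ∣ 5 * (3 * e1) * (3 * ρ - 160 * (3 * e1) ^ 2) := by
          rw [hA]
          have h6 : 135 * a1 = (-9) * (-(15 * a1)) := by ring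
          rw [h6]
          exact hp1.mul_left _
        have hp5 := prime_aux hc hρ h2 h5 hp hp3 hp4
        exact hn3 (((Prime.associated_of_dvd hp Int.prime_three hp5).symm.dvd).trans hp2)
    obtain ⟨x, y, hx1, -, hx3⟩ := cubeE X (-(15 * a1)) ρ1 (by omega) hco
      ⟨-(5 * a1), by ring⟩ (by
        have h6 : s = 2 * X - 15 * a1 := by linarith
        rw [h6] at hs
        linarith)
    refine ⟨x + 2 * y, -(2 * x + y), ?_, ?_⟩
    · rw [hρ3, hx1]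
      ring
    · rw [hA]
      linear_combination (-9) * hx3
  · -- the unramified case
    set A : ℤ := 5 * e * (3 * ρ - 160 * e ^ 2) with hA
    have hs : 27 * s ^ 2 + A ^ 2 = 4 * ρ ^ 3 := by
      rw [← h, hA]
      ring
    have hp := fun (p : ℤ) (h6 : Prime p) (h7 : p ∣ ρ) (h8 : p ∣ A) =>
      prime_aux hc hρ h2 h5 h6 h7 h8
    clear_value A
    obtain ⟨X, hX⟩ : ∃ X, A - 3 * s = 2 * X := by
      rcases Int.even_or_odd' s with ⟨x, hx | hx⟩ <;>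
        rcases Int.even_or_odd' A with ⟨y, hy | hy⟩
      · exact ⟨y - 3 * x, by rw [hx, hy]; ring⟩
      · exfalso
        rw [hx, hy] at hs
        ring_nf at hs
        omega
      · exfalso
        rw [hx, hy] at hs
        ring_nf at hs
        omega
      · exact ⟨y - 3 * x - 1, by rw [hx, hy]; ring⟩
    have hco : IsCoprime (3 * s) ρ := by
      apply coprime_of_primes hρ0.ne'
      intro p hp0 hp1 hp2
      have hp3 : ¬ p ∣ 3 := fun h6 =>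
        h3 (((Prime.associated_of_dvd hp0 Int.prime_three h6).symm.dvd).trans hp2)
      have hp4 : p ∣ s := (hp0.dvd_or_dvd hp1).resolve_left hp3
      have hp5 : p ∣ A ^ 2 := by
        have h6 : A ^ 2 = 4 * ρ ^ 2 * ρ - 27 * s * s := by linear_combination hs
        rw [h6]
        exact dvd_sub (hp2.mul_left _) (hp4.mul_left _)
      exact hp3 (hp p hp0 hp2 (hp0.dvd_of_dvd_pow hp5))
    obtain ⟨x, y, hx1, hx2, hx3⟩ := cubeE X (3 * s) ρ hρ0 hco (Dvd.intro _ rfl) (by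
      have h6 : A = 2 * X + 3 * s := by linarith
      rw [h6] at hs
      linarith)
    refine ⟨x, y, hx1, ?_⟩
    linear_combination hX + 2 * hx2 + hx3

/-- The first half of the descent, over `ℚ(√-3)`. -/
theorem half3 (r s e ρ : ℤ) (he : 0 < e) (hc : IsCoprime r e) (hρ : ρ = 3 * r + 40 * e ^ 2)
    (h : 27 * s ^ 2 + 25 * e ^ 2 * (3 * ρ - 160 * e ^ 2) ^ 2 = 4 * ρ ^ 3) :
    IsCoprime ρ 10 ∧ ∃ a b : ℤ, 4 * ρ = a ^ 2 + 3 * b ^ 2 ∧ 5 ∣ a ∧
      9 * b ^ 2 * (a + 5 * e) = a ^ 3 - 15 * e * a ^ 2 + 3200 * e ^ 3 := by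
  have h2 := rho_odd hc hρ h
  have h5 := rho_five hc hρ h
  refine ⟨?_, ?_⟩
  · have e10 : (10 : ℤ) = 2 * 5 := by norm_num
    rw [e10, IsCoprime.mul_right_iff]
    exact ⟨(Int.prime_two.coprime_iff_not_dvd.2 h2).symm,
      ((by norm_num : Prime (5 : ℤ)).coprime_iff_not_dvd.2 h5).symm⟩
  · obtain ⟨x, y, hxy, hA⟩ := half3_aux r s e ρ he hc hρ h h2 h5
    have p5 : Prime (5 : ℤ) := by norm_num
    have h6 : (5 : ℤ) ∣ (2 * x + y) * (x + 2 * y) * (x - y) :=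
      ⟨e * (3 * ρ - 160 * e ^ 2), by rw [← hA]; ring⟩
    rw [hxy] at hA
    rcases p5.dvd_or_dvd h6 with h7 | h7
    · rcases p5.dvd_or_dvd h7 with h8 | h8
      · exact ⟨2 * x + y, y, by rw [hxy]; ring, h8, by linear_combination 4 * hA⟩
      · refine ⟨-(x + 2 * y), x, by rw [hxy]; ring, (dvd_neg).2 h8, ?_⟩
        linear_combination 4 * hA
    · refine ⟨-(x - y), -(x + y), by rw [hxy]; ring, (dvd_neg).2 h7, ?_⟩
      linear_combination 4 * hA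

/-- The second half of the descent, over the rationals. -/
theorem half1 (r s e : ℤ) (he : 0 < e) (hc : IsCoprime r e) (h5 : ¬ 5 ∣ r)
    (h : s ^ 2 = 4 * r ^ 3 + 25 * e ^ 2 * (r - 5 * e ^ 2) ^ 2) :
    ∃ α β : ℤ, r = α * β ∧ β ^ 3 - α ^ 3 = 5 * e * (α * β - 5 * e ^ 2) := by
  set k : ℤ := 5 * e * (r - 5 * e ^ 2) with hk
  have h1 : (s - k) * (s + k) = 4 * r ^ 3 := by
    rw [hk]
    linear_combination h
  obtain ⟨u, hu⟩ : ∃ u, s - k = 2 * u := by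
    rcases Int.even_or_odd' (s - k) with ⟨x, hx | hx⟩
    · exact ⟨x, hx⟩
    · exfalso
      have h2 : s + k = 2 * (x + k) + 1 := by linarith
      rw [hx, h2] at h1
      ring_nf at h1
      omega
  have hv : s + k = 2 * (u + k) := by linarith
  have huv : u * (u + k) = r ^ 3 := by
    rw [hu, hv] at h1
    linarith
  have hco : IsCoprime u (u + k) := by
    rw [Int.isCoprime_iff_gcd_eq_one]
    by_contra hne
    obtain ⟨p, hp, hpd⟩ := Nat.exists_prime_and_dvd hne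
    have hpz : Prime (p : ℤ) := Nat.prime_iff_prime_int.1 hp
    have hpg : (p : ℤ) ∣ (Int.gcd u (u + k) : ℤ) := by exact_mod_cast hpd
    have hp1 : (p : ℤ) ∣ u := hpg.trans (Int.gcd_dvd_left ..)
    have hp2 : (p : ℤ) ∣ u + k := hpg.trans (Int.gcd_dvd_right ..)
    have hp3 : (p : ℤ) ∣ k := (dvd_add_right hp1).1 hp2
    have hp4 : (p : ℤ) ∣ r := by
      have : (p : ℤ) ∣ r ^ 3 := by rw [← huv]; exact hp1.mul_right _
      exact hpz.dvd_of_dvd_pow this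
    have hpe : ¬ (p : ℤ) ∣ e := by
      intro hpe
      exact hpz.not_isUnit (hc.isUnit_of_dvd' hp4 hpe)
    have hp5 : (p : ℤ) ∣ 5 * e * (5 * e ^ 2) := by
      have h6 : 5 * e * (5 * e ^ 2) = 5 * e * r - k := by rw [hk]; ring
      rw [h6]
      exact dvd_sub (hp4.mul_left _) hp3
    have hp6 : (p : ℤ) ∣ 5 := by
      rcases hpz.dvd_or_dvd hp5 with h6 | h6
      · rcases hpz.dvd_or_dvd h6 with h7 | h7
        · exact h7
        · exact absurd h7 hpe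
      · rcases hpz.dvd_or_dvd h6 with h7 | h7
        · exact h7
        · exact absurd (hpz.dvd_of_dvd_pow h7) hpe
    have hp7 : p ∣ 5 := by exact_mod_cast hp6
    have hp8 : p = 5 := (Nat.prime_dvd_prime_iff_eq hp (by norm_num)).1 hp7
    rw [hp8] at hp4
    exact h5 (by exact_mod_cast hp4)
  obtain ⟨⟨α, hα⟩, ⟨β, hβ⟩⟩ := Int.eq_pow_of_mul_eq_pow_odd hco (by decide : Odd 3) huv
  have hr : r = α * β := by
    have huv' : (α * β) ^ 3 = r ^ 3 := by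
      rw [mul_pow, ← hα, ← hβ]
      exact huv
    exact ((Odd.strictMono_pow (by decide : Odd 3)).injective huv').symm
  refine ⟨α, β, hr, ?_⟩
  rw [← hβ, ← hα, ← hr]
  ring

end SD87
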