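import Pool.Agent.Lib.MP_87c685_nt_SD.Desc

/-!
# The finite part of the descent

The bounds and the enumeration of the rational points that the descent on the denominator leaves.
-/

set_option autoImplicit false

namespace SD87

/-- The divisibility conditions on an exceptional point. -/
theorem fin_dvd (a b u e W : ℤ) (hcop : IsCoprime u e)
    (hW2 : W ^ 2 = u ^ 4 + a * u ^ 2 * e ^ 2 + b * e ^ 4) (hdvd : 2 * u * W ∣ u ^ 4 - b * e ^ 4) :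
    u ∣ b ∧ W ^ 2 ∣ u ^ 4 * (a ^ 2 - 4 * b) := by
  constructor
  · have h1 : u ∣ u ^ 4 - b * e ^ 4 := Dvd.dvd.trans ⟨2 * W, by ring⟩ hdvd
    have h2 : u ∣ b * e ^ 4 := by
      have h3 : b * e ^ 4 = u * u ^ 3 - (u ^ 4 - b * e ^ 4) := by ring
      rw [h3]
      exact dvd_sub (Dvd.intro _ rfl) h1
    exact (IsCoprime.pow_right hcop).dvd_of_dvd_mul_right h2
  · have hWe : IsCoprime W e := by
      have h1 : IsCoprime (W ^ 2) e := by
        have h2 : W ^ 2 = u ^ 4 + e * (a * u ^ 2 * e + b * e ^ 3) := by rw [hW2]; ring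
        rw [h2]
        exact (IsCoprime.pow_left hcop).add_mul_left_left _
      exact (IsCoprime.pow_left_iff (by norm_num)).mp h1
    have h1 : W ∣ u ^ 4 - b * e ^ 4 := Dvd.dvd.trans ⟨2 * u, by ring⟩ hdvd
    have h2 : W ∣ u ^ 2 * (2 * u ^ 2 + a * e ^ 2) := by
      have h3 : u ^ 2 * (2 * u ^ 2 + a * e ^ 2) = (u ^ 4 - b * e ^ 4) + W * W := by
        rw [← pow_two W, hW2]; ring
      rw [h3]
      exact dvd_add h1 (Dvd.intro _ rfl)
    have h3 : W ^ 2 ∣ (u ^ 4 * (a ^ 2 - 4 * b)) * e ^ 4 := by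
      have h4 : (u ^ 4 * (a ^ 2 - 4 * b)) * e ^ 4 =
          (u ^ 2 * (2 * u ^ 2 + a * e ^ 2)) ^ 2 - W ^ 2 * (4 * u ^ 4) := by
        rw [hW2]; ring
      rw [h4]
      exact dvd_sub (pow_dvd_pow_of_dvd h2 2) (Dvd.intro _ rfl)
    exact (IsCoprime.pow hWe).dvd_of_dvd_mul_right h3

/-- The bound on the denominator. -/
theorem fin_bound (a b u e W : ℤ) (hab : a ^ 2 < 4 * b ∨ (b < 0 ∧ 1 + |a| + b < 0))
    (hcop : IsCoprime u e) (he : 0 < e) (hu : u ≠ 0) (hW : W ≠ 0)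
    (hW2 : W ^ 2 = u ^ 4 + a * u ^ 2 * e ^ 2 + b * e ^ 4) (hdvd : 2 * u * W ∣ u ^ 4 - b * e ^ 4) :
    e ^ 2 ≤ 2 * u ^ 2 := by
  obtain ⟨-, h1⟩ := fin_dvd a b u e W hcop hW2 hdvd
  have hu2 : 0 < u ^ 2 := by positivity
  have hW2p : 0 < W ^ 2 := by positivity
  rcases hab with hab | ⟨hb, hab⟩
  · have h2 : W ^ 2 ≤ u ^ 4 * (4 * b - a ^ 2) := by
      refine Int.le_of_dvd (mul_pos (by positivity) (by linarith)) ?_
      have h3 : u ^ 4 * (4 * b - a ^ 2) = -(u ^ 4 * (a ^ 2 - 4 * b)) := by ring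
      rw [h3]
      exact (dvd_neg).mpr h1
    have h3 : (4 * b - a ^ 2) * e ^ 4 ≤ 4 * W ^ 2 := by
      nlinarith [sq_nonneg (2 * u ^ 2 + a * e ^ 2)]
    have h4 : (4 * b - a ^ 2) * e ^ 4 ≤ (4 * b - a ^ 2) * (4 * u ^ 4) := by linarith
    have h5 : e ^ 4 ≤ 4 * u ^ 4 := le_of_mul_le_mul_left h4 (by linarith)
    have h6 : (e ^ 2) ^ 2 ≤ (2 * u ^ 2) ^ 2 := by nlinarith [h5]
    exact le_of_sq_le_sq h6 (by positivity)
  · by_contra hcon
    push Not at hcon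
    have h2 : u ^ 2 < e ^ 2 := by nlinarith
    have h3 : u ^ 4 ≤ e ^ 4 := by nlinarith
    have h4 : a * u ^ 2 * e ^ 2 ≤ |a| * e ^ 4 := by
      have h5 : a * (u ^ 2 * e ^ 2) ≤ |a| * (u ^ 2 * e ^ 2) :=
        mul_le_mul_of_nonneg_right (le_abs_self a) (by positivity)
      have h6 : |a| * (u ^ 2 * e ^ 2) ≤ |a| * e ^ 4 :=
        mul_le_mul_of_nonneg_left (by nlinarith) (abs_nonneg a)
      nlinarith
    have h5 : 0 < e ^ 4 := by positivity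
    nlinarith

/-- The enumeration. -/
def chk (a b : ℤ) (L : List (ℕ × ℕ)) : Bool :=
  (List.range (b.natAbs + 1)).all fun u => !(b.natAbs % u == 0) ||
    (List.range (3 * u / 2 + 1)).all fun e => (e == 0) ||
      (let v : ℤ := (u : ℤ) ^ 4 + a * (u : ℤ) ^ 2 * (e : ℤ) ^ 2 + b * (e : ℤ) ^ 4
       let s : ℕ := Nat.sqrt v.toNat
       decide (v ≤ 0) || !(s * s == v.toNat) ||
         !(((u : ℤ) ^ 4 - b * (e : ℤ) ^ 4) % (2 * (u : ℤ) * (s : ℤ)) == 0) || !(Nat.gcd u e == 1) ||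
           L.contains (u, e))

theorem chk_spec (a b : ℤ) (L : List (ℕ × ℕ)) (hb : b ≠ 0) (h : chk a b L = true)
    (hab : a ^ 2 < 4 * b ∨ (b < 0 ∧ 1 + |a| + b < 0)) (u e W : ℤ)
    (hcop : IsCoprime u e) (he : 0 < e) (hu : u ≠ 0) (hW : W ≠ 0)
    (hW2 : W ^ 2 = u ^ 4 + a * u ^ 2 * e ^ 2 + b * e ^ 4) (hdvd : 2 * u * W ∣ u ^ 4 - b * e ^ 4) :
    (u.natAbs, e.natAbs) ∈ L := by
  have hub : u ∣ b := (fin_dvd a b u e W hcop hW2 hdvd).1
  have hbd := fin_bound a b u e W hab hcop he hu hW hW2 hdvd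
  obtain ⟨v, hv⟩ : ∃ v : ℕ, v = u.natAbs := ⟨_, rfl⟩
  obtain ⟨f, hf⟩ : ∃ f : ℕ, f = e.natAbs := ⟨_, rfl⟩
  obtain ⟨s, hs⟩ : ∃ s : ℕ, s = W.natAbs := ⟨_, rfl⟩
  have hv2 : (v : ℤ) ^ 2 = u ^ 2 := by rw [hv, Int.natCast_natAbs, sq_abs]
  have hf2 : (f : ℤ) ^ 2 = e ^ 2 := by rw [hf, Int.natCast_natAbs, sq_abs]
  have hs2 : (s : ℤ) ^ 2 = W ^ 2 := by rw [hs, Int.natCast_natAbs, sq_abs]
  have hv4 : (v : ℤ) ^ 4 = u ^ 4 := by rw [show (4 : ℕ) = 2 * 2 from rfl, pow_mul, pow_mul, hv2]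
  have hf4 : (f : ℤ) ^ 4 = e ^ 4 := by rw [show (4 : ℕ) = 2 * 2 from rfl, pow_mul, pow_mul, hf2]
  have hv0 : v ≠ 0 := by rw [hv]; exact Int.natAbs_ne_zero.mpr hu
  have hf0 : f ≠ 0 := by rw [hf]; exact Int.natAbs_ne_zero.mpr he.ne'
  have hvb : v ∣ b.natAbs := by rw [hv]; exact Int.natAbs_dvd_natAbs.mpr hub
  have hvb' : v ≤ b.natAbs := Nat.le_of_dvd (Int.natAbs_pos.mpr hb) hvb
  have hfv : f < 3 * v / 2 + 1 := by
    have h1 : (f : ℤ) ^ 2 ≤ 2 * (v : ℤ) ^ 2 := by rw [hv2, hf2]; exact hbd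
    have h2 : f ^ 2 ≤ 2 * v ^ 2 := by exact_mod_cast h1
    have h3 : 2 * f ≤ 3 * v := by
      by_contra hcon
      push Not at hcon
      nlinarith
    omega
  rw [← hv, ← hf]
  unfold chk at h
  rw [List.all_eq_true] at h
  have h1 := h v (List.mem_range.mpr (by omega))
  rw [Nat.mod_eq_zero_of_dvd hvb] at h1
  simp only [beq_self_eq_true, Bool.not_true, Bool.false_or] at h1
  rw [List.all_eq_true] at h1
  have h2 := h1 f (List.mem_range.mpr hfv)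
  have h3 : (f == 0) = false := by simpa using hf0
  rw [h3, Bool.false_or, hv4, hv2, hf4, hf2, ← hW2] at h2
  have h4 : (W ^ 2).toNat = s * s := by
    rw [← hs2, ← pow_two]
    have : ((s : ℤ) ^ 2) = ((s ^ 2 : ℕ) : ℤ) := by push_cast; rfl
    rw [this, Int.toNat_natCast]
  have h5 : Nat.sqrt (s * s) = s := Nat.sqrt_eq s
  have h6 : ¬ (W ^ 2 ≤ 0) := by
    push Not
    positivity
  have h7 : 2 * (v : ℤ) * (s : ℤ) ∣ u ^ 4 - b * e ^ 4 := by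
    have h8 : 2 * (v : ℤ) * (s : ℤ) = |2 * u * W| := by
      rw [hv, hs, Int.natCast_natAbs, Int.natCast_natAbs, abs_mul, abs_mul]
      norm_num
    rw [h8, abs_dvd]
    exact hdvd
  have h8 : Nat.gcd v f = 1 := by
    rw [hv, hf]
    exact Int.isCoprime_iff_gcd_eq_one.mp hcop
  simp only [h4, h5, h8, Bool.or_eq_true, decide_eq_true_eq, Bool.not_eq_true', beq_eq_false_iff_ne,
    ne_eq, not_true_eq_false, or_false] at h2
  rcases h2 with (h2 | h2) | h2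
  · exact absurd h2 h6
  · exact absurd (Int.emod_eq_zero_of_dvd h7) h2
  · simpa using h2

end SD87
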