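import Pool.Agent.Lib.MP_87c685_nt_SD.FamDefs
import Pool.Agent.Lib.MP_87c685_nt_SD.Curves

/-!
# The family of twists: the classes of the second curve
-/

set_option autoImplicit false

namespace SD87

/-- the generalised second obstruction at five -/
private theorem famB_obs (ε a₁ m r s w : ℤ) (he : ε = 1 ∨ ε = -1) (hm : ¬ (5 ∣ m))
    (hs : ¬ (5 ∣ s))
    (h : w ^ 2 = 5 * (ε * r ^ 4 + 5 * a₁ * r ^ 2 * s ^ 2 - 25 * ε * m ^ 2 * s ^ 4)) : False := by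
  have h1 : (5 : ℤ) ∣ w := by
    have h2 : (5 : ℤ) ∣ w ^ 2 := ⟨_, h⟩
    exact prime5.dvd_of_dvd_pow h2
  obtain ⟨v, rfl⟩ := h1
  have h2 : ε * r ^ 4 + 5 * a₁ * r ^ 2 * s ^ 2 - 25 * ε * m ^ 2 * s ^ 4 = 5 * v ^ 2 := by
    have h3 : (5 : ℤ) * (ε * r ^ 4 + 5 * a₁ * r ^ 2 * s ^ 2 - 25 * ε * m ^ 2 * s ^ 4) =
        5 * (5 * v ^ 2) := by
      rw [← h]; ring
    exact mul_left_cancel₀ (by norm_num) h3
  have hee : ε * ε = 1 := by rcases he with rfl | rfl <;> norm_num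
  have h3 : (5 : ℤ) ∣ r := by
    have h4 : (5 : ℤ) ∣ r ^ 4 := by
      refine ⟨ε * (v ^ 2 - a₁ * r ^ 2 * s ^ 2 + 5 * ε * m ^ 2 * s ^ 4), ?_⟩
      linear_combination ε * h2 - r ^ 4 * hee
    exact prime5.dvd_of_dvd_pow h4
  obtain ⟨q, rfl⟩ := h3
  have h4 : v ^ 2 = 5 * (25 * ε * q ^ 4 + 5 * a₁ * q ^ 2 * s ^ 2 - ε * m ^ 2 * s ^ 4) := by
    have h5 : (5 : ℤ) * (v ^ 2) =
        5 * (5 * (25 * ε * q ^ 4 + 5 * a₁ * q ^ 2 * s ^ 2 - ε * m ^ 2 * s ^ 4)) := by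
      rw [← h2]; ring
    exact mul_left_cancel₀ (by norm_num) h5
  have h5 : (5 : ℤ) ∣ v := by
    have h6 : (5 : ℤ) ∣ v ^ 2 := ⟨_, h4⟩
    exact prime5.dvd_of_dvd_pow h6
  obtain ⟨u, rfl⟩ := h5
  have h6 : (5 : ℤ) ∣ m ^ 2 * s ^ 4 := by
    have h7 : 25 * ε * q ^ 4 + 5 * a₁ * q ^ 2 * s ^ 2 - ε * m ^ 2 * s ^ 4 = 5 * u ^ 2 := by
      have h8 : (5 : ℤ) * (25 * ε * q ^ 4 + 5 * a₁ * q ^ 2 * s ^ 2 - ε * m ^ 2 * s ^ 4) =
          5 * (5 * u ^ 2) := by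
        rw [← h4]; ring
      exact mul_left_cancel₀ (by norm_num) h8
    refine ⟨ε * (5 * ε * q ^ 4 + a₁ * q ^ 2 * s ^ 2 - u ^ 2), ?_⟩
    linear_combination -ε * h7 - m ^ 2 * s ^ 4 * hee
  rcases prime5.dvd_or_dvd h6 with h7 | h7
  · exact hm (prime5.dvd_of_dvd_pow h7)
  · exact hs (prime5.dvd_of_dvd_pow h7)

private theorem famB_cop5 {p : ℕ} (hp : p.Prime) (h : p % 20 = 3 ∨ p % 20 = 7) :
    IsCoprime (p : ℤ) 5 := by
  have h1 : p.Coprime 5 := by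
    rw [Nat.coprime_primes hp (by norm_num)]
    rintro rfl
    omega
  exact_mod_cast Nat.isCoprime_iff_coprime.mpr h1

private theorem famB_cop2 {p : ℕ} (hp : p.Prime) (h : p % 20 = 3 ∨ p % 20 = 7) :
    IsCoprime (p : ℤ) 2 := by
  have h1 : p.Coprime 2 := by
    rw [Nat.coprime_primes hp (by norm_num)]
    rintro rfl
    omega
  exact_mod_cast Nat.isCoprime_iff_coprime.mpr h1

private theorem famB_sq {P : ℤ} (h : Fam P) {p : ℕ} (hp : p.Prime) (hpP : (p : ℤ) ∣ P) :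
    ¬ (p : ℤ) ^ 2 ∣ 5 * P := by
  intro h1
  have h2 := famB_cop5 hp (h.2.2.1 p hp hpP)
  have h3 : (p : ℤ) ^ 2 ∣ P := (h2.pow_left).dvd_of_dvd_mul_left h1
  have h4 : (p : ℤ) * p ∣ P := by rwa [← sq]
  have h5 := h.2.1 (p : ℤ) h4
  exact (Nat.prime_iff_prime_int.mp hp).not_isUnit h5

private theorem famB_c {P c : ℤ} (h : FamC P c) : c ∣ 5 * P ∧ c ≠ 0 := by
  have hP : P ≠ 0 := h.1.1.ne'
  rcases h.2 with rfl | rfl | rfl | rfl
  · exact ⟨Dvd.intro_left 5 rfl, hP⟩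
  · exact ⟨⟨-5, by ring⟩, by simpa using hP⟩
  · exact ⟨dvd_refl _, by simpa using hP⟩
  · exact ⟨⟨-1, by ring⟩, by simpa using hP⟩

private theorem famB_Pc {P c : ℤ} (h : FamC P c) : P ∣ c := by
  rcases h.2 with rfl | rfl | rfl | rfl
  · exact dvd_refl _
  · exact ⟨-1, by ring⟩
  · exact ⟨5, by ring⟩
  · exact ⟨-5, by ring⟩

private theorem famB_dvd5 {P c a b d b' r s w : ℤ} (h : FamC P c) (hdR : d ∣ 5 * P)
    (hdb : b * c ^ 2 = d * b') (hs : IsCoprime (d * r ^ 2) s)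
    (hw : w ^ 2 = d * r ^ 4 + (a * c) * r ^ 2 * s ^ 2 + b' * s ^ 4)
    (hns : ∀ p : ℕ, p.Prime → (p % 20 = 3 ∨ p % 20 = 7) → ∀ x y : ℤ,
      (p : ℤ) ∣ x ^ 2 - (a ^ 2 - 4 * b) * y ^ 2 → (p : ℤ) ∣ y) : d ∣ 5 := by
  have hcop : IsCoprime d P := by
    rw [Int.isCoprime_iff_gcd_eq_one]
    by_contra hne
    obtain ⟨p, hp, hpd⟩ := Nat.exists_prime_and_dvd hne
    have h1 : (p : ℤ) ∣ d := Int.natCast_dvd.2 (hpd.trans (Nat.gcd_dvd_left _ _))
    have h2 : (p : ℤ) ∣ P := Int.natCast_dvd.2 (hpd.trans (Nat.gcd_dvd_right _ _))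
    have h3 := famB_sq h.1 hp h2
    refine fam_excl hp (h2.trans (famB_Pc h)) (fun h4 => h3 (h4.trans (famB_c h).1)) h1
      (fun h4 => h3 (h4.trans hdR)) hdb hs hw (hns p hp (h.1.2.2.1 p hp h2))
  exact hcop.dvd_of_dvd_mul_right hdR

private theorem famB_mod {P : ℤ} (h : Fam P) : (P : ZMod 5) = 1 ∨ (P : ZMod 5) = -1 := by
  rcases h.2.2.2 with h1 | h1
  · left
    have h2 : P = 1 + 5 * (P / 5) := by omega
    rw [h2]
    push_cast
    have : (5 : ZMod 5) = 0 := by decide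
    rw [this, zero_mul, add_zero]
  · right
    have h2 : P = -1 + 5 * (P / 5 + 1) := by omega
    rw [h2]
    push_cast
    have : (5 : ZMod 5) = 0 := by decide
    rw [this, zero_mul, add_zero]

private theorem famB_not5 {P : ℤ} (h : Fam P) : ¬ ((5 : ℤ) ∣ P) := by
  have := h.2.2.2
  omega

private theorem famB_main {P c ε r s w : ℤ} (h : FamC P c) (he : ε = 1 ∨ ε = -1)
    (hs : ¬ ((5 : ℤ) ∣ s))
    (hw : w ^ 2 = 5 * (ε * r ^ 4 + c * r ^ 2 * s ^ 2 - ε * c ^ 2 * s ^ 4)) : False := by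
  have hm := famB_mod h.1
  have hn := famB_not5 h.1
  rcases h.2 with rfl | rfl | rfl | rfl
  · refine five_obs ε c (-ε * c ^ 2) r s w he hm ?_ hs (by rw [hw]; ring)
    push_cast
    rcases hm with h1 | h1 <;> rw [h1] <;> ring
  · refine five_obs ε (-P) (-ε * P ^ 2) r s w he ?_ ?_ hs (by rw [hw]; ring)
    · push_cast
      rcases hm with h1 | h1 <;> rw [h1]
      · right; rfl
      · left; ring
    · push_cast
      rcases hm with h1 | h1 <;> rw [h1] <;> ring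
  · exact famB_obs ε P P r s w he hn hs (by rw [hw]; ring)
  · exact famB_obs ε (-P) P r s w he hn hs (by rw [hw]; ring)

theorem fcls3 {P c : ℤ} (h : FamC P c) : Cls (5 * c) (-25 * c ^ 2) := by
  refine cls_of (5 * c) (-25 * c ^ 2) (5 * P) 4 (by norm_num) ?_
    fun d b' r s w h1 h2 h3 h4 h5 h6 => ?_
  · rcases h.2 with rfl | rfl | rfl | rfl
    · exact ⟨-25 * c ^ 2, by ring⟩
    · exact ⟨-25 * P ^ 2, by ring⟩
    · exact ⟨-P ^ 2, by ring⟩
    · exact ⟨-P ^ 2, by ring⟩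
  · have hd5 : d ∣ 5 := famB_dvd5 (a := 5) (b := -25) h h2 h1 h5 h6 (by
      intro p hp hp20 x y hxy
      have h7 : (p : ℤ) ∣ x ^ 2 - 5 * (5 * y) ^ 2 := by
        have h8 : x ^ 2 - 5 * (5 * y) ^ 2 = x ^ 2 - (5 ^ 2 - 4 * (-25)) * y ^ 2 := by ring
        rwa [h8]
      exact (famB_cop5 hp hp20).dvd_of_dvd_mul_left (fam_ns5 hp hp20 x (5 * y) h7).2)
    rcases dvd_cases5 hd5 with rfl | rfl | rfl | rfl
    · left; rfl
    · right; exact ⟨5 * c, by ring⟩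
    · exfalso
      have hb : b' = -5 * c ^ 2 := by linarith
      subst hb
      exact famB_main (ε := 1) (r := r) (s := s) (w := w) h (Or.inl rfl) (not_dvd_of unit5 (dvd_refl _) h5)
        (by rw [h6]; ring)
    · exfalso
      have hb : b' = 5 * c ^ 2 := by linarith
      subst hb
      exact famB_main (ε := -1) (r := r) (s := s) (w := w) h (Or.inr rfl) (not_dvd_of unit5 (by norm_num) h5)
        (by rw [h6]; ring)

theorem fcls4 {P c : ℤ} (h : FamC P c) :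
    Cls (-2 * (5 * c)) ((5 * c) ^ 2 - 4 * (-25 * c ^ 2)) := by
  have hc := (famB_c h).2
  have e1 : (-2 * (5 * c)) = -10 * c := by ring
  have e2 : ((5 * c) ^ 2 - 4 * (-25 * c ^ 2)) = 125 * c ^ 2 := by ring
  rw [e1, e2]
  refine cls_of (-10 * c) (125 * c ^ 2) (5 * P) 5 (by norm_num) ?_
    fun d b' r s w h1 h2 h3 h4 h5 h6 => ?_
  · rcases h.2 with rfl | rfl | rfl | rfl
    · exact ⟨25 * c ^ 3, by ring⟩
    · exact ⟨25 * P ^ 3, by ring⟩
    · exact ⟨P ^ 3, by ring⟩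
    · exact ⟨P ^ 3, by ring⟩
  · have hd5 : d ∣ 5 := famB_dvd5 (a := -10) (b := 125) h h2 h1 h5 h6 (by
      intro p hp hp20 x y hxy
      have h7 : (p : ℤ) ∣ x ^ 2 + (20 * y) ^ 2 := by
        have h8 : x ^ 2 + (20 * y) ^ 2 = x ^ 2 - ((-10) ^ 2 - 4 * 125) * y ^ 2 := by ring
        rwa [h8]
      have h9 := (fam_ns1 hp hp20 x (20 * y) h7).2
      have h10 : IsCoprime (p : ℤ) 20 := by
        have h11 : (20 : ℤ) = 2 * (2 * 5) := by norm_num
        rw [h11]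
        exact (famB_cop2 hp hp20).mul_right
          ((famB_cop2 hp hp20).mul_right (famB_cop5 hp hp20))
      exact h10.dvd_of_dvd_mul_left h9)
    have hpos : 0 < d := by
      refine pos_of (-10 * c) (125 * c ^ 2) d b' r s w ?_ h1 h4 h6
      have : 0 < c ^ 2 := by positivity
      nlinarith
    rcases dvd_cases5 hd5 with rfl | rfl | rfl | rfl
    · left; rfl
    · omega
    · right; exact ⟨25 * c, by ring⟩
    · omega

end SD87
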