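import Pool.Agent.Lib.MP_87c685_nt_SD.FamDefs

/-!
# The family of twists: the finite part for the first curve
-/

set_option autoImplicit false

namespace SD87

private theorem ffc_prime {P c : ℤ} (h : FamC P c) (u e W : ℤ) (hcop : IsCoprime u e)
    (hW2 : W ^ 2 = u ^ 4 + (22 * c) * u ^ 2 * e ^ 2 + (125 * c ^ 2) * e ^ 4)
    {p : ℕ} (hp : p.Prime) (hpP : (p : ℤ) ∣ P) (hpu : (p : ℤ) ∣ u) : False := by
  obtain ⟨⟨hP0, hsq, hall, hP5⟩, hc⟩ := h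
  have hp20 := hall p hp hpP
  have hpI : Prime (p : ℤ) := Nat.prime_iff_prime_int.mp hp
  have hp5 : ¬ (p : ℤ) ∣ 5 := by
    intro h5
    have h6 : p ∣ 5 := by exact_mod_cast h5
    have h7 : p = 5 := (Nat.prime_dvd_prime_iff_eq hp (by norm_num)).mp h6
    omega
  obtain ⟨P1, hP1⟩ := hpP
  have hpP1 : ¬ (p : ℤ) ∣ P1 := by
    rintro ⟨t, ht⟩
    have h1 : (p : ℤ) * (p : ℤ) ∣ P := ⟨t, by rw [hP1, ht]; ring⟩
    exact hpI.not_isUnit (hsq _ h1)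
  obtain ⟨c1, hc1, hpc1⟩ : ∃ c1 : ℤ, c = p * c1 ∧ ¬ (p : ℤ) ∣ c1 := by
    rcases hc with hc | hc | hc | hc
    · exact ⟨P1, by rw [hc, hP1], hpP1⟩
    · exact ⟨-P1, by rw [hc, hP1]; ring, by rwa [dvd_neg]⟩
    · refine ⟨5 * P1, by rw [hc, hP1]; ring, fun h1 => ?_⟩
      rcases hpI.dvd_or_dvd h1 with h1 | h1
      · exact hp5 h1
      · exact hpP1 h1
    · refine ⟨-(5 * P1), by rw [hc, hP1]; ring, fun h1 => ?_⟩
      rw [dvd_neg] at h1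
      rcases hpI.dvd_or_dvd h1 with h1 | h1
      · exact hp5 h1
      · exact hpP1 h1
  obtain ⟨u1, hu1⟩ := hpu
  have hpe : ¬ (p : ℤ) ∣ e := fun he => hpI.not_isUnit (hcop.isUnit_of_dvd' ⟨u1, hu1⟩ he)
  have hpW : (p : ℤ) ∣ W := by
    refine hpI.dvd_of_dvd_pow (n := 2) ?_
    rw [hW2, hu1, hc1]
    exact ⟨p ^ 3 * u1 ^ 4 + 22 * p ^ 2 * c1 * u1 ^ 2 * e ^ 2 + 125 * p * c1 ^ 2 * e ^ 4, by ring⟩
  obtain ⟨W1, hW1⟩ := hpW
  have hp0 : (p : ℤ) ^ 2 ≠ 0 := pow_ne_zero 2 hpI.ne_zero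
  have h2 : W1 ^ 2 = p ^ 2 * u1 ^ 4 + 22 * p * c1 * u1 ^ 2 * e ^ 2 + 125 * c1 ^ 2 * e ^ 4 := by
    refine mul_left_cancel₀ hp0 ?_
    have h3 := hW2
    rw [hu1, hc1, hW1] at h3
    linear_combination h3
  have h3 : (p : ℤ) ∣ W1 ^ 2 - 5 * (5 * c1 * e ^ 2) ^ 2 :=
    ⟨p * u1 ^ 4 + 22 * c1 * u1 ^ 2 * e ^ 2, by rw [h2]; ring⟩
  have h4 := (fam_ns5 hp hp20 _ _ h3).2
  rcases hpI.dvd_or_dvd h4 with h5 | h5
  · rcases hpI.dvd_or_dvd h5 with h6 | h6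
    · exact hp5 h6
    · exact hpc1 h6
  · exact hpe (hpI.dvd_of_dvd_pow h5)

private theorem ffc_mod5 (W y c : ℤ) (k : ℤ) (h : W ^ 2 = 2 * c * y ^ 2 + 5 * k)
    (hc : c % 5 = 1 ∨ c % 5 = 4) (hy : ¬ (5 : ℤ) ∣ y) : False := by
  have hy' : y % 5 = 1 ∨ y % 5 = 2 ∨ y % 5 = 3 ∨ y % 5 = 4 := by omega
  have hW' : W % 5 = 0 ∨ W % 5 = 1 ∨ W % 5 = 2 ∨ W % 5 = 3 ∨ W % 5 = 4 := by omega
  have h1 : W ^ 2 % 5 = (2 * c * y ^ 2) % 5 := by rw [h]; omega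
  have h2 : (2 * c * y ^ 2) % 5 = (2 * (c % 5) * (y % 5) ^ 2) % 5 := by
    simp [Int.mul_emod, pow_two]
  have h3 : W ^ 2 % 5 = (W % 5) ^ 2 % 5 := by simp [Int.mul_emod, pow_two]
  rw [h3, h2] at h1
  rcases hy' with a | a | a | a <;> rcases hW' with b | b | b | b | b <;>
    rcases hc with d | d <;> rw [a, b, d] at h1 <;> norm_num at h1

private theorem ffc_five {P c : ℤ} (h : FamC P c) (u e W : ℤ) (hcop : IsCoprime u e)
    (hW2 : W ^ 2 = u ^ 4 + (22 * c) * u ^ 2 * e ^ 2 + (125 * c ^ 2) * e ^ 4)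
    (h5u : (5 : ℤ) ∣ u) : False := by
  obtain ⟨⟨hP0, hsq, hall, hP5⟩, hc⟩ := h
  have h5I : Prime (5 : ℤ) := Int.prime_iff_natAbs_prime.mpr (by norm_num)
  obtain ⟨u1, hu1⟩ := h5u
  have h5e : ¬ (5 : ℤ) ∣ e := fun he => h5I.not_isUnit (hcop.isUnit_of_dvd' ⟨u1, hu1⟩ he)
  have key : ∀ c1 : ℤ, (c1 % 5 = 1 ∨ c1 % 5 = 4) → (c = c1 ∨ c = 5 * c1) → False := by
    intro c1 hc1 hcc
    have h5c1 : ¬ (5 : ℤ) ∣ c1 := by omega
    rcases hcc with hcc | hcc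
    · subst hcc
      obtain ⟨W1, hW1⟩ : (5 : ℤ) ∣ W := by
        refine h5I.dvd_of_dvd_pow (n := 2) ?_
        rw [hW2, hu1]
        exact ⟨125 * u1 ^ 4 + 110 * c * u1 ^ 2 * e ^ 2 + 25 * c ^ 2 * e ^ 4, by ring⟩
      have h1 : W1 ^ 2 = 25 * u1 ^ 4 + 22 * c * u1 ^ 2 * e ^ 2 + 5 * c ^ 2 * e ^ 4 := by
        have h3 := hW2
        rw [hu1, hW1] at h3
        have h4 : (25 : ℤ) * W1 ^ 2 =
            25 * (25 * u1 ^ 4 + 22 * c * u1 ^ 2 * e ^ 2 + 5 * c ^ 2 * e ^ 4) := by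
          linear_combination h3
        linarith
      by_cases h5 : (5 : ℤ) ∣ u1
      · obtain ⟨u2, hu2⟩ := h5
        obtain ⟨W2, hW2'⟩ : (5 : ℤ) ∣ W1 := by
          refine h5I.dvd_of_dvd_pow (n := 2) ?_
          rw [h1, hu2]
          exact ⟨3125 * u2 ^ 4 + 110 * c * u2 ^ 2 * e ^ 2 + c ^ 2 * e ^ 4, by ring⟩
        have h6 : (5 : ℤ) ∣ (c * e ^ 2) ^ 2 := by
          rw [hW2', hu2] at h1
          refine ⟨W2 ^ 2 - 625 * u2 ^ 4 - 22 * c * u2 ^ 2 * e ^ 2, ?_⟩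
          linarith
        have h7 := h5I.dvd_of_dvd_pow h6
        rcases h5I.dvd_or_dvd h7 with h8 | h8
        · exact h5c1 h8
        · exact h5e (h5I.dvd_of_dvd_pow h8)
      · refine ffc_mod5 W1 (u1 * e) c (5 * u1 ^ 4 + 4 * c * u1 ^ 2 * e ^ 2 + c ^ 2 * e ^ 4) ?_
          hc1 ?_
        · rw [h1]; ring
        · intro h6
          rcases h5I.dvd_or_dvd h6 with h7 | h7
          · exact h5 h7
          · exact h5e h7
    · subst hcc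
      obtain ⟨W1, hW1⟩ : (5 : ℤ) ∣ W := by
        refine h5I.dvd_of_dvd_pow (n := 2) ?_
        rw [hW2, hu1]
        exact ⟨125 * u1 ^ 4 + 550 * c1 * u1 ^ 2 * e ^ 2 + 625 * c1 ^ 2 * e ^ 4, by ring⟩
      have h1 : W1 ^ 2 = 25 * u1 ^ 4 + 110 * c1 * u1 ^ 2 * e ^ 2 + 125 * c1 ^ 2 * e ^ 4 := by
        have h3 := hW2
        rw [hu1, hW1] at h3
        linarith
      obtain ⟨W2, hW2'⟩ : (5 : ℤ) ∣ W1 := by
        refine h5I.dvd_of_dvd_pow (n := 2) ?_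
        rw [h1]
        exact ⟨5 * u1 ^ 4 + 22 * c1 * u1 ^ 2 * e ^ 2 + 25 * c1 ^ 2 * e ^ 4, by ring⟩
      have h2 : 5 * W2 ^ 2 = 5 * u1 ^ 4 + 22 * c1 * u1 ^ 2 * e ^ 2 + 25 * c1 ^ 2 * e ^ 4 := by
        rw [hW2'] at h1
        linarith
      have h3 : (5 : ℤ) ∣ u1 := by
        have h4 : (5 : ℤ) ∣ 2 * (c1 * (u1 * e) ^ 2) :=
          ⟨W2 ^ 2 - u1 ^ 4 - 4 * c1 * u1 ^ 2 * e ^ 2 - 5 * c1 ^ 2 * e ^ 4, by linarith⟩
        rcases h5I.dvd_or_dvd h4 with h5 | h5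
        · omega
        · rcases h5I.dvd_or_dvd h5 with h6 | h6
          · exact absurd h6 h5c1
          · rcases h5I.dvd_or_dvd (h5I.dvd_of_dvd_pow h6) with h7 | h7
            · exact h7
            · exact absurd h7 h5e
      obtain ⟨u2, hu2⟩ := h3
      have h4 : W2 ^ 2 = 625 * u2 ^ 4 + 110 * c1 * u2 ^ 2 * e ^ 2 + 5 * c1 ^ 2 * e ^ 4 := by
        rw [hu2] at h2
        linarith
      obtain ⟨W3, hW3⟩ : (5 : ℤ) ∣ W2 := by
        refine h5I.dvd_of_dvd_pow (n := 2) ?_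
        rw [h4]
        exact ⟨125 * u2 ^ 4 + 22 * c1 * u2 ^ 2 * e ^ 2 + c1 ^ 2 * e ^ 4, by ring⟩
      have h5 : 5 * W3 ^ 2 = 125 * u2 ^ 4 + 22 * c1 * u2 ^ 2 * e ^ 2 + c1 ^ 2 * e ^ 4 := by
        rw [hW3] at h4
        linarith
      have h6 : (5 : ℤ) ∣ 2 * u2 ^ 2 + c1 * e ^ 2 := by
        have h7 : (5 : ℤ) ∣ (c1 * e ^ 2) * (2 * u2 ^ 2 + c1 * e ^ 2) :=
          ⟨W3 ^ 2 - 25 * u2 ^ 4 - 4 * c1 * u2 ^ 2 * e ^ 2, by linarith⟩
        rcases h5I.dvd_or_dvd h7 with h8 | h8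
        · rcases h5I.dvd_or_dvd h8 with h9 | h9
          · exact absurd h9 h5c1
          · exact absurd (h5I.dvd_of_dvd_pow h9) h5e
        · exact h8
      have ha : (2 * u2 ^ 2 + c1 * e ^ 2) % 5 = 0 := by omega
      have hb : (2 * u2 ^ 2 + c1 * e ^ 2) % 5 =
          (2 * (u2 % 5) ^ 2 + (c1 % 5) * (e % 5) ^ 2) % 5 := by
        simp [Int.add_emod, Int.mul_emod, pow_two]
      rw [hb] at ha
      have he' : e % 5 = 1 ∨ e % 5 = 2 ∨ e % 5 = 3 ∨ e % 5 = 4 := by omega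
      have hu' : u2 % 5 = 0 ∨ u2 % 5 = 1 ∨ u2 % 5 = 2 ∨ u2 % 5 = 3 ∨ u2 % 5 = 4 := by omega
      rcases he' with a | a | a | a <;> rcases hu' with b | b | b | b | b <;>
        rcases hc1 with d | d <;> rw [a, b, d] at ha <;> norm_num at ha
  rcases hc with hc | hc | hc | hc
  · exact key P hP5 (Or.inl hc)
  · exact key (-P) (by omega) (Or.inl hc)
  · exact key P hP5 (Or.inr hc)
  · exact key (-P) (by omega) (Or.inr (by rw [hc]; ring))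

theorem ffin22 {P c : ℤ} (h : FamC P c) (u e W : ℤ) (hcop : IsCoprime u e) (he : 0 < e)
    (hu : u ≠ 0) (hW : W ≠ 0)
    (hW2 : W ^ 2 = u ^ 4 + (22 * c) * u ^ 2 * e ^ 2 + (125 * c ^ 2) * e ^ 4)
    (hdvd : 2 * u * W ∣ u ^ 4 - (125 * c ^ 2) * e ^ 4) : False := by
  obtain ⟨hd1, hd2⟩ := fin_dvd (22 * c) (125 * c ^ 2) u e W hcop hW2 hdvd
  have hP0 : 0 < P := h.1.1
  have hc0 : c ≠ 0 := by
    rcases h.2 with hc | hc | hc | hc <;> omega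
  have hu5 : IsCoprime u 5 := by
    refine (Int.isCoprime_iff_gcd_eq_one).mpr ?_
    by_contra hne
    obtain ⟨q, hq, hqd⟩ := Nat.exists_prime_and_dvd hne
    have h1 : (q : ℤ) ∣ u := (Int.natCast_dvd_natCast.mpr hqd).trans (Int.gcd_dvd_left ..)
    have h2 : (q : ℤ) ∣ 5 := (Int.natCast_dvd_natCast.mpr hqd).trans (Int.gcd_dvd_right ..)
    have h3 : q ∣ 5 := by exact_mod_cast h2
    have h4 : q = 5 := (Nat.prime_dvd_prime_iff_eq hq (by norm_num)).mp h3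
    subst h4
    exact ffc_five h u e W hcop hW2 (by exact_mod_cast h1)
  have huP : IsCoprime u P := by
    refine (Int.isCoprime_iff_gcd_eq_one).mpr ?_
    by_contra hne
    obtain ⟨q, hq, hqd⟩ := Nat.exists_prime_and_dvd hne
    have h1 : (q : ℤ) ∣ u := (Int.natCast_dvd_natCast.mpr hqd).trans (Int.gcd_dvd_left ..)
    have h2 : (q : ℤ) ∣ P := (Int.natCast_dvd_natCast.mpr hqd).trans (Int.gcd_dvd_right ..)
    exact ffc_prime h u e W hcop hW2 hq h2 h1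
  have huc : IsCoprime u c := by
    rcases h.2 with hc | hc | hc | hc
    · rw [hc]; exact huP
    · rw [hc]; exact huP.neg_right
    · rw [hc]; exact hu5.mul_right huP
    · rw [hc, show (-5 : ℤ) * P = -(5 * P) by ring]; exact (hu5.mul_right huP).neg_right
  have hunit : IsUnit u := by
    have h1 : IsCoprime u (125 * c ^ 2) := by
      have h2 : IsCoprime u ((5 : ℤ) ^ 3) := hu5.pow_right
      rw [show (125 : ℤ) = 5 ^ 3 by norm_num]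
      exact h2.mul_right huc.pow_right
    exact h1.isUnit_of_dvd' dvd_rfl hd1
  have hu2 : u ^ 2 = 1 := by
    rcases Int.isUnit_iff.mp hunit with h1 | h1 <;> rw [h1] <;> norm_num
  have hu4 : u ^ 4 = 1 := by
    rw [show u ^ 4 = (u ^ 2) ^ 2 by ring, hu2]; norm_num
  have hc2 : 0 < c ^ 2 := by positivity
  have hle : W ^ 2 ≤ 16 * c ^ 2 := by
    refine Int.le_of_dvd (by positivity) ?_
    have h1 : 16 * c ^ 2 = -(u ^ 4 * ((22 * c) ^ 2 - 4 * (125 * c ^ 2))) := by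
      rw [hu4]; ring
    rw [h1]
    exact (dvd_neg).mpr hd2
  have he1 : 1 ≤ e := he
  have he4 : 1 ≤ e ^ 4 := one_le_pow₀ he1
  have hy : (c * e ^ 2) ≠ 0 := mul_ne_zero hc0 (by positivity)
  have hy2 : -(22 * (c * e ^ 2)) ≤ 22 * (c * e ^ 2) ^ 2 := by
    have h1 : 1 ≤ |c * e ^ 2| := Int.one_le_abs hy
    have h2 : -(c * e ^ 2) ≤ |c * e ^ 2| := neg_le_abs _
    have h3 : |c * e ^ 2| ≤ |c * e ^ 2| * |c * e ^ 2| := by nlinarith
    have h4 : |c * e ^ 2| * |c * e ^ 2| = (c * e ^ 2) ^ 2 := by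
      rw [← pow_two, sq_abs]
    linarith
  have hcc : c ^ 2 ≤ (c * e ^ 2) ^ 2 := by
    have h1 : (c * e ^ 2) ^ 2 = c ^ 2 * e ^ 4 := by ring
    rw [h1]
    nlinarith
  have hfin : W ^ 2 = 1 + 22 * (c * e ^ 2) + 125 * (c * e ^ 2) ^ 2 := by
    rw [hW2, hu4, hu2]; ring
  nlinarith

end SD87
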