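import Pool.Agent.Lib.MP_87c685_nt_SD.FamDefs
import Pool.Agent.Lib.MP_87c685_nt_SD.Enum

/-!
# The family of twists: the finite part for the second curve
-/

set_option autoImplicit false

namespace SD87

/-- a prime factor of `P` does not divide `u` -/
private theorem ffin5_prime {P c : ℤ} (h : FamC P c) (u e W : ℤ) (hcop : IsCoprime u e)
    (hW2 : W ^ 2 = u ^ 4 + (5 * c) * u ^ 2 * e ^ 2 + (-25 * c ^ 2) * e ^ 4)
    {p : ℕ} (hp : p.Prime) (hpP : (p : ℤ) ∣ P) : ¬ (p : ℤ) ∣ u := by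
  intro hpu
  have hpi : Prime (p : ℤ) := Nat.prime_iff_prime_int.mp hp
  have hp0 : (p : ℤ) ≠ 0 := hpi.ne_zero
  have hmod := h.1.2.2.1 p hp hpP
  have hp5 : ¬ (p : ℤ) ∣ 5 := by
    intro h5
    have h5' : p ∣ 5 := by exact_mod_cast h5
    have := (Nat.prime_dvd_prime_iff_eq hp Nat.prime_five).1 h5'
    omega
  have hpe : ¬ (p : ℤ) ∣ e := by
    intro hpe
    exact hpi.not_isUnit (hcop.isUnit_of_dvd' hpu hpe)
  obtain ⟨P1, hP1⟩ := hpP
  have hc1 : ∃ c1 : ℤ, c = p * c1 ∧ c1 ∣ 5 * P1 := by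
    rcases h.2 with h2 | h2 | h2 | h2
    · exact ⟨P1, by rw [h2, hP1], Dvd.intro_left _ rfl⟩
    · exact ⟨-P1, by rw [h2, hP1]; ring, ⟨-5, by ring⟩⟩
    · exact ⟨5 * P1, by rw [h2, hP1]; ring, dvd_rfl⟩
    · exact ⟨-5 * P1, by rw [h2, hP1]; ring, ⟨-1, by ring⟩⟩
  obtain ⟨c1, hc1, hc1d⟩ := hc1
  obtain ⟨u1, rfl⟩ := hpu
  have hW2' : W ^ 2 = p ^ 2 * (p ^ 2 * u1 ^ 4 + 5 * p * c1 * u1 ^ 2 * e ^ 2 - 25 * c1 ^ 2 * e ^ 4) := by
    rw [hW2, hc1]; ring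
  have hpW : (p : ℤ) ∣ W := by
    apply hpi.dvd_of_dvd_pow (n := 2)
    rw [hW2', pow_two, mul_assoc]
    exact Dvd.intro _ rfl
  obtain ⟨W1, rfl⟩ := hpW
  have hW1 : W1 ^ 2 = p ^ 2 * u1 ^ 4 + 5 * p * c1 * u1 ^ 2 * e ^ 2 - 25 * c1 ^ 2 * e ^ 4 := by
    have hpp : (p : ℤ) ^ 2 ≠ 0 := pow_ne_zero _ hp0
    apply mul_left_cancel₀ hpp
    rw [← hW2']; ring
  have hdv : (p : ℤ) ∣ W1 ^ 2 + (5 * c1 * e ^ 2) ^ 2 := by
    rw [hW1]
    exact ⟨p * u1 ^ 4 + 5 * c1 * u1 ^ 2 * e ^ 2, by ring⟩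
  have h2 := (fam_ns1 hp hmod _ _ hdv).2
  rcases hpi.dvd_or_dvd h2 with h3 | h3
  · rcases hpi.dvd_or_dvd h3 with h4 | h4
    · exact hp5 h4
    · rcases hpi.dvd_or_dvd (h4.trans hc1d) with h5 | h5
      · exact hp5 h5
      · have hsq := h.1.2.1
        rw [hP1] at hsq
        have := hsq p (mul_dvd_mul_left _ h5)
        exact hpi.not_isUnit this
  · exact hpe (hpi.dvd_of_dvd_pow h3)

/-- `|u|` is a power of five -/
private theorem ffin5_u {P c : ℤ} (h : FamC P c) (u e W : ℤ) (hcop : IsCoprime u e)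
    (hW2 : W ^ 2 = u ^ 4 + (5 * c) * u ^ 2 * e ^ 2 + (-25 * c ^ 2) * e ^ 4)
    (hdvd : 2 * u * W ∣ u ^ 4 - (-25 * c ^ 2) * e ^ 4) :
    ∃ k ≤ 4, u.natAbs = 5 ^ k := by
  have h1 := (fin_dvd _ _ u e W hcop hW2 hdvd).1
  have hcopP : IsCoprime u P := by
    rw [Int.isCoprime_iff_gcd_eq_one]
    by_contra hne
    obtain ⟨p, hp, hpg⟩ := Nat.exists_prime_and_dvd hne
    have hpu : (p : ℤ) ∣ u := (Int.natCast_dvd_natCast.2 hpg).trans (Int.gcd_dvd_left ..)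
    have hpP : (p : ℤ) ∣ P := (Int.natCast_dvd_natCast.2 hpg).trans (Int.gcd_dvd_right ..)
    exact ffin5_prime h u e W hcop hW2 hp hpP hpu
  have h2 : u ∣ 5 ^ 4 * P ^ 2 := by
    refine h1.trans ?_
    rcases h.2 with h2 | h2 | h2 | h2
    · exact ⟨-25, by rw [h2]; ring⟩
    · exact ⟨-25, by rw [h2]; ring⟩
    · exact ⟨-1, by rw [h2]; ring⟩
    · exact ⟨-1, by rw [h2]; ring⟩
  have h3 : u ∣ 5 ^ 4 := (hcopP.pow_right (n := 2)).dvd_of_dvd_mul_right h2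
  have h4 : u.natAbs ∣ 5 ^ 4 := by
    have := Int.natAbs_dvd_natAbs.2 h3
    simpa using this
  obtain ⟨k, hk, hk'⟩ := (Nat.dvd_prime_pow Nat.prime_five).1 h4
  exact ⟨k, hk, hk'⟩

private theorem p5 : Prime (5 : ℤ) := Int.prime_iff_natAbs_prime.2 (by norm_num)

private theorem ffin5_key : ∀ y1 ∈ Finset.Icc (-15 : ℤ) 40, ∀ w ∈ Finset.Icc (0 : ℤ) 28,
    w ^ 2 = 625 + 25 * y1 - y1 ^ 2 → y1 % 2 = 1 → y1 % 5 ≠ 0 → y1 = 33 := by decide +kernel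

theorem ffin5 {P c : ℤ} (h : FamC P c) (hc5 : c ≠ 5) (u e W : ℤ) (hcop : IsCoprime u e)
    (he : 0 < e) (hu : u ≠ 0) (hW : W ≠ 0)
    (hW2 : W ^ 2 = u ^ 4 + (5 * c) * u ^ 2 * e ^ 2 + (-25 * c ^ 2) * e ^ 4)
    (hdvd : 2 * u * W ∣ u ^ 4 - (-25 * c ^ 2) * e ^ 4) : False := by
  obtain ⟨k, hk, hk'⟩ := ffin5_u h u e W hcop hW2 hdvd
  have hPpos : 0 < P := h.1.1
  have hPmod : P % 5 = 1 ∨ P % 5 = 4 := h.1.2.2.2
  -- `P` is odd
  have hPodd : ¬ (2 : ℤ) ∣ P := by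
    intro h2
    have := h.1.2.2.1 2 Nat.prime_two (by exact_mod_cast h2)
    omega
  have hcodd : ¬ (2 : ℤ) ∣ c := by
    rcases h.2 with h2 | h2 | h2 | h2 <;> omega
  have hc0 : c ≠ 0 := by
    rintro rfl; exact hcodd (dvd_zero _)
  have h25 : ¬ (25 : ℤ) ∣ c := by
    rcases h.2 with h2 | h2 | h2 | h2 <;> omega
  have husq : u ^ 2 = (5 : ℤ) ^ (2 * k) := by
    have : ((u.natAbs : ℤ)) ^ 2 = u ^ 2 := Int.natAbs_sq u
    rw [← this, hk']
    push_cast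
    ring
  -- `e` is odd
  have hue : (2 : ℤ) ∣ u ^ 4 + 25 * c ^ 2 * e ^ 4 := by
    have h1 : (2 : ℤ) ∣ 2 * u * W := ⟨u * W, by ring⟩
    have h2 := h1.trans hdvd
    have h3 : u ^ 4 - (-25 * c ^ 2) * e ^ 4 = u ^ 4 + 25 * c ^ 2 * e ^ 4 := by ring
    rwa [h3] at h2
  have hodd_u : Odd u := by
    have : Odd u.natAbs := by
      rw [hk']; exact Odd.pow (by decide)
    exact Int.natAbs_odd.1 this
  have hodd_c : Odd c := by
    rw [← Int.not_even_iff_odd]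
    intro hev
    exact hcodd hev.two_dvd
  have hodd_e : Odd e := by
    by_contra hne
    rw [Int.not_odd_iff_even] at hne
    have h1 : Even (25 * c ^ 2 * e ^ 4) := by
      apply Even.mul_left
      exact hne.pow_of_ne_zero (by norm_num)
    have h2 : Odd (u ^ 4 + 25 * c ^ 2 * e ^ 4) := (hodd_u.pow).add_even h1
    rw [← Int.not_even_iff_odd] at h2
    exact h2 (even_iff_two_dvd.2 hue)
  set y := c * e ^ 2 with hy
  have hyodd : Odd y := hodd_c.mul hodd_e.pow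
  have hy0 : y ≠ 0 := mul_ne_zero hc0 (by positivity)
  have hcy : c ∣ y := Dvd.intro _ rfl
  have hWy : W ^ 2 = (u ^ 2) ^ 2 + 5 * y * u ^ 2 - 25 * y ^ 2 := by
    rw [hW2, hy]; ring
  have hdy : 2 * u * W ∣ (u ^ 2) ^ 2 + 25 * y ^ 2 := by
    have h3 : u ^ 4 - (-25 * c ^ 2) * e ^ 4 = (u ^ 2) ^ 2 + 25 * y ^ 2 := by rw [hy]; ring
    rwa [h3] at hdvd
  have he1 : 1 ≤ e ^ 2 := by nlinarith
  -- if `5 ∣ u` then `25` does not divide `y`
  have hn25 : (5 : ℤ) ∣ u → ¬ (25 : ℤ) ∣ y := by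
    intro h5u h25y
    have h5e : ¬ (5 : ℤ) ∣ e := fun h5e => p5.not_isUnit (hcop.isUnit_of_dvd' h5u h5e)
    have hce : IsCoprime (25 : ℤ) (e ^ 2) := by
      have h1 : IsCoprime (5 : ℤ) e := (p5.coprime_iff_not_dvd).2 h5e
      have h2 := h1.pow (m := 2) (n := 2)
      norm_num at h2
      exact h2
    exact h25 (hce.dvd_of_dvd_mul_right (by rw [hy] at h25y; exact h25y))
  have hWd : ∀ X : ℤ, W ^ 2 = 25 * X → ∃ W1 : ℤ, W = 5 * W1 ∧ W1 ^ 2 = X := by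
    intro X hX
    have h1 : (5 : ℤ) ∣ W := by
      apply p5.dvd_of_dvd_pow (n := 2)
      rw [hX]; exact ⟨5 * X, by ring⟩
    obtain ⟨W1, rfl⟩ := h1
    exact ⟨W1, rfl, by linarith [show (5 * W1) ^ 2 = 25 * W1 ^ 2 by ring]⟩
  have hyle : e ^ 2 ≤ |y| := by
    rw [hy, abs_mul, abs_of_nonneg (by positivity : (0 : ℤ) ≤ e ^ 2)]
    have : 1 ≤ |c| := Int.one_le_abs hc0
    nlinarith
  interval_cases k
  · -- `|u| = 1`
    have h1 : u ^ 2 = 1 := by simpa using husq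
    rw [h1] at hWy
    have h2 : y ≤ y ^ 2 := by
      rcases lt_or_gt_of_ne hy0 with h3 | h3 <;> nlinarith
    have h3 : 1 ≤ y ^ 2 := by
      rcases lt_or_gt_of_ne hy0 with h3 | h3 <;> nlinarith
    nlinarith [sq_nonneg W]
  · -- `|u| = 5`
    have h1 : u ^ 2 = 25 := by rw [husq]; norm_num
    rw [h1] at hWy
    obtain ⟨W1, hW1, hW1'⟩ := hWd (25 + 5 * y - y ^ 2) (by rw [hWy]; ring)
    have hlo : -3 ≤ y := by nlinarith [sq_nonneg W1]
    have hhi : y ≤ 8 := by nlinarith [sq_nonneg W1]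
    have hw1 : -6 ≤ W1 := by nlinarith
    have hw2 : W1 ≤ 6 := by nlinarith
    have hy35 : y = -3 ∨ y = 5 := by
      obtain ⟨t, ht⟩ := hyodd
      clear_value y
      interval_cases y <;> first | omega | (interval_cases W1 <;> omega)
    have hemax : e ≤ 2 := by
      rcases hy35 with h2 | h2
      · rw [h2] at hyle; norm_num at hyle; nlinarith
      · rw [h2] at hyle; norm_num at hyle; nlinarith
    have hcv : c = -3 ∨ c = 5 := by
      rw [hy] at hy35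
      interval_cases e
      · omega
      · omega
    rcases hcv with h2 | h2
    · rcases h.2 with h3 | h3 | h3 | h3 <;> omega
    · exact hc5 h2
  · -- `|u| = 25`
    have h1 : u ^ 2 = 625 := by rw [husq]; norm_num
    have h5u : (5 : ℤ) ∣ u := by
      apply p5.dvd_of_dvd_pow (n := 2)
      rw [h1]; norm_num
    rw [h1] at hWy hdy
    obtain ⟨W1, hW1, hW1'⟩ := hWd (15625 + 125 * y - y ^ 2) (by rw [hWy]; ring)
    have h5y : (5 : ℤ) ∣ y := by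
      apply p5.dvd_of_dvd_pow (n := 2)
      obtain ⟨u1, hu1⟩ := h5u
      have h2 : (25 : ℤ) ∣ u := by
        have h3 : u1 ^ 2 = 25 := by
          have : (5 * u1) ^ 2 = 625 := by rw [← hu1]; exact h1
          linarith [show (5 * u1) ^ 2 = 25 * u1 ^ 2 by ring]
        have h4 : (5 : ℤ) ∣ u1 := by
          apply p5.dvd_of_dvd_pow (n := 2)
          rw [h3]; norm_num
        obtain ⟨u2, rfl⟩ := h4
        exact ⟨u2, by rw [hu1]; ring⟩
      obtain ⟨u2, hu2⟩ := h2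
      rw [hW1, hu2] at hdy
      obtain ⟨r, hr⟩ := hdy
      exact ⟨2 * u2 * W1 * r - 3125, by linarith⟩
    obtain ⟨y1, hy1⟩ := h5y
    have h5W1 : (5 : ℤ) ∣ W1 := by
      apply p5.dvd_of_dvd_pow (n := 2)
      rw [hW1', hy1]; exact ⟨3125 + 125 * y1 - 5 * y1 ^ 2, by ring⟩
    obtain ⟨W2, rfl⟩ := h5W1
    have hW2' : W2 ^ 2 = 625 + 25 * y1 - y1 ^ 2 := by
      rw [hy1] at hW1'
      linarith [show (5 * W2) ^ 2 = 25 * W2 ^ 2 by ring,
        show (5 * y1) ^ 2 = 25 * y1 ^ 2 by ring]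
    have hlo : -15 ≤ y1 := by nlinarith [sq_nonneg W2]
    have hhi : y1 ≤ 40 := by nlinarith [sq_nonneg W2]
    have hwa : |W2| ≤ 28 := by
      have h2 : |W2| ^ 2 ≤ 784 := by rw [sq_abs]; nlinarith [sq_nonneg (2 * y1 - 25)]
      nlinarith [abs_nonneg W2]
    have hy33 : y1 = 33 := by
      refine ffin5_key y1 (Finset.mem_Icc.2 ⟨hlo, hhi⟩) |W2|
        (Finset.mem_Icc.2 ⟨abs_nonneg _, hwa⟩) (by rw [sq_abs]; exact hW2') ?_ ?_
      · obtain ⟨t, ht⟩ := hyodd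
        omega
      · intro h2
        apply hn25 h5u
        omega
    have hy165 : y = 165 := by rw [hy1, hy33]; norm_num
    have hemax : e ≤ 12 := by
      rw [hy165] at hyle; norm_num at hyle; nlinarith
    have hc165 : c = 165 := by
      rw [hy] at hy165
      interval_cases e <;> omega
    rcases h.2 with h3 | h3 | h3 | h3 <;> omega
  all_goals
    -- `|u| = 125` or `625`
    exfalso
    have h125 : (125 : ℤ) ∣ u := by
      rw [← Int.dvd_natAbs, hk']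
      norm_num
    have h5u : (5 : ℤ) ∣ u := (by norm_num : (5 : ℤ) ∣ 125).trans h125
    obtain ⟨v, hv⟩ := h125
    have hWy' : W ^ 2 = 25 * (9765625 * v ^ 4 + 3125 * v ^ 2 * y - y ^ 2) := by
      rw [hWy, hv]; ring
    obtain ⟨W1, hW1, hW1'⟩ := hWd _ hWy'
    rw [hW1, hv] at hdy
    have h5y : (5 : ℤ) ∣ y := by
      apply p5.dvd_of_dvd_pow (n := 2)
      obtain ⟨r, hr⟩ := hdy
      exact ⟨10 * v * W1 * r - 1953125 * v ^ 4, by linarith⟩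
    obtain ⟨y1, hy1⟩ := h5y
    have h5W1 : (5 : ℤ) ∣ W1 := by
      apply p5.dvd_of_dvd_pow (n := 2)
      rw [hW1', hy1]; exact ⟨1953125 * v ^ 4 + 3125 * v ^ 2 * y1 - 5 * y1 ^ 2, by ring⟩
    obtain ⟨W2, rfl⟩ := h5W1
    have h5y1 : (5 : ℤ) ∣ y1 := by
      apply p5.dvd_of_dvd_pow (n := 2)
      obtain ⟨r, hr⟩ := hdy
      rw [hy1] at hr
      exact ⟨2 * v * W2 * r - 78125 * v ^ 4, by linarith⟩
    apply hn25 h5u
    obtain ⟨y2, rfl⟩ := h5y1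
    exact ⟨y2, by rw [hy1]; ring⟩

end SD87
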