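import Pool.Agent.Lib.MP_87c685_nt_SD.FamA
import Pool.Agent.Lib.MP_87c685_nt_SD.FamB
import Pool.Agent.Lib.MP_87c685_nt_SD.FamC
import Pool.Agent.Lib.MP_87c685_nt_SD.FamD

/-!
# The family of twists: rational points
-/

set_option autoImplicit false

namespace SD87

/-- The descent when nothing is left. -/
theorem only_zero' (a b : ℤ) (hb : b ≠ 0) (hd : a ^ 2 - 4 * b ≠ 0)
    (H1 : Cls a b) (H2 : Cls (-2 * a) (a ^ 2 - 4 * b))
    (fin : ∀ u e W : ℤ, IsCoprime u e → 0 < e → u ≠ 0 → W ≠ 0 →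
      W ^ 2 = u ^ 4 + a * u ^ 2 * e ^ 2 + b * e ^ 4 → 2 * u * W ∣ u ^ 4 - b * e ^ 4 → False)
    (x y : ℚ) (h : y ^ 2 = x * (x ^ 2 + a * x + b)) : x = 0 := by
  by_contra hx
  have hbq : (b : ℚ) ≠ 0 := by exact_mod_cast hb
  have hdq : (a : ℚ) ^ 2 - 4 * (b : ℚ) ≠ 0 := by exact_mod_cast hd
  have main : ∀ r w : ℚ, w ^ 2 = r ^ 4 + a * r ^ 2 + b → False := by
    intro r w hrw
    refine descent a b (fun _ => False) ?_ ?_ ?_ r w hrw
    · intro r w h
      refine halve (a : ℚ) (b : ℚ) hbq hdq H1 ?_ r w h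
      intro x y hxy hx0
      have h1 := H2 x y (by push_cast; rw [hxy]) hx0
      push_cast at h1
      exact h1
    · exact fun u e W h1 h2 h3 h4 h5 h6 => fin u e W h1 h2 h3 h4 h5 h6
    · exact fun r r₁ w₁ h1 _ _ _ _ => h1
  have hy : ∀ x y : ℚ, y ^ 2 = x * (x ^ 2 + a * x + b) → x ≠ 0 → IsSquare x → False := by
    rintro x y h hx ⟨r, hr⟩
    have hr0 : r ≠ 0 := by
      rintro rfl
      exact hx (by rw [hr]; ring)
    exact main r (y / r) (by
      rw [div_pow, h, hr]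
      field_simp)
  rcases H1 x y h hx with h1 | h1
  · exact hy x y h hx h1
  · have hbx : (b : ℚ) / x ≠ 0 := div_ne_zero hbq hx
    have h2 : IsSquare ((b : ℚ) / x) := by
      obtain ⟨k, hk⟩ := h1
      refine ⟨k / x, ?_⟩
      field_simp
      linear_combination hk
    exact hy ((b : ℚ) / x) (b * y / x ^ 2) (by
      rw [div_pow, mul_pow, h]
      field_simp
      ring) hbx h2

theorem fam_ne_zero {P c : ℤ} (h : FamC P c) : c ≠ 0 := by
  have hP : P ≠ 0 := h.1.1.ne'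
  rcases h.2 with rfl | rfl | rfl | rfl
  · exact hP
  · exact neg_ne_zero.mpr hP
  · exact mul_ne_zero (by norm_num) hP
  · exact mul_ne_zero (by norm_num) hP

/-- The first curve. -/
theorem fam22 {P c : ℤ} (h : FamC P c) (x y : ℚ)
    (hxy : (c : ℚ) * y ^ 2 = x * (x ^ 2 + 22 * x + 125)) : x = 0 := by
  have hc := fam_ne_zero h
  have hcq : (c : ℚ) ≠ 0 := by exact_mod_cast hc
  have hc2 : 0 < c ^ 2 := by positivity
  have h1 := only_zero' (22 * c) (125 * c ^ 2) (by positivity)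
    (by nlinarith) (fcls1 h) (fcls2 h) (ffin22 h) (c * x) (c ^ 2 * y) (by
      push_cast
      have h2 : ((c : ℚ) ^ 2 * y) ^ 2 = c ^ 3 * (c * y ^ 2) := by ring
      rw [h2, hxy]
      ring)
  exact (mul_eq_zero.mp h1).resolve_left hcq

/-- The second curve. -/
theorem fam5 {P c : ℤ} (h : FamC P c) (hc5 : c ≠ 5) (x y : ℚ)
    (hxy : (c : ℚ) * y ^ 2 = x * (x ^ 2 + 5 * x - 25)) : x = 0 := by
  have hc := fam_ne_zero h
  have hcq : (c : ℚ) ≠ 0 := by exact_mod_cast hc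
  have hc2 : 0 < c ^ 2 := by positivity
  have h1 := only_zero' (5 * c) (-25 * c ^ 2) (by nlinarith)
    (by nlinarith) (fcls3 h) (fcls4 h) (ffin5 h hc5) (c * x) (c ^ 2 * y) (by
      push_cast
      have h2 : ((c : ℚ) ^ 2 * y) ^ 2 = c ^ 3 * (c * y ^ 2) := by ring
      rw [h2, hxy]
      ring)
  exact (mul_eq_zero.mp h1).resolve_left hcq

end SD87
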