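import Pool.Agent.Lib.MP_87c685_nt_SD.FamDefs
import Pool.Agent.Lib.MP_87c685_nt_SD.Curves

/-!
# The family of twists: the classes of the first curve
-/

set_option autoImplicit false

namespace SD87

private theorem famA_sq {P c : ℤ} (h : FamC P c) :
    c ^ 2 = P ^ 2 ∨ c ^ 2 = 25 * P ^ 2 := by
  rcases h.2 with rfl | rfl | rfl | rfl
  · left; rfl
  · left; ring
  · right; ring
  · right; ring

private theorem famA_ne {P c : ℤ} (h : FamC P c) : c ≠ 0 := by
  have hP := h.1.1
  rcases h.2 with rfl | rfl | rfl | rfl <;> omega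

private theorem famA_odd {P c : ℤ} (h : FamC P c) : c % 2 = 1 := by
  have hP : P % 2 = 1 := by
    by_contra h2
    have h3 : ((2 : ℕ) : ℤ) ∣ P := by
      push_cast
      omega
    have := h.1.2.2.1 2 Nat.prime_two h3
    omega
  rcases h.2 with rfl | rfl | rfl | rfl <;> omega

private theorem famA_prime {p : ℕ} (hp : p.Prime) (h20 : p % 20 = 3 ∨ p % 20 = 7) (n : ℕ)
    (hn : n = 2 ∨ n = 5) : ¬ (p : ℤ) ∣ (n : ℤ) := by
  intro h
  have h1 : p ∣ n := by exact_mod_cast h
  rcases hn with rfl | rfl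
  · have := (Nat.prime_dvd_prime_iff_eq hp Nat.prime_two).1 h1
    omega
  · have := (Nat.prime_dvd_prime_iff_eq hp Nat.prime_five).1 h1
    omega

/-- a prime of `P` divides neither `c` twice nor any divisor of `10 P` twice -/
private theorem famA_p2 {P : ℤ} (h : Fam P) {p : ℕ} (hp : p.Prime) (hpP : (p : ℤ) ∣ P) :
    ¬ (p : ℤ) ^ 2 ∣ 10 * P := by
  have h20 := h.2.2.1 p hp hpP
  have hP : Prime (p : ℤ) := Nat.prime_iff_prime_int.1 hp
  intro h1
  have hc : IsCoprime ((p : ℤ) ^ 2) 10 := by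
    refine IsCoprime.pow_left ?_
    rw [hP.coprime_iff_not_dvd]
    intro h2
    rcases hP.dvd_or_dvd (show (p : ℤ) ∣ 2 * 5 by norm_num; exact h2) with h3 | h3
    · exact famA_prime hp h20 2 (Or.inl rfl) (by exact_mod_cast h3)
    · exact famA_prime hp h20 5 (Or.inr rfl) (by exact_mod_cast h3)
  have h2 : (p : ℤ) ^ 2 ∣ P := hc.dvd_of_dvd_mul_left h1
  have h3 := h.2.1 (p : ℤ) (by rw [← sq]; exact h2)
  exact hP.not_isUnit h3

private theorem famA_c {P c : ℤ} (h : FamC P c) : P ∣ c ∧ c ∣ 10 * P := by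
  rcases h.2 with rfl | rfl | rfl | rfl
  · exact ⟨dvd_refl _, ⟨10, by ring⟩⟩
  · exact ⟨⟨-1, by ring⟩, ⟨-10, by ring⟩⟩
  · exact ⟨⟨5, by ring⟩, ⟨2, by ring⟩⟩
  · exact ⟨⟨-5, by ring⟩, ⟨-2, by ring⟩⟩

/-- `d` is coprime to `P` -/
private theorem famA_cop {P d : ℤ} (_h : Fam P)
    (H : ∀ p : ℕ, p.Prime → (p : ℤ) ∣ P → (p : ℤ) ∣ d → False) : IsCoprime d P := by
  rw [Int.isCoprime_iff_gcd_eq_one]
  by_contra hne
  obtain ⟨p, hp, hpd⟩ := Nat.exists_prime_and_dvd hne
  have h1 : ((p : ℕ) : ℤ) ∣ ((Int.gcd d P : ℕ) : ℤ) := by exact_mod_cast hpd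
  exact H p hp (h1.trans (Int.gcd_dvd_right ..)) (h1.trans (Int.gcd_dvd_left ..))

theorem fcls1 {P c : ℤ} (h : FamC P c) : Cls (22 * c) (125 * c ^ 2) := by
  have hc0 := famA_ne h
  refine cls_of (22 * c) (125 * c ^ 2) (5 * P) 5 (by norm_num) ?_
    fun d b' r s w h1 h2 h3 h4 h5 h6 => ?_
  · rcases famA_sq h with h1 | h1
    · rw [h1]; exact ⟨25 * P ^ 3, by ring⟩
    · rw [h1]; exact ⟨P ^ 3, by ring⟩
  · have hpos : 0 < d := by
      refine pos_of (22 * c) (125 * c ^ 2) d b' r s w ?_ h1 h4 h6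
      have : 0 < c ^ 2 := by positivity
      nlinarith
    have hcop : IsCoprime d P := by
      refine famA_cop h.1 fun p hp hpP hpd => ?_
      have h20 := h.1.2.2.1 p hp hpP
      have hP : Prime (p : ℤ) := Nat.prime_iff_prime_int.1 hp
      have hp10 := famA_p2 h.1 hp hpP
      refine fam_excl hp (a := 22) (b := 125) (c := c) (d := d) (b' := b') (r := r) (s := s)
        (w := w) (hpP.trans (famA_c h).1) (fun hh => hp10 (hh.trans (famA_c h).2)) hpd
        (fun hh => hp10 (hh.trans (h2.trans ⟨2, by ring⟩))) h1 h5 h6 fun x y hxy => ?_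
      have h7 : (p : ℤ) ∣ x ^ 2 + (4 * y) ^ 2 := by
        have : x ^ 2 + (4 * y) ^ 2 = x ^ 2 - (22 ^ 2 - 4 * 125) * y ^ 2 := by ring
        rw [this]; exact hxy
      have h8 := (fam_ns1 hp h20 _ _ h7).2
      rcases hP.dvd_or_dvd h8 with h9 | h9
      · exfalso
        have h10 : (p : ℤ) ∣ 2 := by
          rcases hP.dvd_or_dvd (show (p : ℤ) ∣ 2 * 2 by norm_num; exact h9) with h | h <;> exact h
        exact famA_prime hp h20 2 (Or.inl rfl) (by exact_mod_cast h10)
      · exact h9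
    have hd5 : d ∣ 5 := hcop.dvd_of_dvd_mul_right h2
    rcases dvd_cases5 hd5 with rfl | rfl | rfl | rfl
    · left; rfl
    · omega
    · right; exact ⟨25 * c, by ring⟩
    · omega

private theorem famA_16 {c a : ℤ} (hc : c % 2 = 1) (ha : a = -44 * c) :
    (a : ZMod 16) = 4 ∨ (a : ZMod 16) = 12 := by
  have h1 : a % 16 = 4 ∨ a % 16 = 12 := by omega
  have h2 : (a : ZMod 16) = ((a % 16 : ℤ) : ZMod 16) := by
    have := ZMod.intCast_mod a 16
    exact this.symm
  rcases h1 with h1 | h1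
  · left; rw [h2, h1]; rfl
  · right; rw [h2, h1]; rfl

private theorem famA_8 {b' : ℤ} (h : b' % 16 = 8) : (b' : ZMod 16) = 8 := by
  have h2 : (b' : ZMod 16) = ((b' % 16 : ℤ) : ZMod 16) := by
    have := ZMod.intCast_mod b' 16
    exact this.symm
  rw [h2, h]; rfl

theorem fcls2 {P c : ℤ} (h : FamC P c) :
    Cls (-2 * (22 * c)) ((22 * c) ^ 2 - 4 * (125 * c ^ 2)) := by
  have hc0 := famA_ne h
  have hodd := famA_odd h
  refine cls_of (-2 * (22 * c)) ((22 * c) ^ 2 - 4 * (125 * c ^ 2)) (10 * P) 4 (by norm_num) ?_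
    fun d b' r s w h1 h2 h3 h4 h5 h6 => ?_
  · have h0 : (22 * c) ^ 2 - 4 * (125 * c ^ 2) = -16 * c ^ 2 := by ring
    rw [h0]
    rcases famA_sq h with h1 | h1
    · rw [h1]; exact ⟨-625 * P ^ 2, by ring⟩
    · rw [h1]; exact ⟨-25 * P ^ 2, by ring⟩
  · have h1' : -16 * c ^ 2 = d * b' := by rw [← h1]; ring
    have h6' : w ^ 2 = d * r ^ 4 + (-44 * c) * r ^ 2 * s ^ 2 + b' * s ^ 4 := by rw [h6]; ring
    have hcop : IsCoprime d P := by
      refine famA_cop h.1 fun p hp hpP hpd => ?_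
      have h20 := h.1.2.2.1 p hp hpP
      have hP : Prime (p : ℤ) := Nat.prime_iff_prime_int.1 hp
      have hp10 := famA_p2 h.1 hp hpP
      refine fam_excl hp (a := -44) (b := -16) (c := c) (d := d) (b' := b') (r := r) (s := s)
        (w := w) (hpP.trans (famA_c h).1) (fun hh => hp10 (hh.trans (famA_c h).2)) hpd
        (fun hh => hp10 (hh.trans h2)) h1' h5 h6' fun x y hxy => ?_
      have h7 : (p : ℤ) ∣ x ^ 2 - 5 * (20 * y) ^ 2 := by
        have : x ^ 2 - 5 * (20 * y) ^ 2 = x ^ 2 - ((-44) ^ 2 - 4 * (-16)) * y ^ 2 := by ring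
        rw [this]; exact hxy
      have h8 := (fam_ns5 hp h20 _ _ h7).2
      rcases hP.dvd_or_dvd h8 with h9 | h9
      · exfalso
        rcases hP.dvd_or_dvd (show (p : ℤ) ∣ (2 * 2) * 5 by norm_num; exact h9) with h | h
        · have h10 : (p : ℤ) ∣ 2 := by
            rcases hP.dvd_or_dvd h with h | h <;> exact h
          exact famA_prime hp h20 2 (Or.inl rfl) (by exact_mod_cast h10)
        · exact famA_prime hp h20 5 (Or.inr rfl) (by exact_mod_cast h)
      · exact h9
    have hd10 : d ∣ 10 := hcop.dvd_of_dvd_mul_right h2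
    obtain ⟨t, ht, htodd⟩ : ∃ t : ℤ, c ^ 2 = t ∧ t % 2 = 1 := by
      refine ⟨c ^ 2, rfl, ?_⟩
      obtain ⟨m, hm⟩ : ∃ m, c = 2 * m + 1 := ⟨c / 2, by omega⟩
      rw [hm]
      have : (2 * m + 1) ^ 2 = 2 * (2 * m ^ 2 + 2 * m) + 1 := by ring
      omega
    have ht' : -16 * t = d * b' := by rw [← ht]; exact h1'
    -- the case `d = 5 ε`
    have five : ∀ ε : ℤ, (ε = 1 ∨ ε = -1) → d = 5 * ε → False := by
      intro ε hε hd
      have hee : ε * ε = 1 := by rcases hε with rfl | rfl <;> norm_num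
      have h50 : ∃ c1 : ℤ, c = 5 * c1 ∧ (c1 = P ∨ c1 = -P) := by
        rcases h.2 with hh | hh | hh | hh
        · exfalso
          have h5 : (5 : ℤ) ∣ 16 * c ^ 2 := ⟨-(ε * b'), by
            have : 16 * c ^ 2 = -(d * b') := by rw [← h1']; ring
            rw [this, hd]; ring⟩
          have h51 : (5 : ℤ) ∣ c := by
            rcases prime5.dvd_or_dvd h5 with h | h
            · omega
            · exact prime5.dvd_of_dvd_pow h
          have := h.1.2.2.2
          omega
        · exfalso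
          have h5 : (5 : ℤ) ∣ 16 * c ^ 2 := ⟨-(ε * b'), by
            have : 16 * c ^ 2 = -(d * b') := by rw [← h1']; ring
            rw [this, hd]; ring⟩
          have h51 : (5 : ℤ) ∣ c := by
            rcases prime5.dvd_or_dvd h5 with h | h
            · omega
            · exact prime5.dvd_of_dvd_pow h
          have := h.1.2.2.2
          omega
        · exact ⟨P, hh, Or.inl rfl⟩
        · exact ⟨-P, by rw [hh]; ring, Or.inr rfl⟩
      obtain ⟨c1, hc1, hcP⟩ := h50
      have hb' : b' = -80 * ε * c1 ^ 2 := by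
        have h7 : (5 : ℤ) * (ε * b') = 5 * (-80 * c1 ^ 2) := by
          have : (5 : ℤ) * (ε * b') = d * b' := by rw [hd]; ring
          rw [this, ← h1', hc1]; ring
        have h8 := mul_left_cancel₀ (by norm_num) h7
        linear_combination ε * h8 - b' * hee
      have hs5 : ¬ (5 ∣ s) := not_dvd_of unit5 (Dvd.intro _ hd.symm) h5
      have hc1m : c1 % 5 = 1 ∨ c1 % 5 = 4 := by
        have := h.1.2.2.2
        rcases hcP with rfl | rfl <;> omega
      have hz : (c1 : ZMod 5) = 1 ∨ (c1 : ZMod 5) = -1 := by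
        have h2 : (c1 : ZMod 5) = ((c1 % 5 : ℤ) : ZMod 5) := (ZMod.intCast_mod c1 5).symm
        rcases hc1m with h7 | h7
        · left; rw [h2, h7]; rfl
        · right; rw [h2, h7]; rfl
      refine five_obs ε (-44 * c1) (-16 * ε * c1 ^ 2) r s w hε ?_ ?_ hs5 ?_
      · have h7 : ((-44 * c1 : ℤ) : ZMod 5) = (c1 : ZMod 5) := by
          push_cast
          have : (-44 : ZMod 5) = 1 := by decide
          rw [this, one_mul]
        rw [h7]; exact hz
      · push_cast
        have h8 : (c1 : ZMod 5) ^ 2 = 1 := by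
          rcases hz with h | h <;> rw [h] <;> decide
        rw [h8]
        have : (-16 : ZMod 5) = -1 := by decide
        rw [this]; ring
      · rw [h6', hb', hd, hc1]; ring
    rcases dvd_cases hd10 with rfl | rfl | rfl | rfl | rfl | rfl | rfl | rfl
    · left; rfl
    · right; exact ⟨4 * c, by ring⟩
    · exact (two_obs 2 (-44 * c) b' r s w (Or.inl (by decide)) (famA_16 hodd rfl)
        (famA_8 (by omega)) h5 (by norm_num) h6').elim
    · exact (two_obs (-2) (-44 * c) b' r s w (Or.inr (Or.inl (by decide))) (famA_16 hodd rfl)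
        (famA_8 (by omega)) h5 (by norm_num) h6').elim
    · exact (five 1 (Or.inl rfl) (by norm_num)).elim
    · exact (five (-1) (Or.inr rfl) (by norm_num)).elim
    · exact (two_obs 10 (-44 * c) b' r s w (Or.inr (Or.inr (Or.inl (by decide))))
        (famA_16 hodd rfl) (famA_8 (by omega)) h5 (by norm_num) h6').elim
    · exact (two_obs (-10) (-44 * c) b' r s w (Or.inr (Or.inr (Or.inr (by decide))))
        (famA_16 hodd rfl) (famA_8 (by omega)) h5 (by norm_num) h6').elim

end SD87
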