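import Pool.Agent.Lib.MP_87c685_nt_SD.Points

/-!
# The family of twists: definitions and local obstructions
-/

set_option autoImplicit false

namespace SD87

/-- `P` is a product of distinct primes congruent to `3` or `7` modulo `20`, an even number of
them (that is, `P` is a square modulo `5`). -/
def Fam (P : ℤ) : Prop :=
  0 < P ∧ Squarefree P ∧ (∀ p : ℕ, p.Prime → (p : ℤ) ∣ P → p % 20 = 3 ∨ p % 20 = 7) ∧
    (P % 5 = 1 ∨ P % 5 = 4)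

/-- The twists considered. -/
def FamC (P c : ℤ) : Prop := Fam P ∧ (c = P ∨ c = -P ∨ c = 5 * P ∨ c = -5 * P)

theorem fam_ns1 {p : ℕ} (hp : p.Prime) (h : p % 20 = 3 ∨ p % 20 = 7) (x y : ℤ)
    (hx : (p : ℤ) ∣ x ^ 2 + y ^ 2) : (p : ℤ) ∣ x ∧ (p : ℤ) ∣ y := by
  have : Fact p.Prime := ⟨hp⟩
  have hns : ¬ IsSquare (-1 : ZMod p) := by
    rw [ZMod.exists_sq_eq_neg_one_iff]
    omega
  have hz : ((x : ZMod p)) ^ 2 + (y : ZMod p) ^ 2 = 0 := by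
    have := (ZMod.intCast_zmod_eq_zero_iff_dvd (x ^ 2 + y ^ 2) p).2 hx
    push_cast at this
    exact this
  have hy : (y : ZMod p) = 0 := by
    by_contra hy0
    apply hns
    refine ⟨(x : ZMod p) / (y : ZMod p), ?_⟩
    field_simp
    linear_combination -hz
  have hx0 : (x : ZMod p) = 0 := by
    rw [hy] at hz
    have : (x : ZMod p) ^ 2 = 0 := by simpa using hz
    exact pow_eq_zero_iff (two_ne_zero) |>.1 this
  exact ⟨(ZMod.intCast_zmod_eq_zero_iff_dvd x p).1 hx0, (ZMod.intCast_zmod_eq_zero_iff_dvd y p).1 hy⟩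

private theorem ns_three : ¬ IsSquare ((3 : ℕ) : ZMod 5) := by decide

private theorem ns_two : ¬ IsSquare ((2 : ℕ) : ZMod 5) := by decide

theorem fam_ns5 {p : ℕ} (hp : p.Prime) (h : p % 20 = 3 ∨ p % 20 = 7) (x y : ℤ)
    (hx : (p : ℤ) ∣ x ^ 2 - 5 * y ^ 2) : (p : ℤ) ∣ x ∧ (p : ℤ) ∣ y := by
  have : Fact p.Prime := ⟨hp⟩
  have : Fact (Nat.Prime 5) := ⟨by norm_num⟩
  have hns : ¬ IsSquare ((5 : ℕ) : ZMod p) := by
    rw [← ZMod.exists_sq_eq_prime_iff_of_mod_four_eq_one (p := 5) (q := p) (by norm_num) (by omega)]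
    have h5 : p % 5 = 3 ∨ p % 5 = 2 := by omega
    have h6 : ((p : ℕ) : ZMod 5) = ((p % 5 : ℕ) : ZMod 5) := by
      rw [ZMod.natCast_mod]
    rw [h6]
    rcases h5 with h5 | h5
    · rw [h5]; exact ns_three
    · rw [h5]; exact ns_two
  have hz : ((x : ZMod p)) ^ 2 - 5 * (y : ZMod p) ^ 2 = 0 := by
    have := (ZMod.intCast_zmod_eq_zero_iff_dvd (x ^ 2 - 5 * y ^ 2) p).2 hx
    push_cast at this
    exact this
  have hy : (y : ZMod p) = 0 := by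
    by_contra hy0
    apply hns
    refine ⟨(x : ZMod p) / (y : ZMod p), ?_⟩
    push_cast
    field_simp
    linear_combination -hz
  have hx0 : (x : ZMod p) = 0 := by
    rw [hy] at hz
    have : (x : ZMod p) ^ 2 = 0 := by simpa using hz
    exact pow_eq_zero_iff (two_ne_zero) |>.1 this
  exact ⟨(ZMod.intCast_zmod_eq_zero_iff_dvd x p).1 hx0, (ZMod.intCast_zmod_eq_zero_iff_dvd y p).1 hy⟩

/-- The local obstruction at a prime dividing `d` and `c`. -/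
theorem fam_excl {p : ℕ} (hp : p.Prime) {a b c d b' r s w : ℤ} (hpc : (p : ℤ) ∣ c)
    (hpc2 : ¬ (p : ℤ) ^ 2 ∣ c) (hpd : (p : ℤ) ∣ d) (hpd2 : ¬ (p : ℤ) ^ 2 ∣ d)
    (hdb : b * c ^ 2 = d * b') (hs : IsCoprime (d * r ^ 2) s)
    (hw : w ^ 2 = d * r ^ 4 + (a * c) * r ^ 2 * s ^ 2 + b' * s ^ 4)
    (hns : ∀ x y : ℤ, (p : ℤ) ∣ x ^ 2 - (a ^ 2 - 4 * b) * y ^ 2 → (p : ℤ) ∣ y) : False := by
  have hP : Prime (p : ℤ) := Nat.prime_iff_prime_int.1 hp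
  have hp0 : (p : ℤ) ≠ 0 := hP.ne_zero
  obtain ⟨c1, rfl⟩ := hpc
  obtain ⟨d1, rfl⟩ := hpd
  have hc1 : ¬ (p : ℤ) ∣ c1 := fun hh => hpc2 (by
    obtain ⟨k, rfl⟩ := hh
    exact ⟨k, by ring⟩)
  have hd1 : ¬ (p : ℤ) ∣ d1 := fun hh => hpd2 (by
    obtain ⟨k, rfl⟩ := hh
    exact ⟨k, by ring⟩)
  -- d1 b' = p b c1^2
  have h1 : d1 * b' = p * (b * c1 ^ 2) := by
    apply mul_left_cancel₀ hp0
    linear_combination -hdb
  have hb' : (p : ℤ) ∣ b' := by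
    have : (p : ℤ) ∣ d1 * b' := ⟨_, h1⟩
    exact (hP.dvd_or_dvd this).resolve_left hd1
  obtain ⟨b1, rfl⟩ := hb'
  have h2 : d1 * b1 = b * c1 ^ 2 := by
    apply mul_left_cancel₀ hp0
    linear_combination h1
  have hwp : (p : ℤ) ∣ w := by
    have : (p : ℤ) ∣ w ^ 2 := ⟨d1 * r ^ 4 + a * c1 * r ^ 2 * s ^ 2 + b1 * s ^ 4, by rw [hw]; ring⟩
    exact hP.dvd_of_dvd_pow this
  obtain ⟨w1, rfl⟩ := hwp
  have h3 : d1 * r ^ 4 + a * c1 * r ^ 2 * s ^ 2 + b1 * s ^ 4 = p * w1 ^ 2 := by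
    apply mul_left_cancel₀ hp0
    linear_combination -hw
  have h4 : (p : ℤ) ∣ (2 * d1 * r ^ 2 + a * c1 * s ^ 2) ^ 2 - (a ^ 2 - 4 * b) * (c1 * s ^ 2) ^ 2 := by
    refine ⟨4 * d1 * w1 ^ 2, ?_⟩
    linear_combination 4 * d1 * h3 - 4 * s ^ 4 * h2
  have h5 := hns _ _ h4
  rcases hP.dvd_or_dvd h5 with h6 | h6
  · exact hc1 h6
  · have h7 : (p : ℤ) ∣ s := hP.dvd_of_dvd_pow h6
    have h8 : (p : ℤ) ∣ (p : ℤ) * d1 * r ^ 2 := ⟨d1 * r ^ 2, by ring⟩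
    have := hs.isUnit_of_dvd' h8 h7
    exact hP.not_isUnit this

end SD87
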