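import Pool.Agent.Lib.MP_87c685_nt_SD.Quad

/-!
# Imaginary quadratic fields as quadratic extensions of the rationals
-/

set_option autoImplicit false

namespace SD87

open NumberField

theorem glue_root (K : Type*) [Field K] [NumberField K]
    (h2 : Module.finrank ℚ K = 2) : ∃ (t : K) (r : ℚ), t ^ 2 = (r : K) ∧
      ∀ q : ℚ, t ≠ (q : K) := by
  have hx : ∃ x : K, x ∉ (algebraMap ℚ K).range := by
    by_contra h
    push Not at h
    have h1 : (⊥ : Subalgebra ℚ K) = ⊤ := by
      rw [eq_top_iff]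
      intro x _
      exact Algebra.mem_bot.2 (h x)
    have h3 := Subalgebra.bot_eq_top_iff_finrank_eq_one.1 h1
    omega
  obtain ⟨x, hx⟩ := hx
  have hint : IsIntegral ℚ x := Algebra.IsIntegral.isIntegral x
  have hd : (minpoly ℚ x).natDegree ∣ 2 := by
    have := minpoly.degree_dvd hint
    rwa [h2] at this
  have hd1 : (minpoly ℚ x).natDegree ≠ 1 := fun h => hx (minpoly.natDegree_eq_one_iff.1 h)
  have hd2 : (minpoly ℚ x).natDegree = 2 := by
    have := (Nat.dvd_prime Nat.prime_two).1 hd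
    tauto
  have hm := minpoly.aeval ℚ x
  rw [Polynomial.aeval_eq_sum_range, hd2] at hm
  have hc : (minpoly ℚ x).coeff 2 = 1 := by
    have := minpoly.monic hint
    rw [Polynomial.Monic, Polynomial.leadingCoeff, hd2] at this
    exact this
  simp only [Finset.sum_range_succ, Finset.range_zero, Finset.sum_empty, zero_add, pow_zero,
    pow_one, hc, one_smul] at hm
  set b := (minpoly ℚ x).coeff 0 with hb
  set a := (minpoly ℚ x).coeff 1 with ha
  have hm' : (b : K) + (a : K) * x + x ^ 2 = 0 := by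
    have e1 : b • (1 : K) = (b : K) := by
      rw [Algebra.smul_def, mul_one]; rfl
    have e2 : a • x = (a : K) * x := by
      rw [Algebra.smul_def]; rfl
    rw [e1, e2] at hm
    exact hm
  refine ⟨x + ((a / 2 : ℚ) : K), a ^ 2 / 4 - b, ?_, ?_⟩
  · push_cast
    have : x ^ 2 = -(b : K) - (a : K) * x := by linear_combination hm'
    ring_nf
    rw [this]
    ring
  · intro q hq
    apply hx
    refine ⟨q - a / 2, ?_⟩
    have : x = (q : K) - ((a / 2 : ℚ) : K) := by rw [← hq]; ring
    rw [this]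
    simp [map_sub, map_div₀]

theorem glue_span (K : Type*) [Field K] [NumberField K]
    (h2 : Module.finrank ℚ K = 2) (s : K) (hs : ∀ q : ℚ, s ≠ (q : K)) (y : K) :
    ∃ a b : ℚ, y = (a : K) + (b : K) * s := by
  have hli : LinearIndependent ℚ ![(1 : K), s] := by
    rw [LinearIndependent.pair_iff]
    intro u v huv
    have huv' : (u : K) + (v : K) * s = 0 := by
      have e1 : u • (1 : K) = (u : K) := by rw [Algebra.smul_def, mul_one]; rfl
      have e2 : v • s = (v : K) * s := by rw [Algebra.smul_def]; rfl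
      rw [e1, e2] at huv
      exact huv
    by_cases hv : v = 0
    · subst hv
      refine ⟨?_, rfl⟩
      simpa using huv'
    · exfalso
      have hvK : (v : K) ≠ 0 := by exact_mod_cast hv
      apply hs (-u / v)
      push_cast
      rw [eq_div_iff hvK]
      linear_combination huv'
  have htop := hli.span_eq_top_of_card_eq_finrank (by rw [h2]; simp)
  have hy : y ∈ Submodule.span ℚ (Set.range ![(1 : K), s]) := by rw [htop]; trivial
  simp only [Matrix.range_cons, Matrix.range_empty, Set.union_empty, Set.singleton_union] at hy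
  obtain ⟨a, b, hab⟩ := Submodule.mem_span_pair.1 hy
  refine ⟨a, b, ?_⟩
  rw [← hab]
  have e1 : a • (1 : K) = (a : K) := by rw [Algebra.smul_def, mul_one]; rfl
  have e2 : b • s = (b : K) * s := by rw [Algebra.smul_def]; rfl
  rw [e1, e2]

theorem glue_neg (K : Type*) [Field K] [NumberField K] [IsTotallyComplex K]
    (h2 : Module.finrank ℚ K = 2) (d : ℚ) (s : K) (hs2 : s ^ 2 = (d : K))
    (hs : ∀ q : ℚ, s ≠ (q : K)) : d < 0 := by
  by_contra hd
  push Not at hd
  obtain ⟨φ⟩ : Nonempty (K →+* ℂ) := inferInstance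
  have hφs : (starRingEnd ℂ) (φ s) = φ s := by
    have h3 : (φ s) ^ 2 = ((d : ℝ) : ℂ) := by
      rw [← map_pow, hs2]; simp
    have h4 : (φ s) ^ 2 = ((Real.sqrt d : ℝ) : ℂ) ^ 2 := by
      rw [h3, ← Complex.ofReal_pow, Real.sq_sqrt (by exact_mod_cast hd)]
    rcases sq_eq_sq_iff_eq_or_eq_neg.1 h4 with h | h
    · rw [h, Complex.conj_ofReal]
    · rw [h, map_neg, Complex.conj_ofReal]
  have hreal : ComplexEmbedding.IsReal φ := by
    rw [ComplexEmbedding.isReal_iff]
    ext y
    obtain ⟨a, b, rfl⟩ := glue_span K h2 s hs y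
    rw [ComplexEmbedding.conjugate_coe_eq]
    simp only [map_add, map_mul, map_ratCast, hφs]
  have h5 : (InfinitePlace.mk φ).IsReal := ⟨φ, hreal, rfl⟩
  have h6 : (InfinitePlace.mk φ).IsComplex := IsTotallyComplex.isComplex _
  exact (InfinitePlace.not_isReal_iff_isComplex.2 h6) h5

/-- An imaginary quadratic field. -/
theorem exists_qf (K : Type*) [Field K] [NumberField K] [IsTotallyComplex K]
    (h2 : Module.finrank ℚ K = 2) : ∃ Q : QF ℚ K, Q.n < 0 := by
  obtain ⟨s, r, hs, hirr⟩ := glue_root K h2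
  refine ⟨⟨s, r, by rw [hs, eq_ratCast], fun q => by rw [eq_ratCast]; exact hirr q,
    fun x => ?_⟩, glue_neg K h2 r s hs hirr⟩
  obtain ⟨a, b, h⟩ := glue_span K h2 s hirr x
  exact ⟨a, b, by rw [eq_ratCast, eq_ratCast]; exact h⟩

/-- The conjugation as an automorphism. -/
theorem exists_aut {K : Type*} [Field K] [CharZero K] [Algebra ℚ K] (Q : QF ℚ K) :
    ∃ σ : K ≃ₐ[ℚ] K, σ ≠ 1 ∧ ∀ x : K, σ x = Q.sig x := by
  have e : ∀ x : K, Q.sig (Q.sig x) = x := Q.sig_sig
  refine ⟨AlgEquiv.ofRingEquiv (f := RingEquiv.ofRingHom Q.sig Q.sig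
    (RingHom.ext fun x => e x) (RingHom.ext fun x => e x)) (fun q => Q.sig_base q), ?_,
    fun x => rfl⟩
  intro h
  have h1 : Q.sig Q.s = Q.s := congrArg (fun f : K ≃ₐ[ℚ] K => f Q.s) h
  obtain ⟨q, hq⟩ := Q.base_of_sig h1
  exact Q.irr q hq

end SD87
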