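import Mathlib

/-!
# From Weierstrass curves to the invariants
-/

set_option autoImplicit false

namespace SD87

variable {K : Type*} [Field K] [CharZero K]

omit [CharZero K] in
theorem j_mul_disc (E : WeierstrassCurve K) [E.IsElliptic] : E.j * E.Δ = E.c₄ ^ 3 := by
  rw [WeierstrassCurve.j, ← WeierstrassCurve.coe_Δ']
  rw [mul_right_comm, Units.inv_mul, one_mul]

/-- A point of order two gives a point of `X_0(2)`. -/
theorem model_two (E : WeierstrassCurve K) [E.IsElliptic] {x : K}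
    (hx : 4 * x ^ 3 + E.b₂ * x ^ 2 + 2 * E.b₄ * x + E.b₆ = 0) :
    ∃ h : K, h ≠ 0 ∧ E.j * h = (h + 16) ^ 3 := by
  have hΔ : E.Δ ≠ 0 := E.isUnit_Δ.ne_zero
  have hj := j_mul_disc E
  have hb8 : 4 * E.b₈ = E.b₂ * E.b₆ - E.b₄ ^ 2 := E.b_relation
  have hb6 : E.b₆ = -(4 * x ^ 3 + E.b₂ * x ^ 2 + 2 * E.b₄ * x) := by linear_combination hx
  obtain ⟨A, hA⟩ : ∃ A : K, A = E.b₂ + 12 * x := ⟨_, rfl⟩
  obtain ⟨B, hB⟩ : ∃ B : K, B = 6 * x ^ 2 + E.b₂ * x + E.b₄ := ⟨_, rfl⟩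
  have h4 : 4 * E.Δ = B ^ 2 * (A ^ 2 - 32 * B) := by
    rw [WeierstrassCurve.Δ, hA, hB]
    rw [hb6] at hb8 ⊢
    linear_combination -E.b₂ ^ 2 * hb8
  have hc : E.c₄ = A ^ 2 - 24 * B := by
    rw [WeierstrassCurve.c₄, hA, hB]
    ring
  have h4Δ : 4 * E.Δ ≠ 0 := mul_ne_zero (by norm_num) hΔ
  have hB0 : B ≠ 0 := by
    rintro h0
    rw [h0] at h4
    exact h4Δ (by rw [h4]; ring)
  have hAB : A ^ 2 - 32 * B ≠ 0 := by
    rintro h0
    rw [h0] at h4
    exact h4Δ (by rw [h4]; ring)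
  refine ⟨2 * (A ^ 2 - 32 * B) / B, div_ne_zero (mul_ne_zero two_ne_zero hAB) hB0, ?_⟩
  have e1 : 2 * (A ^ 2 - 32 * B) / B + 16 = 2 * E.c₄ / B := by
    rw [hc]
    field_simp
    ring
  rw [e1]
  have e2 : A ^ 2 - 32 * B = 4 * E.Δ / B ^ 2 := by
    rw [h4]
    field_simp
  rw [e2]
  field_simp
  linear_combination 4 * hj

omit [CharZero K] in
open Classical in
/-- The `x`-coordinate of a point of order two. -/
theorem root_of_point (E : WeierstrassCurve K) (P : E.toAffine.Point) (hP : P ≠ 0)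
    (h2 : P + P = 0) : ∃ x : K, 4 * x ^ 3 + E.b₂ * x ^ 2 + 2 * E.b₄ * x + E.b₆ = 0 := by
  rcases P with _ | ⟨x, y, h⟩
  · exact absurd rfl hP
  refine ⟨x, ?_⟩
  have h3 : WeierstrassCurve.Affine.Point.some x y h =
      -WeierstrassCurve.Affine.Point.some x y h := eq_neg_of_add_eq_zero_left h2
  rw [WeierstrassCurve.Affine.Point.neg_some] at h3
  have h4 : y = E.toAffine.negY x y := by
    injection h3
  have h5 : y = -y - E.a₁ * x - E.a₃ := h4
  have h6 := (WeierstrassCurve.Affine.equation_iff (W := E.toAffine) x y).mp h.1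
  rw [WeierstrassCurve.b₂, WeierstrassCurve.b₄, WeierstrassCurve.b₆]
  have h7 : 2 * y + E.a₁ * x + E.a₃ = 0 := by linear_combination h5
  linear_combination -4 * h6 + (2 * y + E.a₁ * x + E.a₃) * h7

omit [CharZero K] in
/-- A square discriminant. -/
theorem model_disc (E : WeierstrassCurve K) [E.IsElliptic] {c d : K} (hc : c ≠ 0)
    (hd : c * E.Δ = d ^ 2) : ∃ w : K, c * w ^ 2 = E.j - 1728 := by
  have hΔ : E.Δ ≠ 0 := E.isUnit_Δ.ne_zero
  have hj := j_mul_disc E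
  have h1 := E.c_relation
  have h2 : (E.j - 1728) * E.Δ = E.c₆ ^ 2 := by linear_combination hj - h1
  refine ⟨E.c₆ * d / (c * E.Δ), ?_⟩
  have h3 : E.j - 1728 = E.c₆ ^ 2 / E.Δ := by rw [← h2]; field_simp
  rw [h3, div_pow, mul_pow, ← hd]
  field_simp

end SD87
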