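import Pool.Agent.Lib.MP_87c685_nt_SD.Defs

/-!
# Conjugate points on the first curve
-/

set_option autoImplicit false

namespace SD87

variable {F K : Type*} [Field F] [Field K] [Algebra F K] [CharZero F] [CharZero K] (Q : QF F K)

omit [CharZero F] [CharZero K] in
/-- The norm of the Hauptmodul at a point on a line over the base field. -/
private theorem hnorm {X v h : K} {μ c T N : F} (hv : v = algebraMap F K μ * X + algebraMap F K c)
    (hh : h = hC X v) (hT : X + Q.sig X = algebraMap F K T) (hN : X * Q.sig X = algebraMap F K N)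
    (hX : X ^ 2 = algebraMap F K T * X - algebraMap F K N) :
    h * Q.sig h = algebraMap F K (((μ + 1) * T + c + μ + 2) ^ 2 * N +
      ((μ + 1) * T + c + μ + 2) * (c - (μ + 1) * N) * T + (c - (μ + 1) * N) ^ 2) := by
  have e1 : h = algebraMap F K ((μ + 1) * T + c + μ + 2) * X +
      algebraMap F K (c - (μ + 1) * N) := by
    rw [hh, hv]
    unfold hC
    simp only [map_add, map_mul, map_sub, map_ofNat, map_one]
    linear_combination (algebraMap F K μ + 1) * hX
  have e2 : Q.sig h = algebraMap F K ((μ + 1) * T + c + μ + 2) * Q.sig X +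
      algebraMap F K (c - (μ + 1) * N) := by
    rw [e1, map_add, map_mul, Q.sig_base, Q.sig_base]
  rw [e2, e1]
  simp only [map_add, map_mul, map_sub, map_ofNat, map_one, map_pow]
  linear_combination (((algebraMap F K μ + 1) * algebraMap F K T + algebraMap F K c +
    algebraMap F K μ + 2) ^ 2) * hN + (((algebraMap F K μ + 1) * algebraMap F K T +
    algebraMap F K c + algebraMap F K μ + 2) * (algebraMap F K c -
    (algebraMap F K μ + 1) * algebraMap F K N)) * hT

/-- The points of the first curve over a quadratic extension of a field over which it has only the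
five obvious points. -/
theorem pencilC (hF : ∀ X y : F, y ^ 2 = 4 * X ^ 3 + 17 * X ^ 2 + 112 * X + 64 → X = 0 ∨ X = 8)
    {X v h : K} (h1 : OnC X v) (hh : h = hC X v) :
    (∃ q : F, h = algebraMap F K q) ∨ h * Q.sig h = 4096 ∨
    (∃ X₀ : F, X = algebraMap F K X₀ ∧ Q.sig v = 3 * X + 8 - v ∧
      h * Q.sig h = -algebraMap F K X₀ ^ 5) ∨
    (∃ μ : F, (∀ q : F, X ≠ algebraMap F K q) ∧
      ((v = algebraMap F K μ * X - 16 - 8 * algebraMap F K μ ∧
        X ^ 2 = algebraMap F K (μ ^ 2 - 3 * μ - 10) * X - algebraMap F K (8 * (μ ^ 2 + 5 * μ + 6)) ∧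
        X + Q.sig X = algebraMap F K (μ ^ 2 - 3 * μ - 10) ∧
        h * Q.sig h = 512 * algebraMap F K (μ + 2) ^ 5) ∨
      (v = algebraMap F K μ * X + 48 - 8 * algebraMap F K μ ∧
        X ^ 2 = algebraMap F K (μ ^ 2 - 3 * μ - 10) * X - algebraMap F K (8 * (μ ^ 2 - 11 * μ + 30)) ∧
        X + Q.sig X = algebraMap F K (μ ^ 2 - 3 * μ - 10) ∧
        h * Q.sig h = -64 * algebraMap F K (μ - 6) ^ 5) ∨
      (v = algebraMap F K μ * X ∧
        X ^ 2 = algebraMap F K (μ ^ 2 - 3 * μ - 2) * X - algebraMap F K (8 * (μ + 2)) ∧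
        X + Q.sig X = algebraMap F K (μ ^ 2 - 3 * μ - 2) ∧
        h * Q.sig h = 8 * algebraMap F K (μ + 2) ^ 5))) := by
  have h1' : v ^ 2 - 3 * X * v - 8 * v = X ^ 3 + 2 * X ^ 2 + 16 * X := h1
  have hy : (2 * v - 3 * X - 8) ^ 2 = algebraMap F K 4 * X ^ 3 + algebraMap F K 17 * X ^ 2 +
      algebraMap F K 112 * X + algebraMap F K 64 := by
    simp only [map_ofNat]
    linear_combination 4 * h1'
  by_cases hX : ∃ q : F, X = algebraMap F K q
  · obtain ⟨X₀, hX0⟩ := hX
    have hsX : Q.sig X = X := Q.sig_of_base ⟨X₀, hX0⟩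
    have hy2 : (2 * v - 3 * X - 8) ^ 2 =
        algebraMap F K (4 * X₀ ^ 3 + 17 * X₀ ^ 2 + 112 * X₀ + 64) := by
      rw [hy, hX0]
      simp only [map_add, map_mul, map_pow, map_ofNat]
    have h2 : Q.sig (2 * v - 3 * X - 8) = 2 * Q.sig v - 3 * X - 8 := by
      simp only [map_sub, map_mul, map_ofNat, hsX]
    rcases Q.sig_of_sq hy2 with h3 | h3
    · left
      rw [h2] at h3
      have h4 : Q.sig v = v := by
        have : (2 : K) * Q.sig v = 2 * v := by linear_combination h3
        exact mul_left_cancel₀ two_ne_zero this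
      apply Q.base_of_sig
      rw [hh]
      unfold hC
      simp only [map_add, map_mul, map_one, map_ofNat, hsX, h4]
    · right; right; left
      rw [h2] at h3
      have h4 : Q.sig v = 3 * X + 8 - v := by
        have : (2 : K) * Q.sig v = 2 * (3 * X + 8 - v) := by linear_combination h3
        exact mul_left_cancel₀ two_ne_zero this
      refine ⟨X₀, hX0, h4, ?_⟩
      rw [← hX0, hh]
      unfold hC
      simp only [map_add, map_mul, map_one, map_ofNat, hsX, h4]
      linear_combination -(X + 1) ^ 2 * h1'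
  · push Not at hX
    obtain ⟨μ', ν', X₃, T, N, hyl, hc3, hT, hN, hX2, e1, e2, e3⟩ :=
      Q.third 4 17 112 64 (by norm_num) hX hy
    have h3 := hF X₃ (μ' * X₃ + ν') hc3
    obtain ⟨μ, hμ⟩ : ∃ μ : F, μ' = 2 * μ - 3 := ⟨(μ' + 3) / 2, by ring⟩
    have hμK : algebraMap F K μ' = 2 * algebraMap F K μ - 3 := by
      rw [hμ, map_sub, map_mul, map_ofNat, map_ofNat]
    have hTe : T = μ ^ 2 - 3 * μ - 2 - X₃ := by
      have : (4 : F) * T = 4 * (μ ^ 2 - 3 * μ - 2 - X₃) := by
        rw [hμ] at e1
        linear_combination e1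
      exact mul_left_cancel₀ (by norm_num) this
    rcases h3 with h3 | h3
    · -- third point `X = 0`
      subst h3
      have h4 : ν' ^ 2 = 8 ^ 2 := by linear_combination -e3
      have h5 : 4 * N = 112 - 2 * μ' * ν' := by linear_combination e2
      rcases sq_eq_sq_iff_eq_or_eq_neg.mp h4 with h6 | h6
      · right; left
        have hv : v = algebraMap F K μ * X + algebraMap F K 8 := by
          have : (2 : K) * v = 2 * (algebraMap F K μ * X + algebraMap F K 8) := by
            rw [h6] at hyl
            simp only [map_ofNat] at hyl ⊢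
            linear_combination hyl + X * hμK
          exact mul_left_cancel₀ two_ne_zero this
        have hNe : N = 40 - 8 * μ := by
          have : (4 : F) * N = 4 * (40 - 8 * μ) := by
            rw [h6, hμ] at h5
            linear_combination h5
          exact mul_left_cancel₀ (by norm_num) this
        rw [hnorm Q hv hh hT hN hX2, hTe, hNe]
        have h7 : ((μ + 1) * (μ ^ 2 - 3 * μ - 2 - 0) + 8 + μ + 2) ^ 2 * (40 - 8 * μ) +
            ((μ + 1) * (μ ^ 2 - 3 * μ - 2 - 0) + 8 + μ + 2) * (8 - (μ + 1) * (40 - 8 * μ)) *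
            (μ ^ 2 - 3 * μ - 2 - 0) + (8 - (μ + 1) * (40 - 8 * μ)) ^ 2 = (4096 : F) := by
          ring
        rw [h7, map_ofNat]
      · right; right; right
        have hv : v = algebraMap F K μ * X + algebraMap F K 0 := by
          have : (2 : K) * v = 2 * (algebraMap F K μ * X + algebraMap F K 0) := by
            rw [h6] at hyl
            simp only [map_ofNat, map_neg, map_zero] at hyl ⊢
            linear_combination hyl + X * hμK
          exact mul_left_cancel₀ two_ne_zero this
        have hNe : N = 8 * (μ + 2) := by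
          have : (4 : F) * N = 4 * (8 * (μ + 2)) := by
            rw [h6, hμ] at h5
            linear_combination h5
          exact mul_left_cancel₀ (by norm_num) this
        have hTe' : T = μ ^ 2 - 3 * μ - 2 := by rw [hTe]; ring
        refine ⟨μ, hX, Or.inr (Or.inr ⟨?_, ?_, ?_, ?_⟩)⟩
        · rw [hv, map_zero, add_zero]
        · rw [← hTe', ← hNe]; exact hX2
        · rw [← hTe']; exact hT
        · rw [hnorm Q hv hh hT hN hX2, hTe', hNe]
          have h7 : ((μ + 1) * (μ ^ 2 - 3 * μ - 2) + 0 + μ + 2) ^ 2 * (8 * (μ + 2)) +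
              ((μ + 1) * (μ ^ 2 - 3 * μ - 2) + 0 + μ + 2) * (0 - (μ + 1) * (8 * (μ + 2))) *
              (μ ^ 2 - 3 * μ - 2) + (0 - (μ + 1) * (8 * (μ + 2))) ^ 2 = 8 * (μ + 2) ^ 5 := by
            ring
          rw [h7, map_mul, map_pow, map_ofNat]
    · -- third point `X = 8`
      subst h3
      have h4 : (μ' * 8 + ν') ^ 2 = 64 ^ 2 := by linear_combination hc3
      have h5 : 4 * N = 112 - 2 * μ' * ν' - 32 * T := by linear_combination e2
      have hTe' : T = μ ^ 2 - 3 * μ - 10 := by rw [hTe]; ring
      rcases sq_eq_sq_iff_eq_or_eq_neg.mp h4 with h6 | h6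
      · right; right; right
        have h6' : ν' = 64 - 8 * μ' := by linear_combination h6
        have hv : v = algebraMap F K μ * X + algebraMap F K (48 - 8 * μ) := by
          have : (2 : K) * v = 2 * (algebraMap F K μ * X + algebraMap F K (48 - 8 * μ)) := by
            rw [h6'] at hyl
            simp only [map_ofNat, map_sub, map_mul] at hyl ⊢
            linear_combination hyl + (X - 8) * hμK
          exact mul_left_cancel₀ two_ne_zero this
        have hNe : N = 8 * (μ ^ 2 - 11 * μ + 30) := by
          have : (4 : F) * N = 4 * (8 * (μ ^ 2 - 11 * μ + 30)) := by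
            rw [h6', hμ, hTe'] at h5
            linear_combination h5
          exact mul_left_cancel₀ (by norm_num) this
        refine ⟨μ, hX, Or.inr (Or.inl ⟨?_, ?_, ?_, ?_⟩)⟩
        · rw [hv]
          simp only [map_ofNat, map_sub, map_mul]
          ring
        · rw [← hTe', ← hNe]; exact hX2
        · rw [← hTe']; exact hT
        · rw [hnorm Q hv hh hT hN hX2, hTe', hNe]
          have h7 : ((μ + 1) * (μ ^ 2 - 3 * μ - 10) + (48 - 8 * μ) + μ + 2) ^ 2 *
              (8 * (μ ^ 2 - 11 * μ + 30)) +
              ((μ + 1) * (μ ^ 2 - 3 * μ - 10) + (48 - 8 * μ) + μ + 2) *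
              ((48 - 8 * μ) - (μ + 1) * (8 * (μ ^ 2 - 11 * μ + 30))) *
              (μ ^ 2 - 3 * μ - 10) +
              ((48 - 8 * μ) - (μ + 1) * (8 * (μ ^ 2 - 11 * μ + 30))) ^ 2 =
              -64 * (μ - 6) ^ 5 := by
            ring
          rw [h7, map_mul, map_pow, map_neg, map_ofNat]
      · right; right; right
        have h6' : ν' = -64 - 8 * μ' := by linear_combination h6
        have hv : v = algebraMap F K μ * X + algebraMap F K (-16 - 8 * μ) := by
          have : (2 : K) * v = 2 * (algebraMap F K μ * X + algebraMap F K (-16 - 8 * μ)) := by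
            rw [h6'] at hyl
            simp only [map_ofNat, map_sub, map_mul, map_neg] at hyl ⊢
            linear_combination hyl + (X - 8) * hμK
          exact mul_left_cancel₀ two_ne_zero this
        have hNe : N = 8 * (μ ^ 2 + 5 * μ + 6) := by
          have : (4 : F) * N = 4 * (8 * (μ ^ 2 + 5 * μ + 6)) := by
            rw [h6', hμ, hTe'] at h5
            linear_combination h5
          exact mul_left_cancel₀ (by norm_num) this
        refine ⟨μ, hX, Or.inl ⟨?_, ?_, ?_, ?_⟩⟩
        · rw [hv]
          simp only [map_ofNat, map_sub, map_mul, map_neg]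
          ring
        · rw [← hTe', ← hNe]; exact hX2
        · rw [← hTe']; exact hT
        · rw [hnorm Q hv hh hT hN hX2, hTe', hNe]
          have h7 : ((μ + 1) * (μ ^ 2 - 3 * μ - 10) + (-16 - 8 * μ) + μ + 2) ^ 2 *
              (8 * (μ ^ 2 + 5 * μ + 6)) +
              ((μ + 1) * (μ ^ 2 - 3 * μ - 10) + (-16 - 8 * μ) + μ + 2) *
              ((-16 - 8 * μ) - (μ + 1) * (8 * (μ ^ 2 + 5 * μ + 6))) *
              (μ ^ 2 - 3 * μ - 10) +
              ((-16 - 8 * μ) - (μ + 1) * (8 * (μ ^ 2 + 5 * μ + 6))) ^ 2 =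
              512 * (μ + 2) ^ 5 := by
            ring
          rw [h7, map_mul, map_pow, map_ofNat]

end SD87
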