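import Pool.Agent.Lib.MP_87c685_nt_SD.Curves

/-!
# Rational points

The descent put together; the rational points of the curves used for the square discriminant
theorem.
-/

set_option autoImplicit false

namespace SD87

/-- The descent in general: the points up to the class of the two-torsion point. -/
theorem points_of (a b : ℤ) (L : List (ℕ × ℕ)) (hb : b ≠ 0) (hd : a ^ 2 - 4 * b ≠ 0)
    (H1 : Cls a b) (H2 : Cls (-2 * a) (a ^ 2 - 4 * b))
    (hab : a ^ 2 < 4 * b ∨ (b < 0 ∧ 1 + |a| + b < 0)) (hchk : chk a b L = true)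
    (cl : ∀ r r₁ w₁ : ℚ, (∃ p ∈ L, r₁ ^ 2 = (p.1 / p.2) ^ 2) →
      w₁ ^ 2 = r₁ ^ 4 + a * r₁ ^ 2 + b → r₁ ≠ 0 → w₁ ≠ 0 →
      r * (2 * r₁ * w₁) = r₁ ^ 4 - b → ∃ p ∈ L, r ^ 2 = (p.1 / p.2) ^ 2)
    (x y : ℚ) (h : y ^ 2 = x * (x ^ 2 + a * x + b)) (hx : x ≠ 0) :
    ∃ p ∈ L, x = (p.1 / p.2) ^ 2 ∨ (b : ℚ) / x = (p.1 / p.2) ^ 2 := by
  have hbq : (b : ℚ) ≠ 0 := by exact_mod_cast hb
  have hdq : (a : ℚ) ^ 2 - 4 * (b : ℚ) ≠ 0 := by exact_mod_cast hd
  have main : ∀ r w : ℚ, w ^ 2 = r ^ 4 + a * r ^ 2 + b → ∃ p ∈ L, r ^ 2 = (p.1 / p.2) ^ 2 := by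
    intro r w hrw
    refine descent a b (fun r => ∃ p ∈ L, r ^ 2 = (p.1 / p.2) ^ 2) ?_ ?_ cl r w hrw
    · intro r w h
      refine halve (a : ℚ) (b : ℚ) hbq hdq H1 ?_ r w h
      intro x y hxy hx0
      have h1 := H2 x y (by push_cast; rw [hxy]) hx0
      push_cast at h1
      exact h1
    · intro u e W h1 h2 h3 h4 h5 h6
      refine ⟨_, chk_spec a b L hb hchk hab u e W h1 h2 h3 h4 h5 h6, ?_⟩
      have h7 : ((u.natAbs : ℚ)) = |(u : ℚ)| := by
        rw [Nat.cast_natAbs]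
        push_cast
        rfl
      have h8 : ((e.natAbs : ℚ)) = |(e : ℚ)| := by
        rw [Nat.cast_natAbs]
        push_cast
        rfl
      rw [h7, h8, div_pow, div_pow, sq_abs, sq_abs]
  have hy : ∀ x y : ℚ, y ^ 2 = x * (x ^ 2 + a * x + b) → x ≠ 0 → IsSquare x →
      ∃ p ∈ L, x = (p.1 / p.2) ^ 2 := by
    rintro x y h hx ⟨r, hr⟩
    have hr0 : r ≠ 0 := by
      rintro rfl
      exact hx (by rw [hr]; ring)
    obtain ⟨p, hp, h1⟩ := main r (y / r) (by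
      rw [div_pow, h, hr]
      field_simp)
    exact ⟨p, hp, by rw [hr, ← h1]; ring⟩
  rcases H1 x y h hx with h1 | h1
  · obtain ⟨p, hp, h2⟩ := hy x y h hx h1
    exact ⟨p, hp, Or.inl h2⟩
  · have hbx : (b : ℚ) / x ≠ 0 := div_ne_zero hbq hx
    have h2 : IsSquare ((b : ℚ) / x) := by
      obtain ⟨k, hk⟩ := h1
      refine ⟨k / x, ?_⟩
      field_simp
      linear_combination hk
    obtain ⟨p, hp, h3⟩ := hy ((b : ℚ) / x) (b * y / x ^ 2) (by
      rw [div_pow, mul_pow, h]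
      field_simp
      ring) hbx h2
    exact ⟨p, hp, Or.inr h3⟩

/-- The descent when nothing is left. -/
theorem only_zero (a b : ℤ) (hb : b ≠ 0) (hd : a ^ 2 - 4 * b ≠ 0)
    (H1 : Cls a b) (H2 : Cls (-2 * a) (a ^ 2 - 4 * b))
    (hab : a ^ 2 < 4 * b ∨ (b < 0 ∧ 1 + |a| + b < 0)) (hchk : chk a b [] = true)
    (x y : ℚ) (h : y ^ 2 = x * (x ^ 2 + a * x + b)) : x = 0 := by
  by_contra hx
  obtain ⟨p, hp, -⟩ := points_of a b [] hb hd H1 H2 hab hchk (by
    rintro r r₁ w₁ ⟨p, hp, -⟩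
    exact absurd hp (by simp)) x y h hx
  exact absurd hp (by simp)

theorem P22 (a : ℤ) (ha : a = 22 ∨ a = -22) (x y : ℚ)
    (h : y ^ 2 = x * (x ^ 2 + a * x + (125 : ℤ))) : x = 0 := by
  have h1 : Cls a 125 := cls_pos5 a 125 3 (by norm_num) (by rcases ha with rfl | rfl <;> norm_num)
    (by norm_num) 25 (by norm_num)
  have h2 : Cls (-2 * a) (a ^ 2 - 4 * 125) := by
    have h3 : a ^ 2 - 4 * 125 = -16 := by rcases ha with rfl | rfl <;> norm_num
    rw [h3]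
    exact cls_44_16 _ (by rcases ha with rfl | rfl <;> norm_num)
  refine only_zero a 125 (by norm_num) (by rcases ha with rfl | rfl <;> norm_num) h1 h2
    (Or.inl (by rcases ha with rfl | rfl <;> norm_num)) ?_ x y h
  rcases ha with rfl | rfl <;> decide +kernel

theorem P110 (a : ℤ) (ha : a = 110 ∨ a = -110) (x y : ℚ)
    (h : y ^ 2 = x * (x ^ 2 + a * x + (3125 : ℤ))) : x = 0 := by
  have h1 : Cls a 3125 := cls_pos5 a 3125 5 (by norm_num)
    (by rcases ha with rfl | rfl <;> norm_num) (by norm_num) 125 (by norm_num)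
  have h2 : Cls (-2 * a) (a ^ 2 - 4 * 3125) := by
    have h3 : a ^ 2 - 4 * 3125 = -400 := by rcases ha with rfl | rfl <;> norm_num
    rw [h3]
    exact cls_220_400 _ (by rcases ha with rfl | rfl <;> norm_num)
  refine only_zero a 3125 (by norm_num) (by rcases ha with rfl | rfl <;> norm_num) h1 h2
    (Or.inl (by rcases ha with rfl | rfl <;> norm_num)) ?_ x y h
  rcases ha with rfl | rfl <;> decide +kernel

theorem P5 (a : ℤ) (ha : a = 5 ∨ a = -5) (x y : ℚ)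
    (h : y ^ 2 = x * (x ^ 2 + a * x + (-25 : ℤ))) : x = 0 := by
  have h1 : Cls a (-25) := cls_5_25 a ha
  have h2 : Cls (-2 * a) (a ^ 2 - 4 * -25) := by
    have h3 : a ^ 2 - 4 * -25 = 125 := by rcases ha with rfl | rfl <;> norm_num
    rw [h3]
    exact cls_pos5 _ 125 3 (by norm_num) (by rcases ha with rfl | rfl <;> norm_num)
      (by norm_num) 25 (by norm_num)
  refine only_zero a (-25) (by norm_num) (by rcases ha with rfl | rfl <;> norm_num) h1 h2
    (Or.inr (by rcases ha with rfl | rfl <;> norm_num)) ?_ x y h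
  rcases ha with rfl | rfl <;> decide +kernel

theorem P25 (x y : ℚ) (h : y ^ 2 = x * (x ^ 2 + (-25 : ℤ) * x + (-625 : ℤ))) : x = 0 := by
  have h1 : Cls (-25) (-625) := cls_25_625 (-25) (Or.inr rfl)
  have h2 : Cls (-2 * (-25)) ((-25) ^ 2 - 4 * -625) := by
    have h3 : ((-25) ^ 2 - 4 * -625 : ℤ) = 3125 := by norm_num
    rw [h3]
    exact cls_pos5 _ 3125 5 (by norm_num) (by norm_num) (by norm_num) 125 (by norm_num)
  refine only_zero (-25) (-625) (by norm_num) (by norm_num) h1 h2 (Or.inr (by norm_num)) ?_ x y h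
  decide +kernel

/-- The four twists. -/
def Tw (c : ℚ) : Prop := c = 1 ∨ c = -1 ∨ c = 5 ∨ c = -5

theorem E22 (c : ℚ) (hc : Tw c) (x y : ℚ) (h : c * y ^ 2 = x * (x ^ 2 + 22 * x + 125)) :
    x = 0 := by
  have h1 : (c ^ 2 * y) ^ 2 = (c * x) * ((c * x) ^ 2 + (22 * c) * (c * x) + 125 * c ^ 2) := by
    have h2 : (c ^ 2 * y) ^ 2 = c ^ 3 * (c * y ^ 2) := by ring
    rw [h2, h]
    ring
  have h2 : c * x = 0 := by
    rcases hc with rfl | rfl | rfl | rfl
    · exact P22 22 (Or.inl rfl) _ _ (by rw [h1]; push_cast; ring)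
    · exact P22 (-22) (Or.inr rfl) _ _ (by rw [h1]; push_cast; ring)
    · exact P110 110 (Or.inl rfl) _ _ (by rw [h1]; push_cast; ring)
    · exact P110 (-110) (Or.inr rfl) _ _ (by rw [h1]; push_cast; ring)
  have hc0 : c ≠ 0 := by rcases hc with rfl | rfl | rfl | rfl <;> norm_num
  exact (mul_eq_zero.mp h2).resolve_left hc0

theorem E5 (c : ℚ) (hc : c = 1 ∨ c = -1 ∨ c = -5) (x y : ℚ)
    (h : c * y ^ 2 = x * (x ^ 2 + 5 * x - 25)) : x = 0 := by
  have h1 : (c ^ 2 * y) ^ 2 = (c * x) * ((c * x) ^ 2 + (5 * c) * (c * x) - 25 * c ^ 2) := by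
    have h2 : (c ^ 2 * y) ^ 2 = c ^ 3 * (c * y ^ 2) := by ring
    rw [h2, h]
    ring
  have h2 : c * x = 0 := by
    rcases hc with rfl | rfl | rfl
    · exact P5 5 (Or.inl rfl) _ _ (by rw [h1]; push_cast; ring)
    · exact P5 (-5) (Or.inr rfl) _ _ (by rw [h1]; push_cast; ring)
    · exact P25 _ _ (by rw [h1]; push_cast; ring)
  have hc0 : c ≠ 0 := by rcases hc with rfl | rfl | rfl <;> norm_num
  exact (mul_eq_zero.mp h2).resolve_left hc0

end SD87
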