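import Mathlib

/-!
# Representation by binary quadratic forms of small discriminant
-/

set_option autoImplicit false

namespace SD87

/-- Reduction of the middle coefficient. -/
private theorem mid (A B : ℤ) (hA : A ≠ 0) : ∃ k : ℤ, (B + 2 * A * k) ^ 2 ≤ A ^ 2 := by
  have h0 : 0 < |A| := abs_pos.mpr hA
  obtain ⟨k, hk⟩ : ∃ k : ℤ, |B + 2 * |A| * k| ≤ |A| := by
    refine ⟨-((B + |A|) / (2 * |A|)), ?_⟩
    have h1 := Int.emod_add_mul_ediv (B + |A|) (2 * |A|)
    have h2 := Int.emod_nonneg (B + |A|) (show (2 * |A|) ≠ 0 by positivity)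
    have h3 := Int.emod_lt_of_pos (B + |A|) (show 0 < 2 * |A| by positivity)
    rw [abs_le]
    constructor <;> linarith
  rcases abs_choice A with h | h
  · refine ⟨k, sq_le_sq.mpr ?_⟩
    rwa [h] at hk ⊢
  · refine ⟨-k, sq_le_sq.mpr ?_⟩
    have e : B + 2 * A * -k = B + 2 * |A| * k := by rw [h]; ring
    rw [e]
    exact hk

/-- The value of a form after a translation and an exchange of the variables. -/
private theorem back (A B C k X Y : ℤ) :
    A * (Y + k * -X) ^ 2 + B * (Y + k * -X) * -X + C * (-X) ^ 2 =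
      (A * k ^ 2 + B * k + C) * X ^ 2 + -(B + 2 * A * k) * X * Y + A * Y ^ 2 := by ring

private theorem rep5_aux (n : ℕ) : ∀ A B C : ℤ, A.natAbs ≤ n → B ^ 2 - 4 * A * C = 5 →
    ∃ X Y : ℤ, A * X ^ 2 + B * X * Y + C * Y ^ 2 = 1 ∨
      A * X ^ 2 + B * X * Y + C * Y ^ 2 = -1 := by
  induction n with
  | zero =>
    intro A B C hn h
    have hA : A = 0 := Int.natAbs_eq_zero.mp (Nat.le_zero.mp hn)
    subst hA
    exfalso
    have h1 : B ^ 2 = 5 := by linarith
    have h2 : -3 < B := by nlinarith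
    have h3 : B < 3 := by nlinarith
    interval_cases B <;> omega
  | succ n ih =>
    intro A B C hn h
    have hA : A ≠ 0 := by
      rintro rfl
      have h1 : B ^ 2 = 5 := by linarith
      have h2 : -3 < B := by nlinarith
      have h3 : B < 3 := by nlinarith
      interval_cases B <;> omega
    by_cases h1 : A ^ 2 ≤ 1
    · refine ⟨1, 0, ?_⟩
      have h2 : -1 ≤ A := by nlinarith
      have h3 : A ≤ 1 := by nlinarith
      have h4 : A = -1 ∨ A = 1 := by omega
      rcases h4 with rfl | rfl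
      · right; ring
      · left; ring
    · obtain ⟨k, hk⟩ := mid A B hA
      obtain ⟨B', hB'⟩ : ∃ B', B' = B + 2 * A * k := ⟨_, rfl⟩
      obtain ⟨C', hC'⟩ : ∃ C', C' = A * k ^ 2 + B * k + C := ⟨_, rfl⟩
      have h2 : B' ^ 2 - 4 * A * C' = 5 := by
        rw [hB', hC']
        linear_combination h
      have hA4 : 4 ≤ A ^ 2 := by
        by_contra h3
        have h4 : -2 < A := by nlinarith
        have h5 : A < 2 := by nlinarith
        have h6 : A = -1 ∨ A = 1 := by omega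
        rcases h6 with rfl | rfl <;> norm_num at h1
      have hlt : C' ^ 2 < A ^ 2 := by
        by_contra h3
        rw [not_lt] at h3
        have h4 : 16 * A ^ 2 * C' ^ 2 = (B' ^ 2 - 5) ^ 2 := by
          have : 4 * A * C' = B' ^ 2 - 5 := by linarith
          rw [← this]
          ring
        have hb : B' ^ 2 ≤ A ^ 2 := by rw [hB']; exact hk
        have hb0 : 0 ≤ B' ^ 2 := sq_nonneg _
        have h5 : (B' ^ 2 - 5) ^ 2 ≤ (A ^ 2) ^ 2 + 25 := by nlinarith
        have h6 : 16 * A ^ 2 * A ^ 2 ≤ 16 * A ^ 2 * C' ^ 2 :=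
          mul_le_mul_of_nonneg_left h3 (by positivity)
        nlinarith
      have hn' : C'.natAbs ≤ n := by
        have h3 : C'.natAbs < A.natAbs := by
          have h4 := sq_lt_sq.mp hlt
          have h5 : (C'.natAbs : ℤ) < (A.natAbs : ℤ) := by
            rw [Int.natCast_natAbs, Int.natCast_natAbs]
            exact h4
          exact_mod_cast h5
        omega
      obtain ⟨X, Y, hXY⟩ := ih C' (-B') A hn' (by linear_combination h2)
      refine ⟨Y + k * -X, -X, ?_⟩
      rw [back, ← hB', ← hC']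
      exact hXY

/-- Every form of discriminant `5` represents `1` or `-1`. -/
theorem rep5 (A B C : ℤ) (h : B ^ 2 - 4 * A * C = 5) :
    ∃ X Y : ℤ, A * X ^ 2 + B * X * Y + C * Y ^ 2 = 1 ∨ A * X ^ 2 + B * X * Y + C * Y ^ 2 = -1 :=
  rep5_aux A.natAbs A B C le_rfl h

private theorem rep15_aux (n : ℕ) : ∀ A B C : ℤ, 0 < A → A ≤ n → B ^ 2 - 4 * A * C = -15 →
    ∃ X Y : ℤ, A * X ^ 2 + B * X * Y + C * Y ^ 2 = 1 ∨
      A * X ^ 2 + B * X * Y + C * Y ^ 2 = 2 := by
  induction n with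
  | zero =>
    intro A B C hA hn h
    exfalso
    push_cast at hn
    omega
  | succ n ih =>
    intro A B C hA hn h
    by_cases h1 : A ≤ 2
    · refine ⟨1, 0, ?_⟩
      have h4 : A = 1 ∨ A = 2 := by omega
      rcases h4 with rfl | rfl
      · left; ring
      · right; ring
    · rw [not_le] at h1
      obtain ⟨k, hk⟩ := mid A B hA.ne'
      obtain ⟨B', hB'⟩ : ∃ B', B' = B + 2 * A * k := ⟨_, rfl⟩
      obtain ⟨C', hC'⟩ : ∃ C', C' = A * k ^ 2 + B * k + C := ⟨_, rfl⟩
      have h2 : B' ^ 2 - 4 * A * C' = -15 := by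
        rw [hB', hC']
        linear_combination h
      have hb : B' ^ 2 ≤ A ^ 2 := by rw [hB']; exact hk
      have hC0 : 0 < C' := by
        by_contra h3
        rw [not_lt] at h3
        have h4 : A * C' ≤ 0 := mul_nonpos_of_nonneg_of_nonpos hA.le h3
        have h5 := sq_nonneg B'
        linarith
      have hlt : C' < A := by
        by_contra h3
        rw [not_lt] at h3
        have h4 : A * A ≤ A * C' := mul_le_mul_of_nonneg_left h3 hA.le
        nlinarith
      obtain ⟨X, Y, hXY⟩ := ih C' (-B') A hC0 (by push_cast at hn; omega)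
        (by linear_combination h2)
      refine ⟨Y + k * -X, -X, ?_⟩
      rw [back, ← hB', ← hC']
      exact hXY

/-- Every positive form of discriminant `-15` represents `1` or `2`. -/
theorem rep15 (A B C : ℤ) (hA : 0 < A) (h : B ^ 2 - 4 * A * C = -15) :
    ∃ X Y : ℤ, A * X ^ 2 + B * X * Y + C * Y ^ 2 = 1 ∨ A * X ^ 2 + B * X * Y + C * Y ^ 2 = 2 :=
  rep15_aux A.toNat A B C hA (Int.self_le_toNat A) h

private theorem rep3_aux (n : ℕ) : ∀ A B C : ℤ, 0 < A → A ≤ n → B ^ 2 - 4 * A * C = -3 →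
    ∃ X Y : ℤ, A * X ^ 2 + B * X * Y + C * Y ^ 2 = 1 := by
  induction n with
  | zero =>
    intro A B C hA hn h
    exfalso
    push_cast at hn
    omega
  | succ n ih =>
    intro A B C hA hn h
    by_cases h1 : A ≤ 1
    · refine ⟨1, 0, ?_⟩
      have h4 : A = 1 := by omega
      rw [h4]
      ring
    · rw [not_le] at h1
      obtain ⟨k, hk⟩ := mid A B hA.ne'
      obtain ⟨B', hB'⟩ : ∃ B', B' = B + 2 * A * k := ⟨_, rfl⟩
      obtain ⟨C', hC'⟩ : ∃ C', C' = A * k ^ 2 + B * k + C := ⟨_, rfl⟩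
      have h2 : B' ^ 2 - 4 * A * C' = -3 := by
        rw [hB', hC']
        linear_combination h
      have hb : B' ^ 2 ≤ A ^ 2 := by rw [hB']; exact hk
      have hC0 : 0 < C' := by
        by_contra h3
        rw [not_lt] at h3
        have h4 : A * C' ≤ 0 := mul_nonpos_of_nonneg_of_nonpos hA.le h3
        have h5 := sq_nonneg B'
        linarith
      have hlt : C' < A := by
        by_contra h3
        rw [not_lt] at h3
        have h4 : A * A ≤ A * C' := mul_le_mul_of_nonneg_left h3 hA.le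
        nlinarith
      obtain ⟨X, Y, hXY⟩ := ih C' (-B') A hC0 (by push_cast at hn; omega)
        (by linear_combination h2)
      refine ⟨Y + k * -X, -X, ?_⟩
      rw [back, ← hB', ← hC']
      exact hXY

/-- Every positive form of discriminant `-3` represents `1`. -/
theorem rep3 (A B C : ℤ) (hA : 0 < A) (h : B ^ 2 - 4 * A * C = -3) :
    ∃ X Y : ℤ, A * X ^ 2 + B * X * Y + C * Y ^ 2 = 1 :=
  rep3_aux A.toNat A B C hA (Int.self_le_toNat A) h

/-- Rational roots of monic integral quadratic polynomials are integers. -/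
private theorem int_root (b c : ℤ) (Y : ℚ) (h : Y ^ 2 + b * Y = c) : ∃ M : ℤ, Y = M := by
  obtain ⟨u, hu⟩ : ∃ u : ℤ, u = Y.num := ⟨_, rfl⟩
  obtain ⟨w, hw⟩ : ∃ w : ℤ, w = (Y.den : ℤ) := ⟨_, rfl⟩
  have hw0 : 0 < w := by rw [hw]; exact_mod_cast Y.den_pos
  have hwr : (w : ℚ) ≠ 0 := by exact_mod_cast hw0.ne'
  have hYe : Y = (u : ℚ) / w := by rw [hu, hw]; exact_mod_cast (Rat.num_div_den Y).symm
  have huw : IsCoprime u w := by
    rw [hu, hw]
    exact Int.isCoprime_iff_gcd_eq_one.mpr Y.reduced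
  have key : u ^ 2 + b * u * w = c * w ^ 2 := by
    have h1 := h
    rw [hYe] at h1
    field_simp at h1
    have h2 : ((u ^ 2 + b * u * w : ℤ) : ℚ) = ((c * w ^ 2 : ℤ) : ℚ) := by
      push_cast
      linear_combination h1
    exact_mod_cast h2
  have h1 : w ∣ u ^ 2 := ⟨c * w - b * u, by linear_combination key⟩
  have h2 : w ∣ 1 := (IsCoprime.pow_left huw).symm.dvd_of_dvd_mul_right (by rwa [one_mul])
  have h3 : w = 1 := Int.eq_one_of_dvd_one hw0.le h2
  refine ⟨u, ?_⟩
  rw [hYe, h3]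
  simp

/-- The shape of the rational points of an integral Weierstrass equation. -/
theorem den (a₁ a₂ a₃ a₄ a₆ : ℤ) (x y : ℚ)
    (h : y ^ 2 + a₁ * x * y + a₃ * y = x ^ 3 + a₂ * x ^ 2 + a₄ * x + a₆) :
    ∃ r s e : ℤ, 0 < e ∧ IsCoprime r e ∧ x = r / e ^ 2 ∧ y = s / e ^ 3 := by
  obtain ⟨p, hp⟩ : ∃ p : ℤ, p = x.num := ⟨_, rfl⟩
  obtain ⟨q, hq⟩ : ∃ q : ℤ, q = (x.den : ℤ) := ⟨_, rfl⟩
  have hq0 : 0 < q := by rw [hq]; exact_mod_cast x.den_pos
  have hqr : (q : ℚ) ≠ 0 := by exact_mod_cast hq0.ne'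
  have hxe : x = (p : ℚ) / q := by rw [hp, hq]; exact_mod_cast (Rat.num_div_den x).symm
  have hpq : IsCoprime p q := by
    rw [hp, hq]
    exact Int.isCoprime_iff_gcd_eq_one.mpr x.reduced
  obtain ⟨N, hN⟩ : ∃ N : ℤ, N = p ^ 3 + q * (a₂ * p ^ 2 + a₄ * p * q + a₆ * q ^ 2) := ⟨_, rfl⟩
  obtain ⟨c, hc⟩ : ∃ c : ℤ, c = a₁ * p + a₃ * q := ⟨_, rfl⟩
  have hNq : IsCoprime N q := by
    rw [hN]
    exact (IsCoprime.pow_left hpq).add_mul_left_left _
  -- the equation for `q ^ 2 * y`
  have hY : ((q : ℚ) ^ 2 * y) ^ 2 + ((c * q : ℤ) : ℚ) * ((q : ℚ) ^ 2 * y) =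
      ((q * N : ℤ) : ℚ) := by
    have h1 := h
    rw [hxe] at h1
    field_simp at h1
    rw [hN, hc]
    push_cast
    linear_combination (q : ℚ) * h1
  obtain ⟨M, hM⟩ := int_root _ _ _ hY
  have key : M * (M + c * q) = q * N := by
    rw [hM] at hY
    have h2 : ((M * (M + c * q) : ℤ) : ℚ) = ((q * N : ℤ) : ℚ) := by
      rw [← hY]
      push_cast
      ring
    exact_mod_cast h2
  obtain ⟨e, he⟩ : ∃ e : ℤ, e = (Int.gcd M q : ℤ) := ⟨_, rfl⟩
  have he0 : 0 < e := by
    rw [he]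
    exact_mod_cast Int.gcd_pos_of_ne_zero_right M hq0.ne'
  obtain ⟨M', hM'⟩ : e ∣ M := by rw [he]; exact Int.gcd_dvd_left _ _
  obtain ⟨q', hq'⟩ : e ∣ q := by rw [he]; exact Int.gcd_dvd_right _ _
  have hcop : IsCoprime M' q' := by
    have h1 : Int.gcd M q = e.natAbs * Int.gcd M' q' := by
      rw [hM', hq', Int.gcd_mul_left]
    have h2 : (Int.gcd M q : ℤ) = e * (Int.gcd M' q' : ℤ) := by
      rw [h1]
      push_cast
      rw [abs_of_pos he0]
    rw [← he] at h2
    have h3 : e * 1 = e * (Int.gcd M' q' : ℤ) := by rw [mul_one]; exact h2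
    have h4 := mul_left_cancel₀ he0.ne' h3
    exact Int.isCoprime_iff_gcd_eq_one.mpr (by exact_mod_cast h4.symm)
  have hq'0 : 0 < q' := by
    rw [hq'] at hq0
    exact (mul_pos_iff_of_pos_left he0).mp hq0
  have key2 : e * (M' * (M' + c * q')) = q' * N := by
    have h1 : e * (e * (M' * (M' + c * q'))) = e * (q' * N) := by
      rw [hM', hq'] at key
      linear_combination key
    exact mul_left_cancel₀ he0.ne' h1
  have hd1 : q' ∣ e := by
    have h1 : IsCoprime (M' * (M' + c * q')) q' := by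
      refine IsCoprime.mul_left hcop ?_
      rw [mul_comm c q']
      exact hcop.add_mul_left_left _
    exact h1.symm.dvd_of_dvd_mul_right ⟨N, key2⟩
  have hd2 : e ∣ q' := by
    have h1 : IsCoprime N e := by
      rw [hq'] at hNq
      exact hNq.of_mul_right_left
    exact h1.symm.dvd_of_dvd_mul_right ⟨_, key2.symm⟩
  have hee : q' = e := Int.dvd_antisymm hq'0.le he0.le hd1 hd2
  have hqe : q = e ^ 2 := by rw [hq', hee]; ring
  have her : (e : ℚ) ≠ 0 := by exact_mod_cast he0.ne'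
  refine ⟨p, M', e, he0, ?_, ?_, ?_⟩
  · rw [hqe] at hpq
    exact (IsCoprime.pow_right_iff (by norm_num)).mp hpq
  · rw [hxe, hqe]
    push_cast
    rfl
  · rw [hM', hqe] at hM
    push_cast at hM
    rw [eq_div_iff (pow_ne_zero 3 her)]
    have h1 : (e : ℚ) * (y * (e : ℚ) ^ 3) = (e : ℚ) * M' := by
      linear_combination hM
    exact mul_left_cancel₀ her h1

end SD87
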