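import Pool.Agent.Lib.MP_87c685_nt_SD.Points
import Pool.Agent.Lib.MP_87c685_nt_SD.Quad

/-!
# Square discriminant

Let `K` be an imaginary quadratic field and `c (j - 1728)` a square in `K`, where `c` is a rational
number such that the curves `c y ^ 2 = x (x ^ 2 + 22 x + 125)` and `c y ^ 2 = x (x ^ 2 + 5 x - 25)`
have no rational points with `x ≠ 0`. If `j` is the invariant of a curve with small image at `5`,
then `j` is rational, or the curve has an isogeny of degree five to its conjugate.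
-/

set_option autoImplicit false

namespace SD87

variable {K : Type*} [Field K] [CharZero K] [Algebra ℚ K] (Q : QF ℚ K)


omit [CharZero K] in
/-- A rational coordinate gives a rational invariant. -/
theorem rat_div {j a b : K} (ha : ∃ q : ℚ, a = algebraMap ℚ K q) (hb : ∃ q : ℚ, b = algebraMap ℚ K q) (h0 : a ≠ 0)
    (h : j * a = b) : ∃ q : ℚ, j = algebraMap ℚ K q := by
  obtain ⟨p, rfl⟩ := ha
  obtain ⟨q, rfl⟩ := hb
  exact ⟨q / p, by rw [map_div₀, eq_div_iff h0]; exact h⟩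

/-- The Borel case. -/
theorem sq_b5 (c : ℚ) (hc0 : c ≠ 0)
    (H : ∀ x y : ℚ, c * y ^ 2 = x * (x ^ 2 + 22 * x + 125) → x = 0) {j w t : K} (hw : algebraMap ℚ K c * w ^ 2 = j - 1728) (ht : t ≠ 0)
    (hj : j * t = (t ^ 2 + 10 * t + 5) ^ 3) :
    (∃ q : ℚ, j = algebraMap ℚ K q) ∨ t * Q.sig t = 125 := by
  have hcK : algebraMap ℚ K c ≠ 0 := by rw [Ne, map_eq_zero]; exact hc0
  have h1728 : (j - 1728) * t = (t ^ 2 + 22 * t + 125) * (t ^ 2 + 4 * t - 1) ^ 2 := by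
    linear_combination hj
  by_cases h0 : t ^ 2 + 4 * t - 1 = 0
  · left
    rw [h0] at h1728
    have h1 : j - 1728 = 0 := by
      have h2 : (j - 1728) * t = 0 := by rw [h1728]; ring
      exact (mul_eq_zero.mp h2).resolve_right ht
    exact ⟨1728, by rw [map_ofNat]; linear_combination h1⟩
  by_cases htq : ∃ q : ℚ, t = algebraMap ℚ K q
  · left
    obtain ⟨q, rfl⟩ := htq
    exact rat_div ⟨q, rfl⟩ ⟨(q ^ 2 + 10 * q + 5) ^ 3, by
      simp only [map_pow, map_add, map_mul, map_ofNat]⟩ ht hj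
  push Not at htq
  right
  obtain ⟨γ, hγ⟩ : ∃ γ : K, γ = algebraMap ℚ K (1 / c) := ⟨_, rfl⟩
  have hcγ : algebraMap ℚ K c * γ = 1 := by rw [hγ, ← map_mul, mul_one_div_cancel hc0, map_one]
  have g1 : algebraMap ℚ K (22 / c) = 22 * γ := by rw [hγ, ← map_ofNat (algebraMap ℚ K) 22, ← map_mul]; congr 1; ring
  have g2 : algebraMap ℚ K (125 / c) = 125 * γ := by rw [hγ, ← map_ofNat (algebraMap ℚ K) 125, ← map_mul]; congr 1; ring
  have hy : (w * t / (t ^ 2 + 4 * t - 1)) ^ 2 = algebraMap ℚ K (1 / c) * t ^ 3 + algebraMap ℚ K (22 / c) * t ^ 2 +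
      algebraMap ℚ K (125 / c) * t + algebraMap ℚ K 0 := by
    rw [map_zero, g1, g2, ← hγ, div_pow, div_eq_iff (pow_ne_zero 2 h0)]
    linear_combination -(w * t) ^ 2 * hcγ + γ * t ^ 2 * hw + γ * t * h1728
  obtain ⟨μ, ν, X, T, N, -, h1, -, h3, -, h5, h6, h7⟩ :=
    Q.third (1 / c) (22 / c) (125 / c) 0 (by positivity) htq hy
  have hX : X = 0 := by
    refine H X (μ * X + ν) ?_
    rw [h1]
    field_simp
    ring
  rw [hX] at h6 h7
  have hν : ν = 0 := by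
    have h8 : ν ^ 2 = 0 := by linear_combination -h7
    exact pow_eq_zero_iff (two_ne_zero) |>.mp h8
  rw [hν] at h6
  have hN : N = 125 := by
    field_simp at h6
    linear_combination h6
  rw [h3, hN, map_ofNat]

/-- The case of the subgroup of order 16. -/
theorem sq_h16 (hn : Q.n < 0) (c : ℚ) (hc0 : c ≠ 0)
    (H : ∀ x y : ℚ, c * y ^ 2 = x * (x ^ 2 + 5 * x - 25) → x = 0) {j w t z : K}
    (hw : algebraMap ℚ K c * w ^ 2 = j - 1728) (hD : t ^ 2 + 5 * t + 5 ≠ 0) (hz : z ^ 2 = 5 * (t ^ 2 - 20))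
    (hj : j * (t ^ 2 + 5 * t + 5) ^ 5 = ((t + 5) * (t ^ 2 - 5) * (t ^ 2 + 5 * t + 10)) ^ 3) :
    ∃ q : ℚ, j = algebraMap ℚ K q := by
  have hcK : algebraMap ℚ K c ≠ 0 := by rw [Ne, map_eq_zero]; exact hc0
  obtain ⟨P, hP⟩ : ∃ P : K, P = t ^ 6 + 14 * t ^ 5 + 79 * t ^ 4 + 240 * t ^ 3 + 515 * t ^ 2 +
    850 * t + 725 := ⟨_, rfl⟩
  have h1728 : (j - 1728) * (t ^ 2 + 5 * t + 5) ^ 5 = (t + 2) * (t ^ 2 - 20) * P ^ 2 := by
    rw [hP]
    linear_combination hj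
  have hrat : j - 1728 = 0 → ∃ q : ℚ, j = algebraMap ℚ K q := fun h =>
    ⟨1728, by rw [map_ofNat]; linear_combination h⟩
  have hD5 : (t ^ 2 + 5 * t + 5) ^ 5 ≠ 0 := pow_ne_zero 5 hD
  by_cases hP0 : P = 0
  · refine hrat ?_
    rw [hP0] at h1728
    exact (mul_eq_zero.mp (by rw [h1728]; ring)).resolve_right hD5
  by_cases hz0 : z = 0
  · refine hrat ?_
    have h1 : t ^ 2 - 20 = 0 := by
      rw [hz0] at hz
      linear_combination -(1 / 5 : K) * hz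
    rw [h1] at h1728
    exact (mul_eq_zero.mp (by rw [h1728]; ring)).resolve_right hD5
  by_cases htq : ∃ q : ℚ, t = algebraMap ℚ K q
  · obtain ⟨q, rfl⟩ := htq
    exact rat_div ⟨(q ^ 2 + 5 * q + 5) ^ 5, by
      simp only [map_pow, map_add, map_mul, map_ofNat]⟩
      ⟨((q + 5) * (q ^ 2 - 5) * (q ^ 2 + 5 * q + 10)) ^ 3, by
        simp only [map_pow, map_add, map_sub, map_mul, map_ofNat]⟩ hD5 hj
  exfalso
  push Not at htq
  have hx : ∀ q : ℚ, 5 * (t + 2) ≠ algebraMap ℚ K q := by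
    intro q hq
    refine htq (q / 5 - 2) ?_
    rw [map_sub, map_div₀, map_ofNat, map_ofNat]
    linear_combination (1 / 5 : K) * hq
  obtain ⟨γ, hγ⟩ : ∃ γ : K, γ = algebraMap ℚ K (1 / c) := ⟨_, rfl⟩
  have hcγ : algebraMap ℚ K c * γ = 1 := by rw [hγ, ← map_mul, mul_one_div_cancel hc0, map_one]
  have g1 : algebraMap ℚ K (5 / c) = 5 * γ := by rw [hγ, ← map_ofNat (algebraMap ℚ K) 5, ← map_mul]; congr 1; ring
  have g2 : algebraMap ℚ K (-25 / c) = -25 * γ := by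
    rw [hγ, ← map_ofNat (algebraMap ℚ K) 25, ← map_neg, ← map_mul]; congr 1; ring
  have hzP : z * P ≠ 0 := mul_ne_zero hz0 hP0
  have hy : (25 * w * (t ^ 2 + 5 * t + 5) ^ 3 / (z * P)) ^ 2 = algebraMap ℚ K (1 / c) * (5 * (t + 2)) ^ 3 +
      algebraMap ℚ K (5 / c) * (5 * (t + 2)) ^ 2 + algebraMap ℚ K (-25 / c) * (5 * (t + 2)) + algebraMap ℚ K 0 := by
    rw [map_zero, g1, g2, ← hγ, div_pow, div_eq_iff (pow_ne_zero 2 hzP)]
    linear_combination -625 * w ^ 2 * (t ^ 2 + 5 * t + 5) ^ 6 * hcγ +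
      625 * γ * (t ^ 2 + 5 * t + 5) ^ 6 * hw + 625 * γ * (t ^ 2 + 5 * t + 5) * h1728 -
      125 * γ * (t + 2) * (t ^ 2 + 5 * t + 5) * P ^ 2 * hz
  obtain ⟨μ, ν, X, T, N, -, h1, -, h3, -, h5, h6, h7⟩ :=
    Q.third (1 / c) (5 / c) (-25 / c) 0 (one_div_ne_zero hc0) hx hy
  have hX : X = 0 := by
    refine H X (μ * X + ν) ?_
    rw [h1]
    field_simp
    ring
  rw [hX] at h6 h7
  have hν : ν = 0 := by
    have h8 : ν ^ 2 = 0 := by linear_combination -h7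
    exact pow_eq_zero_iff (two_ne_zero) |>.mp h8
  rw [hν] at h6
  have hN : N = -25 := by
    field_simp at h6
    linear_combination h6
  have hpos := Q.norm_pos hn (x := 5 * (t + 2)) (fun h => hx 0 (by rw [h, map_zero])) h3
  rw [hN] at hpos
  norm_num at hpos

include Q in
/-- The cases inside the normaliser of a nonsplit Cartan subgroup, `e = 1` or `e = 5`. -/
theorem sq_ns (c e : ℚ) (hc0 : c ≠ 0)
    (H : ∀ x y : ℚ, c * y ^ 2 = x * (x ^ 2 + 5 * x - 25) → x = 0) (he : 0 < e) {j w l a : K}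
    (hw : algebraMap ℚ K c * w ^ 2 = j - 1728) (hp : l ^ 2 - 5 ≠ 0)
    (ha : a ^ 2 = -algebraMap ℚ K e * (2 * l ^ 2 - 10 * l + 15))
    (hj : j * (l ^ 2 - 5) ^ 5 = 8000 * (l + 1) * (l * (l ^ 2 - 5 * l + 10)) ^ 3) :
    ∃ q : ℚ, j = algebraMap ℚ K q := by
  have hcK : algebraMap ℚ K c ≠ 0 := by rw [Ne, map_eq_zero]; exact hc0
  have heK : algebraMap ℚ K e ≠ 0 := by rw [Ne, map_eq_zero]; exact he.ne'
  obtain ⟨P, hP⟩ : ∃ P : K, P = 7 * l ^ 4 - 45 * l ^ 3 + 30 * l ^ 2 - 25 * l - 75 := ⟨_, rfl⟩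
  have h1728 : (j - 1728) * (l ^ 2 - 5) ^ 5 = 64 * (2 * l ^ 2 - 10 * l + 15) * P ^ 2 := by
    rw [hP]
    linear_combination hj
  have hrat : j - 1728 = 0 → ∃ q : ℚ, j = algebraMap ℚ K q := fun h =>
    ⟨1728, by rw [map_ofNat]; linear_combination h⟩
  have hp5 : (l ^ 2 - 5) ^ 5 ≠ 0 := pow_ne_zero 5 hp
  by_cases hw0 : w = 0
  · refine hrat ?_
    rw [← hw, hw0]
    ring
  by_cases hlq : ∃ q : ℚ, l = algebraMap ℚ K q
  · obtain ⟨q, rfl⟩ := hlq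
    exact rat_div ⟨(q ^ 2 - 5) ^ 5, by simp only [map_pow, map_sub, map_ofNat]⟩
      ⟨8000 * (q + 1) * (q * (q ^ 2 - 5 * q + 10)) ^ 3, by
        simp only [map_pow, map_add, map_sub, map_mul, map_ofNat, map_one]⟩ hp5 hj
  exfalso
  push Not at hlq
  -- the second square
  obtain ⟨b, hb⟩ : ∃ b : K, b ^ 2 = -algebraMap ℚ K e * algebraMap ℚ K c * (l ^ 2 - 5) := by
    refine ⟨8 * a * P / (w * (l ^ 2 - 5) ^ 2), ?_⟩
    rw [div_pow, div_eq_iff (pow_ne_zero 2 (mul_ne_zero hw0 (pow_ne_zero 2 hp)))]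
    linear_combination 64 * P ^ 2 * ha + algebraMap ℚ K e * h1728 + algebraMap ℚ K e * (l ^ 2 - 5) ^ 5 * hw
  obtain ⟨a₁, a₀, ha'⟩ := Q.lin hlq a
  obtain ⟨b₁, b₀, hb'⟩ := Q.lin hlq b
  obtain ⟨T, N, -, -, hl2⟩ := Q.tn l
  have k1 : algebraMap ℚ K ((a₁ ^ 2 + 2 * e) * T + (2 * a₀ * a₁ - 10 * e)) * l +
      algebraMap ℚ K (-(a₁ ^ 2 + 2 * e) * N + (a₀ ^ 2 + 15 * e)) = 0 := by
    rw [ha'] at ha
    simp only [map_add, map_mul, map_sub, map_neg, map_pow, map_ofNat]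
    linear_combination ha - (algebraMap ℚ K a₁ ^ 2 + 2 * algebraMap ℚ K e) * hl2
  have k2 : algebraMap ℚ K ((b₁ ^ 2 + e * c) * T + 2 * b₀ * b₁) * l +
      algebraMap ℚ K (-(b₁ ^ 2 + e * c) * N + (b₀ ^ 2 - 5 * e * c)) = 0 := by
    rw [hb'] at hb
    simp only [map_add, map_mul, map_sub, map_neg, map_pow, map_ofNat]
    linear_combination hb - (algebraMap ℚ K b₁ ^ 2 + algebraMap ℚ K e * algebraMap ℚ K c) * hl2
  obtain ⟨k3, k4⟩ := QF.indep hlq k1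
  obtain ⟨k5, k6⟩ := QF.indep hlq k2
  have hA : 0 < a₁ ^ 2 + 2 * e := by positivity
  obtain ⟨x, hx⟩ : ∃ x : ℚ, b₁ ^ 2 + e * c = x * (a₁ ^ 2 + 2 * e) :=
    ⟨(b₁ ^ 2 + e * c) / (a₁ ^ 2 + 2 * e), by field_simp⟩
  have e1 : 2 * b₀ * b₁ = x * (2 * a₀ * a₁ - 10 * e) := by
    linear_combination k5 - x * k3 - T * hx
  have e2 : b₀ ^ 2 - 5 * e * c = x * (a₀ ^ 2 + 15 * e) := by
    linear_combination k6 - x * k4 + N * hx
  have key : 5 * e ^ 2 * (-x ^ 2 + c * x + c ^ 2) = x * (a₀ * b₁ - a₁ * b₀) ^ 2 := by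
    have e3 : b₁ ^ 2 = x * a₁ ^ 2 + e * (2 * x - c) := by linear_combination hx
    have e4 : b₀ ^ 2 = x * a₀ ^ 2 + e * (15 * x + 5 * c) := by linear_combination e2
    have e5 : b₀ * b₁ = x * (a₀ * a₁ - 5 * e) := by linear_combination e1 / 2
    have e6 : x * (a₀ * b₁ - a₁ * b₀) ^ 2 = x * a₀ ^ 2 * b₁ ^ 2 - 2 * x * a₀ * a₁ * (b₀ * b₁) +
        x * a₁ ^ 2 * b₀ ^ 2 := by ring
    have e7 : (b₀ * b₁) ^ 2 = b₀ ^ 2 * b₁ ^ 2 := by ring
    rw [e5, e4, e3] at e7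
    rw [e6, e5, e4, e3]
    linear_combination e7
  have hx0 : x = 0 := by
    have he0 := he.ne'
    have h2 := H (-5 * x / c) ((-5 * x / c) * (a₀ * b₁ - a₁ * b₀) / (e * c)) (by
      have r1 : c * ((-5 * x / c) * (a₀ * b₁ - a₁ * b₀) / (e * c)) ^ 2 =
          25 * x / (c ^ 3 * e ^ 2) * (x * (a₀ * b₁ - a₁ * b₀) ^ 2) := by
        field_simp
        ring
      have r2 : -5 * x / c * ((-5 * x / c) ^ 2 + 5 * (-5 * x / c) - 25) =
          25 * x / (c ^ 3 * e ^ 2) * (5 * e ^ 2 * (-x ^ 2 + c * x + c ^ 2)) := by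
        field_simp
        ring
      rw [r1, r2, key])
    have h3 : -5 * x = 0 := by
      have := (div_eq_zero_iff.mp h2).resolve_right hc0
      exact this
    linear_combination -(1 / 5 : ℚ) * h3
  rw [hx0] at key
  have h8 : 5 * e ^ 2 * c ^ 2 = 0 := by linear_combination key
  have h9 : 5 * e ^ 2 * c ^ 2 ≠ 0 := by positivity
  exact h9 h8

end SD87
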