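import Pool.Agent.Lib.MP_87c685_nt_SD.TenG

/-!
# Elliptic curves with a rational isogeny of degree 10 and cube invariant
-/

set_option autoImplicit false

namespace SD87

variable {K : Type*} [Field K]

/-- The invariants are related by an isogeny of degree two. -/
def Step2 (a b : K) : Prop := ∃ δ : K, δ ≠ 0 ∧ a * δ = 256 * (δ + 1) ^ 3 ∧
  b * δ ^ 2 = 16 * (δ + 16) ^ 3

/-- The invariants are related by an isogeny of degree five. -/
def Step5 (a b : K) : Prop := ∃ t : K, t ≠ 0 ∧ a * t = (t ^ 2 + 10 * t + 5) ^ 3 ∧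
  b * t ^ 5 = (t ^ 2 + 250 * t + 3125) ^ 3

/-- The model: `κ`, `x` with `κ ^ 3 x = (x + 4) (x + 5)`. -/
theorem TA {u m : K} [CharZero K] (hu : u ≠ 0) (hm : m ≠ 0)
    (hR : m * (u ^ 6 + 10 * u ^ 3 + 5) = 4 * u * (4 * m ^ 3 + 1)) :
    u ^ 6 + 4 * u ^ 3 - 1 = 0 ∨ ∃ κ x : K, κ ≠ 0 ∧ x ≠ 0 ∧ x + 4 ≠ 0 ∧ x + 5 ≠ 0 ∧
      κ ^ 3 * x = (x + 4) * (x + 5) ∧ u * κ = x + 5 ∧ 4 * m * κ = (x + 4) ^ 2 := by
  obtain ⟨α, hα⟩ : ∃ α, α = 16 * m ^ 2 - 4 * u * m - 7 * u ^ 2 - u ^ 5 := ⟨_, rfl⟩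
  obtain ⟨β, hβ⟩ : ∃ β, β = u ^ 4 + 3 * u - 4 * m := ⟨_, rfl⟩
  have hI : u ^ 2 * β ^ 2 + (2 * u + 4 * m) * α * β + α ^ 2 = 0 := by
    rw [hα, hβ]
    linear_combination (-4 * u ^ 3) * hR
  by_cases h0 : α = 0
  · left
    have h1 : β = 0 := by
      rw [h0] at hI
      have h2 : (u * β) ^ 2 = 0 := by linear_combination hI
      have h3 : u * β = 0 := by
        rwa [sq_eq_zero_iff] at h2
      exact (mul_eq_zero.mp h3).resolve_left hu
    have h4 : u ^ 2 * (u ^ 6 + 4 * u ^ 3 - 1) = 0 := by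
      rw [h0] at hα
      rw [h1] at hβ
      linear_combination (-1) * hα - (8 * m + (u ^ 4 + 3 * u - 4 * m) - u) * hβ
    exact (mul_eq_zero.mp h4).resolve_left (pow_ne_zero 2 hu)
  · right
    obtain ⟨κ, hκ⟩ : ∃ κ : K, κ * α + β = 0 := by
      refine ⟨-β / α, ?_⟩
      rw [div_mul_cancel₀ _ h0]
      ring
    have hi : u ^ 2 * κ ^ 2 - (2 * u + 4 * m) * κ + 1 = 0 := by
      have h1 : α ^ 2 * (u ^ 2 * κ ^ 2 - (2 * u + 4 * m) * κ + 1) = 0 := by
        linear_combination hI + (u ^ 2 * (κ * α - β) - (2 * u + 4 * m) * α) * hκ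
      exact (mul_eq_zero.mp h1).resolve_left (pow_ne_zero 2 h0)
    have hκ0 : κ ≠ 0 := by
      intro h
      rw [h] at hi
      have : (1 : K) = 0 := by linear_combination hi
      exact one_ne_zero this
    have h5 : 4 * m * κ = (u * κ - 1) ^ 2 := by linear_combination -hi
    have hp : u * κ ≠ 0 := mul_ne_zero hu hκ0
    have h6 : κ ^ 3 * (u * κ - 5) = (u * κ) * (u * κ - 1) := by
      have h7 : (u * κ) ^ 3 * (κ ^ 3 * (u * κ - 5)) = (u * κ) ^ 3 * ((u * κ) * (u * κ - 1)) := by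
        rw [hα, hβ] at hκ
        linear_combination κ ^ 4 * hκ -
          κ ^ 3 * (4 * m * κ + (u * κ - 1) ^ 2 - u * κ - 1) * h5
      exact mul_left_cancel₀ (pow_ne_zero 3 hp) h7
    have h8 : u * κ - 1 ≠ 0 := by
      intro h
      rw [h] at h5
      have h9 : 4 * m * κ = 0 := by rw [h5]; ring
      exact mul_ne_zero (mul_ne_zero (by norm_num) hm) hκ0 h9
    refine ⟨κ, u * κ - 5, hκ0, ?_, ?_, ?_, ?_, by ring, ?_⟩
    · intro h
      rw [h, mul_zero] at h6
      exact mul_ne_zero hp h8 h6.symm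
    · intro h
      exact h8 (by linear_combination h)
    · intro h
      exact hp (by linear_combination h)
    · linear_combination h6
    · linear_combination h5

private theorem aux5 [CharZero K] {J T t : K} (hT : T * t = 125)
    (hJ : J * T = (T ^ 2 + 10 * T + 5) ^ 3) :
    J * t ^ 5 = (t ^ 2 + 250 * t + 3125) ^ 3 := by
  have h1 : (T ^ 2 + 10 * T + 5) * t ^ 2 = 5 * (t ^ 2 + 250 * t + 3125) := by
    linear_combination (T * t + 125 + 10 * t) * hT
  have h2 : (125 : K) * (J * t ^ 5) = 125 * (t ^ 2 + 250 * t + 3125) ^ 3 := by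
    calc (125 : K) * (J * t ^ 5) = (J * T) * t ^ 6 := by rw [← hT]; ring
      _ = ((T ^ 2 + 10 * T + 5) * t ^ 2) ^ 3 := by rw [hJ]; ring
      _ = 125 * (t ^ 2 + 250 * t + 3125) ^ 3 := by rw [h1]; ring
  exact mul_left_cancel₀ (by norm_num) h2

/-- The theorem on curves with an isogeny of degree ten and cube invariant. -/
theorem Ten [CharZero K] [Algebra ℚ K] (Q : QF ℚ K) (hn : Q.n < 0) {j h t n : K} (hh : h ≠ 0)
    (h2 : j * h = (h + 16) ^ 3) (ht : t ≠ 0) (h5 : j * t = (t ^ 2 + 10 * t + 5) ^ 3)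
    (h3 : j = n ^ 3) :
    (∃ q : ℚ, j = algebraMap ℚ K q) ∨ Step5 j (Q.sig j) ∨
      ∃ j' : K, Step2 j j' ∧ Step5 j' (Q.sig j) := by
  by_cases hn0 : n = 0
  · left
    refine ⟨0, ?_⟩
    rw [h3, hn0, map_zero]
    ring
  have hj : j ≠ 0 := by
    rw [h3]
    exact pow_ne_zero _ hn0
  have hratt : ∀ {s : K}, (∃ q : ℚ, s = algebraMap ℚ K q) → s = t → ∃ q : ℚ, j = algebraMap ℚ K q := by
    rintro s ⟨q, hq⟩ hs
    rw [hs] at hq
    refine ⟨(q ^ 2 + 10 * q + 5) ^ 3 / q, ?_⟩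
    rw [map_div₀, map_pow, map_add, map_add, map_mul, map_pow, map_ofNat, map_ofNat, ← hq,
      eq_div_iff ht]
    exact h5
  obtain ⟨u, hun⟩ : ∃ u, u * n = t ^ 2 + 10 * t + 5 :=
    ⟨(t ^ 2 + 10 * t + 5) / n, div_mul_cancel₀ _ hn0⟩
  have hu3 : u ^ 3 = t := by
    have h6 : j * u ^ 3 = j * t := by
      rw [h5, ← hun, h3]
      ring
    exact mul_left_cancel₀ hj h6
  have hu : u ≠ 0 := by
    rintro rfl
    apply ht
    rw [← hu3]
    ring
  obtain ⟨m, hmn⟩ : ∃ m, 4 * m * n = h + 16 := by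
    refine ⟨(h + 16) / (4 * n), ?_⟩
    field_simp
  have hm3 : 64 * m ^ 3 = h := by
    have h6 : j * (64 * m ^ 3) = j * h := by
      rw [h2, ← hmn, h3]
      ring
    exact mul_left_cancel₀ hj h6
  have hm : m ≠ 0 := by
    rintro rfl
    apply hh
    rw [← hm3]
    ring
  have hR : m * (u ^ 6 + 10 * u ^ 3 + 5) = 4 * u * (4 * m ^ 3 + 1) := by
    have e1 : u ^ 6 + 10 * u ^ 3 + 5 = u * n := by
      rw [hun, ← hu3]
      ring
    rw [e1]
    have e2 : 4 * m * n = 64 * m ^ 3 + 16 := by rw [hmn, hm3]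
    linear_combination u / 4 * e2
  rcases TA hu hm hR with h6 | ⟨κ, x, hκ, hx, hx4, hx5, hE, huκ, hmκ⟩
  · left
    refine ⟨1728, ?_⟩
    have e1 : t ^ 2 + 4 * t - 1 = 0 := by
      rw [← hu3]
      linear_combination h6
    have e2 : j * t = 1728 * t := by
      rw [h5]
      linear_combination ((t ^ 2 + 10 * t + 5) ^ 2 + (t ^ 2 + 10 * t + 5) * (6 * t + 6) +
        (6 * t + 6) ^ 2) * e1 + 216 * (t - 1) * e1
    rw [map_ofNat]
    exact mul_right_cancel₀ ht e2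
  have ht4 : t * (x + 4) = x * (x + 5) ^ 2 := by
    have e1 : t * κ ^ 3 = (x + 5) ^ 3 := by
      rw [← hu3, ← huκ]
      ring
    have e2 : (x + 5) * (t * (x + 4)) = (x + 5) * (x * (x + 5) ^ 2) := by
      linear_combination x * e1 - t * hE
    exact mul_left_cancel₀ hx5 e2
  have hh5 : h * (x + 5) = x * (x + 4) ^ 5 := by
    have e1 : h * κ ^ 3 = (x + 4) ^ 6 := by
      have : (x + 4) ^ 6 = ((x + 4) ^ 2) ^ 3 := by ring
      rw [← hm3, this, ← hmκ]
      ring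
    have e2 : (x + 4) * (h * (x + 5)) = (x + 4) * (x * (x + 4) ^ 5) := by
      linear_combination x * e1 - h * hE
    exact mul_left_cancel₀ hx4 e2
  have hsj : Q.sig j * Q.sig t = ((Q.sig t) ^ 2 + 10 * Q.sig t + 5) ^ 3 := by
    have := congrArg Q.sig h5
    simpa only [map_mul, map_pow, map_add, map_ofNat] using this
  -- the coordinate `g`
  obtain ⟨y, hy⟩ : ∃ y, y = 2 * x - (κ ^ 3 - 9) := ⟨_, rfl⟩
  have hy2 : y ^ 2 = κ ^ 6 - 18 * κ ^ 3 + 1 := by
    rw [hy]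
    linear_combination (-4) * hE
  obtain ⟨g, hg⟩ : ∃ g, g * κ = κ ^ 2 + 1 := ⟨(κ ^ 2 + 1) / κ, div_mul_cancel₀ _ hκ⟩
  have hgG : y ^ 2 = κ ^ 3 * (g ^ 3 - 3 * g - 18) := by
    rw [hy2]
    have e1 : κ ^ 3 * (g ^ 3 - 3 * g - 18) = (g * κ) ^ 3 - 3 * (g * κ) * κ ^ 2 - 18 * κ ^ 3 := by
      ring
    rw [e1, hg]
    ring
  obtain ⟨w₁, hw₁⟩ : ∃ w₁, w₁ * κ ^ 2 = (κ + 1) * y :=
    ⟨(κ + 1) * y / κ ^ 2, div_mul_cancel₀ _ (pow_ne_zero 2 hκ)⟩
  obtain ⟨w₂, hw₂⟩ : ∃ w₂, w₂ * κ ^ 2 = (κ - 1) * y :=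
    ⟨(κ - 1) * y / κ ^ 2, div_mul_cancel₀ _ (pow_ne_zero 2 hκ)⟩
  obtain ⟨k, hk⟩ : ∃ k, k * κ = κ ^ 2 - 1 := ⟨(κ ^ 2 - 1) / κ, div_mul_cancel₀ _ hκ⟩
  have hκ4 : κ ^ 4 ≠ 0 := pow_ne_zero 4 hκ
  have hw1 : w₁ ^ 2 = (g + 2) * (g ^ 3 - 3 * g - 18) := by
    refine mul_left_cancel₀ hκ4 ?_
    calc κ ^ 4 * w₁ ^ 2 = (w₁ * κ ^ 2) ^ 2 := by ring
      _ = (κ + 1) ^ 2 * y ^ 2 := by rw [hw₁]; ring
      _ = (κ ^ 2 + 1 + 2 * κ) * (κ ^ 3 * (g ^ 3 - 3 * g - 18)) := by rw [hgG]; ring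
      _ = κ ^ 4 * ((g + 2) * (g ^ 3 - 3 * g - 18)) := by rw [← hg]; ring
  have hw2 : w₂ ^ 2 = (g - 2) * (g ^ 3 - 3 * g - 18) := by
    refine mul_left_cancel₀ hκ4 ?_
    calc κ ^ 4 * w₂ ^ 2 = (w₂ * κ ^ 2) ^ 2 := by ring
      _ = (κ - 1) ^ 2 * y ^ 2 := by rw [hw₂]; ring
      _ = (κ ^ 2 + 1 - 2 * κ) * (κ ^ 3 * (g ^ 3 - 3 * g - 18)) := by rw [hgG]; ring
      _ = κ ^ 4 * ((g - 2) * (g ^ 3 - 3 * g - 18)) := by rw [← hg]; ring
  have hkk : k ^ 2 = g ^ 2 - 4 := by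
    refine mul_left_cancel₀ (pow_ne_zero 2 hκ) ?_
    calc κ ^ 2 * k ^ 2 = (k * κ) ^ 2 := by ring
      _ = (κ ^ 2 + 1) ^ 2 - 4 * κ ^ 2 := by rw [hk]; ring
      _ = κ ^ 2 * (g ^ 2 - 4) := by rw [← hg]; ring
  obtain ⟨g₀, hg₀⟩ := TBg Q hn hw1 hw2 hkk
  have hsg : Q.sig g = g := Q.sig_of_base ⟨g₀, hg₀⟩
  have hsκ : Q.sig g * Q.sig κ = (Q.sig κ) ^ 2 + 1 := by
    have := congrArg Q.sig hg
    simpa only [map_mul, map_pow, map_add, map_one] using this
  rw [hsg] at hsκ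
  by_cases hκr : Q.sig κ = κ
  · -- `κ` rational
    by_cases hxr : Q.sig x = x
    · left
      have hur : Q.sig u = u := by
        have e1 := congrArg Q.sig huκ
        simp only [map_mul, map_add, map_ofNat] at e1
        rw [hκr, hxr, ← huκ] at e1
        exact mul_right_cancel₀ hκ e1
      refine hratt (s := u ^ 3) ?_ hu3
      obtain ⟨q, hq⟩ := Q.base_of_sig hur
      exact ⟨q ^ 3, by rw [hq, map_pow]⟩
    · right; right
      have hsE : κ ^ 3 * Q.sig x = (Q.sig x + 4) * (Q.sig x + 5) := by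
        have e1 := congrArg Q.sig hE
        simp only [map_mul, map_pow, map_add, map_ofNat] at e1
        rwa [hκr] at e1
      have hsum : x + Q.sig x = κ ^ 3 - 9 := by
        have e1 : (Q.sig x - x) * (x + Q.sig x - (κ ^ 3 - 9)) = 0 := by
          linear_combination hE - hsE
        have e2 := (mul_eq_zero.mp e1).resolve_left (sub_ne_zero.mpr hxr)
        linear_combination e2
      have hprod : x * Q.sig x = 20 := by
        linear_combination x * hsum + hE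
      have hst : Q.sig t * (Q.sig x + 4) = Q.sig x * (Q.sig x + 5) ^ 2 := by
        have e1 := congrArg Q.sig ht4
        simpa only [map_mul, map_pow, map_add, map_ofNat] using e1
      have hst2 : Q.sig t * (x ^ 2 * (x + 5)) = 125 * (x + 4) ^ 2 := by
        have e1 : (4 : K) * (Q.sig t * (x ^ 2 * (x + 5))) = 4 * (125 * (x + 4) ^ 2) := by
          calc (4 : K) * (Q.sig t * (x ^ 2 * (x + 5)))
              = Q.sig t * (20 + 4 * x) * x ^ 2 := by ring
            _ = Q.sig t * (x * Q.sig x + 4 * x) * x ^ 2 := by rw [hprod]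
            _ = (Q.sig t * (Q.sig x + 4)) * x ^ 3 := by ring
            _ = (x * Q.sig x) * (x * Q.sig x + 5 * x) ^ 2 := by rw [hst]; ring
            _ = 4 * (125 * (x + 4) ^ 2) := by rw [hprod]; ring
        exact mul_left_cancel₀ (by norm_num) e1
      obtain ⟨t', ht'⟩ : ∃ t', t' * (x + 4) ^ 2 = x ^ 2 * (x + 5) :=
        ⟨x ^ 2 * (x + 5) / (x + 4) ^ 2, div_mul_cancel₀ _ (pow_ne_zero 2 hx4)⟩
      have ht'0 : t' ≠ 0 := by
        intro h0
        rw [h0, zero_mul] at ht'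
        exact mul_ne_zero (pow_ne_zero 2 hx) hx5 ht'.symm
      have hTt : Q.sig t * t' = 125 := by
        have e1 : (x + 4) ^ 2 * (Q.sig t * t') = (x + 4) ^ 2 * 125 := by
          calc (x + 4) ^ 2 * (Q.sig t * t') = Q.sig t * (t' * (x + 4) ^ 2) := by ring
            _ = (x + 4) ^ 2 * 125 := by rw [ht', hst2]; ring
        exact mul_left_cancel₀ (pow_ne_zero 2 hx4) e1
      obtain ⟨δ, hδ⟩ : ∃ δ : K, h = 16 * δ := ⟨h / 16, by field_simp⟩
      have hδ0 : δ ≠ 0 := by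
        intro h0
        apply hh
        rw [hδ, h0, mul_zero]
      obtain ⟨j', hj'⟩ : ∃ j', j' * δ ^ 2 = 16 * (δ + 16) ^ 3 :=
        ⟨16 * (δ + 16) ^ 3 / δ ^ 2, div_mul_cancel₀ _ (pow_ne_zero 2 hδ0)⟩
      refine ⟨j', ⟨δ, hδ0, ?_, hj'⟩, ⟨t', ht'0, ?_, aux5 hTt hsj⟩⟩
      · have e1 : (16 : K) * (j * δ) = 16 * (256 * (δ + 1) ^ 3) := by
          rw [hδ] at h2
          linear_combination h2
        exact mul_left_cancel₀ (by norm_num) e1
      · rw [hδ] at hh5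
        have hA : 16 * (δ + 16) * (x + 5) = (x + 4) ^ 4 * (t' ^ 2 + 10 * t' + 5) := by
          have e1 : (x + 4) ^ 4 * (t' ^ 2 + 10 * t' + 5) =
              (t' * (x + 4) ^ 2) ^ 2 + 10 * (t' * (x + 4) ^ 2) * (x + 4) ^ 2 +
                5 * (x + 4) ^ 4 := by ring
          rw [e1, ht']
          linear_combination hh5
        have hB : (16 * δ * (x + 5)) ^ 2 = x ^ 2 * (x + 4) ^ 10 := by
          rw [hh5]
          ring
        have hC : (x + 4) ^ 12 * (j' * t') = (x + 4) ^ 12 * (t' ^ 2 + 10 * t' + 5) ^ 3 := by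
          calc (x + 4) ^ 12 * (j' * t') = j' * (x + 4) ^ 10 * (t' * (x + 4) ^ 2) := by ring
            _ = j' * (x ^ 2 * (x + 4) ^ 10) * (x + 5) := by rw [ht']; ring
            _ = (j' * δ ^ 2) * (256 * (x + 5) ^ 3) := by rw [← hB]; ring
            _ = (16 * (δ + 16) * (x + 5)) ^ 3 := by rw [hj']; ring
            _ = (x + 4) ^ 12 * (t' ^ 2 + 10 * t' + 5) ^ 3 := by rw [hA]; ring
        exact mul_left_cancel₀ (pow_ne_zero 12 hx4) hC
  · -- `κ` irrational
    have hsum : κ + Q.sig κ = g := by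
      have e1 : (Q.sig κ - κ) * (g - (κ + Q.sig κ)) = 0 := by
        linear_combination hsκ - hg
      have e2 := (mul_eq_zero.mp e1).resolve_left (sub_ne_zero.mpr hκr)
      linear_combination -e2
    have hprod : κ * Q.sig κ = 1 := by
      linear_combination κ * hsum + hg
    have hgb : g₀ ^ 2 < 4 * 1 := by
      refine Q.disc_neg hn (Q.not_base_iff.mpr hκr) (T := g₀) (N := 1) ?_ ?_
      · rw [hsum, hg₀]
      · rw [hprod, map_one]
    have hgl : -2 < g₀ := by nlinarith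
    have hgu : g₀ < 2 := by nlinarith
    have hG0 : g₀ ^ 3 - 3 * g₀ - 18 < 0 := by nlinarith [sq_nonneg (g₀ + 1), sq_nonneg (g₀ - 1)]
    have hGK : g ^ 3 - 3 * g - 18 = algebraMap ℚ K (g₀ ^ 3 - 3 * g₀ - 18) := by
      rw [hg₀]
      simp only [map_sub, map_mul, map_pow, map_ofNat]
    have hGne : g ^ 3 - 3 * g - 18 ≠ 0 := by
      rw [hGK, Ne, map_eq_zero]
      exact hG0.ne
    have hq1 : w₁ ^ 2 = algebraMap ℚ K ((g₀ + 2) * (g₀ ^ 3 - 3 * g₀ - 18)) := by
      rw [hw1, hGK, map_mul, map_add, map_ofNat, ← hg₀]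
    have hq2 : w₂ ^ 2 = algebraMap ℚ K ((g₀ - 2) * (g₀ ^ 3 - 3 * g₀ - 18)) := by
      rw [hw2, hGK, map_mul, map_sub (algebraMap ℚ K) g₀ 2, map_ofNat, ← hg₀]
    have hsk : Q.sig k = -k := by
      have e1 := congrArg Q.sig hk
      simp only [map_mul, map_pow, map_sub, map_one] at e1
      have hσ0 : Q.sig κ ≠ 0 := by
        intro h0
        rw [h0, mul_zero] at hprod
        exact zero_ne_one hprod
      have e2 : κ ^ 2 * Q.sig κ * Q.sig k = κ ^ 2 * Q.sig κ * (-k) := by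
        linear_combination κ ^ 2 * e1 + κ * Q.sig κ * hk + (κ * Q.sig κ + κ ^ 2) * hprod
      exact mul_left_cancel₀ (mul_ne_zero (pow_ne_zero 2 hκ) hσ0) e2
    have hww : w₁ * w₂ = k * (g ^ 3 - 3 * g - 18) := by
      refine mul_left_cancel₀ hκ4 ?_
      calc κ ^ 4 * (w₁ * w₂) = (w₁ * κ ^ 2) * (w₂ * κ ^ 2) := by ring
        _ = (κ ^ 2 - 1) * y ^ 2 := by rw [hw₁, hw₂]; ring
        _ = κ ^ 4 * (k * (g ^ 3 - 3 * g - 18)) := by rw [hgG, ← hk]; ring
    have hk0 : k ≠ 0 := by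
      intro h0
      rw [h0, zero_mul] at hk
      have e1 : (κ - 1) * (κ + 1) = 0 := by linear_combination -hk
      rcases mul_eq_zero.mp e1 with e2 | e2
      · exact hκr (Q.sig_of_base ⟨1, by rw [map_one]; linear_combination e2⟩)
      · exact hκr (Q.sig_of_base ⟨-1, by rw [map_neg, map_one]; linear_combination e2⟩)
    have hww0 : w₁ * w₂ ≠ 0 := by
      rw [hww]
      exact mul_ne_zero hk0 hGne
    have hsww : Q.sig w₁ * Q.sig w₂ = -(w₁ * w₂) := by
      rw [← map_mul, hww, map_mul, hsk, hGK, Q.sig_base]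
      ring
    have key : Q.sig w₁ = w₁ ∨ Q.sig w₂ = w₂ := by
      rcases Q.sig_of_sq hq1 with e1 | e1
      · exact Or.inl e1
      · rcases Q.sig_of_sq hq2 with e2 | e2
        · exact Or.inr e2
        · exfalso
          rw [e1, e2] at hsww
          have e3 : (2 : K) * (w₁ * w₂) = 0 := by linear_combination hsww
          exact mul_ne_zero two_ne_zero hww0 e3
    rcases key with e1 | e1
    · exfalso
      obtain ⟨r, hr⟩ := Q.base_of_sig e1
      have e2 : r ^ 2 = (g₀ + 2) * (g₀ ^ 3 - 3 * g₀ - 18) := by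
        apply (algebraMap ℚ K).injective
        rw [map_pow, ← hr, hq1]
      rcases TE1 g₀ r e2 with e3 | e3 | e3
      · linarith
      · linarith
      · linarith
    · obtain ⟨r, hr⟩ := Q.base_of_sig e1
      have e2 : r ^ 2 = (g₀ - 2) * (g₀ ^ 3 - 3 * g₀ - 18) := by
        apply (algebraMap ℚ K).injective
        rw [map_pow, ← hr, hq2]
      rcases TE2 g₀ r e2 with e3 | e3 | e3
      · exfalso
        linarith
      · exfalso
        linarith
      have hgz : g = 0 := by rw [hg₀, e3, map_zero]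
      have hκ2 : κ ^ 2 = -1 := by
        rw [hgz, zero_mul] at hg
        linear_combination -hg
      have hsκ2 : Q.sig κ = -κ := by
        rw [hgz] at hsum
        linear_combination hsum
      have hy3 : (y - 3 * (1 + κ)) * (y + 3 * (1 + κ)) = 0 := by
        linear_combination hy2 + (κ ^ 4 - κ ^ 2 + 1 - 18 * κ - 9) * hκ2
      have hxy : 2 * x = y - κ - 9 := by
        linear_combination -hy + κ * hκ2
      have hNt : Q.sig t * t = 125 := by
        have hNu : Q.sig u * u = 5 := by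
          rcases mul_eq_zero.mp hy3 with e4 | e4
          · have hx3 : x = κ - 3 := by
              have e5 : (2 : K) * x = 2 * (κ - 3) := by linear_combination hxy + e4
              exact mul_left_cancel₀ two_ne_zero e5
            have hu1 : u = 1 - 2 * κ := by
              have e5 : κ * u = κ * (1 - 2 * κ) := by
                rw [hx3] at huκ
                linear_combination huκ + 2 * hκ2
              exact mul_left_cancel₀ hκ e5
            rw [hu1, map_sub, map_mul, map_one, map_ofNat, hsκ2]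
            linear_combination (-4) * hκ2
          · have hx3 : x = -2 * κ - 6 := by
              have e5 : (2 : K) * x = 2 * (-2 * κ - 6) := by linear_combination hxy + e4
              exact mul_left_cancel₀ two_ne_zero e5
            have hu1 : u = κ - 2 := by
              have e5 : κ * u = κ * (κ - 2) := by
                rw [hx3] at huκ
                linear_combination huκ - hκ2
              exact mul_left_cancel₀ hκ e5
            rw [hu1, map_sub, map_ofNat, hsκ2]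
            linear_combination -hκ2
        rw [← hu3, map_pow]
        have e5 : Q.sig u ^ 3 * u ^ 3 = (Q.sig u * u) ^ 3 := by ring
        rw [e5, hNu]
        norm_num
      exact Or.inr (Or.inl ⟨t, ht, h5, aux5 hNt hsj⟩)

end SD87
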