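import Pool.Agent.Lib.MP_87c685_nt_SD.TenE
import Pool.Agent.Lib.MP_87c685_nt_SD.Quad

/-!
# Quadratic points of the two quotients
-/

set_option autoImplicit false

namespace SD87

variable {K : Type*} [Field K] [CharZero K] [Algebra ℚ K] (Q : QF ℚ K)

/-- The relations over the rationals for the first quotient. -/
private theorem TB1_rel {b c T N P M β : ℚ} (hβ : β = b ^ 2 + 2 * c + 3 + (2 * b - 2) * T)
    (h1 : (2 * b - 2) * N - β * T = 2 * b * c + 24) (h2 : β * N = c ^ 2 + 36)
    (hP : N + 2 * T + 4 = P) (hM : N - 2 * T + 4 = M) :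
    P * M = P ^ 2 + 4 * P + 20 ∨
    (5 * M - P + 20) ^ 2 - 24 * (P + 10) * (5 * M - P + 20) + 14400 = 0 ∨
    M = 5 * P - 4 := by
  rcases eq_or_ne b 1 with hb | hb
  · subst hb
    left
    have hc : β = 2 * c + 4 := by rw [hβ]; ring
    subst hc
    have hc0 : c + 2 ≠ 0 := by
      intro h0
      have : c = -2 := by linarith
      subst this
      norm_num at h2
    have hT : T = -(2 * c + 24) / (2 * (c + 2)) := by
      rw [eq_div_iff (by simpa using hc0)]
      linear_combination -h1
    have hN : N = (c ^ 2 + 36) / (2 * (c + 2)) := by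
      rw [eq_div_iff (by simpa using hc0)]
      linear_combination h2
    subst hP hM hT hN
    field_simp
    ring
  · have hb1 : b - 1 ≠ 0 := sub_ne_zero.mpr hb
    obtain ⟨ξ, hξ⟩ : ∃ ξ : ℚ, β = -(2 * b - 2) * ξ := by
      refine ⟨-β / (2 * (b - 1)), ?_⟩
      field_simp
    have hq : (ξ ^ 2 + b * ξ + c) ^ 2 = (ξ + 2) * (ξ ^ 3 - 3 * ξ - 18) := by
      linear_combination (ξ ^ 2 - T * ξ + N) * hξ - ξ ^ 2 * hβ - ξ * h1 - h2
    have hT : T = (-(2 * b - 2) * ξ - b ^ 2 - 2 * c - 3) / (2 * (b - 1)) := by
      rw [eq_div_iff (by simpa using hb1)]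
      linear_combination hξ - hβ
    have hN : N = (-(2 * b - 2) * ξ * T + 2 * b * c + 24) / (2 * (b - 1)) := by
      rw [eq_div_iff (by simpa using hb1)]
      linear_combination h1 + T * hξ
    rcases TE1 _ _ hq with h | h | h
    · subst h
      have hc : c = 2 * b - 4 := by
        have h0 : ((-2 : ℚ) ^ 2 + b * (-2) + c) ^ 2 = 0 := by rw [hq]; ring
        have h3 := pow_eq_zero_iff (two_ne_zero) |>.mp h0
        linarith
      left
      subst hc hT hN hP hM
      field_simp
      ring
    · subst h
      have hc : c = -3 * b - 9 := by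
        have h0 : ((3 : ℚ) ^ 2 + b * 3 + c) ^ 2 = 0 := by rw [hq]; norm_num
        have h3 := pow_eq_zero_iff (two_ne_zero) |>.mp h0
        linarith
      right; left
      subst hc hT hN hP hM
      field_simp
      ring
    · subst h
      have h0 : (c - (3 * b - 9) - 6) * (c - (3 * b - 9) + 6) = 0 := by
        linear_combination hq
      rcases mul_eq_zero.mp h0 with h3 | h3
      · have hc : c = 3 * b - 3 := by linarith
        right; right
        subst hc hT hN hP hM
        field_simp
        ring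
      · have hc : c = 3 * b - 15 := by linarith
        right; left
        subst hc hT hN hP hM
        field_simp
        ring

/-- The relations over the rationals for the second quotient. -/
private theorem TB2_rel {b c T N P M β : ℚ} (hβ : β = b ^ 2 + 2 * c + 3 + (2 * b + 2) * T)
    (h1 : (2 * b + 2) * N - β * T = 2 * b * c + 12) (h2 : β * N = c ^ 2 - 36)
    (hP : N + 2 * T + 4 = P) (hM : N - 2 * T + 4 = M) :
    P * M = M ^ 2 + 4 * M - 16 ∨
    5 * (M + P + 4) ^ 2 - 6 * P * (M + P + 4) - 144 = 0 ∨
    M + P = 20 := by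
  rcases eq_or_ne b (-1) with hb | hb
  · left
    have hc : β = 2 * c + 4 := by rw [hβ, hb]; ring
    have hc0 : c + 2 ≠ 0 := by
      intro h0
      have hc2 : c = -2 := by linarith
      subst hb hc hc2
      norm_num at h1
    subst hb hc
    have hT : T = (2 * c - 12) / (2 * (c + 2)) := by
      rw [eq_div_iff (by simpa using hc0)]
      linear_combination -h1
    have hN : N = (c ^ 2 - 36) / (2 * (c + 2)) := by
      rw [eq_div_iff (by simpa using hc0)]
      linear_combination h2
    subst hP hM hT hN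
    field_simp
    ring
  · have hb1 : b + 1 ≠ 0 := by
      intro h0
      exact hb (by linarith)
    obtain ⟨ξ, hξ⟩ : ∃ ξ : ℚ, β = -(2 * b + 2) * ξ := by
      refine ⟨-β / (2 * (b + 1)), ?_⟩
      field_simp
    have hq : (ξ ^ 2 + b * ξ + c) ^ 2 = (ξ - 2) * (ξ ^ 3 - 3 * ξ - 18) := by
      linear_combination (ξ ^ 2 - T * ξ + N) * hξ - ξ ^ 2 * hβ - ξ * h1 - h2
    have hT : T = (-(2 * b + 2) * ξ - b ^ 2 - 2 * c - 3) / (2 * (b + 1)) := by
      rw [eq_div_iff (by simpa using hb1)]
      linear_combination hξ - hβ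
    have hN : N = (-(2 * b + 2) * ξ * T + 2 * b * c + 12) / (2 * (b + 1)) := by
      rw [eq_div_iff (by simpa using hb1)]
      linear_combination h1 + T * hξ
    rcases TE2 _ _ hq with h | h | h
    · subst h
      have hc : c = -2 * b - 4 := by
        have h0 : ((2 : ℚ) ^ 2 + b * 2 + c) ^ 2 = 0 := by rw [hq]; ring
        have h3 := pow_eq_zero_iff (two_ne_zero) |>.mp h0
        linarith
      left
      subst hc hT hN hP hM
      field_simp
      ring
    · subst h
      have hc : c = -3 * b - 9 := by
        have h0 : ((3 : ℚ) ^ 2 + b * 3 + c) ^ 2 = 0 := by rw [hq]; norm_num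
        have h3 := pow_eq_zero_iff (two_ne_zero) |>.mp h0
        linarith
      right; left
      subst hc hT hN hP hM
      field_simp
      ring
    · subst h
      have h0 : (c - 6) * (c + 6) = 0 := by
        linear_combination hq
      rcases mul_eq_zero.mp h0 with h3 | h3
      · have hc : c = 6 := by linarith
        right; right
        subst hc hT hN hP hM
        field_simp
        ring
      · have hc : c = -6 := by linarith
        right; left
        subst hc hT hN hP hM
        field_simp
        ring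

/-- The quadratic points of the first quotient, in terms of `P = N(g + 2)` and `M = N(g - 2)`. -/
theorem TB1 {g w : K} (hg : ∀ q : ℚ, g ≠ algebraMap ℚ K q)
    (h : w ^ 2 = (g + 2) * (g ^ 3 - 3 * g - 18)) {P M : ℚ}
    (hP : (g + 2) * (Q.sig g + 2) = algebraMap ℚ K P)
    (hM : (g - 2) * (Q.sig g - 2) = algebraMap ℚ K M) :
    P * M = P ^ 2 + 4 * P + 20 ∨
    (5 * M - P + 20) ^ 2 - 24 * (P + 10) * (5 * M - P + 20) + 14400 = 0 ∨
    M = 5 * P - 4 := by
  obtain ⟨μ, ν, hw⟩ := Q.lin hg w
  obtain ⟨T, N, hT, hN, hg2⟩ := Q.tn g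
  have hP' : N + 2 * T + 4 = P := by
    apply (algebraMap ℚ K).injective
    rw [← hP]
    simp only [map_add, map_mul, map_ofNat]
    linear_combination -hN - 2 * hT
  have hM' : N - 2 * T + 4 = M := by
    apply (algebraMap ℚ K).injective
    rw [← hM]
    simp only [map_add, map_mul, map_ofNat, map_sub]
    linear_combination -hN + 2 * hT
  -- the remainder of the quartic minus the square, modulo the minimal polynomial
  have key : algebraMap ℚ K (μ ^ 2 * T + 2 * μ * ν
        - (T ^ 3 - 2 * T * N + 2 * (T ^ 2 - N) - 3 * T - 24)) * g +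
      algebraMap ℚ K (ν ^ 2 - μ ^ 2 * N
        - (-(T ^ 2 * N) + N ^ 2 - 2 * T * N + 3 * N - 36)) = 0 := by
    rw [hw] at h
    simp only [map_add, map_mul, map_sub, map_neg, map_pow, map_ofNat]
    generalize algebraMap ℚ K T = t at *
    generalize algebraMap ℚ K N = n at *
    generalize algebraMap ℚ K μ = m at *
    generalize algebraMap ℚ K ν = v at *
    linear_combination h + (-m ^ 2 + g ^ 2 + t * g + t ^ 2 - n + 2 * (g + t) - 3) * hg2
  obtain ⟨k1, k2⟩ := QF.indep hg key
  refine TB1_rel (b := μ - T) (c := ν + N) (T := T) (N := N) rfl ?_ ?_ hP' hM'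
  · linear_combination -k1
  · linear_combination -k2

/-- The quadratic points of the second quotient. -/
theorem TB2 {g w : K} (hg : ∀ q : ℚ, g ≠ algebraMap ℚ K q)
    (h : w ^ 2 = (g - 2) * (g ^ 3 - 3 * g - 18)) {P M : ℚ}
    (hP : (g + 2) * (Q.sig g + 2) = algebraMap ℚ K P)
    (hM : (g - 2) * (Q.sig g - 2) = algebraMap ℚ K M) :
    P * M = M ^ 2 + 4 * M - 16 ∨
    5 * (M + P + 4) ^ 2 - 6 * P * (M + P + 4) - 144 = 0 ∨
    M + P = 20 := by
  obtain ⟨μ, ν, hw⟩ := Q.lin hg w
  obtain ⟨T, N, hT, hN, hg2⟩ := Q.tn g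
  have hP' : N + 2 * T + 4 = P := by
    apply (algebraMap ℚ K).injective
    rw [← hP]
    simp only [map_add, map_mul, map_ofNat]
    linear_combination -hN - 2 * hT
  have hM' : N - 2 * T + 4 = M := by
    apply (algebraMap ℚ K).injective
    rw [← hM]
    simp only [map_add, map_mul, map_ofNat, map_sub]
    linear_combination -hN + 2 * hT
  -- the remainder of the quartic minus the square, modulo the minimal polynomial
  have key : algebraMap ℚ K (μ ^ 2 * T + 2 * μ * ν
        - (T ^ 3 - 2 * T * N - 2 * (T ^ 2 - N) - 3 * T - 12)) * g +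
      algebraMap ℚ K (ν ^ 2 - μ ^ 2 * N
        - (-(T ^ 2 * N) + N ^ 2 + 2 * T * N + 3 * N + 36)) = 0 := by
    rw [hw] at h
    simp only [map_add, map_mul, map_sub, map_neg, map_pow, map_ofNat]
    generalize algebraMap ℚ K T = t at *
    generalize algebraMap ℚ K N = n at *
    generalize algebraMap ℚ K μ = m at *
    generalize algebraMap ℚ K ν = v at *
    linear_combination h + (-m ^ 2 + g ^ 2 + t * g + t ^ 2 - n - 2 * (g + t) - 3) * hg2
  obtain ⟨k1, k2⟩ := QF.indep hg key
  refine TB2_rel (b := μ - T) (c := ν + N) (T := T) (N := N) rfl ?_ ?_ hP' hM'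
  · linear_combination -k1
  · linear_combination -k2

end SD87
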