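import Pool.Agent.Lib.MP_87c685_nt_SD.Points

/-!
# Rational points of the two quotients of the curve of level 30
-/

set_option autoImplicit false

namespace SD87

private theorem prime3 : Prime (3 : ℤ) := Int.prime_iff_natAbs_prime.mpr (by norm_num)

private theorem unit3 : ¬ IsUnit (3 : ℤ) := by rw [Int.isUnit_iff]; omega

/-- The obstruction at three when three does not divide the class. -/
private theorem three_obs (d a b' r s w : ℤ) (hd : (d : ZMod 3) = 2) (ha : 3 ∣ a)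
    (hb : 3 ∣ b') (hb9 : ¬ (9 ∣ b')) (hc : IsCoprime (d * r ^ 2) s)
    (h : w ^ 2 = d * r ^ 4 + a * r ^ 2 * s ^ 2 + b' * s ^ 4) : False := by
  obtain ⟨a1, rfl⟩ := ha
  obtain ⟨b1, rfl⟩ := hb
  have h1 : (w : ZMod 3) ^ 2 = 2 * (r : ZMod 3) ^ 4 := by
    have h2 := congrArg (Int.cast : ℤ → ZMod 3) h
    push_cast at h2
    rw [h2, hd]
    have h3 : (3 : ZMod 3) = 0 := by decide
    rw [h3]
    ring
  have key : ∀ w r : ZMod 3, w ^ 2 = 2 * r ^ 4 → w = 0 ∧ r = 0 := by decide +kernel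
  obtain ⟨hw, hr⟩ := key _ _ h1
  have hr3 : (3 : ℤ) ∣ r := (ZMod.intCast_zmod_eq_zero_iff_dvd r 3).mp hr
  have hw3 : (3 : ℤ) ∣ w := (ZMod.intCast_zmod_eq_zero_iff_dvd w 3).mp hw
  have hs3 : ¬ (3 : ℤ) ∣ s := by
    intro h3
    exact unit3 (hc.isUnit_of_dvd' (Dvd.dvd.mul_left (Dvd.dvd.pow hr3 (by norm_num)) _) h3)
  obtain ⟨r1, rfl⟩ := hr3
  obtain ⟨w1, rfl⟩ := hw3
  have h4 : (3 : ℤ) ∣ b1 * s ^ 4 := by
    refine ⟨w1 ^ 2 - 9 * d * r1 ^ 4 - 3 * a1 * r1 ^ 2 * s ^ 2, ?_⟩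
    have h5 : (3 : ℤ) * (b1 * s ^ 4) =
        3 * (3 * (w1 ^ 2 - 9 * d * r1 ^ 4 - 3 * a1 * r1 ^ 2 * s ^ 2)) := by
      linear_combination -h
    exact mul_left_cancel₀ (by norm_num) h5
  rcases prime3.dvd_or_dvd h4 with h5 | h5
  · obtain ⟨c, rfl⟩ := h5
    exact hb9 ⟨c, by ring⟩
  · exact hs3 (prime3.dvd_of_dvd_pow h5)

/-- The obstruction at three when three divides the class. -/
private theorem three_obs' (d a b' r s w : ℤ) (hd : 3 ∣ d) (ha : 3 ∣ a)
    (hb : (b' : ZMod 3) = 2) (hc : IsCoprime (d * r ^ 2) s)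
    (h : w ^ 2 = d * r ^ 4 + a * r ^ 2 * s ^ 2 + b' * s ^ 4) : False := by
  have hs3 : ¬ (3 : ℤ) ∣ s := not_dvd_of unit3 hd hc
  obtain ⟨a1, rfl⟩ := ha
  obtain ⟨d1, rfl⟩ := hd
  have h1 : (w : ZMod 3) ^ 2 = 2 * (s : ZMod 3) ^ 4 := by
    have h2 := congrArg (Int.cast : ℤ → ZMod 3) h
    push_cast at h2
    rw [h2, hb]
    have h3 : (3 : ZMod 3) = 0 := by decide
    rw [h3]
    ring
  have key : ∀ w r : ZMod 3, w ^ 2 = 2 * r ^ 4 → w = 0 ∧ r = 0 := by decide +kernel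
  obtain ⟨-, hs⟩ := key _ _ h1
  exact hs3 ((ZMod.intCast_zmod_eq_zero_iff_dvd s 3).mp hs)

/-- The two-adic obstruction. -/
private theorem two_obs3 (d a b' r s w : ℤ) (hd : (d : ZMod 16) = 3 ∨ (d : ZMod 16) = 11)
    (ha : (a : ZMod 16) = 6 ∨ (a : ZMod 16) = 14)
    (hb : (b' : ZMod 16) = 3 ∨ (b' : ZMod 16) = 11)
    (hdab : (d : ZMod 16) + a + b' = 12) (hc : IsCoprime (d * r ^ 2) s)
    (h : w ^ 2 = d * r ^ 4 + a * r ^ 2 * s ^ 2 + b' * s ^ 4) : False := by
  have hrs : (r : ZMod 16) * 8 = 8 ∨ (s : ZMod 16) * 8 = 8 := by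
    have h8 : ∀ t : ℤ, ¬ (2 ∣ t) → (t : ZMod 16) * 8 = 8 := by
      intro t ht
      obtain ⟨m, hm⟩ : ∃ m, t = 2 * m + 1 := ⟨t / 2, by omega⟩
      rw [hm]
      push_cast
      generalize (m : ZMod 16) = z
      revert z
      decide
    by_cases h2 : (2 : ℤ) ∣ r
    · right
      apply h8
      intro h3
      exact unit2 (hc.isUnit_of_dvd' (Dvd.dvd.mul_left (Dvd.dvd.pow h2 (by norm_num)) _) h3)
    · left
      exact h8 r h2
  have h3 : (w : ZMod 16) ^ 2 = (d : ZMod 16) * (r : ZMod 16) ^ 4 +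
      (a : ZMod 16) * (r : ZMod 16) ^ 2 * (s : ZMod 16) ^ 2 + (b' : ZMod 16) * (s : ZMod 16) ^ 4 := by
    exact_mod_cast congrArg (Int.cast : ℤ → ZMod 16) h
  generalize (w : ZMod 16) = W at *
  generalize (r : ZMod 16) = R at *
  generalize (s : ZMod 16) = S at *
  generalize (d : ZMod 16) = D at *
  generalize (a : ZMod 16) = A at *
  generalize (b' : ZMod 16) = B at *
  have k1 : ∀ R S : ZMod 16, (R * 8 = 8 ∨ S * 8 = 8) → ∀ W : ZMod 16,
      W ^ 2 ≠ 3 * R ^ 4 + 6 * R ^ 2 * S ^ 2 + 3 * S ^ 4 := by decide +kernel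
  have k2 : ∀ R S : ZMod 16, (R * 8 = 8 ∨ S * 8 = 8) → ∀ W : ZMod 16,
      W ^ 2 ≠ 3 * R ^ 4 + 14 * R ^ 2 * S ^ 2 + 11 * S ^ 4 := by decide +kernel
  have k3 : ∀ R S : ZMod 16, (R * 8 = 8 ∨ S * 8 = 8) → ∀ W : ZMod 16,
      W ^ 2 ≠ 11 * R ^ 4 + 6 * R ^ 2 * S ^ 2 + 11 * S ^ 4 := by decide +kernel
  have k4 : ∀ R S : ZMod 16, (R * 8 = 8 ∨ S * 8 = 8) → ∀ W : ZMod 16,
      W ^ 2 ≠ 11 * R ^ 4 + 14 * R ^ 2 * S ^ 2 + 3 * S ^ 4 := by decide +kernel
  rcases hd with rfl | rfl <;> rcases ha with rfl | rfl <;> rcases hb with rfl | rfl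
  · exact k1 _ _ hrs _ h3
  · exact absurd hdab (by decide)
  · exact absurd hdab (by decide)
  · exact k2 _ _ hrs _ h3
  · exact absurd hdab (by decide)
  · exact k3 _ _ hrs _ h3
  · exact k4 _ _ hrs _ h3
  · exact absurd hdab (by decide)

private theorem dvd_cases6 {d : ℤ} (h : d ∣ 6) (h0 : 0 < d) : d = 1 ∨ d = 2 ∨ d = 3 ∨ d = 6 := by
  have h1 : d ≤ 6 := Int.le_of_dvd (by norm_num) h
  interval_cases d <;> revert h <;> decide

private theorem dvd_cases15 {d : ℤ} (h : d ∣ 15) : d = 1 ∨ d = -1 ∨ d = 3 ∨ d = -3 ∨ d = 5 ∨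
    d = -5 ∨ d = 15 ∨ d = -15 := by
  have h1 : |d| ≤ 15 := Int.le_of_dvd (by norm_num) ((abs_dvd _ _).mpr h)
  rw [abs_le] at h1
  obtain ⟨h2, h3⟩ := h1
  interval_cases d <;> revert h <;> decide

private theorem cls_3_96 : Cls (-3) 96 := by
  refine cls_of (-3) 96 6 5 (by norm_num) (by norm_num) fun d b' r s w h1 h2 _ h4 h5 h6 => ?_
  have h7 := pos_of (-3) 96 d b' r s w (by norm_num) h1 h4 h6
  rcases dvd_cases6 h2 h7 with rfl | rfl | rfl | rfl
  · left; rfl
  · exfalso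
    obtain rfl : b' = 48 := by omega
    exact three_obs 2 (-3) 48 r s w (by decide) (by norm_num) (by norm_num) (by norm_num) h5 h6
  · exfalso
    obtain rfl : b' = 32 := by omega
    exact three_obs' 3 (-3) 32 r s w (by norm_num) (by norm_num) (by decide) h5 h6
  · right; exact ⟨24, by norm_num⟩

private theorem cls_39_384 : Cls (-39) 384 := by
  refine cls_of (-39) 384 6 7 (by norm_num) (by norm_num) fun d b' r s w h1 h2 _ h4 h5 h6 => ?_
  have h7 := pos_of (-39) 384 d b' r s w (by norm_num) h1 h4 h6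
  rcases dvd_cases6 h2 h7 with rfl | rfl | rfl | rfl
  · left; rfl
  · exfalso
    obtain rfl : b' = 192 := by omega
    exact three_obs 2 (-39) 192 r s w (by decide) (by norm_num) (by norm_num) (by norm_num) h5 h6
  · exfalso
    obtain rfl : b' = 128 := by omega
    exact three_obs' 3 (-39) 128 r s w (by norm_num) (by norm_num) (by decide) h5 h6
  · right; exact ⟨48, by norm_num⟩

private theorem cls_6_375 : Cls 6 (-375) := by
  refine cls_of 6 (-375) 15 3 (by norm_num) (by norm_num) fun d b' r s w h1 h2 _ h4 h5 h6 => ?_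
  rcases dvd_cases15 h2 with rfl | rfl | rfl | rfl | rfl | rfl | rfl | rfl
  · left; rfl
  · exfalso
    obtain rfl : b' = 375 := by omega
    exact three_obs (-1) 6 375 r s w (by decide) (by norm_num) (by norm_num) (by norm_num) h5 h6
  · exfalso
    obtain rfl : b' = -125 := by omega
    exact two_obs3 3 6 (-125) r s w (Or.inl (by decide)) (Or.inl (by decide)) (Or.inl (by decide))
      (by decide) h5 h6
  · exfalso
    obtain rfl : b' = 125 := by omega
    exact three_obs' (-3) 6 125 r s w (by norm_num) (by norm_num) (by decide) h5 h6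
  · exfalso
    obtain rfl : b' = -75 := by omega
    exact three_obs 5 6 (-75) r s w (by decide) (by norm_num) (by norm_num) (by norm_num) h5 h6
  · exfalso
    obtain rfl : b' = 75 := by omega
    exact two_obs3 (-5) 6 75 r s w (Or.inr (by decide)) (Or.inl (by decide)) (Or.inr (by decide))
      (by decide) h5 h6
  · exfalso
    obtain rfl : b' = -25 := by omega
    exact three_obs' 15 6 (-25) r s w (by norm_num) (by norm_num) (by decide) h5 h6
  · right; exact ⟨75, by norm_num⟩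

private theorem cls_78_15 : Cls 78 (-15) := by
  refine cls_of 78 (-15) 15 1 (by norm_num) (by norm_num) fun d b' r s w h1 h2 _ h4 h5 h6 => ?_
  rcases dvd_cases15 h2 with rfl | rfl | rfl | rfl | rfl | rfl | rfl | rfl
  · left; rfl
  · exfalso
    obtain rfl : b' = 15 := by omega
    exact three_obs (-1) 78 15 r s w (by decide) (by norm_num) (by norm_num) (by norm_num) h5 h6
  · exfalso
    obtain rfl : b' = -5 := by omega
    exact two_obs3 3 78 (-5) r s w (Or.inl (by decide)) (Or.inr (by decide)) (Or.inr (by decide))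
      (by decide) h5 h6
  · exfalso
    obtain rfl : b' = 5 := by omega
    exact three_obs' (-3) 78 5 r s w (by norm_num) (by norm_num) (by decide) h5 h6
  · exfalso
    obtain rfl : b' = -3 := by omega
    exact three_obs 5 78 (-3) r s w (by decide) (by norm_num) (by norm_num) (by norm_num) h5 h6
  · exfalso
    obtain rfl : b' = 3 := by omega
    exact two_obs3 (-5) 78 3 r s w (Or.inr (by decide)) (Or.inr (by decide)) (Or.inl (by decide))
      (by decide) h5 h6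
  · exfalso
    obtain rfl : b' = -1 := by omega
    exact three_obs' 15 78 (-1) r s w (by norm_num) (by norm_num) (by decide) h5 h6
  · right; exact ⟨15, by norm_num⟩

private theorem PE1 (x y : ℚ) (h : y ^ 2 = x * (x ^ 2 + (-3 : ℤ) * x + (96 : ℤ))) (hx : x ≠ 0) :
    x = 4 ∨ x = 24 := by
  obtain ⟨p, hp, h1⟩ := points_of (-3) 96 [(2, 1)] (by norm_num) (by norm_num) cls_3_96
    (by
      have h3 : ((-3) ^ 2 - 4 * 96 : ℤ) = -375 := by norm_num
      have h4 : (-2 * (-3) : ℤ) = 6 := by norm_num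
      rw [h3, h4]
      exact cls_6_375)
    (Or.inl (by norm_num)) (by decide +kernel)
    (by
      rintro r r₁ w₁ ⟨p, hp, h1⟩ h2 h3 h4 h5
      rw [List.mem_singleton] at hp
      subst hp
      refine ⟨_, List.mem_singleton.mpr rfl, ?_⟩
      norm_num at h1 h2 ⊢
      have h6 : r₁ ^ 4 = 16 := by
        have : r₁ ^ 4 = (r₁ ^ 2) ^ 2 := by ring
        rw [this, h1]; norm_num
      rw [h6, h1] at h2
      norm_num at h2
      rw [h6] at h5
      have h7 : (r * (2 * r₁ * w₁)) ^ 2 = (16 - 96) ^ 2 := by rw [h5]; norm_num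
      have h8 : (r * (2 * r₁ * w₁)) ^ 2 = 4 * r ^ 2 * r₁ ^ 2 * w₁ ^ 2 := by ring
      rw [h8, h1, h2] at h7
      linarith) x y h hx
  rw [List.mem_singleton] at hp
  subst hp
  rcases h1 with h1 | h1
  · left; rw [h1]; norm_num
  · right
    field_simp at h1
    norm_num at h1
    linarith

private theorem PE2 (x y : ℚ) (h : y ^ 2 = x * (x ^ 2 + (-39 : ℤ) * x + (384 : ℤ))) (hx : x ≠ 0) :
    x = 16 ∨ x = 24 := by
  obtain ⟨p, hp, h1⟩ := points_of (-39) 384 [(4, 1)] (by norm_num) (by norm_num) cls_39_384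
    (by
      have h3 : ((-39) ^ 2 - 4 * 384 : ℤ) = -15 := by norm_num
      have h4 : (-2 * (-39) : ℤ) = 78 := by norm_num
      rw [h3, h4]
      exact cls_78_15)
    (Or.inl (by norm_num)) (by decide +kernel)
    (by
      rintro r r₁ w₁ ⟨p, hp, h1⟩ h2 h3 h4 h5
      rw [List.mem_singleton] at hp
      subst hp
      refine ⟨_, List.mem_singleton.mpr rfl, ?_⟩
      norm_num at h1 h2 ⊢
      have h6 : r₁ ^ 4 = 256 := by
        have : r₁ ^ 4 = (r₁ ^ 2) ^ 2 := by ring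
        rw [this, h1]; norm_num
      rw [h6, h1] at h2
      norm_num at h2
      rw [h6] at h5
      have h7 : (r * (2 * r₁ * w₁)) ^ 2 = (256 - 384) ^ 2 := by rw [h5]; norm_num
      have h8 : (r * (2 * r₁ * w₁)) ^ 2 = 4 * r ^ 2 * r₁ ^ 2 * w₁ ^ 2 := by ring
      rw [h8, h1, h2] at h7
      linarith) x y h hx
  rw [List.mem_singleton] at hp
  subst hp
  rcases h1 with h1 | h1
  · left; rw [h1]; norm_num
  · right
    field_simp at h1
    norm_num at h1
    linarith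

theorem TE1 (g w : ℚ) (h : w ^ 2 = (g + 2) * (g ^ 3 - 3 * g - 18)) : g = -2 ∨ g = 3 ∨ g = -3 := by
  by_cases hg : g - 3 = 0
  · right; left; linarith
  by_cases hg2 : g + 2 = 0
  · left; linarith
  have h1 : (120 * w / (g - 3) ^ 2) ^ 2 = (24 * (g + 2) / (g - 3)) *
      ((24 * (g + 2) / (g - 3)) ^ 2 + (-3 : ℤ) * (24 * (g + 2) / (g - 3)) + (96 : ℤ)) := by
    have h2 : (120 * w / (g - 3) ^ 2) ^ 2 = 14400 * w ^ 2 / (g - 3) ^ 4 := by
      field_simp
      ring
    rw [h2, h]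
    push_cast
    field_simp
    ring
  have h3 : 24 * (g + 2) / (g - 3) ≠ 0 := div_ne_zero (mul_ne_zero (by norm_num) hg2) hg
  rcases PE1 _ _ h1 h3 with h4 | h4
  · right; right
    rw [div_eq_iff hg] at h4
    linarith
  · exfalso
    rw [div_eq_iff hg] at h4
    linarith

theorem TE2 (g w : ℚ) (h : w ^ 2 = (g - 2) * (g ^ 3 - 3 * g - 18)) : g = 2 ∨ g = 3 ∨ g = 0 := by
  by_cases hg : g - 3 = 0
  · right; left; linarith
  by_cases hg2 : g - 2 = 0
  · left; linarith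
  have h1 : (24 * w / (g - 3) ^ 2) ^ 2 = (24 * (g - 2) / (g - 3)) *
      ((24 * (g - 2) / (g - 3)) ^ 2 + (-39 : ℤ) * (24 * (g - 2) / (g - 3)) + (384 : ℤ)) := by
    have h2 : (24 * w / (g - 3) ^ 2) ^ 2 = 576 * w ^ 2 / (g - 3) ^ 4 := by
      field_simp
      ring
    rw [h2, h]
    push_cast
    field_simp
    ring
  have h3 : 24 * (g - 2) / (g - 3) ≠ 0 := div_ne_zero (mul_ne_zero (by norm_num) hg2) hg
  rcases PE2 _ _ h1 h3 with h4 | h4
  · right; right
    rw [div_eq_iff hg] at h4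
    linarith
  · exfalso
    rw [div_eq_iff hg] at h4
    linarith

end SD87
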