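import Pool.Agent.Lib.MP_87c685_nt_SD.TenB

/-!
# The coordinate `g` is rational
-/

set_option autoImplicit false

namespace SD87

private theorem sq6 (x : ℚ) (h : x ^ 2 = 6) : False := by
  have h6 : Irrational (Real.sqrt 6) := by
    have h2 : ¬ IsSquare (6 : ℕ) := by
      rintro ⟨r, hr⟩
      have h3 : r ≤ 2 := by nlinarith
      interval_cases r <;> omega
    have := irrational_sqrt_natCast_iff.mpr h2
    simpa using this
  have h7 : ((x : ℝ)) ^ 2 = 6 := by exact_mod_cast h
  refine h6 ⟨|x|, ?_⟩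
  rw [← h7, Real.sqrt_sq_eq_abs]
  push_cast
  rfl

private theorem sq5 (x : ℚ) (h : x ^ 2 = 5) : False := by
  have h6 : Irrational (Real.sqrt 5) := by
    have h2 : ¬ IsSquare (5 : ℕ) := by
      rintro ⟨r, hr⟩
      have h3 : r ≤ 2 := by nlinarith
      interval_cases r <;> omega
    have := irrational_sqrt_natCast_iff.mpr h2
    simpa using this
  have h7 : ((x : ℝ)) ^ 2 = 5 := by exact_mod_cast h
  refine h6 ⟨|x|, ?_⟩
  rw [← h7, Real.sqrt_sq_eq_abs]
  push_cast
  rfl

private theorem mod7 : ∀ a b : ZMod 7,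
    a ^ 4 + 20 * a ^ 3 * b - 132 * a ^ 2 * b ^ 2 - 16 * a * b ^ 3 - 80 * b ^ 4 = 0 →
      a = 0 ∧ b = 0 := by
  decide +kernel

private theorem noroot (M : ℚ) (h : M ^ 4 + 20 * M ^ 3 - 132 * M ^ 2 - 16 * M - 80 = 0) :
    False := by
  have hb : (M.den : ℚ) ≠ 0 := by exact_mod_cast M.den_nz
  have hM : M * M.den = M.num := Rat.mul_den_eq_num M
  have h1 : (M.num : ℚ) ^ 4 + 20 * (M.num : ℚ) ^ 3 * M.den - 132 * (M.num : ℚ) ^ 2 * (M.den) ^ 2
      - 16 * M.num * (M.den : ℚ) ^ 3 - 80 * (M.den : ℚ) ^ 4 = 0 := by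
    rw [← hM]
    linear_combination (M.den : ℚ) ^ 4 * h
  have h2 : (M.num) ^ 4 + 20 * (M.num) ^ 3 * (M.den : ℤ) - 132 * (M.num) ^ 2 * (M.den : ℤ) ^ 2
      - 16 * M.num * (M.den : ℤ) ^ 3 - 80 * (M.den : ℤ) ^ 4 = 0 := by
    exact_mod_cast h1
  have h3 := congrArg (Int.cast : ℤ → ZMod 7) h2
  push_cast at h3
  obtain ⟨h4, h5⟩ := mod7 _ _ h3
  rw [ZMod.intCast_zmod_eq_zero_iff_dvd] at h4
  rw [ZMod.natCast_eq_zero_iff] at h5
  have h6 : 7 ∣ M.num.natAbs := by
    have := Int.natAbs_dvd_natAbs.mpr h4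
    simpa using this
  have h7 := Nat.dvd_gcd h6 h5
  rw [M.reduced.gcd_eq_one] at h7
  omega

private theorem combos {P M l t : ℚ} (hP : 0 < P) (hM : 0 < M) (hl : 0 < l) (hlPM : l ^ 2 = P * M)
    (ht : t ^ 2 = (P - M) ^ 2 / 16 - (P + M) + 2 * l)
    (hD : ((P - M) / 4) ^ 2 < 4 * ((P + M) / 2 - 4))
    (hF : P * M = P ^ 2 + 4 * P + 20 ∨
      (5 * M - P + 20) ^ 2 - 24 * (P + 10) * (5 * M - P + 20) + 14400 = 0 ∨
      M = 5 * P - 4)
    (hG : P * M = M ^ 2 + 4 * M - 16 ∨
      5 * (M + P + 4) ^ 2 - 6 * P * (M + P + 4) - 144 = 0 ∨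
      M + P = 20) : False := by
  rcases hF with h1 | h1 | h1
  · rcases hG with h2 | h2 | h2
    · have h3 : 8 * P ^ 3 + 36 * P ^ 2 + 240 * P + 400 = 0 := by
        linear_combination (-(P * M) - P ^ 2 - 4 * P - 20 - 4 * P + P ^ 2) * h1 - P ^ 2 * h2
      have : 0 < 8 * P ^ 3 + 36 * P ^ 2 + 240 * P + 400 := by positivity
      linarith
    · have h3 : 2 * (2 * P ^ 4 + 28 * P ^ 3 + 114 * P ^ 2 + 400 * P + 500) = 0 := by
        have h4 : P ^ 2 * (5 * (M + P + 4) ^ 2 - 6 * P * (M + P + 4) - 144) = 0 := by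
          rw [h2, mul_zero]
        have h5 : P * (M + P + 4) = 2 * P ^ 2 + 8 * P + 20 := by linear_combination h1
        have h6 : P ^ 2 * (5 * (M + P + 4) ^ 2 - 6 * P * (M + P + 4) - 144) =
            5 * (P * (M + P + 4)) ^ 2 - 6 * P ^ 2 * (P * (M + P + 4)) - 144 * P ^ 2 := by ring
        rw [h6, h5] at h4
        linear_combination h4 / 2
      have : 0 < 2 * (2 * P ^ 4 + 28 * P ^ 3 + 114 * P ^ 2 + 400 * P + 500) := by positivity
      linarith
    · have h3 : (P - 4) ^ 2 = 6 := by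
        have h4 : M = 20 - P := by linear_combination h2
        rw [h4] at h1
        linear_combination -h1 / 2
      exact sq6 _ h3
  · rcases hG with h2 | h2 | h2
    · have h3 : M ^ 4 + 20 * M ^ 3 - 132 * M ^ 2 - 16 * M - 80 = 0 := by
        have h4 : M ^ 2 * ((5 * M - P + 20) ^ 2 - 24 * (P + 10) * (5 * M - P + 20) + 14400) = 0 := by
          rw [h1, mul_zero]
        have h6 : M ^ 2 * ((5 * M - P + 20) ^ 2 - 24 * (P + 10) * (5 * M - P + 20) + 14400) =
            (5 * M ^ 2 - P * M + 20 * M) ^ 2 -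
              24 * (P * M + 10 * M) * (5 * M ^ 2 - P * M + 20 * M) + 14400 * M ^ 2 := by ring
        rw [h6, h2] at h4
        linear_combination -h4 / 80
      exact noroot M h3
    · have h3 : (M + P + 4) ^ 2 - 3 * (M + P + 4) + 9 = 0 := by
        have h4 : (M + P + 4) ^ 2 *
          ((5 * M - P + 20) ^ 2 - 24 * (P + 10) * (5 * M - P + 20) + 14400) = 0 := by
          rw [h1, mul_zero]
        have h5 : (M + P + 4) * (5 * M - P + 20) = 144 := by linear_combination h2
        have h6 : (M + P + 4) ^ 2 *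
          ((5 * M - P + 20) ^ 2 - 24 * (P + 10) * (5 * M - P + 20) + 14400) =
            ((M + P + 4) * (5 * M - P + 20)) ^ 2 -
              24 * (P + 10) * (M + P + 4) * ((M + P + 4) * (5 * M - P + 20)) +
              14400 * (M + P + 4) ^ 2 := by ring
        rw [h6, h5] at h4
        linear_combination h4 / 11520 - h2 / 20
      nlinarith [sq_nonneg (2 * (M + P + 4) - 3)]
    · have h4 : M = 20 - P := by linear_combination h2
      subst h4
      have h5 : P * (P - 16) = 0 := by linear_combination h1 / 180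
      have h6 : P = 16 := by
        rcases mul_eq_zero.mp h5 with h | h
        · exact absurd h hP.ne'
        · linarith
      subst h6
      have h7 : (l - 8) * (l + 8) = 0 := by linear_combination hlPM
      have h8 : l = 8 := by
        rcases mul_eq_zero.mp h7 with h | h
        · linarith
        · linarith
      subst h8
      exact sq5 t (by rw [ht]; norm_num)
  · subst h1
    rcases hG with h2 | h2 | h2
    · have h3 : ((5 * P - 2) / 2) ^ 2 = 6 := by
        linear_combination -5 * h2 / 16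
      exact sq6 _ h3
    · have h3 : (P - 1) * (P + 1) = 0 := by linear_combination h2 / 144
      have h4 : P = 1 := by
        rcases mul_eq_zero.mp h3 with h | h
        · linarith
        · linarith
      subst h4
      norm_num at hD
    · have h4 : P = 4 := by linarith
      subst h4
      have h7 : (l - 8) * (l + 8) = 0 := by linear_combination hlPM
      have h8 : l = 8 := by
        rcases mul_eq_zero.mp h7 with h | h
        · linarith
        · linarith
      subst h8
      exact sq5 t (by rw [ht]; norm_num)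

variable {K : Type*} [Field K] [CharZero K] [Algebra ℚ K] (Q : QF ℚ K)

/-- Over an imaginary quadratic field the coordinate `g` is rational. -/
theorem TBg (hn : Q.n < 0) {g w₁ w₂ k : K} (h1 : w₁ ^ 2 = (g + 2) * (g ^ 3 - 3 * g - 18))
    (h2 : w₂ ^ 2 = (g - 2) * (g ^ 3 - 3 * g - 18)) (hk : k ^ 2 = g ^ 2 - 4) :
    ∃ q : ℚ, g = algebraMap ℚ K q := by
  by_contra hcon
  push Not at hcon
  have hg : ∀ q : ℚ, g ≠ algebraMap ℚ K q := hcon
  obtain ⟨T, N, hT, hN, hTN⟩ := Q.tn g
  obtain ⟨t, l, ht, hl, -⟩ := Q.tn k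
  have hP : (g + 2) * (Q.sig g + 2) = algebraMap ℚ K (N + 2 * T + 4) := by
    simp only [map_add, map_mul, map_ofNat]
    linear_combination hN + 2 * hT
  have hM : (g - 2) * (Q.sig g - 2) = algebraMap ℚ K (N - 2 * T + 4) := by
    simp only [map_add, map_sub, map_mul, map_ofNat]
    linear_combination hN - 2 * hT
  have hg2 : g + 2 ≠ 0 := by
    intro h
    refine hg (-2) ?_
    rw [map_neg, map_ofNat]
    linear_combination h
  have hg3 : g - 2 ≠ 0 := by
    intro h
    refine hg 2 ?_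
    rw [map_ofNat]
    linear_combination h
  have hk0 : k ≠ 0 := by
    intro h
    have h3 : (g + 2) * (g - 2) = 0 := by
      rw [h] at hk
      linear_combination -hk
    rcases mul_eq_zero.mp h3 with h4 | h4
    · exact hg2 h4
    · exact hg3 h4
  have hPpos : 0 < N + 2 * T + 4 := by
    refine Q.norm_pos hn hg2 ?_
    rw [map_add, map_ofNat]
    exact hP
  have hMpos : 0 < N - 2 * T + 4 := by
    refine Q.norm_pos hn hg3 ?_
    rw [map_sub, map_ofNat]
    exact hM
  have hlpos : 0 < l := Q.norm_pos hn hk0 hl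
  have hD : T ^ 2 < 4 * N := Q.disc_neg hn hg hT hN
  have hsk : (Q.sig k) ^ 2 = (Q.sig g) ^ 2 - 4 := by
    have := congrArg Q.sig hk
    rw [map_pow, map_sub, map_pow, map_ofNat] at this
    exact this
  have hl2 : l ^ 2 = (N + 2 * T + 4) * (N - 2 * T + 4) := by
    apply (algebraMap ℚ K).injective
    rw [map_mul, map_pow, ← hP, ← hM, ← hl]
    linear_combination (Q.sig k) ^ 2 * hk + (g ^ 2 - 4) * hsk
  have ht2 : t ^ 2 = T ^ 2 - 2 * N - 8 + 2 * l := by
    apply (algebraMap ℚ K).injective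
    simp only [map_add, map_sub, map_mul, map_pow, map_ofNat]
    rw [← ht, ← hT, ← hN, ← hl]
    linear_combination hk + hsk
  refine combos (t := t) hPpos hMpos hlpos hl2 ?_ ?_ (TB1 Q hg h1 hP hM) (TB2 Q hg h2 hP hM)
  · linear_combination ht2
  · have e1 : ((N + 2 * T + 4 - (N - 2 * T + 4)) / 4) ^ 2 = T ^ 2 := by ring
    have e2 : 4 * ((N + 2 * T + 4 + (N - 2 * T + 4)) / 2 - 4) = 4 * N := by ring
    rw [e1, e2]
    exact hD

end SD87
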